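import Pool.Agent.LibFP27.Defs
import Pool.Agent.LibEnd77.ValC

/-!
[FP27 Api] Places of function fields of one variable over an algebraically closed field of characteristic `0`.
-/

open scoped Classical

namespace Pool.Agent.LibFP27

open Pool.Agent.LibBH2
open Pool.Agent.LibQC8 (IsFunctionField Div deg)

variable {k : Type} [Field k] [IsAlgClosed k] [CharZero k]
variable {K M : Type} [Field K] [Algebra k K] [Field M] [Algebra k M]

/-- constants have order zero -/
theorem ord_const' (v : Place k K) (c : k) : v.ord (algebraMap k K c) = 0 :=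
  Pool.Agent.LibEnd77.Val8.ord_const_eq v c

/-- a function with a zero or a pole is not constant -/
theorem trans_of_ord (v : Place k K) {x : K} (hx : v.ord x ≠ 0) : Transcendental k x := by
  intro h
  obtain ⟨c, rfl⟩ := Pool.Agent.LibEnd77.Val8.alg_const h
  exact hx (ord_const' v c)

/-- a non-constant function is not constant -/
theorem sub_ne (x : K) (hx : Transcendental k x) (c : k) : x - algebraMap k K c ≠ 0 := by
  intro h
  rw [sub_eq_zero] at h
  exact hx (h ▸ isAlgebraic_algebraMap c)

theorem trans_sub {x : K} (hx : Transcendental k x) (c : k) : Transcendental k (x - algebraMap k K c) := by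
  intro h
  obtain ⟨d, hd⟩ := Pool.Agent.LibEnd77.Val8.alg_const h
  refine sub_ne x hx (c + d) ?_
  rw [map_add, hd]
  ring

/-- every function field is finite over the subfield generated by a non-constant function -/
theorem finite_adj (hK : IsFunctionField k K) {x : K} (hx : Transcendental k x) :
    FiniteDimensional (IntermediateField.adjoin k {x}) K :=
  Pool.Agent.LibEnd77.Val8.finite_adjoin hK hx

private theorem trans_map (i : K →ₐ[k] M) {x : K} (hx : Transcendental k x) : Transcendental k (i x) := by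
  intro h
  exact hx ((isAlgebraic_algHom_iff i i.injective).1 h)

/-- extensions of function fields are finite -/
theorem finrank_ne (hK : IsFunctionField k K) (hM : IsFunctionField k M) (i : K →ₐ[k] M) :
    Module.finrank i.fieldRange M ≠ 0 := by
  obtain ⟨s, hs, -⟩ := hK
  haveI := finite_adj hM (trans_map i hs)
  have hle : IntermediateField.adjoin k {i s} ≤ i.fieldRange := by
    rw [IntermediateField.adjoin_simple_le_iff]
    exact ⟨s, rfl⟩
  intro h0
  have h1 := IntermediateField.relfinrank_mul_finrank_top hle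
  rw [h0, mul_zero] at h1
  exact (Module.finrank_pos (R := IntermediateField.adjoin k {i s}) (M := M)).ne h1

/-- finitely many zeros and poles -/
theorem finite_supp (hK : IsFunctionField k K) (x : K) : {v : Place k K | v.ord x ≠ 0}.Finite :=
  (Pool.Agent.LibEnd77.Val8.sum_formula hK x).1

/-- a principal divisor has degree zero -/
theorem sum_ord (hK : IsFunctionField k K) (x : K) (S : Finset (Place k K)) (hS : ∀ v, v ∉ S → v.ord x = 0) :
    ∑ v ∈ S, v.ord x = 0 := by
  obtain ⟨-, h2⟩ := Pool.Agent.LibEnd77.Val8.sum_formula hK x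
  rw [← h2]
  refine (finsum_eq_sum_of_support_subset _ ?_).symm
  intro v hv
  by_contra h
  exact hv (hS v h)

/-- the number of zeros is the degree -/
theorem sum_zeros (hK : IsFunctionField k K) {x : K} (hx : Transcendental k x) (S : Finset (Place k K))
    (hS : ∀ v, v ∈ S ↔ 0 < v.ord x) :
    ∑ v ∈ S, v.ord x = (Module.finrank (IntermediateField.adjoin k {x}) K : ℤ) := by
  haveI := finite_adj hK hx
  obtain ⟨T, hT, h⟩ := Pool.Agent.LibEnd77.Val8.sum_zeros hx
  have : S = T := by
    ext v
    rw [hS, hT]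
  rw [this, h]

theorem exists_zero (hK : IsFunctionField k K) {x : K} (hx : Transcendental k x) : ∃ v : Place k K, 0 < v.ord x :=
  Pool.Agent.LibEnd77.Val8.exists_zero hK hx

theorem exists_pole (hK : IsFunctionField k K) {x : K} (hx : Transcendental k x) : ∃ v : Place k K, v.ord x < 0 :=
  Pool.Agent.LibEnd77.Val8.exists_pole hK hx

/-- the value of a regular function at a place -/
theorem exists_val (hK : IsFunctionField k K) (v : Place k K) {x : K} (hx : 0 ≤ v.ord x) (hx1 : Transcendental k x) :
    ∃ c : k, 0 < v.ord (x - algebraMap k K c) := by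
  obtain ⟨c, hc⟩ := Pool.Agent.LibEnd77.Val8.exists_val hK v (f := x) (Or.inr hx)
  exact ⟨c, hc.resolve_left (sub_ne x hx1 c)⟩

/-- two values at a place are equal -/
theorem val_unique (v : Place k K) {x : K} {c c' : k} (h : 0 < v.ord (x - algebraMap k K c))
    (h' : 0 < v.ord (x - algebraMap k K c')) : c = c' :=
  Place.val_unique (Or.inr h) (Or.inr h')

/-- there is exactly one point below `w` -/
theorem over_exists (hK : IsFunctionField k K) (hM : IsFunctionField k M) (i : K →ₐ[k] M) (w : Place k M) :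
    ∃ v : Place k K, Over i w v := by
  have hfin := finrank_ne hK hM i
  -- some function of `K` has a non-zero order
  have h0 : ∃ φ : K, 0 < w.ord (i φ) := by
    by_contra hcon
    push Not at hcon
    haveI : Module.Finite i.fieldRange M := Module.finite_of_finrank_pos (Nat.pos_of_ne_zero hfin)
    have h1 : ∀ a : i.fieldRange, w.Reg (algebraMap i.fieldRange M a) := by
      rintro ⟨_, φ, rfl⟩
      change w.Reg (i φ)
      right
      have := hcon φ⁻¹
      rw [map_inv₀, w.ord_inv] at this
      omega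
    obtain ⟨t, ht⟩ := w.exists_uniformizer
    have ht0 : t ≠ 0 := by
      rintro rfl
      rw [w.ord_zero] at ht
      omega
    have h2 := Pool.Agent.LibEnd77.Val8.reg_of_integral (A := i.fieldRange) w h1
      (Algebra.IsIntegral.isIntegral (t⁻¹ : M))
    have h3 := h2.resolve_left (inv_ne_zero ht0)
    rw [w.ord_inv, ht] at h3
    omega
  have h1 : ∃ n : ℕ, 0 < n ∧ ∃ φ : K, w.ord (i φ) = n := by
    obtain ⟨φ, hφ⟩ := h0
    exact ⟨(w.ord (i φ)).toNat, by omega, φ, by omega⟩
  obtain ⟨he, φ, hφ⟩ := Nat.find_spec h1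
  set e := Nat.find h1 with hedef
  have hφ0 : φ ≠ 0 := by
    rintro rfl
    rw [map_zero, w.ord_zero] at hφ
    omega
  have hiφ0 : i φ ≠ 0 := (map_ne_zero i).2 hφ0
  have hdvd : ∀ x : K, (e : ℤ) ∣ w.ord (i x) := by
    intro x
    by_cases hx : x = 0
    · rw [hx, map_zero, w.ord_zero]
      exact dvd_zero _
    have hix : i x ≠ 0 := (map_ne_zero i).2 hx
    by_contra hnd
    have h2 : w.ord (i (x * φ ^ (-(w.ord (i x) / e)))) = w.ord (i x) % e := by
      rw [map_mul, map_zpow₀, w.ord_mul _ _ hix (zpow_ne_zero _ hiφ0), w.ord_zpow, hφ]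
      have := Int.mul_ediv_add_emod (w.ord (i x)) e
      linarith
    have h3 : 0 ≤ w.ord (i x) % e := Int.emod_nonneg _ (by omega)
    have h4 : w.ord (i x) % e < e := Int.emod_lt_of_pos _ (by omega)
    have h5 : w.ord (i x) % e ≠ 0 := fun h => hnd (Int.dvd_of_emod_eq_zero h)
    refine Nat.find_min h1 (m := (w.ord (i x) % e).toNat) (by omega)
      ⟨by omega, x * φ ^ (-(w.ord (i x) / e)), ?_⟩
    rw [h2]
    omega
  have he0 : (e : ℤ) ≠ 0 := by omega
  have hmul : ∀ x : K, w.ord (i x) = e * (w.ord (i x) / e) := fun x => (Int.mul_ediv_cancel' (hdvd x)).symm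
  have hinj : ∀ {a b : ℤ}, (e : ℤ) * a = e * b → a = b := fun {a b} h => mul_left_cancel₀ he0 h
  refine ⟨⟨fun x => w.ord (i x) / e, ?_, ?_, ?_, ?_, ?_⟩, e, by omega, hmul⟩
  · simp [w.ord_zero]
  · intro f g hf hg
    apply hinj
    rw [mul_add, ← hmul, ← hmul, ← hmul, map_mul, w.ord_mul _ _ ((map_ne_zero i).2 hf) ((map_ne_zero i).2 hg)]
  · intro f g hf hg hfg
    have h2 := w.ord_add (i f) (i g) ((map_ne_zero i).2 hf) ((map_ne_zero i).2 hg)
      (by rw [← map_add]; exact (map_ne_zero i).2 hfg)
    rw [← map_add, hmul f, hmul g, hmul (f + g)] at h2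
    have hep : (0 : ℤ) < e := by omega
    change min (w.ord (i f) / e) (w.ord (i g) / e) ≤ w.ord (i (f + g)) / e
    rcases min_le_iff.1 h2 with h3 | h3
    · exact (min_le_left _ _).trans (le_of_mul_le_mul_left h3 hep)
    · exact (min_le_right _ _).trans (le_of_mul_le_mul_left h3 hep)
  · intro c hc
    change w.ord (i (algebraMap k K c)) / e = 0
    rw [i.commutes, w.ord_const c hc, Int.zero_ediv]
  · refine ⟨φ, ?_⟩
    change w.ord (i φ) / e = 1
    rw [hφ]
    exact Int.ediv_self he0

theorem over_unique {i : K →ₐ[k] M} {w : Place k M} {v v' : Place k K} (h : Over i w v) (h' : Over i w v') : v = v' := by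
  obtain ⟨e, he, h⟩ := h
  obtain ⟨e', he', h'⟩ := h'
  have h1 : ∀ f, e * v.ord f = e' * v'.ord f := fun f => by rw [← h, ← h']
  obtain ⟨t, ht⟩ := v.exists_uniformizer
  obtain ⟨t', ht'⟩ := v'.exists_uniformizer
  have h2 := h1 t
  have h3 := h1 t'
  rw [ht, mul_one] at h2
  rw [ht', mul_one] at h3
  have h4 : e = e' := Int.dvd_antisymm he.le he'.le ⟨_, h3.symm⟩ ⟨_, h2⟩
  subst h4
  exact Place.ext' fun f => mul_left_cancel₀ he.ne' (h1 f)

section above

open Pool.Agent.LibEnd77.Val8

variable (i : K →ₐ[k] M) (x : K)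

private theorem mem_adj (a : Algebra.adjoin k {x}) : i a ∈ Algebra.adjoin k {i x} := by
  have h1 : (Algebra.adjoin k {x}).map i = Algebra.adjoin k {i x} := by
    rw [AlgHom.map_adjoin, Set.image_singleton]
  rw [← h1]
  exact ⟨a, a.2, rfl⟩

/-- the map of the polynomial rings -/
private noncomputable def fA : Algebra.adjoin k {x} →+* Algebra.adjoin k {i x} :=
  ((i.comp (Algebra.adjoin k {x}).val).codRestrict (Algebra.adjoin k {i x}) (mem_adj i x)).toRingHom

private theorem fA_surj : Function.Surjective (fA i x) := by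
  rintro ⟨a, ha⟩
  have h1 : (Algebra.adjoin k {x}).map i = Algebra.adjoin k {i x} := by
    rw [AlgHom.map_adjoin, Set.image_singleton]
  rw [← h1] at ha
  obtain ⟨b, hb, rfl⟩ := ha
  exact ⟨⟨b, hb⟩, rfl⟩

private theorem int_map (r : IC k x) : IsIntegral (Algebra.adjoin k {i x}) (i r) :=
  IsIntegral.map_of_comp_eq (fA i x) (i : K →+* M) (by ext a; rfl) r.2

/-- the map of the integral closures -/
private noncomputable def fB : IC k x →+* IC k (i x) :=
  ((i : K →+* M).comp (algebraMap (IC k x) K)).codRestrict (integralClosure (Algebra.adjoin k {i x}) M).toSubring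
    (int_map i x)

private theorem fB_int : (fB i x).IsIntegral := by
  have h1 : ((algebraMap (Algebra.adjoin k {i x}) (IC k (i x))).comp (fA i x)).IsIntegral := by
    apply RingHom.IsIntegral.trans
    · exact RingHom.isIntegral_of_surjective _ (fA_surj i x)
    · exact algebraMap_isIntegral_iff.2 integralClosure.AlgebraIsIntegral
  have h2 : (algebraMap (Algebra.adjoin k {i x}) (IC k (i x))).comp (fA i x) =
      (fB i x).comp (algebraMap (Algebra.adjoin k {x}) (IC k x)) := by
    ext a
    rfl
  rw [h2] at h1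
  exact RingHom.IsIntegral.tower_top _ _ h1

end above

/-- there is a point above `v` -/
theorem above_exists (hK : IsFunctionField k K) (hM : IsFunctionField k M) (i : K →ₐ[k] M) (v : Place k K) :
    ∃ w : Place k M, Over i w v := by
  obtain ⟨x, hx⟩ := v.exists_uniformizer
  have hx0 : 0 < v.ord x := by omega
  have hxt : Transcendental k x := trans_of_ord v (by omega)
  have hxt' : Transcendental k (i x) := trans_map i hxt
  haveI := finite_adj hK hxt
  haveI := finite_adj hM hxt'
  have hv : v.Reg x := Or.inr hx0.le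
  let P := Pool.Agent.LibEnd77.Val8.primeOf (φ := x) v hv
  have hP : P.IsPrime := Pool.Agent.LibEnd77.Val8.primeOf_isPrime (φ := x) v hv
  let _ : Algebra (Pool.Agent.LibEnd77.Val8.IC k x) (Pool.Agent.LibEnd77.Val8.IC k (i x)) := (fB i x).toAlgebra
  have hint : Algebra.IsIntegral (Pool.Agent.LibEnd77.Val8.IC k x) (Pool.Agent.LibEnd77.Val8.IC k (i x)) :=
    ⟨fB_int i x⟩
  have hxI : IsIntegral (Algebra.adjoin k {x}) x :=
    isIntegral_algebraMap (x := (⟨x, Algebra.self_mem_adjoin_singleton k x⟩ : Algebra.adjoin k {x}))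
  let X : Pool.Agent.LibEnd77.Val8.IC k x := ⟨x, hxI⟩
  have hinj : Function.Injective (fB i x) := by
    intro a b hab
    have h1 : i (a : K) = i (b : K) := congrArg (fun z : Pool.Agent.LibEnd77.Val8.IC k (i x) => (z : M)) hab
    exact Subtype.ext (i.injective h1)
  obtain ⟨Q, -, hQ, hQP⟩ := Ideal.exists_ideal_over_prime_of_isIntegral P (⊥ : Ideal (Pool.Agent.LibEnd77.Val8.IC k (i x)))
    (by
      intro r hr
      have h1 : fB i x r = 0 := hr
      have h2 : r = 0 := hinj (by rw [h1, map_zero])
      rw [h2]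
      exact P.zero_mem)
  have hQ0 : Q ≠ ⊥ := by
    rintro rfl
    have h1 : X ∈ P := Or.inr hx0
    rw [← hQP] at h1
    have h2 : fB i x X = 0 := h1
    have h3 : X = 0 := hinj (by rw [h2, map_zero])
    have h4 : x = 0 := congrArg (fun z : Pool.Agent.LibEnd77.Val8.IC k x => (z : K)) h3
    rw [h4, v.ord_zero] at hx
    omega
  have hP0 : P ≠ ⊥ := by
    intro h0
    have h1 : X ∈ P := Or.inr hx0
    rw [h0] at h1
    have h4 : x = 0 := congrArg (fun z : Pool.Agent.LibEnd77.Val8.IC k x => (z : K)) h1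
    rw [h4, v.ord_zero] at hx
    omega
  let w : Place k M := Pool.Agent.LibEnd77.Val8.ofHOS (Pool.Agent.LibEnd77.Val8.hos Q hQ hQ0)
  obtain ⟨v', hv'⟩ := over_exists hK hM i w
  refine ⟨w, ?_⟩
  have hz : ∀ y : K, w.Zer (i y) ↔ v'.Zer y := by
    intro y
    obtain ⟨e, he, h⟩ := hv'
    unfold Place.Zer
    rw [h, map_eq_zero, mul_pos_iff_of_pos_left he]
  have hmem : ∀ r : Pool.Agent.LibEnd77.Val8.IC k x, r ∈ P ↔ v'.Zer (algebraMap _ K r) := by
    intro r
    rw [← hz]
    have h1 := Pool.Agent.LibEnd77.Val8.ofHOS_zer (k := k) (H := M) (Pool.Agent.LibEnd77.Val8.hos Q hQ hQ0) (fB i x r)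
    have h2 : r ∈ P ↔ fB i x r ∈ Q := by
      rw [← hQP]
      rfl
    rw [h2]
    exact h1.symm
  have hv'x : v'.Reg x := by
    have h1 := (hmem X).1 (Or.inr hx0)
    exact h1.reg
  have e1 : v = Pool.Agent.LibEnd77.Val8.ofHOS (Pool.Agent.LibEnd77.Val8.hos P hP hP0) :=
    Pool.Agent.LibEnd77.Val8.eq_ofHOS v (Pool.Agent.LibEnd77.Val8.reg_IC v hv) _ fun r => Iff.rfl
  have e2 : v' = Pool.Agent.LibEnd77.Val8.ofHOS (Pool.Agent.LibEnd77.Val8.hos P hP hP0) :=
    Pool.Agent.LibEnd77.Val8.eq_ofHOS v' (Pool.Agent.LibEnd77.Val8.reg_IC v' hv'x) _ hmem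
  rw [e1, ← e2]
  exact hv'

end Pool.Agent.LibFP27
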