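import Pool.Agent.LibFP27.Api

/-!
[FP27 C1] Algebra of the cycles `D × E` and `fp D`, and rational equivalence.
`prodc` is bilinear (`Finsupp.sum_add_index'` etc., or first write `prodc` by `Finsupp.liftAddHom`). `cls_prodc_left`: by additivity in `E` it is enough to take `E = single w b`; `D v = v.ord g`, `S = D.support`, `M = K₁`, `P = id` (`IsFin`: `AlgHom.id`, `e = 1`),
`Q` constant `= w`: `∑_(v ∈ S) single (v, w) (v.ord g)` is `IsPrin`, and `prodc D (single w b) = b • ` it. `cls_diag`: `M = K`, `P = Q = id`. `deg_principal`: `sum_ord`. `cls_fp_add`: expand `fp (D + E)`; all terms with `E` are zero in `CH0`, `deg E = 0`.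
`two_fp`: `2 • fp D = - ∑_(v, v') D v D v' • box v v' v v'` (expand: `box v v' v v' = (v,v) - (v,v') - (v',v) + (v',v')`).
-/

open scoped Classical

namespace Pool.Agent.LibFP27

open Pool.Agent.LibBH2
open Pool.Agent.LibQC8 (IsFunctionField Div deg IsPrincipal)

variable {k : Type} [Field k]
variable {K₁ K₂ K : Type} [Field K₁] [Field K₂] [Field K] [Algebra k K₁] [Algebra k K₂] [Algebra k K]

namespace C1aux

theorem diag_add (D E : Div k K) : diag (D + E) = diag D + diag E := Finsupp.mapDomain_add

theorem diag_smul (n : ℤ) (D : Div k K) : diag (n • D) = n • diag D :=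
  map_zsmul (AddMonoidHom.mk' (fun D : Div k K => diag D) (fun D E => diag_add D E)) n D

theorem diag_eq (D : Div k K) : diag D = ∑ v ∈ D.support, Finsupp.single (v, v) (D v) := rfl

theorem deg_eq (D : Div k K) : deg k K D = ∑ v ∈ D.support, D v := rfl

theorem cls_prin {z : Cyc k K₁ K₂} (hz : IsPrin k K₁ K₂ z) : cls k K₁ K₂ z = 0 :=
  (QuotientAddGroup.eq_zero_iff z).2 (AddSubgroup.subset_closure hz)

theorem isMap_id : IsMap (id : Place k K → Place k K) :=
  Or.inl ⟨AlgHom.id k K, fun w => ⟨1, one_pos, fun f => by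
    rw [one_mul]
    rfl⟩⟩

end C1aux

theorem prodc_add_left (D D' : Div k K₁) (E : Div k K₂) : prodc (D + D') E = prodc D E + prodc D' E := by
  unfold prodc
  refine Finsupp.sum_add_index' (fun v => ?_) (fun v a a' => ?_)
  · refine Finset.sum_eq_zero fun w _ => ?_
    change Finsupp.single (v, w) (0 * E w) = 0
    rw [zero_mul, Finsupp.single_zero]
  · rw [← Finsupp.sum_add]
    refine Finsupp.sum_congr fun w _ => ?_
    rw [add_mul, Finsupp.single_add]

theorem prodc_add_right (D : Div k K₁) (E E' : Div k K₂) : prodc D (E + E') = prodc D E + prodc D E' := by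
  unfold prodc
  rw [← Finsupp.sum_add]
  refine Finsupp.sum_congr fun v _ => ?_
  refine Finsupp.sum_add_index' (fun w => ?_) (fun w b b' => ?_)
  · rw [mul_zero, Finsupp.single_zero]
  · rw [mul_add, Finsupp.single_add]

theorem prodc_smul_left (n : ℤ) (D : Div k K₁) (E : Div k K₂) : prodc (n • D) E = n • prodc D E := by
  exact map_zsmul (AddMonoidHom.mk' (fun D : Div k K₁ => prodc D E)
    (fun D D' => prodc_add_left D D' E)) n D

theorem prodc_smul_right (n : ℤ) (D : Div k K₁) (E : Div k K₂) : prodc D (n • E) = n • prodc D E := by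
  exact map_zsmul (AddMonoidHom.mk' (fun E : Div k K₂ => prodc D E)
    (fun E E' => prodc_add_right D E E')) n E

theorem prodc_single (v : Place k K₁) (w : Place k K₂) (a b : ℤ) :
    prodc (Finsupp.single v a) (Finsupp.single w b) = Finsupp.single (v, w) (a * b) := by
  unfold prodc
  rw [Finsupp.sum_single_index, Finsupp.sum_single_index]
  · rw [mul_zero, Finsupp.single_zero]
  · refine Finset.sum_eq_zero fun w' _ => ?_
    change Finsupp.single (v, w') (0 * _) = 0
    rw [zero_mul, Finsupp.single_zero]

theorem box_eq (p q : Place k K₁) (r s : Place k K₂) :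
    box p q r s = Finsupp.single (p, r) 1 - Finsupp.single (p, s) 1 - Finsupp.single (q, r) 1 +
      Finsupp.single (q, s) 1 := by
  have hl : ∀ (D D' : Div k K₁) (E : Div k K₂), prodc (D - D') E = prodc D E - prodc D' E :=
    fun D D' E => map_sub (AddMonoidHom.mk' (fun D : Div k K₁ => prodc D E)
      (fun D D' => prodc_add_left D D' E)) D D'
  have hr : ∀ (D : Div k K₁) (E E' : Div k K₂), prodc D (E - E') = prodc D E - prodc D E' :=
    fun D E E' => map_sub (AddMonoidHom.mk' (fun E : Div k K₂ => prodc D E)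
      (fun E E' => prodc_add_right D E E')) E E'
  unfold box
  rw [hl, hr, hr, prodc_single, prodc_single, prodc_single, prodc_single, mul_one]
  abel

theorem fp_smul (n : ℤ) (D : Div k K) : fp (n • D) = n ^ 2 • fp D := by
  unfold fp
  rw [prodc_smul_left, prodc_smul_right, map_zsmul, C1aux.diag_smul, smul_sub, smul_smul, smul_smul,
    smul_smul, smul_eq_mul]
  congr 1
  · rw [sq]
  · congr 1
    ring

theorem two_fp (D : Div k K) :
    (2 : ℤ) • fp D = - ∑ v ∈ D.support, ∑ v' ∈ D.support, (D v * D v') • box v v' v v' := by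
  have h1 : ∑ v ∈ D.support, ∑ v' ∈ D.support, (D v * D v') • box v v' v v' =
      ∑ v ∈ D.support, ∑ v' ∈ D.support, Finsupp.single (v, v) (D v * D v') -
      ∑ v ∈ D.support, ∑ v' ∈ D.support, Finsupp.single (v, v') (D v * D v') -
      ∑ v ∈ D.support, ∑ v' ∈ D.support, Finsupp.single (v', v) (D v * D v') +
      ∑ v ∈ D.support, ∑ v' ∈ D.support, Finsupp.single (v', v') (D v * D v') := by
    rw [← Finset.sum_sub_distrib, ← Finset.sum_sub_distrib, ← Finset.sum_add_distrib]
    refine Finset.sum_congr rfl fun v _ => ?_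
    rw [← Finset.sum_sub_distrib, ← Finset.sum_sub_distrib, ← Finset.sum_add_distrib]
    refine Finset.sum_congr rfl fun v' _ => ?_
    rw [box_eq, smul_add, smul_sub, smul_sub]
    simp only [Finsupp.smul_single, smul_eq_mul, mul_one]
  have h2 : ∑ v ∈ D.support, ∑ v' ∈ D.support, Finsupp.single (v, v') (D v * D v') =
      prodc D D := rfl
  have h3 : ∑ v ∈ D.support, ∑ v' ∈ D.support, Finsupp.single (v', v) (D v * D v') =
      prodc D D := by
    rw [Finset.sum_comm]
    refine Finset.sum_congr rfl fun v _ => Finset.sum_congr rfl fun v' _ => ?_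
    rw [mul_comm]
  have h4 : ∑ v ∈ D.support, ∑ v' ∈ D.support, Finsupp.single (v', v') (D v * D v') =
      deg k K D • diag D := by
    rw [C1aux.deg_eq, C1aux.diag_eq, Finset.sum_smul]
    refine Finset.sum_congr rfl fun v _ => ?_
    rw [Finset.smul_sum]
    refine Finset.sum_congr rfl fun v' _ => ?_
    rw [Finsupp.smul_single, smul_eq_mul]
  have h5 : ∑ v ∈ D.support, ∑ v' ∈ D.support, Finsupp.single (v, v) (D v * D v') =
      deg k K D • diag D := by
    rw [Finset.sum_comm, ← h4]
    refine Finset.sum_congr rfl fun v _ => Finset.sum_congr rfl fun v' _ => ?_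
    rw [mul_comm]
  rw [h1, h2, h3, h4, h5, fp, two_smul]
  abel

theorem cls_prodc_left (hK : IsFunctionField k K₁) (D : Div k K₁) (hD : IsPrincipal k K₁ D) (E : Div k K₂) :
    cls k K₁ K₂ (prodc D E) = 0 := by
  obtain ⟨φ, hφ, hDφ⟩ := hD
  induction E using Finsupp.induction_linear with
  | zero =>
    have h1 : prodc D (0 : Div k K₂) = 0 := by
      have h2 := prodc_smul_right 0 D (0 : Div k K₂)
      rwa [zero_smul, zero_smul] at h2
    rw [h1, map_zero]
  | add E E' h h' => rw [prodc_add_right, map_add, h, h', add_zero]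
  | single w b =>
    have h1 : prodc D (Finsupp.single w b) =
        b • ∑ v ∈ D.support, Finsupp.single (v, w) (v.ord φ) := by
      unfold prodc
      rw [Finset.smul_sum]
      refine Finset.sum_congr rfl fun v _ => ?_
      change (Finsupp.single w b).sum (fun w b => Finsupp.single (v, w) (D v * b)) = _
      rw [Finsupp.sum_single_index (by rw [mul_zero, Finsupp.single_zero]), Finsupp.smul_single,
        smul_eq_mul, hDφ, mul_comm]
    rw [h1, map_zsmul, C1aux.cls_prin, smul_zero]
    refine ⟨K₁, inferInstance, inferInstance, φ, D.support, id, fun _ => w, hK, hφ, fun v hv => ?_,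
      C1aux.isMap_id, Or.inr ⟨w, fun _ => rfl⟩, rfl⟩
    rw [← hDφ, Finsupp.notMem_support_iff.1 hv]

theorem cls_prodc_right (hK : IsFunctionField k K₂) (D : Div k K₁) (E : Div k K₂) (hE : IsPrincipal k K₂ E) :
    cls k K₁ K₂ (prodc D E) = 0 := by
  obtain ⟨φ, hφ, hEφ⟩ := hE
  induction D using Finsupp.induction_linear with
  | zero =>
    have h1 : prodc (0 : Div k K₁) E = 0 := by
      have h2 := prodc_smul_left 0 (0 : Div k K₁) E
      rwa [zero_smul, zero_smul] at h2
    rw [h1, map_zero]
  | add D D' h h' => rw [prodc_add_left, map_add, h, h', add_zero]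
  | single v a =>
    have h1 : prodc (Finsupp.single v a) E =
        a • ∑ w ∈ E.support, Finsupp.single (v, w) (w.ord φ) := by
      unfold prodc
      rw [Finset.smul_sum, Finsupp.sum_single_index]
      · refine Finset.sum_congr rfl fun w _ => ?_
        rw [Finsupp.smul_single, smul_eq_mul, hEφ]
      · refine Finset.sum_eq_zero fun w' _ => ?_
        change Finsupp.single (v, w') (0 * _) = 0
        rw [zero_mul, Finsupp.single_zero]
    rw [h1, map_zsmul, C1aux.cls_prin, smul_zero]
    refine ⟨K₂, inferInstance, inferInstance, φ, E.support, fun _ => v, id, hK, hφ, fun w hw => ?_,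
      Or.inr ⟨v, fun _ => rfl⟩, C1aux.isMap_id, rfl⟩
    rw [← hEφ, Finsupp.notMem_support_iff.1 hw]

theorem cls_diag (hK : IsFunctionField k K) (D : Div k K) (hD : IsPrincipal k K D) : cls k K K (diag D) = 0 := by
  obtain ⟨φ, hφ, hDφ⟩ := hD
  apply C1aux.cls_prin
  refine ⟨K, inferInstance, inferInstance, φ, D.support, id, id, hK, hφ, fun v hv => ?_,
    C1aux.isMap_id, C1aux.isMap_id, ?_⟩
  · rw [← hDφ, Finsupp.notMem_support_iff.1 hv]
  · rw [C1aux.diag_eq]
    refine Finset.sum_congr rfl fun v _ => ?_
    rw [hDφ]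
    rfl

theorem deg_principal [IsAlgClosed k] [CharZero k] (hK : IsFunctionField k K) (D : Div k K)
    (hD : IsPrincipal k K D) : deg k K D = 0 := by
  obtain ⟨φ, hφ, hDφ⟩ := hD
  rw [C1aux.deg_eq]
  have h1 := sum_ord hK φ D.support (fun v hv => by
    rw [← hDφ, Finsupp.notMem_support_iff.1 hv])
  rw [← h1]
  exact Finset.sum_congr rfl fun v _ => hDφ v

/-- the class of `fp D` depends only on the class of `D` -/
theorem cls_fp_add [IsAlgClosed k] [CharZero k] (hK : IsFunctionField k K) (D E : Div k K)
    (hE : IsPrincipal k K E) : cls k K K (fp (D + E)) = cls k K K (fp D) := by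
  unfold fp
  rw [map_add (deg k K), deg_principal hK E hE, add_zero, C1aux.diag_add, prodc_add_left,
    prodc_add_right, prodc_add_right, smul_add, map_sub, map_sub, map_add, map_add, map_add,
    map_add, cls_prodc_right hK D E hE, cls_prodc_left hK E hE D, cls_prodc_left hK E hE E,
    map_zsmul (cls k K K) _ (diag E), cls_diag hK E hE, smul_zero, add_zero, add_zero, add_zero,
    add_zero]

end Pool.Agent.LibFP27
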