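import Pool.Agent.LibFP27.Defs

/-!
[FP27 C2] Push-forward of cycles. `fp_push`: `fp D = a ^ 2 (∑_(w, w') (w, w') - n ∑_w (w, w))`, `n = |S₁| + |S₂|`; push forward and count: `|S₁|² (p,r) + |S₁||S₂| ((p,s) + (q,r)) + |S₂|² (q,s) - (|S₁| + |S₂|)(|S₁| (p,r) + |S₂| (q,s))`.
`cls_map`: `mapDomain` is additive, so it is enough (`AddSubgroup.closure_induction`) to show that the image of an `IsPrin` cycle is `IsPrin`: the maps `P ∘ P'`, `Q ∘ Q'` are `IsMap` (compose the embeddings; the
composite of `Over i w v` and `Over j v u` is `Over (i.comp j) w u`, with the product of the `e`; a map composed with a constant map is constant).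
-/

open scoped Classical

namespace Pool.Agent.LibFP27

open Pool.Agent.LibBH2
open Pool.Agent.LibQC8 (IsFunctionField Div deg IsPrincipal)

variable {k : Type} [Field k]
variable {K₁ K₂ K L : Type} [Field K₁] [Field K₂] [Field K] [Field L] [Algebra k K₁] [Algebra k K₂] [Algebra k K]
  [Algebra k L]

theorem over_comp {K M N : Type} [Field K] [Algebra k K] [Field M] [Algebra k M] [Field N] [Algebra k N]
    {j : K →ₐ[k] M} {i : M →ₐ[k] N} {w : Place k N} {v : Place k M} {u : Place k K} (h : Over i w v)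
    (h' : Over j v u) : Over (i.comp j) w u := by
  obtain ⟨e, he, h1⟩ := h
  obtain ⟨e', he', h2⟩ := h'
  refine ⟨e * e', mul_pos he he', fun f => ?_⟩
  rw [AlgHom.comp_apply, h1, h2, mul_assoc]

theorem isFin_comp {K M N : Type} [Field K] [Algebra k K] [Field M] [Algebra k M] [Field N] [Algebra k N]
    {P : Place k M → Place k K} {P' : Place k N → Place k M} (h : IsFin P) (h' : IsFin P') :
    IsFin fun w => P (P' w) := by
  obtain ⟨i, hi⟩ := h
  obtain ⟨j, hj⟩ := h'
  exact ⟨j.comp i, fun w => over_comp (hj w) (hi (P' w))⟩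

theorem isMap_comp {K M N : Type} [Field K] [Algebra k K] [Field M] [Algebra k M] [Field N] [Algebra k N]
    {P : Place k M → Place k K} {P' : Place k N → Place k M} (h : IsFin P) (h' : IsMap P') :
    IsMap fun w => P (P' w) := by
  rcases h' with h' | ⟨v, hv⟩
  · exact Or.inl (isFin_comp h h')
  · exact Or.inr ⟨P v, fun w => congrArg P (hv w)⟩

theorem cls_map (P : Place k L → Place k K₁) (Q : Place k L → Place k K₂) (hP : IsFin P) (hQ : IsFin Q)
    (z : Cyc k L L) (hz : cls k L L z = 0) : cls k K₁ K₂ (z.mapDomain (Prod.map P Q)) = 0 := by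
  have hz' : z ∈ RatEq k L L := (QuotientAddGroup.eq_zero_iff z).1 hz
  refine (QuotientAddGroup.eq_zero_iff _).2 ?_
  have key : RatEq k L L ≤ (RatEq k K₁ K₂).comap
      (Finsupp.mapDomain.addMonoidHom (Prod.map P Q) : Cyc k L L →+ Cyc k K₁ K₂) := by
    refine (AddSubgroup.closure_le _).2 ?_
    rintro y ⟨M, hM, hkM, g, S, P', Q', h1, h2, h3, h4, h5, rfl⟩
    refine AddSubgroup.subset_closure ⟨M, hM, hkM, g, S, fun w => P (P' w), fun w => Q (Q' w), h1, h2,
      h3, isMap_comp hP h4, isMap_comp hQ h5, ?_⟩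
    rw [Finsupp.mapDomain.addMonoidHom_apply, Finsupp.mapDomain_finsetSum]
    refine Finset.sum_congr rfl fun w _ => ?_
    rw [Finsupp.mapDomain_single, Prod.map_apply]
  exact key hz'

namespace C2aux

private theorem prodc_sub_left (D D' : Div k K₁) (E : Div k K₂) :
    prodc (D - D') E = prodc D E - prodc D' E := by
  unfold prodc
  refine Finsupp.sum_sub_index fun v a b => ?_
  rw [← Finsupp.sum_sub]
  refine Finsupp.sum_congr fun w _ => ?_
  rw [sub_mul, Finsupp.single_sub]

private theorem prodc_sub_right (D : Div k K₁) (E E' : Div k K₂) :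
    prodc D (E - E') = prodc D E - prodc D E' := by
  unfold prodc
  rw [← Finsupp.sum_sub]
  refine Finsupp.sum_congr fun v _ => ?_
  exact Finsupp.sum_sub_index fun w a b => by rw [mul_sub, Finsupp.single_sub]

private theorem prodc_single (v : Place k K₁) (w : Place k K₂) (a b : ℤ) :
    prodc (Finsupp.single v a) (Finsupp.single w b) = Finsupp.single (v, w) (a * b) := by
  unfold prodc
  rw [Finsupp.sum_single_index, Finsupp.sum_single_index]
  · rw [mul_zero, Finsupp.single_zero]
  · rw [Finsupp.sum_single_index]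
    · rw [zero_mul, Finsupp.single_zero]
    · rw [mul_zero, Finsupp.single_zero]

private theorem box_eq (p q : Place k K₁) (r s : Place k K₂) :
    box p q r s = Finsupp.single (p, r) 1 - Finsupp.single (p, s) 1 -
      (Finsupp.single (q, r) 1 - Finsupp.single (q, s) 1) := by
  unfold box
  rw [prodc_sub_left, prodc_sub_right, prodc_sub_right, prodc_single, prodc_single, prodc_single,
    prodc_single, mul_one]

private theorem prodc_sums (S : Finset (Place k L)) (a : ℤ) :
    prodc (∑ w ∈ S, Finsupp.single w a) (∑ w ∈ S, Finsupp.single w a) =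
      ∑ w ∈ S, ∑ w' ∈ S, (Finsupp.single (w, w') (a * a) : Cyc k L L) := by
  have h1 : ∀ E : Div k L, prodc (∑ w ∈ S, Finsupp.single w a) E =
      ∑ w ∈ S, prodc (Finsupp.single w a) E := by
    intro E
    unfold prodc
    refine (Finsupp.sum_finsetSum_index (fun v => ?_) fun v b c => ?_).symm
    · simp
    · rw [← Finsupp.sum_add]
      refine Finsupp.sum_congr fun w _ => ?_
      rw [add_mul, Finsupp.single_add]
  have h2 : ∀ w : Place k L, prodc (Finsupp.single w a) (∑ w' ∈ S, Finsupp.single w' a) =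
      ∑ w' ∈ S, prodc (Finsupp.single w a) (Finsupp.single w' a) := by
    intro w
    unfold prodc
    have h3 : ∀ E : Div k L, ((Finsupp.single w a).sum fun v b => E.sum fun u c =>
        (Finsupp.single (v, u) (b * c) : Cyc k L L)) =
          E.sum fun u c => Finsupp.single (w, u) (a * c) := by
      intro E
      rw [Finsupp.sum_single_index]
      simp
    simp only [h3]
    refine (Finsupp.sum_finsetSum_index (fun v => ?_) fun v b c => ?_).symm
    · simp
    · rw [mul_add, Finsupp.single_add]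
  rw [h1]
  refine Finset.sum_congr rfl fun w _ => ?_
  rw [h2]
  exact Finset.sum_congr rfl fun w' _ => prodc_single w w' a a

end C2aux

theorem fp_push (P : Place k L → Place k K₁) (Q : Place k L → Place k K₂) (S₁ S₂ : Finset (Place k L))
    (hd : Disjoint S₁ S₂) (a : ℤ) (D : Div k L) (hD : ∀ w, D w = if w ∈ S₁ ∪ S₂ then a else 0)
    (p q : Place k K₁) (r s : Place k K₂) (h₁ : ∀ w ∈ S₁, P w = p ∧ Q w = r) (h₂ : ∀ w ∈ S₂, P w = q ∧ Q w = s) :
    (fp D).mapDomain (Prod.map P Q) = -((a ^ 2 * S₁.card * S₂.card : ℤ) • box p q r s) := by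
  have hDs : D = ∑ w ∈ S₁ ∪ S₂, Finsupp.single w a := by
    ext v
    rw [hD v, Finsupp.finsetSum_apply]
    simp only [Finsupp.single_apply]
    rw [Finset.sum_ite_eq']
  have hsum : ∀ {G : Type} [AddCommGroup G] (F : Place k L → G) (x y : G), (∀ w ∈ S₁, F w = x) →
      (∀ w ∈ S₂, F w = y) → ∑ w ∈ S₁ ∪ S₂, F w = (S₁.card : ℤ) • x + (S₂.card : ℤ) • y := by
    intro G _ F x y hx hy
    rw [Finset.sum_union hd, Finset.sum_congr rfl hx, Finset.sum_congr rfl hy, Finset.sum_const,
      Finset.sum_const, natCast_zsmul, natCast_zsmul]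
  have hdeg : deg k L D = (S₁.card + S₂.card : ℤ) * a := by
    rw [hDs, map_sum]
    simp only [Pool.Agent.LibQC8.deg_single]
    rw [hsum (fun _ => a) a a (fun _ _ => rfl) (fun _ _ => rfl), smul_eq_mul, smul_eq_mul]
    ring
  have hpr : (prodc D D).mapDomain (Prod.map P Q) =
      ∑ w ∈ S₁ ∪ S₂, ∑ w' ∈ S₁ ∪ S₂, (Finsupp.single (P w, Q w') (a * a) : Cyc k K₁ K₂) := by
    rw [hDs, C2aux.prodc_sums, Finsupp.mapDomain_finsetSum]
    refine Finset.sum_congr rfl fun w _ => ?_
    rw [Finsupp.mapDomain_finsetSum]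
    refine Finset.sum_congr rfl fun w' _ => ?_
    rw [Finsupp.mapDomain_single, Prod.map_apply]
  have hdi : (diag D).mapDomain (Prod.map P Q) =
      ∑ w ∈ S₁ ∪ S₂, (Finsupp.single (P w, Q w) a : Cyc k K₁ K₂) := by
    rw [diag, ← Finsupp.mapDomain_comp, hDs, Finsupp.mapDomain_finsetSum]
    refine Finset.sum_congr rfl fun w _ => ?_
    rw [Finsupp.mapDomain_single]
    rfl
  have hin : ∀ v : Place k K₁, ∑ w' ∈ S₁ ∪ S₂, (Finsupp.single (v, Q w') (a * a) : Cyc k K₁ K₂) =
      (S₁.card : ℤ) • Finsupp.single (v, r) (a * a) + (S₂.card : ℤ) • Finsupp.single (v, s) (a * a) :=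
    fun v => hsum _ _ _ (fun w hw => by rw [(h₁ w hw).2]) (fun w hw => by rw [(h₂ w hw).2])
  have hpr2 : (prodc D D).mapDomain (Prod.map P Q) =
      (S₁.card : ℤ) • ((S₁.card : ℤ) • (Finsupp.single (p, r) (a * a) : Cyc k K₁ K₂) +
        (S₂.card : ℤ) • Finsupp.single (p, s) (a * a)) +
      (S₂.card : ℤ) • ((S₁.card : ℤ) • Finsupp.single (q, r) (a * a) +
        (S₂.card : ℤ) • Finsupp.single (q, s) (a * a)) := by
    rw [hpr]
    exact hsum _ _ _ (fun w hw => by rw [hin, (h₁ w hw).1]) (fun w hw => by rw [hin, (h₂ w hw).1])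
  have hdi2 : (diag D).mapDomain (Prod.map P Q) =
      (S₁.card : ℤ) • (Finsupp.single (p, r) a : Cyc k K₁ K₂) + (S₂.card : ℤ) • Finsupp.single (q, s) a := by
    rw [hdi]
    exact hsum _ _ _ (fun w hw => by rw [(h₁ w hw).1, (h₁ w hw).2])
      (fun w hw => by rw [(h₂ w hw).1, (h₂ w hw).2])
  have hfp : (fp D).mapDomain (Prod.map P Q) =
      (prodc D D).mapDomain (Prod.map P Q) - deg k L D • (diag D).mapDomain (Prod.map P Q) := by
    have h := map_sub (Finsupp.mapDomain.addMonoidHom (Prod.map P Q) : Cyc k L L →+ Cyc k K₁ K₂)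
      (prodc D D) (deg k L D • diag D)
    rw [map_zsmul] at h
    exact h
  rw [hfp, hpr2, hdi2, hdeg, C2aux.box_eq]
  ext x
  simp only [Finsupp.coe_add, Finsupp.coe_sub, Finsupp.coe_neg, Finsupp.coe_smul, Pi.add_apply,
    Pi.sub_apply, Pi.neg_apply, Pi.smul_apply, Finsupp.single_apply, smul_eq_mul]
  split_ifs <;> ring

end Pool.Agent.LibFP27
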