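import Pool.Agent.LibFP27.Api

/-!
[FP27 G1] The Galois group acts transitively on the places over a place of `k(t)`.
Proof. Let `B = IC k t` be the integral closure of `A = Algebra.adjoin k {t}` in `N` (LibEnd77/ValB: Dedekind, `N` its field of fractions,
`primeOf v hv` the prime ideal of the place `v`, `v = ofHOS ..` (`eq_ofHOS`), the primes of `w` and `w'` lie over `(t)`: `primeOf_liesOver`).
Transitivity on the primes over `(t)`: Mathlib (`Ideal.exists_smul_eq_of_isGaloisGroup` / `Ideal.exists_map_eq_of_isGalois`), or by hand: if the prime `P'` of `w'` is none of the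
finitely many (maximal) primes of the places `w ∘ σ`, then there is `b ∈ B` with `b ∈ P'` and `w.ord (σ b) = 0` for all `σ` (prime avoidance
`Ideal.subset_union_prime`); the product `n` of the `σ b` is in `k(t)`, `w.ord n = 0` and `w'.ord n > 0`; but on `k(t)` both `w.ord` and `w'.ord` are positive
multiples of one valuation (an element of `k(t)` is `t^m P(t)/Q(t)` with `P(0), Q(0) ≠ 0`, of order `m * ord t`): contradiction.
Two places with the same prime ideal are equal (`eq_ofHOS`), which gives `w'.ord z = w.ord (σ z)` (the place `w ∘ σ` is a `Place`: build it).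
-/

open scoped Classical

namespace Pool.Agent.LibFP27

open Pool.Agent.LibBH2
open Pool.Agent.LibQC8 (IsFunctionField Div deg)

variable {k : Type} [Field k] [IsAlgClosed k] [CharZero k]
variable {N : Type} [Field N] [Algebra k N]

open Pool.Agent.LibEnd77.Val8 IntermediateField.algebraAdjoinAdjoin in
/-- the place `w ∘ σ` -/
private def G1_comp (w : Place k N) (t : N)
    (σ : N ≃ₐ[IntermediateField.adjoin k {t}] N) : Place k N where
  ord z := w.ord (σ z)
  ord_zero := by rw [map_zero, w.ord_zero]
  ord_mul f g hf hg := by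
    rw [map_mul, w.ord_mul]
    · simpa using hf
    · simpa using hg
  ord_add f g hf hg hfg := by
    rw [map_add]
    apply w.ord_add
    · simpa using hf
    · simpa using hg
    · rw [← map_add]
      exact fun h => hfg ((EmbeddingLike.map_eq_zero_iff (f := σ)).1 h)
  ord_const c hc := by
    have h1 : σ (algebraMap k N c) = algebraMap k N c := by
      rw [IsScalarTower.algebraMap_apply k (IntermediateField.adjoin k {t}) N, σ.commutes]
    rw [h1, w.ord_const c hc]
  exists_uniformizer := by
    obtain ⟨x, hx⟩ := w.exists_uniformizer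
    exact ⟨σ.symm x, by rw [σ.apply_symm_apply, hx]⟩

open Pool.Agent.LibEnd77.Val8 IntermediateField.algebraAdjoinAdjoin in
private theorem G1_inv (t : N) (hfd : FiniteDimensional (IntermediateField.adjoin k {t}) N)
    (hG : IsGalois (IntermediateField.adjoin k {t}) N) :
    Algebra.IsInvariant (Algebra.adjoin k {t}) (IC k t) (IC k t ≃ₐ[Algebra.adjoin k {t}] IC k t) := by
  constructor
  intro b hb
  have h1 : ∀ σ : N ≃ₐ[IntermediateField.adjoin k {t}] N,
      σ (algebraMap (IC k t) N b) = algebraMap (IC k t) N b := by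
    intro σ
    have h2 := hb (galRestrict (Algebra.adjoin k {t}) (IntermediateField.adjoin k {t}) N (IC k t) σ)
    rw [← algebraMap_galRestrict_apply (A := Algebra.adjoin k {t})]
    exact congrArg _ h2
  have h3 : algebraMap (IC k t) N b ∈ (⊥ : IntermediateField (IntermediateField.adjoin k {t}) N) :=
    IsGalois.mem_bot_iff_fixed _ |>.2 h1
  rw [IntermediateField.mem_bot] at h3
  obtain ⟨c, hc⟩ := h3
  have hint : IsIntegral (Algebra.adjoin k {t}) c := by
    rw [← isIntegral_algebraMap_iff (B := N) (FaithfulSMul.algebraMap_injective _ _), hc]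
    exact b.2
  obtain ⟨a, ha⟩ := IsIntegrallyClosed.algebraMap_eq_of_integral hint
  refine ⟨a, ?_⟩
  apply FaithfulSMul.algebraMap_injective (IC k t) N
  rw [← hc, ← ha, ← IsScalarTower.algebraMap_apply, ← IsScalarTower.algebraMap_apply]

open Pool.Agent.LibEnd77.Val8 IntermediateField.algebraAdjoinAdjoin in
theorem galois_trans (hN : IsFunctionField k N) (t : N) (ht : Transcendental k t)
    (hG : IsGalois (IntermediateField.adjoin k {t}) N) (w w' : Place k N) (hw : 0 < w.ord t) (hw' : 0 < w'.ord t) :
    ∃ σ : N ≃ₐ[IntermediateField.adjoin k {t}] N, ∀ z, w'.ord z = w.ord (σ z) := by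
  have := hG
  have hfd : FiniteDimensional (IntermediateField.adjoin k {t}) N := finite_adj hN ht
  have hinv := G1_inv t hfd hG
  have := max ht
  let e := galRestrict (Algebra.adjoin k {t}) (IntermediateField.adjoin k {t}) N (IC k t)
  have : Finite (IC k t ≃ₐ[Algebra.adjoin k {t}] IC k t) := Finite.of_equiv _ e.toEquiv
  have hl := primeOf_liesOver ht w hw
  have hpr := primeOf_isPrime (φ := t) w (Or.inr hw.le)
  have hl' := primeOf_liesOver ht w' hw'
  have hpr' := primeOf_isPrime (φ := t) w' (Or.inr hw'.le)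
  obtain ⟨g, hg⟩ := Algebra.IsInvariant.exists_smul_of_under_eq (Algebra.adjoin k {t}) (IC k t)
    (IC k t ≃ₐ[Algebra.adjoin k {t}] IC k t) (primeOf (φ := t) w (Or.inr hw.le))
    (primeOf (φ := t) w' (Or.inr hw'.le)) (hl.over.symm.trans hl'.over)
  obtain ⟨σ, hσ⟩ := e.surjective g⁻¹
  have hmem : ∀ r : IC k t, r ∈ primeOf (φ := t) w' (Or.inr hw'.le) ↔
      w.Zer (σ (algebraMap (IC k t) N r)) := by
    intro r
    rw [hg, Ideal.mem_pointwise_smul_iff_inv_smul_mem, mem_primeOf,
      ← algebraMap_galRestrict_apply (A := Algebra.adjoin k {t})]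
    change _ ↔ w.Zer (algebraMap (IC k t) N (e σ r))
    rw [hσ]
    rfl
  have hne : primeOf (φ := t) w' (Or.inr hw'.le) ≠ ⊥ := by
    have := hl'
    exact Ideal.ne_bot_of_liesOver_of_ne_bot (ne_bot ht) _
  have hst : σ t = t := σ.commutes ⟨t, IntermediateField.mem_adjoin_simple_self k t⟩
  have h1 : w' = ofHOS (hos _ hpr' hne) :=
    eq_ofHOS w' (reg_IC w' (Or.inr hw'.le)) _ fun r => mem_primeOf w' (Or.inr hw'.le) r
  have h2 : G1_comp w t σ = ofHOS (hos _ hpr' hne) := by
    refine eq_ofHOS (G1_comp w t σ) (reg_IC (φ := t) _ (Or.inr ?_)) _ fun r => ?_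
    · change 0 ≤ w.ord (σ t)
      rw [hst]
      exact hw.le
    · change r ∈ primeOf (φ := t) w' (Or.inr hw'.le) ↔ _
      rw [hmem r]
      change _ ∨ _ ↔ _ ∨ _
      rw [EmbeddingLike.map_eq_zero_iff]
      rfl
  refine ⟨σ, fun z => ?_⟩
  have h3 : w' = G1_comp w t σ := h1.trans h2.symm
  rw [h3]
  rfl

end Pool.Agent.LibFP27
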