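import Pool.Agent.LibFP27.Api

/-!
[FP27 G5] A non-constant function is ramified over finitely many values only.
Proof. `A = Algebra.adjoin k {h}` (a PID, `LibEnd77/ValB`), `B = IC k h` its integral closure in `K` (Dedekind, finite over `A`, `K` its field of fractions), `𝔡 = differentIdeal A B ≠ ⊥`
(`K / k(h)` is separable, Mathlib). If `e = v.ord (h - c) ≥ 2` then `h` is regular at `v`, the prime `P` of `v` in `B` (`primeOf`, `eq_ofHOS`) satisfies `P ^ e ∣ (h - c) B`, so
`P ^ (e - 1) ∣ 𝔡` (Mathlib: `pow_sub_one_dvd_differentIdeal`), so `P ∣ 𝔡`; only finitely many primes divide `𝔡`, and `P` determines `v` and `c` (`val_unique`).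
Another way: `K = k(h)(y)`, `G(h, Y)` the minimal polynomial of `y`, integral over `k[h]`; for `c` not a zero of the discriminant there are `n = [K : k(h)]` different values of `y` at the places over `c`
and `∑ v.ord (h - c) = n` (`sum_zeros` in Api), so all orders are `1`.
-/

open scoped Classical

namespace Pool.Agent.LibFP27

open Pool.Agent.LibBH2
open Pool.Agent.LibQC8 (IsFunctionField Div deg)

variable {k : Type} [Field k] [IsAlgClosed k] [CharZero k]
variable {K : Type} [Field K] [Algebra k K]

namespace G5aux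

open Pool.Agent.LibEnd77.Val8 IsDedekindDomain Polynomial
open scoped IntermediateField.algebraAdjoinAdjoin

attribute [local instance] FractionRing.liftAlgebra FractionRing.isScalarTower_liftAlgebra

section

variable (φ : K) [FiniteDimensional (IntermediateField.adjoin k {φ}) K]
  [Algebra.IsSeparable (IntermediateField.adjoin k {φ}) K]

omit [IsAlgClosed k] [CharZero k] in
theorem sep : Algebra.IsSeparable (FractionRing (Algebra.adjoin k {φ})) (FractionRing (IC k φ)) := by
  have H : RingHom.comp (algebraMap (FractionRing (Algebra.adjoin k {φ})) (FractionRing (IC k φ)))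
      ↑(FractionRing.algEquiv (Algebra.adjoin k {φ}) (IntermediateField.adjoin k {φ})).symm.toRingEquiv =
        RingHom.comp ↑(FractionRing.algEquiv (IC k φ) K).symm.toRingEquiv
          (algebraMap (IntermediateField.adjoin k {φ}) K) := by
    apply IsLocalization.ringHom_ext (nonZeroDivisors (Algebra.adjoin k {φ}))
    ext
    simp only [RingHom.coe_comp, RingHom.coe_coe,
      AlgEquiv.coe_ringEquiv, Function.comp_apply, AlgEquiv.commutes,
      ← IsScalarTower.algebraMap_apply]
    rw [IsScalarTower.algebraMap_apply (Algebra.adjoin k {φ}) (IC k φ) K, AlgEquiv.commutes,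
      ← IsScalarTower.algebraMap_apply]
  exact Algebra.IsSeparable.of_equiv_equiv _ _ H

end

/-- a regular function `q(h)` vanishing at `v` has order at least two if `h - c` has -/
theorem ord_two (v : Place k K) (φ : K) (c : k)
    (hc : 2 ≤ v.ord (φ - algebraMap k K c)) (q : k[X]) (hq : v.Zer (aeval φ q)) :
    aeval φ q = 0 ∨ 2 ≤ v.ord (aeval φ q) := by
  by_cases h0 : aeval φ q = 0
  · exact Or.inl h0
  right
  have hreg : v.Reg φ := by
    have h1 : v.Reg (φ - algebraMap k K c) := Or.inr (by omega)
    have h2 := Place.Reg.add h1 (v.reg_const c)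
    rwa [sub_add_cancel] at h2
  -- division by `X - c`
  have hdiv : q = (X - C c) * (q /ₘ (X - C c)) + C (q.eval c) := by
    conv_lhs => rw [← Polynomial.modByMonic_add_div q (X - C c), Polynomial.modByMonic_X_sub_C_eq_C_eval]
    ring
  have hval : aeval φ q = (φ - algebraMap k K c) * aeval φ (q /ₘ (X - C c)) + algebraMap k K (q.eval c) := by
    conv_lhs => rw [hdiv]
    simp
  have hr : v.Reg (aeval φ (q /ₘ (X - C c))) := by
    have h1 := reg_adjoin (k := k) v hreg ⟨aeval φ (q /ₘ (X - C c)), by
      rw [Algebra.adjoin_singleton_eq_range_aeval]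
      exact ⟨_, rfl⟩⟩
    exact h1
  have hz : v.Zer ((φ - algebraMap k K c) * aeval φ (q /ₘ (X - C c))) := by
    have h1 : v.Zer (φ - algebraMap k K c) := Or.inr (by omega)
    have h2 := Place.Zer.reg_mul hr h1
    rwa [mul_comm] at h2
  have hqc : q.eval c = 0 := by
    by_contra hne
    have h1 : v.Zer (algebraMap k K (q.eval c)) := by
      have h2 : v.Zer (-((φ - algebraMap k K c) * aeval φ (q /ₘ (X - C c)))) := by
        have h3 := Place.Zer.reg_mul (v.reg_const (-1)) hz
        rwa [map_neg, map_one, neg_one_mul] at h3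
      have h3 := Place.Zer.add hq h2
      rw [hval] at h3
      convert h3 using 1
      ring
    rcases h1 with h1 | h1
    · exact hne (by simpa using h1)
    · rw [ord_const'] at h1
      exact lt_irrefl _ h1
  rw [hqc, map_zero, add_zero] at hval
  have h1 : aeval φ (q /ₘ (X - C c)) ≠ 0 := by
    intro h
    rw [h, mul_zero] at hval
    exact h0 hval
  have h2 : φ - algebraMap k K c ≠ 0 := by
    intro h
    rw [h, zero_mul] at hval
    exact h0 hval
  rw [hval, v.ord_mul _ _ h2 h1]
  have h3 := hr.resolve_left h1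
  omega

/-- the different ideal is divisible by the prime of a ramified place -/
theorem dvd_diff (φ : K) (hφ : Transcendental k φ) [FiniteDimensional (IntermediateField.adjoin k {φ}) K]
    [Algebra.IsSeparable (IntermediateField.adjoin k {φ}) K] (v : Place k K) (c : k)
    (hc : 2 ≤ v.ord (φ - algebraMap k K c)) :
    ∃ P : HeightOneSpectrum (IC k φ), v = ofHOS P ∧ P.asIdeal ∣ differentIdeal (Algebra.adjoin k {φ}) (IC k φ) := by
  have := sep (k := k) φ
  have hreg : v.Reg φ := by
    have h1 : v.Reg (φ - algebraMap k K c) := Or.inr (by omega)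
    have h2 := Place.Reg.add h1 (v.reg_const c)
    rwa [sub_add_cancel] at h2
  have hpr := primeOf_isPrime (k := k) (φ := φ) v hreg
  -- the element `φ - c`
  let g : Algebra.adjoin k {φ} := gen k φ - algebraMap k _ c
  have hg0 : g ≠ 0 := by
    intro h
    have h1 := congrArg (Subtype.val) h
    exact sub_ne φ hφ c h1
  have hgP : algebraMap (Algebra.adjoin k {φ}) (IC k φ) g ∈ primeOf (k := k) (φ := φ) v hreg := by
    rw [mem_primeOf]
    exact Or.inr (show 0 < v.ord (φ - algebraMap k K c) by omega)
  have hP0 : primeOf (k := k) (φ := φ) v hreg ≠ ⊥ := by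
    intro h
    rw [h, Ideal.mem_bot] at hgP
    apply hg0
    have h1 : algebraMap (IC k φ) K (algebraMap (Algebra.adjoin k {φ}) (IC k φ) g) = 0 := by
      rw [hgP, map_zero]
    exact Subtype.ext h1
  let P : HeightOneSpectrum (IC k φ) := ⟨primeOf (k := k) (φ := φ) v hreg, hpr, hP0⟩
  have hv : v = ofHOS P := eq_ofHOS v (reg_IC v hreg) P (fun r => mem_primeOf v hreg r)
  refine ⟨P, hv, ?_⟩
  let p : Ideal (Algebra.adjoin k {φ}) := Ideal.comap (algebraMap (Algebra.adjoin k {φ}) (IC k φ)) P.asIdeal
  have hp0 : p ≠ ⊥ := by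
    intro h
    have h1 : g ∈ p := hgP
    rw [h, Ideal.mem_bot] at h1
    exact hg0 h1
  have hpp : p.IsPrime := Ideal.IsPrime.comap _
  have hpm : p.IsMaximal := hpp.isMaximal hp0
  have hdvd : P.asIdeal ^ 2 ∣ p.map (algebraMap (Algebra.adjoin k {φ}) (IC k φ)) := by
    rw [Ideal.dvd_iff_le, Ideal.map_le_iff_le_comap]
    intro x hx
    have hx1 : v.Zer (algebraMap (IC k φ) K (algebraMap (Algebra.adjoin k {φ}) (IC k φ) x)) :=
      (mem_primeOf v hreg _).1 hx
    obtain ⟨q, rfl⟩ := aeval_surj k φ x
    have h2 : (algebraMap (IC k φ) K (algebraMap (Algebra.adjoin k {φ}) (IC k φ) (aeval (gen k φ) q))) =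
        aeval φ q := by
      have := Polynomial.aeval_algHom_apply (Algebra.adjoin k {φ}).val (gen k φ) q
      exact this.symm
    rw [h2] at hx1
    rw [Ideal.mem_comap, ← P.intValuation_le_pow_iff_mem, ← P.valuation_of_algebraMap (K := K)]
    change P.valuation K (algebraMap (IC k φ) K
      (algebraMap (Algebra.adjoin k {φ}) (IC k φ) (aeval (gen k φ) q))) ≤ _
    rw [h2]
    rcases ord_two v φ c hc q hx1 with h | h
    · rw [h, map_zero]
      exact zero_le
    · have h0 : aeval φ q ≠ 0 := by
        intro h0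
        rw [h0, v.ord_zero] at h
        omega
      rw [ofHOS_ord (k := k) P h0, ← hv, WithZero.exp_le_exp]
      push_cast
      omega
  have h := pow_sub_one_dvd_differentIdeal (Algebra.adjoin k {φ}) P.asIdeal 2 hp0 hdvd
  simpa using h

theorem G5_ram (hK : IsFunctionField k K) (h : K) (hh : Transcendental k h) :
    {v : Place k K | ∃ c : k, 2 ≤ v.ord (h - algebraMap k K c)}.Finite := by
  have := finite_adj hK hh
  have : Algebra.IsSeparable (IntermediateField.adjoin k {h}) K := inferInstance
  have := sep (k := k) h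
  have h1 : differentIdeal (Algebra.adjoin k {h}) (Pool.Agent.LibEnd77.Val8.IC k h) ≠ 0 :=
    differentIdeal_ne_bot
  have h2 := Ideal.finite_factors h1
  refine (h2.image (fun P => Pool.Agent.LibEnd77.Val8.ofHOS (k := k) (H := K) P)).subset ?_
  rintro v ⟨c, hc⟩
  obtain ⟨P, hP, hd⟩ := dvd_diff h hh v c hc
  exact ⟨P, hd, hP.symm⟩

end G5aux

theorem finite_branch (hK : IsFunctionField k K) (h : K) (hh : Transcendental k h) :
    {c : k | ∃ v : Place k K, 2 ≤ v.ord (h - algebraMap k K c)}.Finite := by
  refine ((G5aux.G5_ram hK h hh).biUnion (t := fun v => {c : k | 2 ≤ v.ord (h - algebraMap k K c)}) ?_).subset ?_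
  · intro v _
    apply Set.Subsingleton.finite
    intro c hc c' hc'
    have h1 : 2 ≤ v.ord (h - algebraMap k K c) := hc
    have h2 : 2 ≤ v.ord (h - algebraMap k K c') := hc'
    exact val_unique v (x := h) (by omega) (by omega)
  · rintro c ⟨v, hv⟩
    exact Set.mem_biUnion (show v ∈ {v : Place k K | ∃ c : k, 2 ≤ v.ord (h - algebraMap k K c)} from ⟨c, hv⟩) hv

/-- only finitely many places are ramified -/
theorem finite_ram (hK : IsFunctionField k K) (h : K) (hh : Transcendental k h) :
    {v : Place k K | ∃ c : k, 2 ≤ v.ord (h - algebraMap k K c)}.Finite := G5aux.G5_ram hK h hh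

end Pool.Agent.LibFP27
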