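import Pool.Agent.LibFP27.C1
import Pool.Agent.LibFP27.G1
import Pool.Agent.LibFP27.G5

/-!
[FP27 C3] The canonical divisor of a Galois Belyi covering.
(a) `unif`: `galois_trans` for `t`; `σ` fixes `t`. Apply it to `b`, `b - 1`, `b⁻¹` (`IntermediateField.adjoin k {b - 1} = IntermediateField.adjoin k {b} = adjoin k {b⁻¹}`): all zeros of `b` have one order `p0`, of `b - 1` one order `p1`, all poles one order `p ≥ 7`.
(b) `F_0`, `F_1`, `F` = divisors of zeros of `b`, `b - 1`, of poles of `b` (`finite_supp`), `F_0 - F`, `F_1 - F` principal. `D w`: at a pole `-p - 1`; otherwise with `c` the value of `b`: `w.ord (b - c) - 1`, which is `p0 - 1`, `p1 - 1`, and `0` for `c ≠ 0, 1`. So with `n = p0 p1 p`: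
`n D = (p0 - 1) p1 p F_0 + (p1 - 1) p0 p F_1 - (p + 1) p0 p1 F = lam F + (p0 - 1) p1 p (F_0 - F) + (p1 - 1) p0 p (F_1 - F)`, `lam = p0 p1 p - p1 p - p0 p - p0 p1`.
(c) `lam ≠ 0` for positive integers `p0`, `p1` and `p ≥ 7`. (`fp_smul`, `cls_fp_add`.)
-/

open scoped Classical

namespace Pool.Agent.LibFP27

open Pool.Agent.LibBH2
open Pool.Agent.LibQC8 (IsFunctionField Div deg IsPrincipal)

variable {k : Type} [Field k] [IsAlgClosed k] [CharZero k]
variable {L : Type} [Field L] [Algebra k L]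

theorem unif (hL : IsFunctionField k L) (t : L) (ht : Transcendental k t)
    (hG : IsGalois (IntermediateField.adjoin k {t}) L) (w w' : Place k L) (hw : 0 < w.ord t) (hw' : 0 < w'.ord t) :
    w'.ord t = w.ord t := by
  obtain ⟨s, hs⟩ := galois_trans hL t ht hG w w' hw hw'
  have h1 : s t = t := s.commutes ⟨t, IntermediateField.mem_adjoin_simple_self k t⟩
  rw [hs t, h1]

theorem lam_ne (p0 p1 p : ℤ) (h0 : 0 < p0) (h1 : 0 < p1) (hp : 7 ≤ p) :
    p0 * p1 * p - p1 * p - p0 * p - p0 * p1 ≠ 0 := by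
  rcases (show p0 = 1 ∨ 2 ≤ p0 by omega) with rfl | h0'
  · nlinarith
  rcases (show p1 = 1 ∨ 2 ≤ p1 by omega) with rfl | h1'
  · nlinarith
  rcases (show p0 = 2 ∨ 3 ≤ p0 by omega) with rfl | h0''
  · rcases (show p1 = 2 ∨ 3 ≤ p1 by omega) with rfl | h1''
    · omega
    · nlinarith
  · rcases (show p1 = 2 ∨ 3 ≤ p1 by omega) with rfl | h1''
    · nlinarith
    · have h2 : 0 ≤ (p0 - 3) * (p1 - 3) := mul_nonneg (by omega) (by omega)
      have h3 : 0 ≤ (p - 7) * (p0 * p1 - p0 - p1) := mul_nonneg (by omega) (by nlinarith)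
      nlinarith

namespace C3aux

omit [IsAlgClosed k] [CharZero k] in
theorem ord_sub_of_neg (w : Place k L) {b : L} (h : w.ord b < 0) (c : k) :
    w.ord (b - algebraMap k L c) = w.ord b := by
  have hb : b ≠ 0 := by
    rintro rfl
    rw [w.ord_zero] at h
    omega
  by_cases hc : c = 0
  · rw [hc, map_zero, sub_zero]
  have h1 : w.ord (-algebraMap k L c) = 0 := by rw [w.ord_neg, w.ord_const c hc]
  have h2 : -algebraMap k L c ≠ 0 := by simpa using hc
  rw [sub_eq_add_neg]
  exact (Place.ord_add_of_lt (v := w) hb h2 (by omega)).2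

omit [IsAlgClosed k] [CharZero k] in
theorem neg_of_ord_sub (w : Place k L) {b : L} {c : k} (h : w.ord (b - algebraMap k L c) < 0) :
    w.ord b < 0 := by
  have h1 := ord_sub_of_neg w h (-c)
  rw [map_neg, sub_neg_eq_add, sub_add_cancel] at h1
  omega

omit [IsAlgClosed k] [CharZero k] in
theorem adjoin_sub (b : L) (c : k) :
    IntermediateField.adjoin k {b - algebraMap k L c} = IntermediateField.adjoin k {b} := by
  apply le_antisymm
  · rw [IntermediateField.adjoin_simple_le_iff]
    exact sub_mem (IntermediateField.mem_adjoin_simple_self k b) (IntermediateField.algebraMap_mem _ c)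
  · rw [IntermediateField.adjoin_simple_le_iff]
    have := add_mem (IntermediateField.mem_adjoin_simple_self k (b - algebraMap k L c))
      (IntermediateField.algebraMap_mem (IntermediateField.adjoin k {b - algebraMap k L c}) c)
    rwa [sub_add_cancel] at this

omit [IsAlgClosed k] [CharZero k] in
/-- the divisor with the value `p` on the (finite) set of places satisfying `Q` -/
theorem exists_div (Q : Place k L → Prop) (hQ : {w | Q w}.Finite) (p : ℤ) :
    ∃ F : Div k L, ∀ w, F w = if Q w then p else 0 := by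
  classical
  refine ⟨Finsupp.ofSupportFinite (fun w => if Q w then p else 0) (hQ.subset ?_), fun w => rfl⟩
  intro w hw
  by_contra hc
  apply hw
  exact if_neg hc

end C3aux

theorem canon_fp (hL : IsFunctionField k L) (b : L) (hb : GalBelyi k b)
    (h7 : ∀ w : Place k L, w.ord b < 0 → w.ord b ≤ -7) (D : Div k L) (hD : IsCanon b D) :
    ∃ (p : ℤ) (F : Div k L) (n lam : ℤ), 0 < p ∧ (∀ w, F w = if w.ord b < 0 then p else 0) ∧ 0 < n ∧ lam ≠ 0 ∧
      n ^ 2 • cls k L L (fp D) = lam ^ 2 • cls k L L (fp F) := by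
  obtain ⟨hbt, hG, hbr⟩ := hb
  have ht1 : Transcendental k (b - algebraMap k L 1) := trans_sub hbt 1
  have hti : Transcendental k b⁻¹ := Pool.Agent.LibEnd77.Val8.transcendental_inv hbt
  have hG1 : IsGalois (IntermediateField.adjoin k {b - algebraMap k L 1}) L := by
    rw [C3aux.adjoin_sub]; exact hG
  have hGi : IsGalois (IntermediateField.adjoin k {b⁻¹}) L := by
    rw [Pool.Agent.LibEnd77.Val8.adjoin_inv]; exact hG
  obtain ⟨w0, hw0⟩ := exists_zero hL hbt
  obtain ⟨w1, hw1⟩ := exists_zero hL ht1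
  obtain ⟨w2, hw2⟩ := exists_pole hL hbt
  have hw2' : 0 < w2.ord b⁻¹ := by rw [w2.ord_inv]; omega
  obtain ⟨p0, hp0⟩ : ∃ p0, p0 = w0.ord b := ⟨_, rfl⟩
  obtain ⟨p1, hp1⟩ : ∃ p1, p1 = w1.ord (b - algebraMap k L 1) := ⟨_, rfl⟩
  obtain ⟨p, hp⟩ : ∃ p, p = w2.ord b⁻¹ := ⟨_, rfl⟩
  have h7p : 7 ≤ p := by
    rw [hp, w2.ord_inv]
    have := h7 w2 hw2
    omega
  have hu0 : ∀ w : Place k L, 0 < w.ord b → w.ord b = p0 := fun w hw => by
    rw [hp0]; exact unif hL b hbt hG w0 w hw0 hw
  have hu1 : ∀ w : Place k L, 0 < w.ord (b - algebraMap k L 1) → w.ord (b - algebraMap k L 1) = p1 :=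
    fun w hw => by rw [hp1]; exact unif hL _ ht1 hG1 w1 w hw1 hw
  have hu2 : ∀ w : Place k L, w.ord b < 0 → w.ord b = -p := fun w hw => by
    have h1 : w.ord b⁻¹ = w2.ord b⁻¹ := unif hL _ hti hGi w2 w hw2' (by rw [w.ord_inv]; omega)
    rw [hp, ← h1, w.ord_inv, neg_neg]
  rw [← hp0] at hw0
  rw [← hp1] at hw1
  have hf := finite_supp hL b
  have hf1 := finite_supp hL (b - algebraMap k L 1)
  obtain ⟨F, hF⟩ := C3aux.exists_div (fun w : Place k L => w.ord b < 0)
    (hf.subset fun w (hw : w.ord b < 0) => show w.ord b ≠ 0 by omega) p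
  obtain ⟨F0, hF0⟩ := C3aux.exists_div (fun w : Place k L => 0 < w.ord b)
    (hf.subset fun w (hw : 0 < w.ord b) => show w.ord b ≠ 0 by omega) p0
  obtain ⟨F1, hF1⟩ := C3aux.exists_div (fun w : Place k L => 0 < w.ord (b - algebraMap k L 1))
    (hf1.subset fun w (hw : 0 < w.ord (b - algebraMap k L 1)) =>
      show w.ord (b - algebraMap k L 1) ≠ 0 by omega) p1
  have hb0 : b ≠ 0 := by
    rintro rfl
    rw [w2.ord_zero] at hw2
    omega
  have hE0v : ∀ w : Place k L, (F0 - F) w = w.ord b := fun w => by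
    rw [Finsupp.sub_apply, hF0, hF]
    by_cases h : 0 < w.ord b
    · rw [if_pos h, if_neg (by omega), hu0 w h, sub_zero]
    · by_cases h' : w.ord b < 0
      · rw [if_neg h, if_pos h', hu2 w h', zero_sub]
      · rw [if_neg h, if_neg h']
        omega
  have hE1v : ∀ w : Place k L, (F1 - F) w = w.ord (b - algebraMap k L 1) := fun w => by
    rw [Finsupp.sub_apply, hF1, hF]
    by_cases h' : w.ord b < 0
    · have h2 := C3aux.ord_sub_of_neg w h' 1
      rw [if_neg (by omega), if_pos h', h2, hu2 w h', zero_sub]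
    · by_cases h : 0 < w.ord (b - algebraMap k L 1)
      · rw [if_pos h, if_neg h', hu1 w h, sub_zero]
      · rw [if_neg h, if_neg h', sub_zero]
        by_contra hc
        exact h' (C3aux.neg_of_ord_sub w (c := 1) (by omega))
  have hE0 : F0 - F ∈ Pool.Agent.LibQC8.PrinDiv k L := ⟨b, hb0, hE0v⟩
  have hE1 : F1 - F ∈ Pool.Agent.LibQC8.PrinDiv k L :=
    ⟨b - algebraMap k L 1, sub_ne b hbt 1, hE1v⟩
  obtain ⟨E, hEd⟩ : ∃ E, E = ((p0 - 1) * p1 * p) • (F0 - F) + ((p1 - 1) * p0 * p) • (F1 - F) := ⟨_, rfl⟩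
  have hE : IsPrincipal k L E := by
    have : E ∈ Pool.Agent.LibQC8.PrinDiv k L := by
      rw [hEd]
      exact add_mem (AddSubgroup.zsmul_mem _ hE0 _) (AddSubgroup.zsmul_mem _ hE1 _)
    exact this
  obtain ⟨n, hn⟩ : ∃ n, n = p0 * p1 * p := ⟨_, rfl⟩
  obtain ⟨lam, hlam⟩ : ∃ lam, lam = p0 * p1 * p - p1 * p - p0 * p - p0 * p1 := ⟨_, rfl⟩
  have key : n • D = lam • F + E := by
    ext w
    rw [hEd, Finsupp.add_apply, Finsupp.add_apply, Finsupp.smul_apply, Finsupp.smul_apply,
      Finsupp.smul_apply, Finsupp.smul_apply, hE0v, hE1v, hF, smul_eq_mul, smul_eq_mul, smul_eq_mul,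
      smul_eq_mul, hn, hlam]
    rcases hD w with ⟨h1, h2⟩ | ⟨c, h1, h2⟩
    · rw [h2, C3aux.ord_sub_of_neg w h1 1, if_pos h1, hu2 w h1]
      ring
    · have h3 : ¬ w.ord b < 0 := fun h3 => by
        rw [C3aux.ord_sub_of_neg w h3] at h1
        omega
      have h3' : ¬ w.ord (b - algebraMap k L 1) < 0 := fun h4 => h3 (C3aux.neg_of_ord_sub w h4)
      rw [if_neg h3, h2]
      by_cases hc0 : c = 0
      · subst hc0
        rw [map_zero, sub_zero] at h1 ⊢
        have h4 : w.ord (b - algebraMap k L 1) = 0 := by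
          by_contra h5
          have h6 := val_unique w (x := b) (c := 0) (c' := 1) (by rwa [map_zero, sub_zero]) (by omega)
          exact zero_ne_one h6
        rw [h4, hu0 w h1]
        ring
      · have h5 : w.ord b = 0 := by
          by_contra h5
          have h6 := val_unique w (x := b) (c := 0) (c' := c) (by rw [map_zero, sub_zero]; omega) h1
          exact hc0 h6.symm
        by_cases hc1 : c = 1
        · subst hc1
          rw [h5, hu1 w h1]
          ring
        · have h7 : w.ord (b - algebraMap k L 1) = 0 := by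
            by_contra h5
            have h6 := val_unique w (x := b) (c := 1) (c' := c) (by omega) h1
            exact hc1 h6.symm
          have h8 : w.ord (b - algebraMap k L c) = 1 := by
            have := hbr w c hc0 hc1
            omega
          rw [h5, h7, h8]
          ring
  refine ⟨p, F, n, lam, by omega, fun w => by rw [hF]; congr, ?_, ?_, ?_⟩
  · rw [hn]
    have : 0 < p := by omega
    positivity
  · rw [hlam]
    exact lam_ne p0 p1 p hw0 hw1 h7p
  · have h1 : cls k L L (fp (n • D)) = cls k L L (fp (lam • F)) := by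
      rw [key, cls_fp_add hL _ _ hE]
    rw [fp_smul, fp_smul, map_zsmul, map_zsmul] at h1
    exact h1

/-- the divisor of the differential `db` -/
theorem canon_exists (hL : IsFunctionField k L) (b : L) (hb : Transcendental k b) :
    ∃ D : Div k L, IsCanon b D := by
  classical
  have hex : ∀ v : Place k L, ∃ n : ℤ, OrdD b v n := fun v => by
    by_cases h : v.ord b < 0
    · exact ⟨_, Or.inl ⟨h, rfl⟩⟩
    · obtain ⟨c, hc⟩ := exists_val hL v (by omega) hb
      exact ⟨_, Or.inr ⟨c, hc, rfl⟩⟩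
  choose d hd using hex
  refine ⟨Finsupp.ofSupportFinite d (((finite_supp hL b).union (finite_ram hL b hb)).subset ?_), fun v => hd v⟩
  intro v hv
  rcases hd v with ⟨h1, h2⟩ | ⟨c, h1, h2⟩
  · left
    show v.ord b ≠ 0
    omega
  · right
    refine ⟨c, ?_⟩
    have h3 : d v ≠ 0 := hv
    omega

end Pool.Agent.LibFP27
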