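import Pool.Agent.LibFP27.Defs

/-!
Normal modular curves.
-/

open scoped Classical

namespace Pool.Agent.LibFP27

open Pool.Agent.LibBH2
open Pool.Agent.LibQC8 (IsFunctionField Div deg)

/-- The curve of `K` with the function `J` is the modular curve of a torsion free normal subgroup of finite index of
`PSL₂(ℤ)`, with its `j`-invariant `j = 1728 J`: the covering `J` of the projective line is Galois, its ramification indices are
`3` over `0` and `2` over `1`, and it is not ramified outside `0`, `1`, `∞`. -/
def Modular (k : Type) [Field k] {K : Type} [Field K] [Algebra k K] (J : K) : Prop :=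
  Transcendental k J ∧ IsGalois (IntermediateField.adjoin k {J}) K ∧
    (∀ v : Place k K, 0 < v.ord J → v.ord J = 3) ∧ (∀ v : Place k K, 0 < v.ord (J - 1) → v.ord (J - 1) = 2) ∧
    ∀ (v : Place k K) (c : k), c ≠ 0 → c ≠ 1 → v.ord (J - algebraMap k K c) ≤ 1

theorem Modular.galBelyi {k K : Type} [Field k] [Field K] [Algebra k K] {J : K} (h : Modular k J) : GalBelyi k J :=
  ⟨h.1, h.2.1, h.2.2.2.2⟩

end Pool.Agent.LibFP27
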