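import Pool.Agent.LibQC8.Defs

/-!
Zero-cycles on the product of two curves over an algebraically closed field `k`. A curve is given by its function field
`K` over `k` (`IsFunctionField k K`, LibQC8), its points are the places of `K` over `k`.
-/

open scoped Classical

namespace Pool.Agent.LibFP27

open Pool.Agent.LibBH2
open Pool.Agent.LibQC8 (IsFunctionField Div deg)

variable {k : Type} [Field k]

section maps

variable {K M : Type} [Field K] [Algebra k K] [Field M] [Algebra k M]

/-- the point `w` of the curve of `M` lies over the point `v` of the curve of `K`, with respect to the map of curves given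
by the embedding `i` of the function field `K` in `M` -/
def Over (i : K →ₐ[k] M) (w : Place k M) (v : Place k K) : Prop :=
  ∃ e : ℤ, 0 < e ∧ ∀ f : K, w.ord (i f) = e * v.ord f

/-- `P` is a finite map of the curve of `M` to the curve of `K` -/
def IsFin (P : Place k M → Place k K) : Prop := ∃ i : K →ₐ[k] M, ∀ w, Over i w (P w)

/-- `P` is a map of the curve of `M` to the curve of `K`, finite or constant -/
def IsMap (P : Place k M → Place k K) : Prop := IsFin P ∨ ∃ v, ∀ w, P w = v

end maps

/-- zero-cycles on the product of the curves of `K₁` and `K₂` -/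
abbrev Cyc (k K₁ K₂ : Type) [Field k] [Field K₁] [Field K₂] [Algebra k K₁] [Algebra k K₂] : Type :=
  (Place k K₁ × Place k K₂) →₀ ℤ

section chow

variable (k) (K₁ K₂ : Type) [Field K₁] [Field K₂] [Algebra k K₁] [Algebra k K₂]

/-- the push-forward of the divisor of the function `g` on the curve of `M` under a map to the product of the curves -/
def IsPrin (z : Cyc k K₁ K₂) : Prop :=
  ∃ (M : Type) (_ : Field M) (_ : Algebra k M) (g : M) (S : Finset (Place k M))
    (P : Place k M → Place k K₁) (Q : Place k M → Place k K₂),
    IsFunctionField k M ∧ g ≠ 0 ∧ (∀ w, w ∉ S → w.ord g = 0) ∧ IsMap P ∧ IsMap Q ∧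
      z = ∑ w ∈ S, Finsupp.single (P w, Q w) (w.ord g)

/-- rational equivalence of zero-cycles on the product of the curves of `K₁` and `K₂` -/
noncomputable def RatEq : AddSubgroup (Cyc k K₁ K₂) := AddSubgroup.closure {z | IsPrin k K₁ K₂ z}

/-- the group of zero-cycles modulo rational equivalence -/
def CH0 : Type := Cyc k K₁ K₂ ⧸ RatEq k K₁ K₂

noncomputable instance : AddCommGroup (CH0 k K₁ K₂) :=
  QuotientAddGroup.Quotient.addCommGroup (RatEq k K₁ K₂)

/-- the class of a zero-cycle -/
noncomputable def cls : Cyc k K₁ K₂ →+ CH0 k K₁ K₂ := QuotientAddGroup.mk' (RatEq k K₁ K₂)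

end chow

section cycles

variable {K₁ K₂ K : Type} [Field K₁] [Field K₂] [Field K] [Algebra k K₁] [Algebra k K₂] [Algebra k K]

/-- the product `D × E` of divisors -/
noncomputable def prodc (D : Div k K₁) (E : Div k K₂) : Cyc k K₁ K₂ :=
  D.sum fun v a => E.sum fun w b => Finsupp.single (v, w) (a * b)

/-- the image of a divisor in the diagonal -/
noncomputable def diag (D : Div k K) : Cyc k K K := D.mapDomain fun v => (v, v)

/-- `D × D - deg(D) Δ(D)`; for a canonical divisor `D` this is the cycle of Faber and Pandharipande -/
noncomputable def fp (D : Div k K) : Cyc k K K := prodc D D - deg k K D • diag D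

/-- `(p - q) × (r - s)` -/
noncomputable def box (p q : Place k K₁) (r s : Place k K₂) : Cyc k K₁ K₂ :=
  prodc (Finsupp.single p 1 - Finsupp.single q 1) (Finsupp.single r 1 - Finsupp.single s 1)

/-- `n` is the order at `v` of the differential `dβ` -/
def OrdD (β : K) (v : Place k K) (n : ℤ) : Prop :=
  (v.ord β < 0 ∧ n = v.ord β - 1) ∨ ∃ c : k, 0 < v.ord (β - algebraMap k K c) ∧ n = v.ord (β - algebraMap k K c) - 1

/-- `D` is the divisor of the differential `dβ` -/
def IsCanon (β : K) (D : Div k K) : Prop := ∀ v : Place k K, OrdD β v (D v)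

/-- `β` is a Galois covering of the projective line, not ramified outside `0`, `1` and `∞` -/
def GalBelyi (k : Type) [Field k] {K : Type} [Field K] [Algebra k K] (β : K) : Prop :=
  Transcendental k β ∧ IsGalois (IntermediateField.adjoin k {β}) K ∧
    ∀ (v : Place k K) (c : k), c ≠ 0 → c ≠ 1 → v.ord (β - algebraMap k K c) ≤ 1

end cycles

end Pool.Agent.LibFP27
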