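import Pool.Agent.LibFP27.DefM

/-!
Families of normal modular curves.
-/

open scoped Classical

namespace Pool.Agent.LibFP27

open Pool.Agent.LibBH2
open Pool.Agent.LibQC8 (IsFunctionField Div deg)

/-- a modular curve (its function field `K` over `k`) with its `j`-invariant `1728 J` -/
structure ModCurve (k : Type) [Field k] where
  K : Type
  [field : Field K]
  [algebra : Algebra k K]
  isFunctionField : IsFunctionField k K
  J : K
  modular : Modular k J

attribute [instance] ModCurve.field ModCurve.algebra

/-- there is a covering `X → Y` compatible with the `j`-invariants -/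
def ModCurve.Dominates {k : Type} [Field k] (X Y : ModCurve k) : Prop := ∃ i : Y.K →ₐ[k] X.K, i Y.J = X.J

/-- every normal modular curve is dominated by a curve of the family `S` -/
def CofinalM {k : Type} [Field k] (S : Set (ModCurve k)) : Prop := ∀ Y : ModCurve k, ∃ X ∈ S, X.Dominates Y

end Pool.Agent.LibFP27
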