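import Pool.Agent.LibFP27.Api

/-!
[FP27 G2] A compositum of unramified extensions is unramified.
Let `L` be generated by the images of the embeddings `j a : M → L`, `j a β = b` for all `a`, and let no place of `M` have `v.ord β ≥ 2`. Then `w.ord b ≤ 1` for all
places `w` of `L`. Proof. Let `w.ord b = e > 0`. Let `C` be the set of all `z ∈ L` such that for every `n` there is `g ∈ k(b)` (`IntermediateField.adjoin k {b}`) with
`z = g ∨ n ≤ w.ord (z - g)` (the closure of `k(b)`). (1) `C` is a subfield containing `k` (`+`, `*`, inverse as in a valued field; for the inverse: `z ≠ 0`, `w.ord (z - g) > w.ord z`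
gives `w.ord g = w.ord z`, `1/z - 1/g = (g - z)/(z g)`). (2) `j a z ∈ C` for `z ∈ M`: let `v` be the place of `M` below `w` with respect to `j a` (`over_exists`), so `0 < v.ord β`, hence `v.ord β = 1`. For `z` with
`0 ≤ v.ord z`, `z ≠ 0`, and every `n` there is a polynomial `P` with `z = P(β)` or `n ≤ v.ord (z - P(β))`: induction, `z = c + β z'` with `c` the value of `z` (`exists_val`; if `z` is constant trivial),
`z' = (z - c)/β` is regular since `v.ord β = 1`. For `v.ord z < 0` use `z β^m` (`β ∈ C`, `C` a field). Then `w.ord (j a z - P(b)) = e' * v.ord (z - P(β))`.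
(3) So `C = ⊤` (`hgen`). Take `u ∈ L` with `w.ord u = 1` (`exists_uniformizer`) and `g ∈ k(b)` with `u = g ∨ 2 ≤ w.ord (u - g)`: `w.ord g = 1`. (4) For `g ∈ k(b)`, `g ≠ 0`, `e ∣ w.ord g` (`w.ord b = e > 0`:
a polynomial `P(b) = b^m Q(b)`, `Q(0) ≠ 0`, has order `m e`). So `e = 1`.
-/

open scoped Classical

namespace Pool.Agent.LibFP27

open Pool.Agent.LibBH2
open Pool.Agent.LibQC8 (IsFunctionField Div deg)

variable {k : Type} [Field k] [IsAlgClosed k] [CharZero k]
variable {M L : Type} [Field M] [Algebra k M] [Field L] [Algebra k L]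

namespace G2aux

variable {K : Type} [Field K] [Algebra k K]

/-- `x` is zero or has order at least `n` -/
private def EE (w : Place k K) (n : ℤ) (x : K) : Prop := x = 0 ∨ n ≤ w.ord x

omit [IsAlgClosed k] [CharZero k] in
private theorem EE.mono {w : Place k K} {n m : ℤ} {x : K} (h : EE w n x) (hm : m ≤ n) : EE w m x :=
  h.imp id fun h => hm.trans h

omit [IsAlgClosed k] [CharZero k] in
private theorem EE.add {w : Place k K} {n : ℤ} {x y : K} (hx : EE w n x) (hy : EE w n y) :
    EE w n (x + y) := by
  by_cases h0 : x + y = 0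
  · exact Or.inl h0
  by_cases hx0 : x = 0
  · rwa [hx0, zero_add]
  by_cases hy0 : y = 0
  · rwa [hy0, add_zero]
  have h1 := hx.resolve_left hx0
  have h2 := hy.resolve_left hy0
  exact Or.inr (le_trans (le_min h1 h2) (w.ord_add x y hx0 hy0 h0))

omit [IsAlgClosed k] [CharZero k] in
private theorem EE.neg {w : Place k K} {n : ℤ} {x : K} (hx : EE w n x) : EE w n (-x) := by
  rcases hx with rfl | hx
  · exact Or.inl neg_zero
  · exact Or.inr (by rwa [w.ord_neg])

omit [IsAlgClosed k] [CharZero k] in
private theorem EE.sub {w : Place k K} {n : ℤ} {x y : K} (hx : EE w n x) (hy : EE w n y) :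
    EE w n (x - y) := by
  rw [sub_eq_add_neg]
  exact hx.add hy.neg

omit [IsAlgClosed k] [CharZero k] in
private theorem EE.mul {w : Place k K} {n m : ℤ} {x y : K} (hx : EE w n x) (hy : EE w m y) :
    EE w (n + m) (x * y) := by
  by_cases hx0 : x = 0
  · exact Or.inl (by rw [hx0, zero_mul])
  by_cases hy0 : y = 0
  · exact Or.inl (by rw [hy0, mul_zero])
  have h1 := hx.resolve_left hx0
  have h2 := hy.resolve_left hy0
  exact Or.inr (by rw [w.ord_mul x y hx0 hy0]; omega)

omit [IsAlgClosed k] [CharZero k] in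
private theorem EE.same {w : Place k K} {n : ℤ} {x g : K} (hx : x ≠ 0) (h : EE w n (x - g))
    (hn : w.ord x < n) : g ≠ 0 ∧ w.ord g = w.ord x := by
  have hg : g ≠ 0 := by
    rintro rfl
    rw [sub_zero] at h
    rcases h with h | h
    · exact hx h
    · omega
  refine ⟨hg, ?_⟩
  rcases h with h | h
  · rw [sub_eq_zero.1 h]
  · by_cases hd : x - g = 0
    · rw [sub_eq_zero.1 hd]
    have h1 : w.ord x ≤ w.ord g := by
      have e : x + -(x - g) = g := by ring
      have h2 := w.ord_add x (-(x - g)) hx (neg_ne_zero.2 hd) (by rw [e]; exact hg)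
      rw [e, w.ord_neg] at h2
      rcases le_total (w.ord x) (w.ord (x - g)) with h3 | h3
      · rwa [min_eq_left h3] at h2
      · omega
    have h2 : w.ord g ≤ w.ord x := by
      have e : g + (x - g) = x := by ring
      have h2 := w.ord_add g (x - g) hg hd (by rw [e]; exact hx)
      rw [e] at h2
      rcases le_total (w.ord g) (w.ord (x - g)) with h3 | h3
      · rwa [min_eq_left h3] at h2
      · rw [min_eq_right h3] at h2
        omega
    omega

/-- the closure of `k(b)` -/
private noncomputable def CC (w : Place k K) (b : K) : IntermediateField k K where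
  carrier := {z | ∀ n : ℤ, ∃ g ∈ IntermediateField.adjoin k {b}, EE w n (z - g)}
  add_mem' := by
    intro x y hx hy n
    obtain ⟨g, hg, h1⟩ := hx n
    obtain ⟨g', hg', h2⟩ := hy n
    refine ⟨g + g', add_mem hg hg', ?_⟩
    have e : x + y - (g + g') = (x - g) + (y - g') := by ring
    rw [e]
    exact h1.add h2
  mul_mem' := by
    intro x y hx hy n
    obtain ⟨g, hg, h1⟩ := hx (|n| + |w.ord x| + |w.ord y|)
    obtain ⟨g', hg', h2⟩ := hy (|n| + |w.ord x| + |w.ord y|)
    refine ⟨g * g', mul_mem hg hg', ?_⟩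
    have e : x * y - g * g' = x * (y - g') + (x - g) * g' := by ring
    have hx1 : EE w (-|w.ord x|) x := Or.inr (neg_abs_le _)
    have hy1 : EE w (-|w.ord y|) y := Or.inr (neg_abs_le _)
    have hn := le_abs_self n
    have hn0 := abs_nonneg n
    have a0 := abs_nonneg (w.ord x)
    have b0 := abs_nonneg (w.ord y)
    have hg1 : EE w (-|w.ord y|) g' := by
      have e' : g' = y - (y - g') := by ring
      rw [e']
      exact hy1.sub (h2.mono (by omega))
    rw [e]
    exact ((hx1.mul h2).mono (by omega)).add ((h1.mul hg1).mono (by omega))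
  algebraMap_mem' := by
    intro c n
    exact ⟨_, IntermediateField.algebraMap_mem _ c, Or.inl (sub_self _)⟩
  inv_mem' := by
    intro x hx n
    by_cases hx0 : x = 0
    · refine ⟨0, zero_mem _, Or.inl ?_⟩
      rw [hx0, inv_zero, sub_zero]
    obtain ⟨g, hg, h1⟩ := hx (|n| + 2 * |w.ord x| + 1)
    have hn := le_abs_self n
    have hn0 := abs_nonneg n
    have a0 := abs_nonneg (w.ord x)
    have a1 := le_abs_self (w.ord x)
    obtain ⟨hg0, hgo⟩ := h1.same hx0 (by omega)
    refine ⟨g⁻¹, inv_mem hg, ?_⟩
    have e : x⁻¹ - g⁻¹ = -(x - g) * (x⁻¹ * g⁻¹) := by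
      field_simp
      ring
    have h2 : EE w (-(2 * |w.ord x|)) (x⁻¹ * g⁻¹) := by
      refine Or.inr ?_
      rw [w.ord_mul _ _ (inv_ne_zero hx0) (inv_ne_zero hg0), w.ord_inv, w.ord_inv, hgo]
      omega
    rw [e]
    exact (h1.neg.mul h2).mono (by omega)

private theorem val_exists (hK : IsFunctionField k K) (v : Place k K) {z : K} (hz : EE v 0 z) :
    ∃ c : k, EE v 1 (z - algebraMap k K c) := by
  by_cases hz0 : z = 0
  · exact ⟨0, Or.inl (by rw [hz0, map_zero, sub_zero])⟩
  by_cases ht : Transcendental k z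
  · obtain ⟨c, hc⟩ := exists_val hK v (hz.resolve_left hz0) ht
    exact ⟨c, Or.inr hc⟩
  · obtain ⟨c, hc⟩ := Pool.Agent.LibEnd77.Val8.alg_const (not_not.1 ht)
    exact ⟨c, Or.inl (by rw [hc, sub_self])⟩

/-- approximation by polynomials in a uniformizer -/
private theorem approx (hK : IsFunctionField k K) (v : Place k K) {β : K} (hβ : v.ord β = 1)
    (n : ℕ) : ∀ z : K, EE v 0 z → ∃ P : Polynomial k, EE v n (z - Polynomial.aeval β P) := by
  have hβ0 : β ≠ 0 := by
    rintro rfl
    rw [v.ord_zero] at hβ
    omega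
  induction n with
  | zero =>
    intro z hz
    refine ⟨0, ?_⟩
    rw [map_zero, sub_zero]
    exact hz
  | succ n ih =>
    intro z hz
    obtain ⟨c, hc⟩ := val_exists hK v hz
    have hz' : EE v 0 ((z - algebraMap k K c) * β⁻¹) := by
      have h1 : EE v (-1) β⁻¹ := Or.inr (by rw [v.ord_inv, hβ])
      exact (hc.mul h1).mono (by omega)
    obtain ⟨P, hP⟩ := ih _ hz'
    refine ⟨Polynomial.C c + Polynomial.X * P, ?_⟩
    have e : z - Polynomial.aeval β (Polynomial.C c + Polynomial.X * P) =
        β * ((z - algebraMap k K c) * β⁻¹ - Polynomial.aeval β P) := by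
      rw [map_add, map_mul, Polynomial.aeval_C, Polynomial.aeval_X]
      field_simp
      ring
    rw [e]
    have h1 : EE v 1 β := Or.inr hβ.ge
    exact (h1.mul hP).mono (by push_cast; omega)

omit [IsAlgClosed k] [CharZero k] in
private theorem poly_reg (w : Place k K) {b : K} (hb : w.Reg b) (P : Polynomial k) :
    w.Reg (Polynomial.aeval b P) := by
  induction P using Polynomial.induction_on' with
  | add p q hp hq =>
    rw [map_add]
    exact hp.add hq
  | monomial m c =>
    rw [Polynomial.aeval_monomial]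
    exact (w.reg_const c).mul (hb.pow m)

omit [IsAlgClosed k] [CharZero k] in
private theorem poly_ord (w : Place k K) {b : K} (hb : 0 < w.ord b) (m : ℕ) :
    ∀ P : Polynomial k, P.natDegree ≤ m → Polynomial.aeval b P ≠ 0 →
      w.ord b ∣ w.ord (Polynomial.aeval b P) := by
  have hb0 : b ≠ 0 := by
    rintro rfl
    rw [w.ord_zero] at hb
    omega
  have hbr : w.Reg b := Or.inr hb.le
  induction m with
  | zero =>
    intro P hP h0
    rw [Polynomial.eq_C_of_natDegree_le_zero hP, Polynomial.aeval_C, Pool.Agent.LibEnd77.Val8.ord_const_eq]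
    exact dvd_zero _
  | succ m ih =>
    intro P hP h0
    have e : Polynomial.aeval b P = b * Polynomial.aeval b P.divX + algebraMap k K (P.coeff 0) := by
      conv_lhs => rw [← Polynomial.divX_mul_X_add P]
      rw [map_add, map_mul, Polynomial.aeval_X, Polynomial.aeval_C]
      ring
    by_cases hc : P.coeff 0 = 0
    · rw [hc, map_zero, add_zero] at e
      have h1 : Polynomial.aeval b P.divX ≠ 0 := by
        intro h
        rw [h, mul_zero] at e
        exact h0 e
      rw [e, w.ord_mul _ _ hb0 h1]
      refine dvd_add dvd_rfl (ih _ ?_ h1)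
      rw [Polynomial.natDegree_divX_eq_natDegree_tsub_one]
      omega
    · have h1 : w.Zer (Polynomial.aeval b P - algebraMap k K (P.coeff 0)) := by
        rw [e, add_sub_cancel_right]
        exact Place.Zer.mul_reg (Or.inr hb) (poly_reg w hbr _)
      rw [Place.ord_eq_zero_of_val h1 hc]
      exact dvd_zero _

omit [IsAlgClosed k] [CharZero k] in
private theorem field_ord (w : Place k K) {b : K} (hb : 0 < w.ord b) {g : K}
    (hg : g ∈ IntermediateField.adjoin k {b}) (hg0 : g ≠ 0) : w.ord b ∣ w.ord g := by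
  rw [IntermediateField.mem_adjoin_simple_iff] at hg
  obtain ⟨r, s, rfl⟩ := hg
  have hr : Polynomial.aeval b r ≠ 0 := fun h => hg0 (by rw [h, zero_div])
  have hs : Polynomial.aeval b s ≠ 0 := fun h => hg0 (by rw [h, div_zero])
  rw [w.ord_div _ _ hr hs]
  exact dvd_sub (poly_ord w hb _ r le_rfl hr) (poly_ord w hb _ s le_rfl hs)

end G2aux

open G2aux in
/-- a compositum of unramified extensions is unramified -/
theorem unram_fam {ι : Type} (M : ι → Type) [∀ a, Field (M a)] [∀ a, Algebra k (M a)]
    (hM : ∀ a, IsFunctionField k (M a)) (hL : IsFunctionField k L) (j : ∀ a, M a →ₐ[k] L) (β : ∀ a, M a) (b : L)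
    (hj : ∀ a, j a (β a) = b)
    (hgen : IntermediateField.adjoin k (⋃ a, Set.range (j a)) = ⊤)
    (hu : ∀ a, ∀ v : Place k (M a), v.ord (β a) ≤ 1) (w : Place k L) : w.ord b ≤ 1 := by
  by_contra hcon
  have he : 0 < w.ord b := by omega
  have hb0 : b ≠ 0 := by
    rintro rfl
    rw [w.ord_zero] at he
    omega
  have hbC : b ∈ CC w b := fun n => ⟨b, IntermediateField.mem_adjoin_simple_self k b,
    Or.inl (sub_self _)⟩
  have hmem : ∀ a (z : M a), j a z ∈ CC w b := by
    intro a
    obtain ⟨v, e, he0, hv⟩ := over_exists (hM a) hL (j a) w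
    have hβ1 : v.ord (β a) = 1 := by
      have h1 := hv (β a)
      rw [hj a] at h1
      have h2 := hu a v
      have h3 : 0 < v.ord (β a) := by
        by_contra h4
        have h5 : e * v.ord (β a) ≤ 0 := mul_nonpos_of_nonneg_of_nonpos he0.le (not_lt.1 h4)
        omega
      omega
    have hreg : ∀ z : M a, EE v 0 z → j a z ∈ CC w b := by
      intro z hz n
      obtain ⟨P, hP⟩ := approx (hM a) v hβ1 n.toNat z hz
      refine ⟨Polynomial.aeval b P, ?_, ?_⟩
      · exact IntermediateField.algebra_adjoin_le_adjoin k {b}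
          (Polynomial.aeval_mem_adjoin_singleton k b)
      · have e1 : j a z - Polynomial.aeval b P = j a (z - Polynomial.aeval (β a) P) := by
          rw [map_sub, ← Polynomial.aeval_algHom_apply, hj a]
        rw [e1]
        rcases hP with hP | hP
        · exact Or.inl (by rw [hP, map_zero])
        · refine Or.inr ?_
          rw [hv]
          have h1 : n ≤ (n.toNat : ℤ) := Int.self_le_toNat n
          have h2 : (0 : ℤ) ≤ (n.toNat : ℤ) := by positivity
          nlinarith
    intro z
    by_cases hz : EE v 0 z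
    · exact hreg z hz
    · have hz0 : z ≠ 0 := fun h => hz (Or.inl h)
      have hzn : v.ord z < 0 := by
        by_contra h
        exact hz (Or.inr (not_lt.1 h))
      have h1 : EE v 0 (z * (β a) ^ (-v.ord z).toNat) := by
        refine Or.inr ?_
        have hβ0 : β a ≠ 0 := by
          intro h0
          rw [h0, v.ord_zero] at hβ1
          omega
        rw [v.ord_mul _ _ hz0 (pow_ne_zero _ hβ0), v.ord_pow, hβ1]
        omega
      have h2 := hreg _ h1
      rw [map_mul, map_pow, hj a] at h2
      have h3 : j a z = (j a z * b ^ (-v.ord z).toNat) * (b ^ (-v.ord z).toNat)⁻¹ := by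
        rw [mul_assoc, mul_inv_cancel₀ (pow_ne_zero _ hb0), mul_one]
      rw [h3]
      exact mul_mem h2 (inv_mem (pow_mem hbC _))
  have htop : CC w b = ⊤ := by
    rw [eq_top_iff, ← hgen, IntermediateField.adjoin_le_iff]
    intro x hx
    rw [Set.mem_iUnion] at hx
    obtain ⟨a, z, rfl⟩ := hx
    exact hmem a z
  obtain ⟨u, hu1⟩ := w.exists_uniformizer
  have hu0 : u ≠ 0 := by
    rintro rfl
    rw [w.ord_zero] at hu1
    omega
  have huC : u ∈ CC w b := by
    rw [htop]
    trivial
  obtain ⟨g, hg, hug⟩ := huC 2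
  obtain ⟨hg0, hg1⟩ := hug.same hu0 (by omega)
  have h4 := field_ord w he hg hg0
  rw [hg1, hu1] at h4
  have h5 := Int.le_of_dvd one_pos h4
  omega

theorem unram_gen (hM : IsFunctionField k M) (hL : IsFunctionField k L) {ι : Type} (j : ι → M →ₐ[k] L) (β : M) (b : L)
    (hb : Transcendental k b) (hj : ∀ a, j a β = b)
    (hgen : IntermediateField.adjoin k (⋃ a, Set.range (j a)) = ⊤)
    (hu : ∀ v : Place k M, v.ord β ≤ 1) (w : Place k L) : w.ord b ≤ 1 :=
  unram_fam (fun _ => M) (fun _ => hM) hL j (fun _ => β) b hj hgen (fun _ => hu) w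

end Pool.Agent.LibFP27
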