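import Pool.Agent.LibFP27.Defs
import Pool.Agent.LibEnd77.ValA

/-!
[FP27 G3] Galois closures of function fields (characteristic `0`). Only Mathlib and `LibQC8/Defs`.
`exists_closure`: `F = k(β) ⊂ M` is finite (`Pool.Agent.LibEnd77.Val8.finite_adjoin`, import Pool.Agent.LibEnd77.ValC if you like), `L` = normal closure of `M / F` in an algebraic closure of `M`
(`IntermediateField.normalClosure F M (AlgebraicClosure M)` as a type), `ι = (M →ₐ[F] L)` (restricted to scalars `k`); the normal closure is generated by the images of the embeddings.
`exists_common`: `K₁` is a finite extension of `RatFunc k` by `X ↦ t₁`, `K₂` by `X ↦ t₂` (`t₁`, `t₂` transcendental: `RatFunc.liftAlgHom` or `IntermediateField.adjoin` isomorphisms);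
an algebraic closure `Ω` of `K₁` contains a copy of `K₂` over `RatFunc k` (`IsAlgClosed.lift`); `N` = normal closure of the compositum over the image of `RatFunc k`, which is
`IntermediateField.adjoin k {i₁ t₁}`; finite, separable (characteristic 0), normal.
-/

open scoped Classical

namespace Pool.Agent.LibFP27

open Pool.Agent.LibBH2
open Pool.Agent.LibQC8 (IsFunctionField Div deg)

variable {k : Type} [Field k] [IsAlgClosed k] [CharZero k]

omit [IsAlgClosed k] [CharZero k] in
private theorem G3_map_top {L : Type} [Field L] [Algebra k L] {M : Type} [Field M] [Algebra k M]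
    (β : M) (φ : IntermediateField.adjoin k {β} →ₐ[k] L) :
    φ.fieldRange = IntermediateField.adjoin k {φ (IntermediateField.AdjoinSimple.gen k β)} := by
  have h1 : IntermediateField.adjoin k {IntermediateField.AdjoinSimple.gen k β} =
      (⊤ : IntermediateField k (IntermediateField.adjoin k {β})) := by
    apply IntermediateField.lift_injective
    rw [IntermediateField.lift_adjoin_simple, IntermediateField.lift_top]
    rfl
  rw [AlgHom.fieldRange_eq_map, ← h1, IntermediateField.adjoin_map, Set.image_singleton]

theorem exists_closure {M : Type} [Field M] [Algebra k M] (hM : IsFunctionField k M) (β : M)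
    (hβ : Transcendental k β) :
    ∃ (L : Type) (_ : Field L) (_ : Algebra k L) (ι : Type) (_ : Nonempty ι) (j : ι → M →ₐ[k] L) (b : L),
      IsFunctionField k L ∧ (∀ a, j a β = b) ∧ Transcendental k b ∧ IsGalois (IntermediateField.adjoin k {b}) L ∧
        IntermediateField.adjoin k (⋃ a, Set.range (j a)) = ⊤ := by
  classical
  have hfin : FiniteDimensional (IntermediateField.adjoin k {β}) M :=
    Pool.Agent.LibEnd77.Val8.finite_adjoin hM hβ
  let F : IntermediateField k M := IntermediateField.adjoin k {β}
  let A : Type := AlgebraicClosure M
  have hfin' : FiniteDimensional F M := hfin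
  have : Algebra.IsAlgebraic F A := Algebra.IsAlgebraic.trans F M A
  have : IsAlgClosure F A := ⟨inferInstance, inferInstance⟩
  have : Normal F A := IsAlgClosure.normal F A
  have : CharZero F := charZero_of_injective_algebraMap (algebraMap k F).injective
  let N : IntermediateField F A := IntermediateField.normalClosure F M A
  have : Nonempty (M →ₐ[F] A) := ⟨IsScalarTower.toAlgHom F M A⟩
  have hN : Normal F N := inferInstanceAs (Normal F (IntermediateField.normalClosure F M A))
  have hNf : FiniteDimensional F N :=
    inferInstanceAs (FiniteDimensional F (IntermediateField.normalClosure F M A))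
  have hG : IsGalois F N := ⟨⟩
  have hle : ∀ (f : M →ₐ[F] A) (m : M), f m ∈ N := fun f m =>
    f.fieldRange_le_normalClosure ⟨m, rfl⟩
  let j : (M →ₐ[F] A) → M →ₐ[k] N := fun f =>
    (f.codRestrict N.toSubalgebra (hle f)).restrictScalars k
  have hj : ∀ f m, ((j f m : N) : A) = f m := fun f m => rfl
  let g : F := IntermediateField.AdjoinSimple.gen k β
  have hg : (g : M) = β := rfl
  let b : N := algebraMap F N g
  have hjb : ∀ f, j f β = b := by
    intro f
    apply Subtype.ext
    rw [hj]
    exact f.commutes g
  have hb : Transcendental k b := by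
    intro hcon
    apply hβ
    have f0 : M →ₐ[F] A := Classical.arbitrary _
    rw [← hjb f0] at hcon
    exact (isAlgebraic_algHom_iff (j f0) (j f0).injective).1 hcon
  let φ : F →ₐ[k] N := IsScalarTower.toAlgHom k F N
  have hφ : φ.fieldRange = IntermediateField.adjoin k {b} := G3_map_top β φ
  let e : F ≃ₐ[k] IntermediateField.adjoin k {b} :=
    (AlgEquiv.ofInjectiveField φ).trans (IntermediateField.equivOfEq hφ)
  have he : ∀ x : F, ((e x : IntermediateField.adjoin k {b}) : N) = algebraMap F N x := fun x => rfl
  have hcomp : (algebraMap (IntermediateField.adjoin k {b}) N).comp (e.toRingEquiv : F →+* _) =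
      ((RingEquiv.refl N : N ≃+* N) : N →+* N).comp (algebraMap F N) := by
    ext x
    rfl
  refine ⟨N, inferInstance, inferInstance, M →ₐ[F] A, inferInstance, j, b, ?_, hjb, hb, ?_, ?_⟩
  · refine ⟨b, hb, ?_⟩
    exact Module.Finite.of_equiv_equiv e.toRingEquiv (RingEquiv.refl N) hcomp
  · exact IsGalois.of_equiv_equiv hcomp
  · let S : IntermediateField k N := IntermediateField.adjoin k (⋃ a, Set.range (j a))
    have hS : ∀ f m, j f m ∈ S := fun f m =>
      IntermediateField.subset_adjoin k _ (Set.mem_iUnion.2 ⟨f, m, rfl⟩)
    have hF : ∀ x : F, algebraMap F N x ∈ S := by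
      intro x
      have f0 : M →ₐ[F] A := Classical.arbitrary _
      have h1 : algebraMap F N x = j f0 (x : M) := by
        apply Subtype.ext
        rw [hj]
        exact (f0.commutes x).symm
      rw [h1]
      exact hS _ _
    let S' : IntermediateField F N := { S.toSubfield with algebraMap_mem' := hF }
    have hle' : N ≤ IntermediateField.lift S' := by
      change IntermediateField.normalClosure F M A ≤ _
      rw [normalClosure_def]
      refine iSup_le fun f => ?_
      rintro _ ⟨m, rfl⟩
      exact (IntermediateField.mem_lift (j f m)).2 (hS f m)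
    rw [eq_top_iff]
    intro x _
    exact (IntermediateField.mem_lift x).1 (hle' x.2)

end Pool.Agent.LibFP27
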