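import Pool.Agent.LibFP27.Defs
import Pool.Agent.LibEnd77.ValA

/-!
[FP27 G4] A common Galois extension (characteristic `0`). Only Mathlib and `LibQC8/Defs` (LibEnd77/ValC may be imported: `Pool.Agent.LibEnd77.Val8.finite_adjoin`).
`K₁` is a finite extension of `RatFunc k` by `X ↦ t₁`, `K₂` by `X ↦ t₂` (`t₁`, `t₂` transcendental: `RatFunc.liftAlgHom` or `IntermediateField.adjoin` isomorphisms);
an algebraic closure `Ω` of `K₁` contains a copy of `K₂` over `RatFunc k` (`IsAlgClosed.lift`); `N` = normal closure (in `Ω`) of the compositum over the image of `RatFunc k`, which is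
`IntermediateField.adjoin k {i₁ t₁}`; finite, separable (characteristic 0), normal. (Or `N` = splitting field in `Ω` of the product of the minimal polynomials of primitive elements of the two extensions.)
-/

open scoped Classical

namespace Pool.Agent.LibFP27

open Pool.Agent.LibBH2
open Pool.Agent.LibQC8 (IsFunctionField Div deg)

variable {k : Type} [Field k] [IsAlgClosed k] [CharZero k]

namespace G4aux

private theorem lift {k : Type} [Field k] {K₂ Ω : Type} [Field K₂] [Algebra k K₂] [Field Ω] [Algebra k Ω]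
    [IsAlgClosed Ω] (t₂ : K₂) (t : Ω) (ht₂ : Transcendental k t₂) (ht : Transcendental k t)
    (halg : Algebra.IsAlgebraic (IntermediateField.adjoin k {t₂}) K₂) : ∃ i : K₂ →ₐ[k] Ω, i t₂ = t := by
  have hr : Set.range (fun _ : Unit => t₂) = {t₂} := by simp
  rw [← hr] at halg
  have h2 : AlgebraicIndependent k (fun _ : Unit => t₂) := algebraicIndependent_unique_type_iff.2 ht₂
  have h1 : AlgebraicIndependent k (fun _ : Unit => t) := algebraicIndependent_unique_type_iff.2 ht
  let φ : IntermediateField.adjoin k (Set.range (fun _ : Unit => t₂)) →ₐ[k] Ω :=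
    (IntermediateField.val _).comp (h2.aevalEquivField.symm.trans h1.aevalEquivField).toAlgHom
  have hmem : t₂ ∈ IntermediateField.adjoin k (Set.range (fun _ : Unit => t₂)) :=
    IntermediateField.subset_adjoin k _ ⟨(), rfl⟩
  have hφ : φ ⟨t₂, hmem⟩ = t := by
    have e1 : h2.aevalEquivField (algebraMap (MvPolynomial Unit k) (FractionRing (MvPolynomial Unit k))
        (MvPolynomial.X ())) = ⟨t₂, hmem⟩ := by
      apply Subtype.ext
      rw [h2.aevalEquivField_algebraMap_apply_coe, MvPolynomial.aeval_X]
    have e2 : h2.aevalEquivField.symm ⟨t₂, hmem⟩ =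
        algebraMap (MvPolynomial Unit k) (FractionRing (MvPolynomial Unit k)) (MvPolynomial.X ()) := by
      rw [← e1, AlgEquiv.symm_apply_apply]
    show ((h1.aevalEquivField (h2.aevalEquivField.symm ⟨t₂, hmem⟩) : IntermediateField.adjoin k _) : Ω) = t
    rw [e2, h1.aevalEquivField_algebraMap_apply_coe, MvPolynomial.aeval_X]
  let _ : Algebra (IntermediateField.adjoin k (Set.range (fun _ : Unit => t₂))) Ω := φ.toRingHom.toAlgebra
  have : IsScalarTower k (IntermediateField.adjoin k (Set.range (fun _ : Unit => t₂))) Ω :=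
    IsScalarTower.of_algebraMap_eq fun a => (φ.commutes a).symm
  let i : K₂ →ₐ[IntermediateField.adjoin k (Set.range (fun _ : Unit => t₂))] Ω := IsAlgClosed.lift
  exact ⟨i.restrictScalars k, (i.commutes ⟨t₂, hmem⟩).trans hφ⟩

private theorem gens {k : Type} [Field k] {K : Type} [Field K] [Algebra k K] (h : IsFunctionField k K) :
    ∃ S : Finset K, IntermediateField.adjoin k (S : Set K) = ⊤ := by
  have h1 := Pool.Agent.LibEnd77.Val8.essFinite h
  exact IntermediateField.fg_top_iff.2 h1

end G4aux

open G4aux in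
theorem exists_common {K₁ K₂ : Type} [Field K₁] [Algebra k K₁] [Field K₂] [Algebra k K₂] (h₁ : IsFunctionField k K₁)
    (h₂ : IsFunctionField k K₂) (t₁ : K₁) (t₂ : K₂) (ht₁ : Transcendental k t₁) (ht₂ : Transcendental k t₂) :
    ∃ (N : Type) (_ : Field N) (_ : Algebra k N) (i₁ : K₁ →ₐ[k] N) (i₂ : K₂ →ₐ[k] N),
      IsFunctionField k N ∧ i₁ t₁ = i₂ t₂ ∧ IsGalois (IntermediateField.adjoin k {i₁ t₁}) N := by
  have hf1 : FiniteDimensional (IntermediateField.adjoin k {t₁}) K₁ :=
    Pool.Agent.LibEnd77.Val8.finite_adjoin h₁ ht₁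
  have hf2 : FiniteDimensional (IntermediateField.adjoin k {t₂}) K₂ :=
    Pool.Agent.LibEnd77.Val8.finite_adjoin h₂ ht₂
  let j₁ : K₁ →ₐ[k] AlgebraicClosure K₁ := IsScalarTower.toAlgHom k K₁ (AlgebraicClosure K₁)
  obtain ⟨t, htdef⟩ : ∃ t : AlgebraicClosure K₁, t = j₁ t₁ := ⟨_, rfl⟩
  have ht : Transcendental k t := by
    intro hcon
    rw [htdef, isAlgebraic_algHom_iff j₁ j₁.injective] at hcon
    exact ht₁ hcon
  obtain ⟨j₂, hj₂⟩ := lift t₂ t ht₂ ht inferInstance
  obtain ⟨S₁, hS₁⟩ := gens h₁
  obtain ⟨S₂, hS₂⟩ := gens h₂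
  let F : IntermediateField k (AlgebraicClosure K₁) := IntermediateField.adjoin k {t}
  -- the closure is algebraic over `F`
  have hFmap : F = (IntermediateField.adjoin k {t₁}).map j₁ := by
    rw [IntermediateField.adjoin_map, Set.image_singleton, ← htdef]
  have halg : Algebra.IsAlgebraic F (AlgebraicClosure K₁) := by
    have hmem : ∀ x : IntermediateField.adjoin k {t₁}, j₁ x ∈ F := by
      intro x
      rw [hFmap]
      exact ⟨x, x.2, rfl⟩
    let f : IntermediateField.adjoin k {t₁} →+* F :=
      RingHom.codRestrict ((j₁ : K₁ →+* AlgebraicClosure K₁).comp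
        (algebraMap (IntermediateField.adjoin k {t₁}) K₁)) F hmem
    have hA : Algebra.IsAlgebraic (IntermediateField.adjoin k {t₁}) (AlgebraicClosure K₁) :=
      Algebra.IsAlgebraic.trans (IntermediateField.adjoin k {t₁}) K₁ (AlgebraicClosure K₁)
    exact Algebra.IsAlgebraic.ringHom_of_comp_eq (R := IntermediateField.adjoin k {t₁})
      (A := AlgebraicClosure K₁) f (RingHom.id (AlgebraicClosure K₁))
      (RingHom.injective f) Function.surjective_id (RingHom.ext fun x => rfl)
  let S : Set (AlgebraicClosure K₁) := j₁ '' (S₁ : Set K₁) ∪ j₂ '' (S₂ : Set K₂)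
  have hSfin : Finite S := ((S₁.finite_toSet.image _).union (S₂.finite_toSet.image _)).to_subtype
  let N₀ : IntermediateField F (AlgebraicClosure K₁) := IntermediateField.adjoin F S
  have hN₀ : FiniteDimensional F N₀ := IntermediateField.finiteDimensional_adjoin fun x _ =>
    (Algebra.IsAlgebraic.isAlgebraic x).isIntegral
  have hcl : IsAlgClosure F (AlgebraicClosure K₁) := ⟨inferInstance, halg⟩
  have hnorm : Normal F (AlgebraicClosure K₁) := inferInstance
  let N : IntermediateField F (AlgebraicClosure K₁) := IntermediateField.normalClosure F N₀ (AlgebraicClosure K₁)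
  have hNfin : FiniteDimensional F N := inferInstance
  have hNnorm : Normal F N := inferInstance
  have hle : N₀ ≤ N := IntermediateField.le_normalClosure N₀
  have hm1 : ∀ x : K₁, j₁ x ∈ N := by
    have h : (⊤ : IntermediateField k K₁) ≤ (N.restrictScalars k).comap j₁ := by
      rw [← hS₁, IntermediateField.adjoin_le_iff]
      intro x hx
      exact hle (IntermediateField.subset_adjoin F S (Or.inl ⟨x, hx, rfl⟩))
    exact fun x => h (IntermediateField.mem_top (x := x))
  have hm2 : ∀ x : K₂, j₂ x ∈ N := by
    have h : (⊤ : IntermediateField k K₂) ≤ (N.restrictScalars k).comap j₂ := by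
      rw [← hS₂, IntermediateField.adjoin_le_iff]
      intro x hx
      exact hle (IntermediateField.subset_adjoin F S (Or.inr ⟨x, hx, rfl⟩))
    exact fun x => h (IntermediateField.mem_top (x := x))
  let i₁ : K₁ →ₐ[k] N :=
    { RingHom.codRestrict (j₁ : K₁ →+* AlgebraicClosure K₁) N hm1 with
      commutes' := fun a => Subtype.ext (j₁.commutes a) }
  let i₂ : K₂ →ₐ[k] N :=
    { RingHom.codRestrict (j₂ : K₂ →+* AlgebraicClosure K₁) N hm2 with
      commutes' := fun a => Subtype.ext (j₂.commutes a) }
  have hit : ((i₁ t₁ : N) : AlgebraicClosure K₁) = t := htdef.symm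
  let vk : N →ₐ[k] AlgebraicClosure K₁ := { (N.val : N →+* AlgebraicClosure K₁) with commutes' := fun a => rfl }
  let A' : IntermediateField k N := IntermediateField.adjoin k {i₁ t₁}
  have hA : F = A'.map vk := by
    show IntermediateField.adjoin k {t} = (IntermediateField.adjoin k {i₁ t₁}).map vk
    rw [IntermediateField.adjoin_map, Set.image_singleton]
    exact congrArg (fun z => IntermediateField.adjoin k {z}) hit.symm
  let e : F ≃ₐ[k] A' := (IntermediateField.equivOfEq hA).trans (IntermediateField.equivMap A' vk).symm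
  have hcomp : (algebraMap A' N).comp ((e : F ≃+* A') : F →+* A') =
      ((RingEquiv.refl N : N ≃+* N) : N →+* N).comp (algebraMap F N) := by
    ext x
    show vk ((e x : A') : N) = (x : AlgebraicClosure K₁)
    have h1 : IntermediateField.equivMap A' vk (e x) = IntermediateField.equivOfEq hA x := by
      show IntermediateField.equivMap A' vk ((IntermediateField.equivMap A' vk).symm
        (IntermediateField.equivOfEq hA x)) = _
      rw [AlgEquiv.apply_symm_apply]
    have h2 := congrArg Subtype.val h1
    exact h2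
  have hc0 : CharZero F := charZero_of_injective_algebraMap (algebraMap k F).injective
  have hgal : IsGalois F N := ⟨⟩
  refine ⟨N, inferInstance, inferInstance, i₁, i₂, ⟨i₁ t₁, ?_, ?_⟩, Subtype.ext (hit.trans hj₂.symm), ?_⟩
  · intro hcon
    have h1 : IsAlgebraic k (vk (i₁ t₁)) := (isAlgebraic_algHom_iff vk vk.injective).2 hcon
    rw [show vk (i₁ t₁) = t from hit] at h1
    exact ht h1
  · exact Module.Finite.of_equiv_equiv (e : F ≃+* A') (RingEquiv.refl N) hcomp
  · exact IsGalois.of_equiv_equiv (f := (e : F ≃+* A')) (g := RingEquiv.refl N) hcomp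

end Pool.Agent.LibFP27
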