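import Pool.Agent.LibFP27.Api

/-!
[FP27 G6] Functions with one pole (Riemann).
Proof. Take `u ∈ K` with `v.ord u > 0`, `x = u⁻¹`, `N = [K : k(x)]`. The places with `0 < w.ord u` are `v = v_1, ..., v_r`, of orders `e_i`, `∑ e_i = N` (`sum_zeros` in Api). Take a basis `ω_1, ..., ω_N` of `K` over `k(x)` integral over `k[x]`: the `ω_j` are regular at all places where `x` is regular, that is outside the `v_i`; let `c` be such that
`- c ≤ v_i.ord ω_j` for all `i, j`. For every `n` the functions `∑_j f_j(x) ω_j`, `f_j ∈ k[X]` of degree `≤ n`, form a `k`-vector space `V_n` of dimension `N (n + 1)` (independence of the `ω_j` over `k(x)`), regular outside the `v_i`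
and of order `≥ - (n e_i + c)` at `v_i`. The subspace of those with order `≥ 0` at `v_2, ..., v_r` has codimension at most `∑_{i ≥ 2} (n e_i + c)` (for a place `w` and an integer `m`, `{f : m ≤ w.ord f}/{f : m + 1 ≤ w.ord f}` has dimension `≤ 1` over `k`, since every
regular function has a value in `k`, `exists_val`). So its dimension is `≥ N (n + 1) - n (N - e_1) - (r - 1) c ≥ n - (r - 1) c`, which is `≥ 2` for large `n`; a function in it which is not constant has no pole outside `v`, so it has
a pole at `v` (`exists_pole`).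
-/

open scoped Classical

namespace Pool.Agent.LibFP27

open Pool.Agent.LibBH2
open Pool.Agent.LibQC8 (IsFunctionField Div deg)

namespace G6aux

section

variable {k : Type} [Field k] {K : Type} [Field K] [Algebra k K]

/-- the functions of order at least `a` at `w` -/
def Rg (w : Place k K) (a : ℤ) : Submodule k K where
  carrier := {f | f = 0 ∨ a ≤ w.ord f}
  add_mem' := by
    intro f g hf hg
    by_cases h0 : f + g = 0
    · exact Or.inl h0
    by_cases hf0 : f = 0
    · rw [hf0, zero_add]
      exact hg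
    by_cases hg0 : g = 0
    · rw [hg0, add_zero]
      exact hf
    exact Or.inr (le_trans (le_min (hf.resolve_left hf0) (hg.resolve_left hg0))
      (w.ord_add f g hf0 hg0 h0))
  zero_mem' := Or.inl rfl
  smul_mem' := by
    intro c f hf
    by_cases hc : c = 0
    · left
      rw [hc, zero_smul]
    by_cases hf0 : f = 0
    · left
      rw [hf0, smul_zero]
    right
    rw [Algebra.smul_def, w.ord_mul _ _ (by simpa using hc) hf0, w.ord_const c hc, zero_add]
    exact hf.resolve_left hf0

theorem mem_Rg {w : Place k K} {a : ℤ} {f : K} : f ∈ Rg w a ↔ f = 0 ∨ a ≤ w.ord f := Iff.rfl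

theorem Rg_anti (w : Place k K) {a a' : ℤ} (h : a ≤ a') : Rg w a' ≤ Rg w a :=
  fun _ hf => hf.imp id h.trans

theorem step [IsAlgClosed k] (hK : IsFunctionField k K) (w : Place k K) (a : ℤ)
    (V : Submodule k K) [FiniteDimensional k V] (hV : V ≤ Rg w a) :
    Module.finrank k V ≤ Module.finrank k (V ⊓ Rg w (a + 1) : Submodule k K) + 1 := by
  obtain ⟨t, ht⟩ := w.exists_uniformizer
  have ht0 : t ≠ 0 := by
    rintro rfl
    rw [w.ord_zero] at ht
    omega
  have hreg : ∀ f : V, w.Reg ((f : K) * t ^ (-a)) := by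
    intro f
    by_cases h0 : (f : K) = 0
    · left
      rw [h0, zero_mul]
    · right
      have h1 := (hV f.2).resolve_left h0
      rw [w.ord_mul _ _ h0 (zpow_ne_zero _ ht0), w.ord_zpow, ht]
      linarith
  choose l hl using fun f : V => Pool.Agent.LibEnd77.Val8.exists_val hK w (hreg f)
  let Λ : V →ₗ[k] k :=
    { toFun := l
      map_add' := fun f g => Place.val_unique (hl (f + g)) (by
        have h1 := Place.val_add (hl f) (hl g)
        have e : ((f + g : V) : K) * t ^ (-a) = (f : K) * t ^ (-a) + (g : K) * t ^ (-a) := by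
          rw [Submodule.coe_add]
          ring
        rw [e]
        exact h1)
      map_smul' := fun c f => Place.val_unique (hl (c • f)) (by
        have h1 := Place.val_mul (w.val_const c) (hl f)
        have e : ((c • f : V) : K) * t ^ (-a) = algebraMap k K c * ((f : K) * t ^ (-a)) := by
          rw [Submodule.coe_smul, Algebra.smul_def]
          ring
        rw [e]
        exact h1) }
  have h1 := Λ.finrank_range_add_finrank_ker
  have h2 : Module.finrank k (LinearMap.range Λ) ≤ 1 := by
    have := Submodule.finrank_le (LinearMap.range Λ)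
    rwa [Module.finrank_self] at this
  have h3 : Module.finrank k (LinearMap.ker Λ) ≤
      Module.finrank k (V ⊓ Rg w (a + 1) : Submodule k K) := by
    rw [← Submodule.finrank_map_subtype_eq V (LinearMap.ker Λ)]
    have : FiniteDimensional k (V ⊓ Rg w (a + 1) : Submodule k K) :=
      Submodule.finiteDimensional_inf_left V _
    refine Submodule.finrank_mono ?_
    rintro _ ⟨f, hf, rfl⟩
    refine ⟨f.2, ?_⟩
    have hf' : l f = 0 := hf
    have h4 := hl f
    rw [hf', map_zero, sub_zero] at h4
    show (f : K) = 0 ∨ a + 1 ≤ w.ord (f : K)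
    by_cases h0 : (f : K) = 0
    · exact Or.inl h0
    · right
      rcases h4 with h4 | h4
      · exact absurd h4 (mul_ne_zero h0 (zpow_ne_zero _ ht0))
      · rw [w.ord_mul _ _ h0 (zpow_ne_zero _ ht0), w.ord_zpow, ht] at h4
        linarith
  omega

theorem steps [IsAlgClosed k] (hK : IsFunctionField k K) (w : Place k K) (a : ℤ)
    (V : Submodule k K) [FiniteDimensional k V] (hV : V ≤ Rg w a) (j : ℕ) :
    Module.finrank k V ≤ Module.finrank k (V ⊓ Rg w (a + j) : Submodule k K) + j := by
  induction j with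
  | zero =>
    have e : V ⊓ Rg w (a + ((0 : ℕ) : ℤ)) = V := by
      rw [Nat.cast_zero, add_zero]
      exact inf_eq_left.2 hV
    rw [e]
    omega
  | succ j ih =>
    have : FiniteDimensional k (V ⊓ Rg w (a + j) : Submodule k K) :=
      Submodule.finiteDimensional_inf_left V _
    have h1 := step hK w (a + j) (V ⊓ Rg w (a + j)) inf_le_right
    have h2 : Module.finrank k ((V ⊓ Rg w (a + j)) ⊓ Rg w (a + j + 1) : Submodule k K) ≤
        Module.finrank k (V ⊓ Rg w (a + ((j + 1 : ℕ) : ℤ)) : Submodule k K) := by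
      have : FiniteDimensional k (V ⊓ Rg w (a + ((j + 1 : ℕ) : ℤ)) : Submodule k K) :=
        Submodule.finiteDimensional_inf_left V _
      refine Submodule.finrank_mono ?_
      have e : a + ((j + 1 : ℕ) : ℤ) = a + j + 1 := by
        push_cast
        ring
      rw [e]
      exact inf_le_inf_right _ inf_le_left
    omega

theorem multi [IsAlgClosed k] (hK : IsFunctionField k K) (j : Place k K → ℕ)
    (V : Submodule k K) [FiniteDimensional k V] (T : Finset (Place k K))
    (hV : ∀ w ∈ T, V ≤ Rg w (-(j w : ℤ))) :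
    ∃ U : Submodule k K, U ≤ V ∧ (∀ w ∈ T, U ≤ Rg w 0) ∧
      Module.finrank k V ≤ Module.finrank k U + ∑ w ∈ T, j w := by
  induction T using Finset.induction_on with
  | empty => exact ⟨V, le_rfl, fun w hw => absurd hw (Finset.notMem_empty w), by simp⟩
  | insert w T hw ih =>
    obtain ⟨U, hUV, hUT, hU⟩ := ih fun w' hw' => hV w' (Finset.mem_insert_of_mem hw')
    have : FiniteDimensional k U := Submodule.finiteDimensional_of_le hUV
    have h1 := steps hK w (-(j w : ℤ)) U (hUV.trans (hV w (Finset.mem_insert_self _ _))) (j w)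
    rw [neg_add_cancel] at h1
    refine ⟨U ⊓ Rg w 0, inf_le_left.trans hUV, fun w' hw' => ?_, ?_⟩
    · rcases Finset.mem_insert.1 hw' with rfl | hw'
      · exact inf_le_right
      · exact inf_le_left.trans (hUT w' hw')
    · rw [Finset.sum_insert hw]
      omega

theorem lin_pow {x : K} (hx : Transcendental k x) (E : IntermediateField k K) (g : E)
    (hg : (g : K) = x) (n : ℕ) : LinearIndependent k (fun i : Fin n => g ^ (i : ℕ)) := by
  rw [Fintype.linearIndependent_iff]
  intro c hc i
  have h1 : Polynomial.aeval x (∑ i : Fin n, Polynomial.C (c i) * Polynomial.X ^ (i : ℕ)) = 0 := by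
    rw [map_sum]
    have h2 := congrArg (fun z : E => (z : K)) hc
    simp only [ZeroMemClass.coe_zero] at h2
    rw [← h2]
    have h3 : (((∑ i : Fin n, c i • g ^ (i : ℕ)) : E) : K) = ∑ i : Fin n, c i • x ^ (i : ℕ) := by
      rw [← hg]
      push_cast
      rfl
    rw [h3]
    refine Finset.sum_congr rfl fun i _ => ?_
    rw [map_mul, map_pow, Polynomial.aeval_C, Polynomial.aeval_X, Algebra.smul_def]
  have h4 := (transcendental_iff.1 hx) _ h1
  have h5 := congrArg (fun p => Polynomial.coeff p (i : ℕ)) h4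
  simp only [Polynomial.finsetSum_coeff, Polynomial.coeff_C_mul, Polynomial.coeff_X_pow,
    Polynomial.coeff_zero] at h5
  rw [Finset.sum_eq_single i] at h5
  · simpa using h5
  · intro b _ hb
    rw [if_neg, mul_zero]
    intro h
    exact hb (Fin.ext h.symm)
  · intro h
    exact absurd (Finset.mem_univ _) h

end

end G6aux

variable {k : Type} [Field k] [IsAlgClosed k] [CharZero k]
variable {K : Type} [Field K] [Algebra k K]

open scoped IntermediateField.algebraAdjoinAdjoin in
theorem exists_one_pole (hK : IsFunctionField k K) (v : Place k K) :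
    ∃ t : K, v.ord t < 0 ∧ ∀ w : Place k K, w ≠ v → 0 ≤ w.ord t := by
  obtain ⟨u, hu⟩ := v.exists_uniformizer
  have hutr : Transcendental k u := trans_of_ord v (by rw [hu]; norm_num)
  have hxtr : Transcendental k u⁻¹ := Pool.Agent.LibEnd77.Val8.transcendental_inv hutr
  have hu0 : u ≠ 0 := by
    rintro rfl
    rw [v.ord_zero] at hu
    omega
  obtain ⟨x, hxdef⟩ : ∃ x : K, x = u⁻¹ := ⟨_, rfl⟩
  rw [← hxdef] at hxtr
  have hx0 : x ≠ 0 := by
    rw [hxdef]
    exact inv_ne_zero hu0
  have hfd : FiniteDimensional (IntermediateField.adjoin k {x}) K := finite_adj hK hxtr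
  have hfin : {w : Place k K | 0 < w.ord u}.Finite :=
    (finite_supp hK u).subset fun w hw => (ne_of_gt hw : w.ord u ≠ 0)
  obtain ⟨S, hS⟩ : ∃ S : Finset (Place k K), ∀ w, w ∈ S ↔ 0 < w.ord u :=
    ⟨hfin.toFinset, fun w => by rw [Set.Finite.mem_toFinset]; exact Iff.rfl⟩
  have hvS : v ∈ S := (hS v).2 (by rw [hu]; norm_num)
  have hsum := sum_zeros hK hutr S hS
  have hN : Module.finrank (IntermediateField.adjoin k {x}) K =
      Module.finrank (IntermediateField.adjoin k {u}) K := by
    rw [hxdef, Pool.Agent.LibEnd77.Val8.adjoin_inv]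
  rw [← hN] at hsum
  obtain ⟨s, b, hb⟩ := FiniteDimensional.exists_is_basis_integral (Algebra.adjoin k {x})
    (IntermediateField.adjoin k {x}) K
  have hcard : Module.finrank (IntermediateField.adjoin k {x}) K = Fintype.card s :=
    Module.finrank_eq_card_basis b
  have hb0 : ∀ i, b i ≠ 0 := fun i => b.ne_zero i
  -- orders of x
  have hordx : ∀ w : Place k K, w.ord x = - w.ord u := fun w => by rw [hxdef, w.ord_inv]
  let e : Place k K → ℕ := fun w => (w.ord u).toNat
  have he : ∀ w ∈ S, ((e w : ℕ) : ℤ) = w.ord u := fun w hw => Int.toNat_of_nonneg ((hS w).1 hw).le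
  let c : ℕ := (S ×ˢ (Finset.univ : Finset s)).sup (fun p => (p.1.ord (b p.2)).natAbs)
  have hc : ∀ w ∈ S, ∀ i : s, -(c : ℤ) ≤ w.ord (b i) := by
    intro w hw i
    have h1 : (w.ord (b i)).natAbs ≤ c :=
      Finset.le_sup (f := fun p : Place k K × s => (p.1.ord (b p.2)).natAbs) (b := (w, i))
        (Finset.mem_product.2 ⟨hw, Finset.mem_univ _⟩)
    omega
  obtain ⟨n, hn⟩ : ∃ n : ℕ, n = S.card * c + 2 := ⟨_, rfl⟩
  -- the space V
  let g : IntermediateField.adjoin k {x} := IntermediateField.AdjoinSimple.gen k x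
  have hg : (g : K) = x := IntermediateField.AdjoinSimple.coe_gen k x
  have hlin : LinearIndependent k (fun p : Fin (n + 1) × s => (g ^ (p.1 : ℕ)) • b p.2) :=
    linearIndependent_smul (G6aux.lin_pow hxtr _ g hg (n + 1)) b.linearIndependent
  obtain ⟨V, hVdef⟩ : ∃ V : Submodule k K, V = Submodule.span k
    (Set.range (fun p : Fin (n + 1) × s => (g ^ (p.1 : ℕ)) • b p.2)) := ⟨_, rfl⟩
  have hVfin : FiniteDimensional k V := by
    rw [hVdef]
    exact FiniteDimensional.span_of_finite k (Set.finite_range _)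
  have hVrank : Module.finrank k V = (n + 1) * Fintype.card s := by
    rw [hVdef, finrank_span_eq_card hlin, Fintype.card_prod, Fintype.card_fin]
  have hsmul : ∀ p : Fin (n + 1) × s, (g ^ (p.1 : ℕ)) • b p.2 = x ^ (p.1 : ℕ) * b p.2 := by
    intro p
    rw [Algebra.smul_def, map_pow]
    congr 2
  have hVle : ∀ W : Submodule k K, (∀ p : Fin (n + 1) × s, x ^ (p.1 : ℕ) * b p.2 ∈ W) → V ≤ W := by
    intro W hW
    rw [hVdef, Submodule.span_le]
    rintro _ ⟨p, rfl⟩
    show (g ^ (p.1 : ℕ)) • b p.2 ∈ W
    rw [hsmul]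
    exact hW p
  have hVout : ∀ w : Place k K, w ∉ S → V ≤ G6aux.Rg w 0 := by
    intro w hw
    have hwx : w.Reg x := Or.inr (by
      rw [hordx]
      rw [hS, not_lt] at hw
      omega)
    refine hVle _ fun p => ?_
    have h1 : w.Reg (b p.2) := Pool.Agent.LibEnd77.Val8.reg_of_integral (A := Algebra.adjoin k {x}) w
      (Pool.Agent.LibEnd77.Val8.reg_adjoin w hwx) (hb p.2)
    exact (hwx.pow _).mul h1
  have hVin : ∀ w ∈ S, V ≤ G6aux.Rg w (-((n * e w + c : ℕ) : ℤ)) := by
    intro w hw
    refine hVle _ fun p => Or.inr ?_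
    rw [w.ord_mul _ _ (pow_ne_zero _ hx0) (hb0 _), w.ord_pow, hordx, ← he w hw]
    have h1 := hc w hw p.2
    have h2 : ((p.1 : ℕ) : ℤ) ≤ (n : ℤ) := by
      have := p.1.2
      omega
    have h3 : (0 : ℤ) ≤ (e w : ℤ) := Int.natCast_nonneg _
    push_cast
    nlinarith [mul_le_mul_of_nonneg_right h2 h3]
  obtain ⟨U, hUV, hUT, hU⟩ := G6aux.multi hK (fun w => n * e w + c) V (S.erase v)
    (fun w hw => hVin w (Finset.mem_of_mem_erase hw))
  -- counting
  have hE : (∑ w ∈ S.erase v, e w) + 1 = Fintype.card s := by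
    have h1 : ((∑ w ∈ S, e w : ℕ) : ℤ) = (Fintype.card s : ℤ) := by
      rw [← hcard, ← hsum]
      push_cast
      exact Finset.sum_congr rfl he
    have h2 : (∑ w ∈ S, e w) = Fintype.card s := by exact_mod_cast h1
    rw [← Finset.sum_erase_add _ _ hvS] at h2
    have h3 : e v = 1 := by
      show (v.ord u).toNat = 1
      rw [hu]
      rfl
    rw [h3] at h2
    exact h2
  have hsum2 : ∑ w ∈ S.erase v, (n * e w + c) = n * (∑ w ∈ S.erase v, e w) + (S.erase v).card * c := by
    rw [Finset.sum_add_distrib, ← Finset.mul_sum, Finset.sum_const, smul_eq_mul]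
  have hUrank : 2 ≤ Module.finrank k U := by
    rw [hsum2, hVrank, ← hE] at hU
    have h1 : (S.erase v).card * c ≤ S.card * c :=
      Nat.mul_le_mul_right _ (Finset.card_le_card (Finset.erase_subset _ _))
    have h2 : (n + 1) * ((∑ w ∈ S.erase v, e w) + 1) =
        n * (∑ w ∈ S.erase v, e w) + (∑ w ∈ S.erase v, e w) + n + 1 := by ring
    omega
  have hUout : ∀ f ∈ U, ∀ w : Place k K, w ≠ v → 0 ≤ w.ord f := by
    intro f hf w hw
    have h1 : f ∈ G6aux.Rg w 0 := by
      by_cases hwS : w ∈ S
      · exact hUT w (Finset.mem_erase.2 ⟨hw, hwS⟩) hf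
      · exact hVout w hwS (hUV hf)
    rcases h1 with h1 | h1
    · rw [h1, w.ord_zero]
    · exact h1
  obtain ⟨f, hfU, hf1⟩ : ∃ f ∈ U, f ∉ Submodule.span k {(1 : K)} := by
    by_contra hcon
    push Not at hcon
    have h1 : U ≤ Submodule.span k {(1 : K)} := hcon
    have h2 := Submodule.finrank_mono h1
    have h3 : Module.finrank k (Submodule.span k {(1 : K)}) = 1 :=
      finrank_span_singleton one_ne_zero
    omega
  have hftr : Transcendental k f := by
    intro halg
    obtain ⟨a, ha⟩ := Pool.Agent.LibEnd77.Val8.alg_const halg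
    apply hf1
    rw [Submodule.mem_span_singleton]
    exact ⟨a, by rw [← ha, Algebra.smul_def, mul_one]⟩
  obtain ⟨w, hw⟩ := exists_pole hK hftr
  have hwv : w = v := by
    by_contra hne
    have := hUout f hfU w hne
    omega
  rw [hwv] at hw
  exact ⟨f, hw, hUout f hfU⟩

end Pool.Agent.LibFP27
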