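import Mathlib

/-!
[FP27 G7] Belyi polynomials (typed by helper32).
-/

open scoped Classical
open Polynomial

namespace Pool.Agent.LibFP27

variable {k : Type} [Field k] [CharZero k] [Algebra.IsAlgebraic ℚ k]

namespace G7aux

section

variable {k : Type} [Field k] [CharZero k]

/-- good polynomials -/
def Good (R : Finset k) : Prop :=
  ∃ B : k[X], 1 ≤ B.natDegree ∧ (∀ c ∈ R, B.eval c = 0 ∨ B.eval c = 1) ∧
    ∀ c, B.derivative.eval c = 0 → B.eval c = 0 ∨ B.eval c = 1

theorem Good.comp {R R' : Finset k} {T : k[X]} (hT : 1 ≤ T.natDegree)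
    (h1 : ∀ c ∈ R, T.eval c ∈ R') (h2 : ∀ c, T.derivative.eval c = 0 → T.eval c ∈ R')
    (h : Good R') : Good R := by
  obtain ⟨B, hB, hB1, hB2⟩ := h
  refine ⟨B.comp T, ?_, ?_, ?_⟩
  · rw [natDegree_comp]
    exact Nat.mul_pos hB hT
  · intro c hc
    rw [eval_comp]
    exact hB1 _ (h1 c hc)
  · intro c hc
    rw [derivative_comp, eval_mul, eval_comp] at hc
    rw [eval_comp]
    rcases mul_eq_zero.1 hc with h3 | h3
    · exact hB1 _ (h2 c h3)
    · exact hB2 _ h3

/-- the basic polynomial -/
noncomputable def T0 (k : Type) [Field k] (m n : ℕ) : k[X] :=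
  C (((m + n : ℕ) : k) ^ (m + n) / ((m : k) ^ m * (n : k) ^ n)) * (X ^ m * (1 - X) ^ n)

theorem T0_eval (m n : ℕ) (w : k) : (T0 k m n).eval w =
    ((m + n : ℕ) : k) ^ (m + n) / ((m : k) ^ m * (n : k) ^ n) * (w ^ m * (1 - w) ^ n) := by
  simp [T0]

theorem T0_crit {m n : ℕ} (hm : 0 < m) (hn : 0 < n) {w : k}
    (h : (T0 k m n).derivative.eval w = 0) : w = 0 ∨ w = 1 ∨ w = (m : k) / ((m + n : ℕ) : k) := by
  have hm' : (m : k) ≠ 0 := Nat.cast_ne_zero.2 hm.ne'
  have hn' : (n : k) ≠ 0 := Nat.cast_ne_zero.2 hn.ne'
  have hmn : ((m + n : ℕ) : k) ≠ 0 := Nat.cast_ne_zero.2 (by omega)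
  obtain ⟨a, rfl⟩ : ∃ a, m = a + 1 := ⟨m - 1, by omega⟩
  obtain ⟨b, rfl⟩ : ∃ b, n = b + 1 := ⟨n - 1, by omega⟩
  have h1 : (T0 k (a + 1) (b + 1)).derivative.eval w =
      ((a + 1 + (b + 1) : ℕ) : k) ^ (a + 1 + (b + 1)) /
        (((a + 1 : ℕ) : k) ^ (a + 1) * ((b + 1 : ℕ) : k) ^ (b + 1)) *
      (w ^ a * (1 - w) ^ b * (((a + 1 : ℕ) : k) - ((a + 1 + (b + 1) : ℕ) : k) * w)) := by
    unfold T0
    rw [derivative_C_mul, eval_C_mul]
    congr 1
    simp only [derivative_mul, derivative_pow, derivative_sub, derivative_one, derivative_X,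
      eval_add, eval_mul, eval_pow, eval_X, eval_sub, eval_one, eval_C, zero_sub, eval_neg,
      Nat.add_sub_cancel]
    push_cast
    ring
  rw [h1] at h
  have h2 : ((a + 1 + (b + 1) : ℕ) : k) ^ (a + 1 + (b + 1)) /
        (((a + 1 : ℕ) : k) ^ (a + 1) * ((b + 1 : ℕ) : k) ^ (b + 1)) ≠ 0 :=
    div_ne_zero (pow_ne_zero _ hmn) (mul_ne_zero (pow_ne_zero _ hm') (pow_ne_zero _ hn'))
  rcases mul_eq_zero.1 h with h3 | h3
  · exact absurd h3 h2
  rcases mul_eq_zero.1 h3 with h4 | h4
  · rcases mul_eq_zero.1 h4 with h5 | h5
    · exact Or.inl (eq_zero_of_pow_eq_zero h5)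
    · have := eq_zero_of_pow_eq_zero h5
      exact Or.inr (Or.inl (sub_eq_zero.1 this).symm)
  · right
    right
    rw [eq_div_iff hmn, mul_comm]
    exact (sub_eq_zero.1 h4).symm

theorem T0_zero {m n : ℕ} (hm : 0 < m) : (T0 k m n).eval 0 = 0 := by
  rw [T0_eval, zero_pow hm.ne', zero_mul, mul_zero]

theorem T0_one {m n : ℕ} (hn : 0 < n) : (T0 k m n).eval 1 = 0 := by
  rw [T0_eval, sub_self, zero_pow hn.ne', mul_zero, mul_zero]

theorem T0_mid {m n : ℕ} (hm : 0 < m) (hn : 0 < n) :
    (T0 k m n).eval ((m : k) / ((m + n : ℕ) : k)) = 1 := by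
  have hm' : (m : k) ≠ 0 := Nat.cast_ne_zero.2 hm.ne'
  have hn' : (n : k) ≠ 0 := Nat.cast_ne_zero.2 hn.ne'
  have hmn : ((m + n : ℕ) : k) ≠ 0 := Nat.cast_ne_zero.2 (by omega)
  have h1 : (1 : k) - (m : k) / ((m + n : ℕ) : k) = (n : k) / ((m + n : ℕ) : k) := by
    field_simp
    push_cast
    ring
  rw [T0_eval, h1, div_pow, div_pow, pow_add]
  field_simp

theorem T0_deg {m n : ℕ} (hm : 0 < m) (hn : 0 < n) : (T0 k m n).natDegree = m + n := by
  have hm' : (m : k) ≠ 0 := Nat.cast_ne_zero.2 hm.ne'
  have hn' : (n : k) ≠ 0 := Nat.cast_ne_zero.2 hn.ne'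
  have hmn : ((m + n : ℕ) : k) ≠ 0 := Nat.cast_ne_zero.2 (by omega)
  unfold T0
  rw [natDegree_C_mul (div_ne_zero (pow_ne_zero _ hmn)
    (mul_ne_zero (pow_ne_zero _ hm') (pow_ne_zero _ hn')))]
  have h1 : (1 - X : k[X]).natDegree = 1 := by
    rw [show (1 - X : k[X]) = -(X - C 1) by rw [C_1]; ring, natDegree_neg, natDegree_X_sub_C]
  have h2 : (1 - X : k[X]) ≠ 0 := by
    intro h
    rw [h, natDegree_zero] at h1
    exact zero_ne_one h1
  rw [natDegree_mul (pow_ne_zero _ X_ne_zero) (pow_ne_zero _ h2), natDegree_X_pow,
    natDegree_pow, h1, mul_one]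

/-- rational points, by induction on their number -/
theorem good_rat (n : ℕ) : ∀ S : Finset ℚ, S.card ≤ n →
    Good (S.image (fun q : ℚ => (q : k))) := by
  induction n with
  | zero =>
    intro S hS
    have h0 : S = ∅ := Finset.card_eq_zero.1 (by omega)
    subst h0
    refine ⟨X, by rw [natDegree_X], by simp, ?_⟩
    intro c hc
    rw [derivative_X, eval_one] at hc
    exact absurd hc one_ne_zero
  | succ n ih =>
    intro S hS
    by_cases h2 : ∃ x y, ∀ q ∈ S, q = x ∨ q = y
    · obtain ⟨x, y, hxy⟩ := h2
      by_cases he : x = y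
      · subst he
        refine ⟨X - C (x : k), by rw [natDegree_X_sub_C], ?_, ?_⟩
        · intro c hc
          obtain ⟨q, hq, rfl⟩ := Finset.mem_image.1 hc
          left
          rcases hxy q hq with rfl | rfl <;> simp
        · intro c hc
          simp at hc
      · have hne : ((y : k) - (x : k)) ≠ 0 := by
          intro h
          apply he
          have := sub_eq_zero.1 h
          exact_mod_cast this.symm
        refine ⟨C ((y : k) - (x : k))⁻¹ * (X - C (x : k)), ?_, ?_, ?_⟩
        · rw [natDegree_C_mul (inv_ne_zero hne), natDegree_X_sub_C]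
        · intro c hc
          obtain ⟨q, hq, rfl⟩ := Finset.mem_image.1 hc
          rcases hxy q hq with rfl | rfl
          · left
            simp
          · right
            simp only [eval_mul, eval_C, eval_sub, eval_X]
            exact inv_mul_cancel₀ hne
        · intro c hc
          simp only [derivative_C_mul, derivative_sub, derivative_X, derivative_C, sub_zero,
            eval_mul, eval_C, eval_one, mul_one] at hc
          exact absurd hc (inv_ne_zero hne)
    · push Not at h2
      have hne : S.Nonempty := by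
        obtain ⟨q, hq, -⟩ := h2 0 0
        exact ⟨q, hq⟩
      obtain ⟨x, hx, hxm⟩ := S.exists_min_image id hne
      obtain ⟨y, hy, hym⟩ := S.exists_max_image id hne
      obtain ⟨z, hz, hzx, hzy⟩ := h2 x y
      simp only [id] at hxm hym
      have hxz : x < z := lt_of_le_of_ne (hxm z hz) hzx.symm
      have hzy' : z < y := lt_of_le_of_ne (hym z hz) hzy
      have hxy : x < y := hxz.trans hzy'
      have hd : (0 : ℚ) < y - x := by linarith
      set t : ℚ := (z - x) / (y - x) with ht
      have ht0 : 0 < t := div_pos (by linarith) hd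
      have ht1 : t < 1 := by rw [ht, div_lt_one hd]; linarith
      obtain ⟨m, hm⟩ : ∃ m : ℕ, (m : ℤ) = t.num := ⟨t.num.toNat, Int.toNat_of_nonneg
        (Rat.num_pos.2 ht0).le⟩
      have hm0 : 0 < m := by
        have := Rat.num_pos.2 ht0
        omega
      have hlt : m < t.den := by
        have h3 : t.num < t.den := by
          have h4 := Rat.num_div_den t
          have h5 : (0 : ℚ) < t.den := by exact_mod_cast t.den_pos
          rw [← h4, div_lt_one h5] at ht1
          exact_mod_cast ht1
        omega
      obtain ⟨e, he⟩ : ∃ e, t.den = m + e := ⟨t.den - m, by omega⟩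
      have he0 : 0 < e := by omega
      have htq : t = (m : ℚ) / ((m + e : ℕ) : ℚ) := by
        rw [← he]
        have h4 := Rat.num_div_den t
        rw [← hm] at h4
        rw [Int.cast_natCast] at h4
        exact h4.symm
      have hneq : ((y : k) - (x : k)) ≠ 0 := by
        intro h
        apply hxy.ne'
        have := sub_eq_zero.1 h
        exact_mod_cast this
      -- the affine map and the composition
      set L : k[X] := C ((y : k) - (x : k))⁻¹ * (X - C (x : k)) with hL
      have hLd : L.natDegree = 1 := by
        rw [hL, natDegree_C_mul (inv_ne_zero hneq), natDegree_X_sub_C]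
      have hLe : ∀ c, L.eval c = ((y : k) - (x : k))⁻¹ * (c - x) := by
        intro c
        simp [hL]
      have hL' : ∀ c, L.derivative.eval c ≠ 0 := by
        intro c
        rw [hL]
        simp only [derivative_C_mul, derivative_sub, derivative_X, derivative_C, sub_zero,
          eval_mul, eval_C, eval_one, mul_one]
        exact inv_ne_zero hneq
      set g : ℚ → ℚ := fun q => (T0 ℚ m e).eval ((y - x)⁻¹ * (q - x)) with hg
      have hgk : ∀ q : ℚ, ((T0 k m e).comp L).eval (q : k) = (g q : k) := by
        intro q
        rw [eval_comp, hLe, hg, T0_eval]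
        simp only
        rw [T0_eval]
        push_cast
        ring
      have hx0 : g x = 0 := by
        rw [hg]
        simp only [sub_self, mul_zero]
        exact T0_zero hm0
      have hy0 : g y = 0 := by
        rw [hg]
        simp only
        rw [inv_mul_cancel₀ hd.ne']
        exact T0_one he0
      have hz1 : g z = 1 := by
        rw [hg]
        simp only
        rw [show (y - x)⁻¹ * (z - x) = t by rw [ht]; ring, htq]
        exact T0_mid hm0 he0
      have hcard : (S.image g).card ≤ n := by
        have h3 : S.image g ⊆ (S.erase x).image g := by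
          intro w hw
          obtain ⟨q, hq, rfl⟩ := Finset.mem_image.1 hw
          by_cases hqx : q = x
          · rw [hqx]
            exact Finset.mem_image.2 ⟨y, Finset.mem_erase.2 ⟨hxy.ne', hy⟩, by rw [hx0, hy0]⟩
          · exact Finset.mem_image.2 ⟨q, Finset.mem_erase.2 ⟨hqx, hq⟩, rfl⟩
        have h4 := (Finset.card_le_card h3).trans Finset.card_image_le
        rw [Finset.card_erase_of_mem hx] at h4
        omega
      refine Good.comp (T := (T0 k m e).comp L) ?_ ?_ ?_ (ih (S.image g) hcard)
      · rw [natDegree_comp, hLd, T0_deg hm0 he0]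
        omega
      · intro c hc
        obtain ⟨q, hq, rfl⟩ := Finset.mem_image.1 hc
        rw [hgk]
        exact Finset.mem_image.2 ⟨g q, Finset.mem_image_of_mem g hq, rfl⟩
      · intro c hc
        have h01 : (0 : k) ∈ (S.image g).image (fun q : ℚ => (q : k)) :=
          Finset.mem_image.2 ⟨0, hx0 ▸ Finset.mem_image_of_mem g hx, by simp⟩
        have h11 : (1 : k) ∈ (S.image g).image (fun q : ℚ => (q : k)) :=
          Finset.mem_image.2 ⟨1, hz1 ▸ Finset.mem_image_of_mem g hz, by simp⟩
        rw [derivative_comp, eval_mul, eval_comp] at hc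
        rw [eval_comp]
        rcases mul_eq_zero.1 hc with h3 | h3
        · exact absurd h3 (hL' c)
        · rcases T0_crit hm0 he0 h3 with h4 | h4 | h4
          · rw [h4, T0_zero hm0]
            exact h01
          · rw [h4, T0_one he0]
            exact h01
          · rw [h4, T0_mid hm0 he0]
            exact h11

end

/-- the degree over the rational numbers -/
noncomputable def dg (x : k) : ℕ := (minpoly ℚ x).natDegree

theorem dg_pos (x : k) : 0 < dg x := minpoly.natDegree_pos (Algebra.IsIntegral.isIntegral x)

theorem dg_root {x : k} {p : ℚ[X]} (hp : p ≠ 0) (h : aeval x p = 0) : dg x ≤ p.natDegree :=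
  natDegree_le_of_dvd (minpoly.dvd ℚ x h) hp

open IntermediateField in
theorem dg_aeval (x : k) (p : ℚ[X]) : dg (aeval x p) ≤ dg x := by
  have hx : IsIntegral ℚ x := Algebra.IsIntegral.isIntegral x
  have hy : IsIntegral ℚ (aeval x p) := Algebra.IsIntegral.isIntegral _
  have : FiniteDimensional ℚ ℚ⟮x⟯ := adjoin.finiteDimensional hx
  have h1 : ℚ⟮aeval x p⟯ ≤ ℚ⟮x⟯ := by
    rw [adjoin_simple_le_iff]
    exact algebra_adjoin_le_adjoin ℚ {x} (aeval_mem_adjoin_singleton ℚ x)
  unfold dg
  rw [← adjoin.finrank hx, ← adjoin.finrank hy]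
  exact LinearMap.finrank_le_finrank_of_injective (f := (inclusion h1).toLinearMap)
    (inclusion_injective h1)

theorem dg_one {x : k} (h : dg x = 1) : ∃ q : ℚ, x = q := by
  have hx : IsIntegral ℚ x := Algebra.IsIntegral.isIntegral x
  obtain ⟨q, hq⟩ := minpoly.natDegree_eq_one_iff.1 h
  exact ⟨q, hq.symm⟩

theorem good_low (D : ℕ) (hD : 1 ≤ D) : ∀ R : Finset k, (∀ r ∈ R, dg r ≤ D) → Good R := by
  induction D, hD using Nat.le_induction with
  | base =>
    intro R hR
    have h1 : ∀ r ∈ R, ∃ q : ℚ, r = q := fun r hr => dg_one (le_antisymm (hR r hr) (dg_pos r))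
    choose! q hq using h1
    have h2 : R ⊆ (R.image q).image (fun q : ℚ => (q : k)) := by
      intro r hr
      exact Finset.mem_image.2 ⟨q r, Finset.mem_image_of_mem q hr, (hq r hr).symm⟩
    obtain ⟨B, hB, hB1, hB2⟩ := good_rat (k := k) _ (R.image q) le_rfl
    exact ⟨B, hB, fun c hc => hB1 c (h2 hc), hB2⟩
  | succ D hD ih =>
    have key : ∀ N : ℕ, ∀ R : Finset k, (∀ r ∈ R, dg r ≤ D + 1) →
        (R.filter fun r => dg r = D + 1).card ≤ N → Good R := by
      intro N
      induction N with
      | zero =>
        intro R hR hN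
        apply ih R
        intro r hr
        have h1 := hR r hr
        by_contra hc
        have h2 : r ∈ R.filter fun r => dg r = D + 1 := Finset.mem_filter.2 ⟨hr, by omega⟩
        rw [Finset.card_eq_zero.1 (Nat.le_zero.1 hN)] at h2
        exact absurd h2 (Finset.notMem_empty r)
      | succ N ihN =>
        intro R hR hN
        by_cases he : ∃ r ∈ R, dg r = D + 1
        · obtain ⟨r, hr, hrD⟩ := he
          set p : ℚ[X] := minpoly ℚ r with hp
          have hpd : p.natDegree = D + 1 := hrD
          set T : k[X] := p.map (algebraMap ℚ k) with hT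
          have hTe : ∀ c, T.eval c = aeval c p := by
            intro c
            rw [hT, eval_map_algebraMap]
          have hTd : T.natDegree = D + 1 := by
            rw [hT, natDegree_map, hpd]
          have hp'0 : derivative p ≠ 0 := by
            intro h
            have := derivative_eq_zero.1 h
            omega
          have hp'd : (derivative p).natDegree ≤ D := by
            have := natDegree_derivative_le p
            omega
          have hcrit : ∀ c, T.derivative.eval c = 0 → dg c ≤ D := by
            intro c hc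
            rw [hT, derivative_map, eval_map_algebraMap] at hc
            exact (dg_root hp'0 hc).trans hp'd
          have hT0 : T ≠ 0 := by
            intro h
            rw [h, natDegree_zero] at hTd
            omega
          have hT'0 : T.derivative ≠ 0 := by
            rw [hT, derivative_map]
            exact (Polynomial.map_ne_zero_iff (algebraMap ℚ k).injective).2 hp'0
          refine Good.comp (T := T)
            (R' := R.image (fun c => T.eval c) ∪ (T.derivative.roots.toFinset).image
              (fun c => T.eval c)) (by omega)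
            (fun c hc => Finset.mem_union_left _ (Finset.mem_image_of_mem _ hc))
            (fun c hc => Finset.mem_union_right _ (Finset.mem_image_of_mem _ (by
              rw [Multiset.mem_toFinset, mem_roots hT'0]
              exact hc))) ?_
          apply ihN
          · intro y hy
            rcases Finset.mem_union.1 hy with h1 | h1
            · obtain ⟨c, hc, rfl⟩ := Finset.mem_image.1 h1
              rw [hTe]
              exact (dg_aeval c p).trans (hR c hc)
            · obtain ⟨c, hc, rfl⟩ := Finset.mem_image.1 h1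
              rw [Multiset.mem_toFinset, mem_roots hT'0] at hc
              rw [hTe]
              exact ((dg_aeval c p).trans (hcrit c hc)).trans (by omega)
          · have h1 : ((R.image (fun c => T.eval c) ∪ (T.derivative.roots.toFinset).image
                (fun c => T.eval c)).filter fun y => dg y = D + 1) ⊆
                ((R.filter fun r => dg r = D + 1).erase r).image (fun c => T.eval c) := by
              intro y hy
              obtain ⟨hy1, hy2⟩ := Finset.mem_filter.1 hy
              rcases Finset.mem_union.1 hy1 with h1 | h1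
              · obtain ⟨c, hc, rfl⟩ := Finset.mem_image.1 h1
                refine Finset.mem_image.2 ⟨c, Finset.mem_erase.2 ⟨?_, Finset.mem_filter.2
                  ⟨hc, ?_⟩⟩, rfl⟩
                · rintro rfl
                  have h3 : T.eval c = 0 := by
                    rw [hTe]
                    exact minpoly.aeval ℚ c
                  rw [h3] at hy2
                  have h4 : dg (0 : k) ≤ (X : ℚ[X]).natDegree := dg_root X_ne_zero (by simp)
                  rw [natDegree_X] at h4
                  omega
                · have h3 := dg_aeval c p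
                  rw [← hTe] at h3
                  have h4 := hR c hc
                  omega
              · exfalso
                obtain ⟨c, hc, rfl⟩ := Finset.mem_image.1 h1
                rw [Multiset.mem_toFinset, mem_roots hT'0] at hc
                have h3 := dg_aeval c p
                rw [← hTe] at h3
                have h4 := hcrit c hc
                omega
            have h2 := (Finset.card_le_card h1).trans Finset.card_image_le
            rw [Finset.card_erase_of_mem (Finset.mem_filter.2 ⟨hr, hrD⟩)] at h2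
            omega
        · push Not at he
          apply ih R
          intro r hr
          have h1 := hR r hr
          have h2 := he r hr
          omega
    intro R hR
    exact key _ R hR le_rfl

theorem good_all (R : Finset k) : Good R := by
  refine good_low (1 + ∑ r ∈ R, dg r) (by omega) R fun r hr => ?_
  have := Finset.single_le_sum (f := fun r => dg r) (fun _ _ => Nat.zero_le _) hr
  omega

end G7aux

theorem belyi [IsAlgClosed k] (R : Finset k) :
    ∃ B : k[X], 7 ≤ B.natDegree ∧ (∀ c ∈ R, B.eval c = 0 ∨ B.eval c = 1) ∧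
      ∀ c, B.derivative.eval c = 0 → B.eval c = 0 ∨ B.eval c = 1 := by
  obtain ⟨B, hB, hB1, hB2⟩ := G7aux.good_all R
  have h0 : (G7aux.T0 k 4 4).eval 0 = 0 := G7aux.T0_zero (by norm_num)
  have h1 : (G7aux.T0 k 4 4).eval 1 = 0 := G7aux.T0_one (by norm_num)
  have h2 := G7aux.T0_mid (k := k) (m := 4) (n := 4) (by norm_num) (by norm_num)
  have h3 : ∀ w : k, w = 0 ∨ w = 1 → (G7aux.T0 k 4 4).eval w = 0 := by
    rintro w (rfl | rfl)
    · exact h0
    · exact h1
  refine ⟨(G7aux.T0 k 4 4).comp B, ?_, ?_, ?_⟩
  · rw [natDegree_comp, G7aux.T0_deg (by norm_num) (by norm_num)]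
    omega
  · intro c hc
    rw [eval_comp]
    exact Or.inl (h3 _ (hB1 c hc))
  · intro c hc
    rw [derivative_comp, eval_mul, eval_comp] at hc
    rw [eval_comp]
    rcases mul_eq_zero.1 hc with h4 | h4
    · exact Or.inl (h3 _ (hB2 c h4))
    · rcases G7aux.T0_crit (by norm_num) (by norm_num) h4 with h5 | h5 | h5
      · exact Or.inl (h3 _ (Or.inl h5))
      · exact Or.inl (h3 _ (Or.inr h5))
      · right
        rw [h5]
        exact h2

end Pool.Agent.LibFP27
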