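import Pool.Agent.LibFP27.G1
import Pool.Agent.LibFP27.G4
import Pool.Agent.LibFP27.G6

/-!
[FP27 G8] A curve through two points of the product.
`t₁` with the only pole `q` (`exists_one_pole`), minus its value at `p` (`exists_val`); `t₂` with the only pole `s`, minus its value at `r`. `exists_common`: `N`, `i₁`, `i₂`, `t = i₁ t₁ = i₂ t₂`. `w` over `p` with respect to `i₁`, `w'` over `r` with respect to `i₂` (`above_exists`); both have
`0 < w.ord t`; `galois_trans`: `w'.ord z = w.ord (σ z)`; replace `i₂` by `σ ∘ i₂` (restrict scalars of `σ` to `k`): `w` lies over `p` and `r`. Let `w₂` be a pole of `t` (`exists_pole`); the place of `K₁` below `w₂` (`over_exists`) is a pole of `t₁`, so `q`; likewise `s`.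
-/

open scoped Classical

namespace Pool.Agent.LibFP27

open Pool.Agent.LibBH2
open Pool.Agent.LibQC8 (IsFunctionField Div deg)

variable {k : Type} [Field k] [IsAlgClosed k] [CharZero k]

private theorem G8_fun {K : Type} [Field K] [Algebra k K] (hK : IsFunctionField k K) (p q : Place k K) (hpq : p ≠ q) :
    ∃ t : K, Transcendental k t ∧ 0 < p.ord t ∧ ∀ v : Place k K, v.ord t < 0 → v = q := by
  obtain ⟨t, ht, hreg⟩ := exists_one_pole hK q
  have htr : Transcendental k t := trans_of_ord q ht.ne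
  obtain ⟨c, hc⟩ := exists_val hK p (hreg p hpq) htr
  refine ⟨t - algebraMap k K c, trans_sub htr c, hc, ?_⟩
  intro v hv
  by_contra hvq
  have h1 : v.Reg (t - algebraMap k K c) := Place.Reg.sub (Or.inr (hreg v hvq)) (v.reg_const c)
  rcases h1 with h1 | h1
  · rw [h1, v.ord_zero] at hv
    exact lt_irrefl _ hv
  · omega

theorem exists_curve {K₁ K₂ : Type} [Field K₁] [Algebra k K₁] [Field K₂] [Algebra k K₂] (h₁ : IsFunctionField k K₁)
    (h₂ : IsFunctionField k K₂) (p q : Place k K₁) (r s : Place k K₂) (hpq : p ≠ q) (hrs : r ≠ s) :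
    ∃ (N : Type) (_ : Field N) (_ : Algebra k N) (i₁ : K₁ →ₐ[k] N) (i₂ : K₂ →ₐ[k] N) (w₁ w₂ : Place k N),
      IsFunctionField k N ∧ Over i₁ w₁ p ∧ Over i₁ w₂ q ∧ Over i₂ w₁ r ∧ Over i₂ w₂ s := by
  obtain ⟨t₁, ht₁, hp, hq⟩ := G8_fun h₁ p q hpq
  obtain ⟨t₂, ht₂, hr, hs⟩ := G8_fun h₂ r s hrs
  obtain ⟨N, _, _, i₁, i₂, hN, hii, hG⟩ := exists_common h₁ h₂ t₁ t₂ ht₁ ht₂
  obtain ⟨w, e, he, hw⟩ := above_exists h₁ hN i₁ p
  obtain ⟨w', e', he', hw'⟩ := above_exists h₂ hN i₂ r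
  have hwt : 0 < w.ord (i₁ t₁) := by
    rw [hw]
    exact mul_pos he hp
  have hwt' : 0 < w'.ord (i₁ t₁) := by
    rw [hii, hw']
    exact mul_pos he' hr
  have htr : Transcendental k (i₁ t₁) := trans_of_ord w hwt.ne'
  obtain ⟨σ, hσ⟩ := galois_trans hN (i₁ t₁) htr hG w w' hwt hwt'
  let i₂' : K₂ →ₐ[k] N := ((σ.restrictScalars k : N ≃ₐ[k] N) : N →ₐ[k] N).comp i₂
  have hi₂' : ∀ f, i₂' f = σ (i₂ f) := fun f => rfl
  have hfix : i₂' t₂ = i₁ t₁ := by
    rw [hi₂', ← hii]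
    exact σ.commutes ⟨i₁ t₁, IntermediateField.mem_adjoin_simple_self k (i₁ t₁)⟩
  obtain ⟨w₂, hw₂⟩ := exists_pole hN htr
  obtain ⟨v, a, ha, hv⟩ := over_exists h₁ hN i₁ w₂
  obtain ⟨v', a', ha', hv'⟩ := over_exists h₂ hN i₂' w₂
  have hvq : v = q := by
    apply hq
    have h3 := hw₂
    rw [hv] at h3
    by_contra hcon
    exact absurd h3 (not_lt.2 (mul_nonneg ha.le (not_lt.1 hcon)))
  have hvs : v' = s := by
    apply hs
    have h3 := hw₂
    rw [← hfix, hv'] at h3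
    by_contra hcon
    exact absurd h3 (not_lt.2 (mul_nonneg ha'.le (not_lt.1 hcon)))
  refine ⟨N, inferInstance, inferInstance, i₁, i₂', w, w₂, hN, ⟨e, he, hw⟩, ?_, ⟨e', he', ?_⟩, ?_⟩
  · rw [← hvq]
    exact ⟨a, ha, hv⟩
  · intro f
    rw [hi₂', ← hσ, hw']
  · rw [← hvs]
    exact ⟨a', ha', hv'⟩

end Pool.Agent.LibFP27
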