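import Pool.Agent.LibFP27.G2
import Pool.Agent.LibFP27.G3
import Pool.Agent.LibFP27.G5
import Pool.Agent.LibFP27.G6
import Pool.Agent.LibFP27.G7

/-!
[FP27 G9] Belyi functions with two poles.
`exists_belyi`: `h = h₁ + h₂` with the only poles `w₁`, `w₂` (`exists_one_pole` twice). `R` = branch values of `h` (`finite_branch`), `B` = Belyi polynomial (`belyi`), `β = aeval h B`. At a pole of `h`: `v.ord β = B.natDegree * v.ord h ≤ -7`; elsewhere `β` is regular. For `c ≠ 0, 1`:
`B - C c` is a product of a constant and different linear factors `X - r` (simple roots: `B.derivative.eval r = 0` would give `c = B.eval r ∈ {0, 1}`), `r ∉ R`, and at most one of the `h - r` vanishes at `v` (`val_unique`), of order `≤ 1`; so `v.ord (β - c) ≤ 1`.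
`exists_gal`: `exists_closure` for `β`, `unram_gen` for `β - c` (`c ≠ 0, 1`; `IntermediateField.adjoin` unchanged, `trans_sub`). With `a₀` an index: a pole `w` of `b` lies over a pole of `β` (`over_exists` for `j a₀`), so over `w₁` or `w₂`; `w.ord b = e * v.ord β ≤ -7`; there are places over `w₁` and `w₂` (`above_exists`), they are poles.
-/

open scoped Classical
open Polynomial

namespace Pool.Agent.LibFP27

open Pool.Agent.LibBH2
open Pool.Agent.LibQC8 (IsFunctionField Div deg)

variable {k : Type} [Field k] [IsAlgClosed k] [CharZero k] [Algebra.IsAlgebraic ℚ k]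
variable {M : Type} [Field M] [Algebra k M]

namespace G9aux

omit [IsAlgClosed k] [CharZero k] [Algebra.IsAlgebraic ℚ k] in
theorem ord_add_neg (v : Place k M) {a b : M} (ha : v.ord a < 0) (hb : 0 ≤ v.ord b) :
    v.ord (a + b) = v.ord a := by
  have ha0 : a ≠ 0 := by
    rintro rfl
    rw [v.ord_zero] at ha
    exact lt_irrefl _ ha
  by_cases hb0 : b = 0
  · rw [hb0, add_zero]
  have hab : a + b ≠ 0 := by
    intro h
    have : a = -b := by linear_combination h
    rw [this, v.ord_neg] at ha
    omega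
  have h1 := v.ord_add a b ha0 hb0 hab
  have h2 := v.ord_add (a + b) (-b) hab (neg_ne_zero.2 hb0) (by rw [add_neg_cancel_right]; exact ha0)
  rw [add_neg_cancel_right, v.ord_neg] at h2
  omega

omit [IsAlgClosed k] [CharZero k] [Algebra.IsAlgebraic ℚ k] in
theorem ord_add_nonneg (v : Place k M) {a b : M} (ha : 0 ≤ v.ord a) (hb : 0 ≤ v.ord b) :
    0 ≤ v.ord (a + b) := by
  by_cases ha0 : a = 0
  · rw [ha0, zero_add]; exact hb
  by_cases hb0 : b = 0
  · rw [hb0, add_zero]; exact ha
  by_cases hab : a + b = 0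
  · rw [hab, v.ord_zero]
  have h1 := v.ord_add a b ha0 hb0 hab
  omega

omit [IsAlgClosed k] [CharZero k] [Algebra.IsAlgebraic ℚ k] in
theorem ord_mprod (v : Place k M) (f : k → M) (hf : ∀ x, f x ≠ 0) (s : Multiset k) :
    (s.map f).prod ≠ 0 ∧ v.ord (s.map f).prod = (s.map fun x => v.ord (f x)).sum := by
  induction s using Multiset.induction_on with
  | empty => simp
  | cons a s ih =>
    obtain ⟨h1, h2⟩ := ih
    rw [Multiset.map_cons, Multiset.prod_cons, Multiset.map_cons, Multiset.sum_cons]
    exact ⟨mul_ne_zero (hf a) h1, by rw [v.ord_mul _ _ (hf a) h1, h2]⟩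

omit [CharZero k] [Algebra.IsAlgebraic ℚ k] in
theorem ord_aeval (v : Place k M) {h : M} (hh : ∀ c : k, h - algebraMap k M c ≠ 0) {P : k[X]}
    (hP : P ≠ 0) :
    v.ord (aeval h P) = (P.roots.map fun r => v.ord (h - algebraMap k M r)).sum := by
  have h1 := (IsAlgClosed.splits P).eq_prod_roots
  have h2 : aeval h P = algebraMap k M P.leadingCoeff *
      (P.roots.map fun r => h - algebraMap k M r).prod := by
    conv_lhs => rw [h1]
    rw [map_mul, aeval_C, map_multiset_prod, Multiset.map_map]
    congr 2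
    apply Multiset.map_congr rfl
    intro r _
    simp
  have h3 := ord_mprod v (fun r => h - algebraMap k M r) hh P.roots
  have h4 : algebraMap k M P.leadingCoeff ≠ 0 := by
    rw [Ne, FaithfulSMul.algebraMap_eq_zero_iff]
    exact leadingCoeff_ne_zero.2 hP
  rw [h2, v.ord_mul _ _ h4 h3.1, v.ord_const _ (leadingCoeff_ne_zero.2 hP), zero_add, h3.2]

end G9aux

open G9aux

theorem exists_belyi (hM : IsFunctionField k M) (w₁ w₂ : Place k M) (h : w₁ ≠ w₂) :
    ∃ β : M, Transcendental k β ∧ (∀ w : Place k M, w.ord β < 0 ↔ w = w₁ ∨ w = w₂) ∧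
      (∀ w : Place k M, w.ord β < 0 → w.ord β ≤ -7) ∧
      ∀ (v : Place k M) (c : k), c ≠ 0 → c ≠ 1 → v.ord (β - algebraMap k M c) ≤ 1 := by
  obtain ⟨t₁, ht₁, ht₁'⟩ := exists_one_pole hM w₁
  obtain ⟨t₂, ht₂, ht₂'⟩ := exists_one_pole hM w₂
  obtain ⟨t, ht⟩ : ∃ t, t = t₁ + t₂ := ⟨_, rfl⟩
  have hpole : ∀ w : Place k M, w.ord t < 0 ↔ w = w₁ ∨ w = w₂ := by
    intro w
    constructor
    · intro hw
      by_contra hcon
      push Not at hcon
      have := ord_add_nonneg w (ht₁' w hcon.1) (ht₂' w hcon.2)
      rw [← ht] at this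
      omega
    · rintro (rfl | rfl)
      · rw [ht, ord_add_neg w ht₁ (ht₂' w h)]
        exact ht₁
      · rw [ht, add_comm, ord_add_neg w ht₂ (ht₁' w (Ne.symm h))]
        exact ht₂
  have htr : Transcendental k t := trans_of_ord w₁ (ne_of_lt ((hpole w₁).2 (Or.inl rfl)))
  have hne : ∀ c : k, t - algebraMap k M c ≠ 0 := fun c => sub_ne t htr c
  obtain ⟨B, hB7, hBR, hBc⟩ := belyi (finite_branch hM t htr).toFinset
  have hB0 : B ≠ 0 := by
    rintro rfl
    rw [natDegree_zero] at hB7
    omega
  have hordB : ∀ v : Place k M, v.ord (aeval t B) =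
      (B.roots.map fun r => v.ord (t - algebraMap k M r)).sum := fun v => ord_aeval v hne hB0
  have hneg : ∀ v : Place k M, v.ord t < 0 → v.ord (aeval t B) = B.natDegree * v.ord t := by
    intro v hv
    rw [hordB]
    have : (B.roots.map fun r => v.ord (t - algebraMap k M r)) = B.roots.map fun _ => v.ord t := by
      apply Multiset.map_congr rfl
      intro r _
      rw [sub_eq_add_neg]
      apply ord_add_neg v hv
      rw [v.ord_neg, ord_const']
    rw [this, Multiset.map_const', Multiset.sum_replicate,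
      ← (IsAlgClosed.splits B).natDegree_eq_card_roots, nsmul_eq_mul]
  have hnn : ∀ v : Place k M, 0 ≤ v.ord t → 0 ≤ v.ord (aeval t B) := by
    intro v hv
    rw [hordB]
    apply Multiset.sum_nonneg
    intro x hx
    obtain ⟨r, _, rfl⟩ := Multiset.mem_map.1 hx
    rw [sub_eq_add_neg]
    apply ord_add_nonneg v hv
    rw [v.ord_neg, ord_const']
  have hle : ∀ v : Place k M, v.ord t < 0 → v.ord (aeval t B) ≤ -7 := by
    intro v hv
    rw [hneg v hv]
    have : (7 : ℤ) ≤ B.natDegree := by exact_mod_cast hB7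
    nlinarith
  have hiff : ∀ v : Place k M, v.ord (aeval t B) < 0 ↔ v.ord t < 0 := by
    intro v
    constructor
    · intro hv
      by_contra hcon
      have := hnn v (not_lt.1 hcon)
      omega
    · intro hv
      have := hle v hv
      omega
  refine ⟨aeval t B, ?_, ?_, ?_, ?_⟩
  · exact trans_of_ord w₁ (ne_of_lt ((hiff w₁).2 ((hpole w₁).2 (Or.inl rfl))))
  · intro w
    rw [hiff, hpole]
  · intro w hw
    exact hle w ((hiff w).1 hw)
  · intro v c hc0 hc1
    have hP0 : B - C c ≠ 0 := by
      intro hcon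
      have : B = C c := by linear_combination hcon
      rw [this, natDegree_C] at hB7
      omega
    have e1 : aeval t B - algebraMap k M c = aeval t (B - C c) := by
      rw [map_sub, aeval_C]
    have hroot : ∀ r ∈ (B - C c).roots, B.eval r = c := by
      intro r hr
      have := (mem_roots hP0).1 hr
      rw [IsRoot.def, eval_sub, eval_C] at this
      exact sub_eq_zero.1 this
    have hnodup : (B - C c).roots.Nodup := by
      rw [Multiset.nodup_iff_count_le_one]
      intro r
      rw [count_roots]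
      by_contra hcon
      have h2 := (one_lt_rootMultiplicity_iff_isRoot hP0).1 (not_le.1 hcon)
      have hr : B.eval r = c := hroot r ((mem_roots hP0).2 h2.1)
      have h3 : B.derivative.eval r = 0 := by
        have := h2.2
        rw [derivative_sub, derivative_C, sub_zero] at this
        exact this
      rcases hBc r h3 with h4 | h4
      · exact hc0 (hr.symm.trans h4)
      · exact hc1 (hr.symm.trans h4)
    have hle1 : ∀ r ∈ (B - C c).roots, v.ord (t - algebraMap k M r) ≤ 1 := by
      intro r hr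
      by_contra hcon
      have hmem : r ∈ (finite_branch hM t htr).toFinset := by
        rw [Set.Finite.mem_toFinset]
        exact ⟨v, by omega⟩
      rcases hBR r hmem with h4 | h4
      · exact hc0 ((hroot r hr).symm.trans h4)
      · exact hc1 ((hroot r hr).symm.trans h4)
    rw [e1, ord_aeval v hne hP0]
    obtain ⟨s, hs⟩ : ∃ s : Finset k, s.val = (B - C c).roots := ⟨⟨_, hnodup⟩, rfl⟩
    have e2 : ((B - C c).roots.map fun r => v.ord (t - algebraMap k M r)).sum =
        ∑ r ∈ s, v.ord (t - algebraMap k M r) := by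
      rw [← hs]
      rfl
    have hle2 : ∀ r ∈ s, v.ord (t - algebraMap k M r) ≤ 1 := by
      intro r hr
      apply hle1 r
      rw [← hs]
      exact hr
    rw [e2]
    by_cases hpos : ∃ r ∈ s, 0 < v.ord (t - algebraMap k M r)
    · obtain ⟨r, hr, hr0⟩ := hpos
      rw [← Finset.add_sum_erase s _ hr]
      have : ∑ x ∈ s.erase r, v.ord (t - algebraMap k M x) ≤ 0 := by
        apply Finset.sum_nonpos
        intro x hx
        by_contra hcon
        exact (Finset.ne_of_mem_erase hx) (val_unique v (not_le.1 hcon) hr0)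
      have := hle2 r hr
      omega
    · push Not at hpos
      have := Finset.sum_nonpos hpos
      omega

theorem exists_gal (hM : IsFunctionField k M) (w₁ w₂ : Place k M) (h : w₁ ≠ w₂) :
    ∃ (L : Type) (_ : Field L) (_ : Algebra k L) (j : M →ₐ[k] L) (b : L),
      IsFunctionField k L ∧ GalBelyi k b ∧ (∀ w : Place k L, w.ord b < 0 → w.ord b ≤ -7) ∧
      (∀ w : Place k L, w.ord b < 0 ↔ Over j w w₁ ∨ Over j w w₂) ∧
      (∃ w, Over j w w₁) ∧ (∃ w, Over j w w₂) := by
  obtain ⟨β, hβ, hpole, h7, hc⟩ := exists_belyi hM w₁ w₂ h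
  obtain ⟨L, iL, aL, ι, hι, j, b, hL, hj, hb, hgal, hgen⟩ := exists_closure hM β hβ
  obtain ⟨a₀⟩ := hι
  have hlow : ∀ w : Place k L, ∃ (v : Place k M) (e : ℤ), Over (j a₀) w v ∧ 0 < e ∧
      w.ord b = e * v.ord β := by
    intro w
    obtain ⟨v, hv⟩ := over_exists hM hL (j a₀) w
    obtain ⟨e, he, hf⟩ := id hv
    exact ⟨v, e, hv, he, by rw [← hj a₀, hf]⟩
  have hover : ∀ (w : Place k L) (v : Place k M), Over (j a₀) w v → v.ord β < 0 → w.ord b < 0 := by
    rintro w v ⟨e, he, hf⟩ hv
    rw [← hj a₀, hf]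
    exact mul_neg_of_pos_of_neg he hv
  refine ⟨L, iL, aL, j a₀, b, hL, ⟨hb, hgal, ?_⟩, ?_, ?_, above_exists hM hL (j a₀) w₁,
    above_exists hM hL (j a₀) w₂⟩
  · intro w c hc0 hc1
    exact unram_gen hM hL j (β - algebraMap k M c) (b - algebraMap k L c) (trans_sub hb c)
      (fun a => by rw [map_sub, hj, AlgHom.commutes]) hgen (fun v => hc v c hc0 hc1) w
  · intro w hw
    obtain ⟨v, e, hv, he, hwv⟩ := hlow w
    rw [hwv] at hw ⊢
    have h1 : v.ord β < 0 := by
      by_contra hcon
      have := mul_nonneg he.le (not_lt.1 hcon)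
      omega
    have h2 := h7 v h1
    nlinarith
  · intro w
    constructor
    · intro hw
      obtain ⟨v, e, hv, he, hwv⟩ := hlow w
      rw [hwv] at hw
      have h1 : v.ord β < 0 := by
        by_contra hcon
        have := mul_nonneg he.le (not_lt.1 hcon)
        omega
      rcases (hpole v).1 h1 with rfl | rfl
      · exact Or.inl hv
      · exact Or.inr hv
    · rintro (hw | hw)
      · exact hover w w₁ hw ((hpole w₁).2 (Or.inl rfl))
      · exact hover w w₂ hw ((hpole w₂).2 (Or.inr rfl))

end Pool.Agent.LibFP27
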