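import Pool.Agent.LibFP27.Api

/-!
[FP27 N5] The function `J = 4 (x² - x + 1)³ / (27 x² (x - 1)²)`: its poles.
`(x - 1)`, `x` are not zero (`sub_ne`). Let `q = 27 x² (x-1)² ≠ 0`, `q b = 4 (x² - x + 1)³`. At a pole of `x`, of order `-n`: numerator `-6 n`, `q`: `-4 n`, so `v.ord b = 2 v.ord x` (`ord_add` with different orders: the order of a sum with different orders is the minimum). At a zero of `x` or `x - 1` the numerator is
`4 + (order > 0)`, of order `0`; `v.ord b = - v.ord q`. Otherwise `v.ord q = 0`, `0 ≤ v.ord b`, and `x` has a value `c ≠ 0, 1` with `v.ord (x - c) = 1` (`exists_val`, `hx1`).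
`j_trans`: `b` has a pole, `trans_of_ord` (`exists_pole` for `x`).
-/

open scoped Classical

namespace Pool.Agent.LibFP27

open Pool.Agent.LibBH2
open Pool.Agent.LibQC8 (IsFunctionField Div deg)

variable {k : Type} [Field k] [IsAlgClosed k] [CharZero k]
variable {K : Type} [Field K] [Algebra k K]

private theorem N5_add (v : Place k K) {f g : K} (hf : f ≠ 0) (hg : g ≠ 0) (h : v.ord f < v.ord g) :
    f + g ≠ 0 ∧ v.ord (f + g) = v.ord f := by
  have h0 : f + g ≠ 0 := by
    intro h0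
    have h1 : f = -g := eq_neg_of_add_eq_zero_left h0
    rw [h1, v.ord_neg] at h
    exact lt_irrefl _ h
  refine ⟨h0, le_antisymm ?_ ?_⟩
  · have h2 := v.ord_add (f + g) (-g) h0 (neg_ne_zero.2 hg) (by simpa using hf)
    rw [add_neg_cancel_right, v.ord_neg] at h2
    rcases min_le_iff.1 h2 with h3 | h3
    · exact h3
    · exact absurd h3 (not_le.2 h)
  · have h2 := v.ord_add f g hf hg h0
    rwa [min_eq_left h.le] at h2

private theorem N5_num (v : Place k K) (c : k) (hc : c ≠ 0) (f : K) (hf : f ≠ 0) :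
    v.ord (algebraMap k K c * f) = v.ord f := by
  rw [v.ord_mul _ _ ((map_ne_zero _).2 hc) hf, ord_const', zero_add]

private theorem N5_ne {x : K} (hx : Transcendental k x) : x ^ 2 - x + 1 ≠ 0 := by
  intro h
  apply hx
  refine ⟨Polynomial.X ^ 2 - Polynomial.X + 1, ?_, ?_⟩
  · intro h0
    have := congrArg (fun p : Polynomial k => p.eval 0) h0
    simp at this
  · simpa using h

private theorem N5_ord (x b : K) (hx : Transcendental k x)
    (hb : 27 * x ^ 2 * (x - 1) ^ 2 * b = 4 * (x ^ 2 - x + 1) ^ 3) (v : Place k K) :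
    v.ord b = 3 * v.ord (x ^ 2 - x + 1) - 2 * v.ord x - 2 * v.ord (x - 1) := by
  have hx0 : x ≠ 0 := by
    have := sub_ne x hx 0
    simpa using this
  have hx1 : x - 1 ≠ 0 := by
    have := sub_ne x hx 1
    simpa using this
  have hN := N5_ne hx
  have h27 : (27 : K) = algebraMap k K 27 := (map_ofNat (algebraMap k K) 27).symm
  have h4 : (4 : K) = algebraMap k K 4 := (map_ofNat (algebraMap k K) 4).symm
  have hb0 : b ≠ 0 := by
    rintro rfl
    rw [mul_zero, h4] at hb
    exact (mul_ne_zero ((map_ne_zero (algebraMap k K)).2 (by norm_num)) (pow_ne_zero 3 hN)) hb.symm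
  have h1 := congrArg v.ord hb
  rw [h27, h4, mul_assoc, mul_assoc, N5_num v 27 (by norm_num) _ (mul_ne_zero (pow_ne_zero 2 hx0)
    (mul_ne_zero (pow_ne_zero 2 hx1) hb0)), N5_num v 4 (by norm_num) _ (pow_ne_zero 3 hN),
    v.ord_mul _ _ (pow_ne_zero 2 hx0) (mul_ne_zero (pow_ne_zero 2 hx1) hb0),
    v.ord_mul _ _ (pow_ne_zero 2 hx1) hb0, v.ord_pow, v.ord_pow, v.ord_pow] at h1
  push_cast at h1
  linarith

/-- poles of `J` -/
theorem j_poles (hK : IsFunctionField k K) (x b : K) (hx : Transcendental k x)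
    (hb : 27 * x ^ 2 * (x - 1) ^ 2 * b = 4 * (x ^ 2 - x + 1) ^ 3) (v : Place k K) :
    (v.ord x < 0 → v.ord b = 2 * v.ord x) ∧ (0 < v.ord x → v.ord b = -(2 * v.ord x)) ∧
      (0 < v.ord (x - 1) → v.ord b = -(2 * v.ord (x - 1))) ∧
      (v.ord x = 0 → v.ord (x - 1) = 0 → 0 ≤ v.ord b) := by
  have hx0 : x ≠ 0 := by
    have := sub_ne x hx 0
    simpa using this
  have hx1 : x - 1 ≠ 0 := by
    have := sub_ne x hx 1
    simpa using this
  have hN := N5_ne hx
  have hb' := N5_ord x b hx hb v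
  have hm1 : v.ord (-1 : K) = 0 := by rw [v.ord_neg, v.ord_one]
  have hN1 : x ^ 2 - x + 1 = 1 + x * (x - 1) := by ring
  have hxy : v.ord (x * (x - 1)) = v.ord x + v.ord (x - 1) := v.ord_mul _ _ hx0 hx1
  refine ⟨?_, ?_, ?_, ?_⟩
  · intro h
    have h1 : v.ord (x - 1) = v.ord x := by
      rw [sub_eq_add_neg]
      exact (N5_add v hx0 (neg_ne_zero.2 one_ne_zero) (by rw [hm1]; exact h)).2
    have h2 : v.ord (x ^ 2 - x + 1) = 2 * v.ord x := by
      have h3 : x ^ 2 - x + 1 = x ^ 2 + -(x - 1) := by ring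
      rw [h3, (N5_add v (pow_ne_zero 2 hx0) (neg_ne_zero.2 hx1) (by
        rw [v.ord_neg, v.ord_pow, h1]; push_cast; linarith)).2, v.ord_pow]
      push_cast
      ring
    rw [hb', h1, h2]
    ring
  · intro h
    have h1 : v.ord (x - 1) = 0 := by
      rw [sub_eq_add_neg, add_comm, (N5_add v (neg_ne_zero.2 one_ne_zero) hx0 (by rw [hm1]; exact h)).2, hm1]
    have h2 : v.ord (x ^ 2 - x + 1) = 0 := by
      rw [hN1, (N5_add v one_ne_zero (mul_ne_zero hx0 hx1) (by
        rw [v.ord_one, hxy, h1]; linarith)).2, v.ord_one]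
    rw [hb', h1, h2]
    ring
  · intro h
    have h1 : v.ord x = 0 := by
      have h3 : x = 1 + (x - 1) := by ring
      rw [h3, (N5_add v one_ne_zero hx1 (by rw [v.ord_one]; exact h)).2, v.ord_one]
    have h2 : v.ord (x ^ 2 - x + 1) = 0 := by
      rw [hN1, (N5_add v one_ne_zero (mul_ne_zero hx0 hx1) (by
        rw [v.ord_one, hxy, h1]; linarith)).2, v.ord_one]
    rw [hb', h1, h2]
    ring
  · intro h h'
    have h2 := v.ord_add 1 (x * (x - 1)) one_ne_zero (mul_ne_zero hx0 hx1) (by rw [← hN1]; exact hN)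
    rw [← hN1, v.ord_one, hxy, h, h', add_zero, min_self] at h2
    rw [hb', h, h']
    linarith

theorem j_trans (hK : IsFunctionField k K) (x b : K) (hx : Transcendental k x)
    (hb : 27 * x ^ 2 * (x - 1) ^ 2 * b = 4 * (x ^ 2 - x + 1) ^ 3) : Transcendental k b := by
  obtain ⟨v, hv⟩ := exists_pole hK hx
  refine trans_of_ord v ?_
  rw [(j_poles hK x b hx hb v).1 hv]
  omega

end Pool.Agent.LibFP27
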