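import Pool.Agent.LibFP27.C1
import Pool.Agent.LibFP27.N5

/-!
[FP27 N6] The divisor of poles of `J` is linearly equivalent to six times the divisor of poles of `x`.
Let `F₀ w = p` at the poles of `b`, `0` elsewhere (`p • F = p₁ • F₀`, so `p² cls (fp F) = p₁² cls (fp F₀)`: `fp_smul`); every pole of `b` has order `-p` (`hp`). By `j_poles` the poles of `b` are the poles of `x`, the zeros of `x` and the zeros of `x - 1`, and `2 |v.ord x| = p` (resp. `2 v.ord (x - 1) = p`) there. There is a pole of `x` (`exists_pole`), so `p = 2 p'`, `0 < p'`.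
`F' w = p'` at the poles of `x`, `0` elsewhere (finite support: `finite_supp`). `F₀ - 6 F' = div (x² (x - 1)²)`: at a pole of `x` (order `-p'`): `p - 6 p' = -4 p'`; at a zero of `x`: `p = 2 p'`; at a zero of `x - 1`: `p = 2 p'`; elsewhere `0`. Then `cls_fp_add` and `fp_smul`: `cls (fp F₀) = cls (fp (6 F')) = 36 cls (fp F')`.
-/

open scoped Classical

namespace Pool.Agent.LibFP27

open Pool.Agent.LibBH2
open Pool.Agent.LibQC8 (IsFunctionField Div deg IsPrincipal)

variable {k : Type} [Field k] [IsAlgClosed k] [CharZero k]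
variable {L : Type} [Field L] [Algebra k L]

omit [IsAlgClosed k] [CharZero k] in
private theorem N6_ord_lt (w : Place k L) {a b : L} (ha : a ≠ 0) (h : w.ord a < w.ord b) :
    w.ord (a + b) = w.ord a := by
  by_cases hb : b = 0
  · rw [hb, add_zero]
  have hab : a + b ≠ 0 := by
    intro h0
    have h1 : b = -a := by linear_combination h0
    rw [h1, w.ord_neg] at h
    exact lt_irrefl _ h
  have h1 := w.ord_add a b ha hb hab
  have h2 := w.ord_add (a + b) (-b) hab (neg_ne_zero.2 hb) (by rwa [add_neg_cancel_right])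
  rw [add_neg_cancel_right, w.ord_neg] at h2
  rw [min_eq_left h.le] at h1
  rcases min_le_iff.1 h2 with h3 | h3
  · omega
  · omega

omit [IsAlgClosed k] [CharZero k] in
private theorem N6_exists_div (Q : Place k L → Prop) (hQ : {w | Q w}.Finite) (p : ℤ) :
    ∃ F : Div k L, ∀ w, F w = if Q w then p else 0 := by
  classical
  refine ⟨Finsupp.ofSupportFinite (fun w => if Q w then p else 0) (hQ.subset ?_), fun w => rfl⟩
  intro w hw
  by_contra hc
  apply hw
  exact if_neg hc

theorem fp_six (hL : IsFunctionField k L) (x b : L) (hx : Transcendental k x)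
    (hb : 27 * x ^ 2 * (x - 1) ^ 2 * b = 4 * (x ^ 2 - x + 1) ^ 3) (p : ℤ) (hp : ∀ w : Place k L, w.ord b < 0 → w.ord b = -p)
    (p₁ : ℤ) (F : Div k L) (hF : ∀ w, F w = if w.ord b < 0 then p₁ else 0) :
    ∃ (p' : ℤ) (F' : Div k L), 0 < p' ∧ (∀ w, F' w = if w.ord x < 0 then p' else 0) ∧
      p ^ 2 • cls k L L (fp F) = (36 * p₁ ^ 2) • cls k L L (fp F') := by
  have hx0 : x ≠ 0 := by
    have := sub_ne x hx 0
    rwa [map_zero, sub_zero] at this
  have hx1 : x - 1 ≠ 0 := by
    have := sub_ne x hx 1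
    rwa [map_one] at this
  have h1neg : ∀ w : Place k L, w.ord (-1 : L) = 0 := fun w => by rw [w.ord_neg, w.ord_one]
  have hA : ∀ w : Place k L, w.ord x < 0 → w.ord (x - 1) = w.ord x := by
    intro w hw
    rw [sub_eq_add_neg]
    exact N6_ord_lt w hx0 (by rw [h1neg]; exact hw)
  have hB : ∀ w : Place k L, 0 < w.ord x → w.ord (x - 1) = 0 := by
    intro w hw
    have h := N6_ord_lt w (a := (-1 : L)) (b := x) (by simp) (by rw [h1neg]; exact hw)
    rw [h1neg] at h
    rwa [sub_eq_add_neg, add_comm]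
  have hC : ∀ w : Place k L, w.ord x = 0 → 0 ≤ w.ord (x - 1) := by
    intro w hw
    have h := w.ord_add x (-1) hx0 (by simp) (by rwa [← sub_eq_add_neg])
    rw [hw, h1neg, min_self, ← sub_eq_add_neg] at h
    exact h
  obtain ⟨w₀, hw₀⟩ := exists_pole hL hx
  have hp₀ : w₀.ord b = 2 * w₀.ord x := (j_poles hL x b hx hb w₀).1 hw₀
  have hp₀' := hp w₀ (by omega)
  obtain ⟨p', hp'⟩ : ∃ p', p' = - w₀.ord x := ⟨_, rfl⟩
  have hpp : p = 2 * p' := by omega
  have hp'0 : 0 < p' := by omega
  have hfx : {w : Place k L | w.ord x < 0}.Finite :=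
    (finite_supp hL x).subset fun w (hw : w.ord x < 0) => hw.ne
  have hfb : {w : Place k L | w.ord b < 0}.Finite :=
    (finite_supp hL b).subset fun w (hw : w.ord b < 0) => hw.ne
  obtain ⟨F', hF'⟩ := N6_exists_div (fun w : Place k L => w.ord x < 0) hfx p'
  obtain ⟨F₀, hF₀⟩ := N6_exists_div (fun w : Place k L => w.ord b < 0) hfb p
  have hE : IsPrincipal k L (F₀ - (6 : ℤ) • F') := by
    refine ⟨x ^ 2 * (x - 1) ^ 2, mul_ne_zero (pow_ne_zero _ hx0) (pow_ne_zero _ hx1), fun w => ?_⟩
    rw [w.ord_mul _ _ (pow_ne_zero _ hx0) (pow_ne_zero _ hx1), w.ord_pow, w.ord_pow]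
    rw [Finsupp.sub_apply, Finsupp.smul_apply, hF', hF₀, smul_eq_mul]
    obtain ⟨j1, j2, j3, j4⟩ := j_poles hL x b hx hb w
    have hpw := hp w
    push_cast
    rcases lt_trichotomy (w.ord x) 0 with h | h | h
    · have h1 := j1 h
      have h2 := hA w h
      have h3 := hpw (by omega)
      have h4 : w.ord b < 0 := by omega
      rw [if_pos h, if_pos h4]
      omega
    · have h2 := hC w h
      rcases h2.lt_or_eq with h3 | h3
      · have h4 := j3 h3
        have h5 := hpw (by omega)
        have h6 : w.ord b < 0 := by omega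
        have h7 : ¬ w.ord x < 0 := by omega
        rw [if_neg h7, if_pos h6]
        omega
      · have h4 := j4 h h3.symm
        have h6 : ¬ w.ord b < 0 := by omega
        have h7 : ¬ w.ord x < 0 := by omega
        rw [if_neg h7, if_neg h6]
        omega
    · have h1 := j2 h
      have h2 := hB w h
      have h3 := hpw (by omega)
      have h4 : w.ord b < 0 := by omega
      have h5 : ¬ w.ord x < 0 := by omega
      rw [if_neg h5, if_pos h4]
      omega
  refine ⟨p', F', hp'0, fun w => by rw [hF' w]; congr, ?_⟩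
  have e1 : p • F = p₁ • F₀ := by
    ext w
    rw [Finsupp.smul_apply, Finsupp.smul_apply, hF, hF₀, smul_eq_mul, smul_eq_mul]
    split_ifs
    · ring
    · simp
  have e2 : p ^ 2 • fp F = p₁ ^ 2 • fp F₀ := by
    rw [← fp_smul, ← fp_smul, e1]
  have e3 : cls k L L (fp F₀) = (6 : ℤ) ^ 2 • cls k L L (fp F') := by
    have h := cls_fp_add hL ((6 : ℤ) • F') (F₀ - (6 : ℤ) • F') hE
    rw [add_sub_cancel] at h
    rw [h, fp_smul, map_zsmul]
  rw [← map_zsmul, e2, map_zsmul, e3, smul_smul]
  congr 1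
  ring

end Pool.Agent.LibFP27
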