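import Pool.Agent.LibFP27.N3

open scoped Classical
open Polynomial

/-!
[FP27 N3b] The `d`-th power of an inertia automorphism fixes the fields in which the index is `d`.
`pow_fix`: `Over i w v` with `d = v.ord β > 0`, `σ (i β) = i β`, `w ∘ σ = w`. Take `x` with `v.ord x = 1`. `quot_val` (for `i x`): `σ (i x) = c i x + (order > e)`; then `σ^j (i x) = c^j i x + (order > e)` (`σ` fixes `k`). `β = b x^d + (order > d)` with `b ≠ 0` constant (value of `β / x^d`), so
`i β = b (i x)^d + (order > d e)`; apply `σ`: `i β = b c^d (i x)^d + (order > d e)`: `c^d = 1`. So `i₁ = σ^d ∘ i`, `i₂ = i` satisfy the hypotheses of `emb_eq`.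
-/

namespace Pool.Agent.LibFP27

open Pool.Agent.LibBH2
open Pool.Agent.LibQC8 (IsFunctionField Div deg)

section N3baux

variable {k L : Type} [Field k] [Field L] [Algebra k L]

/-- order at least `n` -/
private def N3b_ge (w : Place k L) (n : ℤ) (z : L) : Prop := z = 0 ∨ n ≤ w.ord z

private theorem N3b_add {w : Place k L} {n : ℤ} {a b : L} (ha : N3b_ge w n a) (hb : N3b_ge w n b) :
    N3b_ge w n (a + b) := by
  by_cases h0 : a + b = 0
  · exact Or.inl h0
  rcases ha with rfl | ha
  · rw [zero_add]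
    exact hb
  rcases hb with rfl | hb
  · rw [add_zero]
    exact Or.inr ha
  by_cases ha0 : a = 0
  · rw [ha0, zero_add]
    exact Or.inr hb
  by_cases hb0 : b = 0
  · rw [hb0, add_zero]
    exact Or.inr ha
  exact Or.inr (le_trans (le_min ha hb) (w.ord_add a b ha0 hb0 h0))

private theorem N3b_neg {w : Place k L} {n : ℤ} {a : L} (ha : N3b_ge w n a) : N3b_ge w n (-a) := by
  rcases ha with rfl | ha
  · exact Or.inl neg_zero
  · exact Or.inr (by rwa [w.ord_neg])

private theorem N3b_sub {w : Place k L} {n : ℤ} {a b : L} (ha : N3b_ge w n a) (hb : N3b_ge w n b) :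
    N3b_ge w n (a - b) := by
  rw [sub_eq_add_neg]
  exact N3b_add ha (N3b_neg hb)

private theorem N3b_mul {w : Place k L} {m n : ℤ} {a b : L} (ha : N3b_ge w m a) (hb : N3b_ge w n b) :
    N3b_ge w (m + n) (a * b) := by
  by_cases ha0 : a = 0
  · exact Or.inl (by rw [ha0, zero_mul])
  by_cases hb0 : b = 0
  · exact Or.inl (by rw [hb0, mul_zero])
  have h1 := ha.resolve_left ha0
  have h2 := hb.resolve_left hb0
  exact Or.inr (by rw [w.ord_mul _ _ ha0 hb0]; omega)

private theorem N3b_const (w : Place k L) (c : k) : N3b_ge w 0 (algebraMap k L c) := by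
  by_cases hc : c = 0
  · exact Or.inl (by rw [hc, map_zero])
  · exact Or.inr (by rw [w.ord_const c hc])

private theorem N3b_smul {w : Place k L} {n : ℤ} {a : L} (c : k) (ha : N3b_ge w n a) :
    N3b_ge w n (algebraMap k L c * a) := by
  have h := N3b_mul (N3b_const w c) ha
  rwa [zero_add] at h

private theorem N3b_pow {w : Place k L} {n : ℤ} {a : L} (ha : N3b_ge w n a) (d : ℕ) :
    N3b_ge w (d * n) (a ^ d) := by
  induction d with
  | zero =>
    right
    rw [pow_zero, w.ord_one]
    simp
  | succ d ih =>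
    rw [pow_succ]
    have h := N3b_mul ih ha
    have e : (d : ℤ) * n + n = ((d + 1 : ℕ) : ℤ) * n := by
      push_cast
      ring
    rwa [e] at h

private theorem N3b_powsub {w : Place k L} {e : ℤ} {a r : L} (ha : N3b_ge w e a)
    (hr : N3b_ge w (e + 1) r) (d : ℕ) :
    N3b_ge w (d * e + 1) ((a + r) ^ d - a ^ d) := by
  have hr' : N3b_ge w e r := hr.imp id (fun h => by omega)
  induction d with
  | zero => exact Or.inl (by rw [pow_zero, pow_zero, sub_self])
  | succ d ih =>
    have e1 : (a + r) ^ (d + 1) - a ^ (d + 1) = ((a + r) ^ d - a ^ d) * (a + r) + a ^ d * r := by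
      ring
    rw [e1]
    have h1 := N3b_mul ih (N3b_add ha hr')
    have h2 := N3b_mul (N3b_pow ha d) hr
    have e2 : (d : ℤ) * e + 1 + e = ((d + 1 : ℕ) : ℤ) * e + 1 := by
      push_cast
      ring
    have e3 : (d : ℤ) * e + (e + 1) = ((d + 1 : ℕ) : ℤ) * e + 1 := by
      push_cast
      ring
    rw [e2] at h1
    rw [e3] at h2
    exact N3b_add h1 h2

end N3baux

variable {k : Type} [Field k] [IsAlgClosed k] [CharZero k]
variable {M L : Type} [Field M] [Algebra k M] [Field L] [Algebra k L]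

/-- `β = b x ^ d +` (order `> d`) -/
private theorem N3b_lead (hM : IsFunctionField k M) (v : Place k M) (β : M) (d : ℕ) (hd : 0 < d)
    (hβ : v.ord β = d) (x : M) (hx : v.ord x = 1) :
    ∃ b : k, b ≠ 0 ∧ (β - algebraMap k M b * x ^ d = 0 ∨
      (d : ℤ) < v.ord (β - algebraMap k M b * x ^ d)) := by
  have hx0 : x ≠ 0 := by
    rintro rfl
    rw [v.ord_zero] at hx
    omega
  have hβ0 : β ≠ 0 := by
    rintro rfl
    rw [v.ord_zero] at hβ
    omega
  have hq : v.ord (β / x ^ d) = 0 := by
    rw [v.ord_div _ _ hβ0 (pow_ne_zero _ hx0), hβ, v.ord_pow, hx]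
    ring
  have hq0 : β / x ^ d ≠ 0 := div_ne_zero hβ0 (pow_ne_zero _ hx0)
  obtain ⟨b, hb⟩ : ∃ b : k, v.Zer (β / x ^ d - algebraMap k M b) := by
    by_cases ht : Transcendental k (β / x ^ d)
    · obtain ⟨b, hb⟩ := exists_val hM v hq.ge ht
      exact ⟨b, Or.inr hb⟩
    · obtain ⟨b, hb⟩ := Pool.Agent.LibEnd77.Val8.alg_const (not_not.1 ht)
      exact ⟨b, Or.inl (by rw [hb, sub_self])⟩
  refine ⟨b, ?_, ?_⟩
  · rintro rfl
    rw [map_zero, sub_zero] at hb
    rcases hb with h | h
    · exact hq0 h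
    · omega
  · have e1 : β - algebraMap k M b * x ^ d = (β / x ^ d - algebraMap k M b) * x ^ d := by
      rw [sub_mul, div_mul_cancel₀ _ (pow_ne_zero _ hx0)]
    rw [e1]
    rcases hb with h | h
    · exact Or.inl (by rw [h, zero_mul])
    · by_cases h0 : β / x ^ d - algebraMap k M b = 0
      · exact Or.inl (by rw [h0, zero_mul])
      · right
        rw [v.ord_mul _ _ h0 (pow_ne_zero _ hx0), v.ord_pow, hx]
        omega

theorem pow_fix (hM : IsFunctionField k M) (hL : IsFunctionField k L) (w : Place k L) (v : Place k M) (i : M →ₐ[k] L)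
    (hi : Over i w v) (β : M) (d : ℕ) (hd : 0 < d) (hβ : v.ord β = d) (σ : L ≃ₐ[k] L)
    (hσ : ∀ z, w.ord (σ z) = w.ord z) (hσβ : σ (i β) = i β) : ∀ z, (σ ^ d) (i z) = i z := by
  obtain ⟨e, he, hi⟩ := hi
  obtain ⟨x, hx⟩ := v.exists_uniformizer
  have hx0 : x ≠ 0 := by
    rintro rfl
    rw [v.ord_zero] at hx
    omega
  have hix0 : i x ≠ 0 := (_root_.map_ne_zero i).2 hx0
  have hix : w.ord (i x) = e := by rw [hi, hx, mul_one]
  obtain ⟨c, hc0, hc⟩ := quot_val hL w σ hσ (i x) hix0
  have hc' : N3b_ge w (e + 1) (σ (i x) - algebraMap k L c * i x) := by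
    rcases hc with h | h
    · exact Or.inl (by rw [h, sub_self])
    · exact Or.inr (by omega)
  have hσge : ∀ {n : ℤ} {z : L}, N3b_ge w n z → N3b_ge w n (σ z) := by
    intro n z h
    rcases h with rfl | h
    · exact Or.inl (map_zero σ)
    · exact Or.inr (by rwa [hσ])
  -- the powers of `σ`
  have hpow : ∀ j : ℕ, N3b_ge w (e + 1) ((σ ^ j) (i x) - algebraMap k L (c ^ j) * i x) := by
    intro j
    induction j with
    | zero =>
      left
      rw [pow_zero, pow_zero, map_one, one_mul, AlgEquiv.one_apply, sub_self]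
    | succ j ih =>
      have e1 : (σ ^ (j + 1)) (i x) - algebraMap k L (c ^ (j + 1)) * i x =
          σ ((σ ^ j) (i x) - algebraMap k L (c ^ j) * i x) +
            algebraMap k L (c ^ j) * (σ (i x) - algebraMap k L c * i x) := by
        rw [pow_succ', AlgEquiv.mul_apply, map_sub, map_mul, σ.commutes, pow_succ, map_mul]
        ring
      rw [e1]
      exact N3b_add (hσge ih) (N3b_smul _ hc')
  obtain ⟨b, hb0, hb⟩ := N3b_lead hM v β d hd hβ x hx
  have hb' : N3b_ge w (d * e + 1) (i β - algebraMap k L b * i x ^ d) := by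
    have e1 : i β - algebraMap k L b * i x ^ d = i (β - algebraMap k M b * x ^ d) := by
      rw [map_sub, map_mul, map_pow, i.commutes]
    rw [e1]
    rcases hb with h | h
    · exact Or.inl (by rw [h, map_zero])
    · right
      rw [hi]
      have h1 : (d : ℤ) + 1 ≤ v.ord (β - algebraMap k M b * x ^ d) := h
      have h2 : e * ((d : ℤ) + 1) ≤ e * v.ord (β - algebraMap k M b * x ^ d) :=
        mul_le_mul_of_nonneg_left h1 he.le
      nlinarith
  have hb'' : N3b_ge w (d * e + 1) (i β - algebraMap k L b * σ (i x) ^ d) := by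
    have h := hσge hb'
    rwa [map_sub, map_mul, map_pow, σ.commutes, hσβ] at h
  have hcd : c ^ d = 1 := by
    have ha : N3b_ge w e (algebraMap k L c * i x) := N3b_smul c (Or.inr hix.ge)
    have h1 := N3b_powsub ha hc' d
    rw [add_sub_cancel, mul_pow, ← map_pow (algebraMap k L)] at h1
    have h2 : N3b_ge w (d * e + 1) (algebraMap k L (b * (c ^ d - 1)) * i x ^ d) := by
      have e1 : algebraMap k L (b * (c ^ d - 1)) * i x ^ d =
          (i β - algebraMap k L b * i x ^ d) - (i β - algebraMap k L b * σ (i x) ^ d) -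
            algebraMap k L b * (σ (i x) ^ d - algebraMap k L (c ^ d) * i x ^ d) := by
        rw [map_mul, map_sub, map_one]
        ring
      rw [e1]
      exact N3b_sub (N3b_sub hb' hb'') (N3b_smul b h1)
    by_contra hne
    have h3 : b * (c ^ d - 1) ≠ 0 := mul_ne_zero hb0 (sub_ne_zero.2 hne)
    have h4 : algebraMap k L (b * (c ^ d - 1)) ≠ 0 := (_root_.map_ne_zero _).2 h3
    rcases h2 with h2 | h2
    · exact mul_ne_zero h4 (pow_ne_zero _ hix0) h2
    · rw [w.ord_mul _ _ h4 (pow_ne_zero _ hix0), w.ord_const _ h3, w.ord_pow, hix] at h2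
      omega
  have hordpow : ∀ (j : ℕ) z, w.ord ((σ ^ j) z) = w.ord z := by
    intro j
    induction j with
    | zero =>
      intro z
      rw [pow_zero, AlgEquiv.one_apply]
    | succ j ih =>
      intro z
      rw [pow_succ', AlgEquiv.mul_apply, hσ, ih]
  have hfix : ∀ j : ℕ, (σ ^ j) (i β) = i β := by
    intro j
    induction j with
    | zero => rw [pow_zero, AlgEquiv.one_apply]
    | succ j ih => rw [pow_succ', AlgEquiv.mul_apply, ih, hσβ]
  have hfin : ((σ ^ d : L ≃ₐ[k] L) : L →ₐ[k] L).comp i = i := by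
    refine emb_eq hM w v _ i e he (fun f => ?_) hi β (by omega) ?_ x hx ?_
    · change w.ord ((σ ^ d) (i f)) = _
      rw [hordpow, hi]
    · exact hfix d
    · change (σ ^ d) (i x) = i x ∨ e < w.ord ((σ ^ d) (i x) - i x)
      have h := hpow d
      rw [hcd, map_one, one_mul] at h
      rcases h with h | h
      · exact Or.inl (sub_eq_zero.1 h)
      · exact Or.inr (by omega)
  intro z
  exact DFunLike.congr_fun hfin z

end Pool.Agent.LibFP27
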