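import Pool.Agent.LibFP27.N1
import Pool.Agent.LibFP27.N3b

/-!
[FP27 N4] A compositum of extensions with the ramification index `d` has the ramification index `d`.
Let `L` be generated by the images of the embeddings `j a : M → L`, `j a β = b` for all `a`, `L / k(b)` Galois, and `v.ord β = d` for all zeros `v` of `β`. Then `w.ord b = d` for all zeros `w` of `b`.
Proof. `ι` is not empty (otherwise `L = k`; `b` is transcendental); `w.ord b = e' d ≥ d` with `v` the place below `w` (`over_exists`; `v.ord β > 0` since `e' * v.ord β = w.ord b > 0`). Let `I` be the group of all `σ ∈ Gal(L/k(b))` with `w ∘ σ = w`: it has `w.ord b` elements (`inertia_card`). For `σ ∈ I` and each `a`, `pow_fix`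
(with `σ.restrictScalars k`, `σ b = b`) gives `σ^d = 1` on the image of `j a`; so `σ^d = 1` (`hgen`). Let `x ∈ L`, `w.ord x = 1` (`exists_uniformizer`). `quot_val`: `σ x = c(σ) x + (order > 1)`; `c(σ)^d = 1` (apply `σ` `d` times), and `c(σ) = c(τ)` implies `σ = τ` (`char_inj` for `τ⁻¹ σ`, of finite order `d`).
So `σ ↦ c(σ)` is an injection of `I` in the roots of `X^d - 1` in `k` (at most `d`: `Polynomial.card_nthRoots` or `card_roots'`): `w.ord b = |I| ≤ d`.
-/

open scoped Classical

namespace Pool.Agent.LibFP27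

open Pool.Agent.LibBH2
open Pool.Agent.LibQC8 (IsFunctionField Div deg)

variable {k : Type} [Field k] [IsAlgClosed k] [CharZero k]
variable {M L : Type} [Field M] [Algebra k M] [Field L] [Algebra k L]

private theorem N4_big_add (w : Place k L) {y z : L} (hy : y = 0 ∨ 1 < w.ord y)
    (hz : z = 0 ∨ 1 < w.ord z) : y + z = 0 ∨ 1 < w.ord (y + z) := by
  by_cases h0 : y + z = 0
  · exact Or.inl h0
  right
  rcases hy with rfl | hy
  · rw [zero_add] at h0 ⊢
    exact hz.resolve_left h0
  rcases hz with rfl | hz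
  · rwa [add_zero]
  have hy0 : y ≠ 0 := by rintro rfl; rw [w.ord_zero] at hy; omega
  have hz0 : z ≠ 0 := by rintro rfl; rw [w.ord_zero] at hz; omega
  exact lt_of_lt_of_le (lt_min hy hz) (w.ord_add y z hy0 hz0 h0)

private theorem N4_big_const (w : Place k L) {y : L} (hy : y = 0 ∨ 1 < w.ord y) (c : k) :
    algebraMap k L c * y = 0 ∨ 1 < w.ord (algebraMap k L c * y) := by
  by_cases hc : c = 0
  · left
    rw [hc, map_zero, zero_mul]
  rcases hy with rfl | hy
  · left
    rw [mul_zero]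
  right
  have hy0 : y ≠ 0 := by rintro rfl; rw [w.ord_zero] at hy; omega
  rw [w.ord_mul _ _ (by simpa using hc) hy0, w.ord_const c hc, zero_add]
  exact hy

private theorem N4_big_neg (w : Place k L) {y : L} (hy : y = 0 ∨ 1 < w.ord y) :
    -y = 0 ∨ 1 < w.ord (-y) := by
  rcases hy with rfl | hy
  · left
    exact neg_zero
  · right
    rwa [w.ord_neg]

private theorem N4_big_map (w : Place k L) (σ : L ≃ₐ[k] L) (hσ : ∀ z, w.ord (σ z) = w.ord z)
    {y : L} (hy : y = 0 ∨ 1 < w.ord y) : σ y = 0 ∨ 1 < w.ord (σ y) := by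
  rcases hy with rfl | hy
  · left
    exact map_zero σ
  · right
    rwa [hσ]

private theorem N4_char_pow (w : Place k L) (σ : L ≃ₐ[k] L) (hσ : ∀ z, w.ord (σ z) = w.ord z)
    (d : ℕ) (hσd : σ ^ d = 1) {x : L} (hx : w.ord x = 1) {c : k}
    (hc : σ x = algebraMap k L c * x ∨ 1 < w.ord (σ x - algebraMap k L c * x)) : c ^ d = 1 := by
  have hc' : σ x - algebraMap k L c * x = 0 ∨ 1 < w.ord (σ x - algebraMap k L c * x) :=
    hc.imp_left sub_eq_zero.2
  have h1 : ∀ i : ℕ, (σ ^ i) x - algebraMap k L (c ^ i) * x = 0 ∨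
      1 < w.ord ((σ ^ i) x - algebraMap k L (c ^ i) * x) := by
    intro i
    induction i with
    | zero => left; simp
    | succ i ih =>
      have h2 := N4_big_add w (N4_big_map w σ hσ ih) (N4_big_const w hc' (c ^ i))
      have h3 : σ ((σ ^ i) x - algebraMap k L (c ^ i) * x) +
          algebraMap k L (c ^ i) * (σ x - algebraMap k L c * x) =
          (σ ^ (i + 1)) x - algebraMap k L (c ^ (i + 1)) * x := by
        rw [map_sub, map_mul, σ.commutes, pow_succ' σ i, AlgEquiv.mul_apply, pow_succ, map_mul]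
        ring
      rwa [h3] at h2
  have h4 := h1 d
  rw [hσd] at h4
  by_contra hne
  have hx0 : x ≠ 0 := by rintro rfl; rw [w.ord_zero] at hx; omega
  have h5 : (1 : L ≃ₐ[k] L) x - algebraMap k L (c ^ d) * x = algebraMap k L (1 - c ^ d) * x := by
    rw [map_sub, map_one, AlgEquiv.one_apply]
    ring
  have h6 : (1 - c ^ d : k) ≠ 0 := sub_ne_zero.2 (Ne.symm hne)
  have h7 : algebraMap k L (1 - c ^ d) ≠ 0 := (map_ne_zero _).2 h6
  rw [h5] at h4
  rcases h4 with h4 | h4
  · exact mul_ne_zero h7 hx0 h4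
  · rw [w.ord_mul _ _ h7 hx0, w.ord_const _ h6, hx] at h4
    omega

/-- a compositum of extensions with the ramification index `d` has the ramification index `d` -/
theorem ram_fam {ι : Type} (M : ι → Type) [∀ a, Field (M a)] [∀ a, Algebra k (M a)]
    (hM : ∀ a, IsFunctionField k (M a)) (hL : IsFunctionField k L) (j : ∀ a, M a →ₐ[k] L) (β : ∀ a, M a) (b : L)
    (hb : Transcendental k b) (hG : IsGalois (IntermediateField.adjoin k {b}) L) (hj : ∀ a, j a (β a) = b)
    (hgen : IntermediateField.adjoin k (⋃ a, Set.range (j a)) = ⊤) (d : ℕ) (hd : 0 < d)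
    (hu : ∀ a, ∀ v : Place k (M a), 0 < v.ord (β a) → v.ord (β a) = d) (w : Place k L) (hw : 0 < w.ord b) :
    w.ord b = d := by
  have hne : Nonempty ι := by
    by_contra hcon
    rw [not_nonempty_iff] at hcon
    have h1 : (⋃ a, Set.range (j a)) = (∅ : Set L) := by simp
    rw [h1, IntermediateField.adjoin_empty] at hgen
    have h2 : b ∈ (⊥ : IntermediateField k L) := by rw [hgen]; trivial
    rw [IntermediateField.mem_bot] at h2
    obtain ⟨c, rfl⟩ := h2
    rw [ord_const'] at hw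
    exact lt_irrefl _ hw
  have hover : ∀ a, ∃ v : Place k (M a), Over (j a) w v ∧ v.ord (β a) = d := by
    intro a
    obtain ⟨v, hv⟩ := over_exists (hM a) hL (j a) w
    refine ⟨v, hv, hu a v ?_⟩
    obtain ⟨e, he, hf⟩ := hv
    have h1 := hf (β a)
    rw [hj a] at h1
    rw [h1] at hw
    exact (mul_pos_iff_of_pos_left he).1 hw
  have hge : (d : ℤ) ≤ w.ord b := by
    obtain ⟨a⟩ := hne
    obtain ⟨v, ⟨e, he, hf⟩, hvd⟩ := hover a
    have h1 := hf (β a)
    rw [hj a, hvd] at h1
    rw [h1]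
    have : (0 : ℤ) < d := by exact_mod_cast hd
    nlinarith
  obtain ⟨hfin, hcard⟩ := inertia_card hL b hb hG w hw
  obtain ⟨x, hx⟩ := w.exists_uniformizer
  have hx0 : x ≠ 0 := by rintro rfl; rw [w.ord_zero] at hx; omega
  have hpow : ∀ σ : L ≃ₐ[IntermediateField.adjoin k {b}] L, (∀ z, w.ord (σ z) = w.ord z) →
      (σ.restrictScalars k) ^ d = 1 := by
    intro σ hσ
    have hσb : σ b = b := σ.commutes ⟨b, IntermediateField.mem_adjoin_simple_self k b⟩
    have h1 : ∀ z ∈ IntermediateField.adjoin k (⋃ a, Set.range (j a)),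
        ((σ.restrictScalars k) ^ d) z = z := by
      intro z hz
      induction hz using IntermediateField.adjoin_induction with
      | mem z hz =>
        obtain ⟨a, y, rfl⟩ := Set.mem_iUnion.1 hz
        obtain ⟨v, hv, hvd⟩ := hover a
        exact pow_fix (hM a) hL w v (j a) hv (β a) d hd hvd (σ.restrictScalars k) hσ
          (by rw [hj a]; exact hσb) y
      | algebraMap c => exact AlgEquiv.commutes _ c
      | add y z _ _ hy hz => rw [map_add, hy, hz]
      | inv y _ hy => rw [map_inv₀, hy]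
      | mul y z _ _ hy hz => rw [map_mul, hy, hz]
    ext z
    rw [h1 z (by rw [hgen]; trivial)]
    rfl
  have hch : ∀ σ : {σ : L ≃ₐ[IntermediateField.adjoin k {b}] L // ∀ z, w.ord (σ z) = w.ord z},
      ∃ c : k, c ^ d = 1 ∧ (σ.1 x = algebraMap k L c * x ∨
        1 < w.ord (σ.1 x - algebraMap k L c * x)) := by
    rintro ⟨σ, hσ⟩
    obtain ⟨c, -, hc⟩ := quot_val hL w (σ.restrictScalars k) hσ x hx0
    rw [hx] at hc
    exact ⟨c, N4_char_pow w (σ.restrictScalars k) hσ d (hpow σ hσ) hx hc, hc⟩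
  choose c hc1 hc2 using hch
  have hinj : Function.Injective c := by
    rintro ⟨σ, hσ⟩ ⟨τ, hτ⟩ h
    apply Subtype.ext
    have hτ' : ∀ z, w.ord (τ⁻¹ z) = w.ord z := by
      intro z
      have h1 := hτ (τ⁻¹ z)
      have h2 : τ (τ⁻¹ z) = z := by
        rw [← AlgEquiv.mul_apply, mul_inv_cancel, AlgEquiv.one_apply]
      rw [h2] at h1
      exact h1.symm
    have hρ : ∀ z, w.ord ((τ⁻¹ * σ) z) = w.ord z := by
      intro z
      rw [AlgEquiv.mul_apply, hτ', hσ]
    have h1 := (hc2 ⟨σ, hσ⟩).imp_left sub_eq_zero.2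
    have h2 := (hc2 ⟨τ, hτ⟩).imp_left sub_eq_zero.2
    rw [h] at h1
    have h3 := N4_big_add w h1 (N4_big_neg w h2)
    have h4 : σ x - algebraMap k L (c ⟨τ, hτ⟩) * x + -(τ x - algebraMap k L (c ⟨τ, hτ⟩) * x) =
        σ x - τ x := by ring
    change σ x - algebraMap k L (c ⟨τ, hτ⟩) * x + -(τ x - algebraMap k L (c ⟨τ, hτ⟩) * x) = 0 ∨
      1 < w.ord (σ x - algebraMap k L (c ⟨τ, hτ⟩) * x + -(τ x - algebraMap k L (c ⟨τ, hτ⟩) * x))
      at h3
    rw [h4] at h3
    have h5 : (τ⁻¹ * σ) x - x = τ⁻¹ (σ x - τ x) := by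
      rw [map_sub, AlgEquiv.mul_apply, ← AlgEquiv.mul_apply τ⁻¹ τ, inv_mul_cancel,
        AlgEquiv.one_apply]
    have h6 := N4_big_map w (τ⁻¹.restrictScalars k) hτ' h3
    have h7 : ((τ⁻¹ * σ).restrictScalars k) x = x ∨
        1 < w.ord (((τ⁻¹ * σ).restrictScalars k) x - x) := by
      change (τ⁻¹ * σ) x = x ∨ 1 < w.ord ((τ⁻¹ * σ) x - x)
      rw [h5, ← sub_eq_zero, h5]
      exact h6
    have h8 := char_inj hL w ((τ⁻¹ * σ).restrictScalars k) hρ d hd (hpow _ hρ) x hx h7
    have h9 : τ⁻¹ * σ = 1 := by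
      ext z
      exact DFunLike.congr_fun h8 z
    exact (inv_mul_eq_one.1 h9).symm
  have hle : Nat.card {σ : L ≃ₐ[IntermediateField.adjoin k {b}] L // ∀ z, w.ord (σ z) = w.ord z}
      ≤ d := by
    have h1 : ∀ σ, c σ ∈ (Polynomial.nthRoots d (1 : k)).toFinset := by
      intro σ
      rw [Multiset.mem_toFinset, Polynomial.mem_nthRoots hd]
      exact hc1 σ
    have h2 : Function.Injective (fun σ => (⟨c σ, h1 σ⟩ :
        {y // y ∈ (Polynomial.nthRoots d (1 : k)).toFinset})) := by
      intro σ τ h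
      exact hinj (congrArg Subtype.val h)
    have h3 := Nat.card_le_card_of_injective _ h2
    rw [Nat.card_eq_fintype_card (α := {y // y ∈ (Polynomial.nthRoots d (1 : k)).toFinset}),
      Fintype.card_coe] at h3
    exact h3.trans ((Multiset.toFinset_card_le _).trans (Polynomial.card_nthRoots d 1))
  have hle' : w.ord b ≤ d := by
    rw [← hcard]
    exact_mod_cast hle
  exact le_antisymm hle' hge

theorem ram_gen (hM : IsFunctionField k M) (hL : IsFunctionField k L) {ι : Type} (j : ι → M →ₐ[k] L) (β : M) (b : L)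
    (hb : Transcendental k b) (hG : IsGalois (IntermediateField.adjoin k {b}) L) (hj : ∀ a, j a β = b)
    (hgen : IntermediateField.adjoin k (⋃ a, Set.range (j a)) = ⊤) (d : ℕ) (hd : 0 < d)
    (hu : ∀ v : Place k M, 0 < v.ord β → v.ord β = d) (w : Place k L) (hw : 0 < w.ord b) : w.ord b = d :=
  ram_fam (fun _ => M) (fun _ => hM) hL j (fun _ => β) b hb hG hj hgen d hd (fun _ => hu) w hw

end Pool.Agent.LibFP27
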