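import Pool.Agent.LibFP27.N5

/-!
[FP27 N5b] The function `J = 4 (x² - x + 1)³ / (27 x² (x - 1)²)`: it is ramified of index `3` over `0`, `2` over `1`, and otherwise only over `∞`.
Let `0 < v.ord (b - a)`, `q = 27 x² (x-1)²`. Then `v.ord b ≥ 0`, so `v.ord x = 0`, `v.ord (x - 1) = 0` (`j_poles`), `v.ord q = 0`, and `x` has a value `c ≠ 0, 1` with `v.ord (x - c) = 1` (`exists_val`, `hx1`).
`q (b - a) = 4 (x²-x+1)³ - 27 a x² (x-1)²` is a polynomial `R_a(x)` of degree `6`. If `R_a(c) ≠ 0` then `v.ord (b - a) = 0`. `a = 0`: `x² - x + 1 = (x - r)(x - r')`, `r ≠ r'`, `r, r' ≠ 0, 1`; exactly one of the factors has order `1`, the other `0`: order `3`.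
`a = 1`: `R_1 = (x + 1)² (x - 2)² (2 x - 1)²` (ring), the three roots are different: order `2`. `a ≠ 0, 1`: `R_a` has no double root different from `0`, `1`: if `R_a(c) = R_a'(c) = 0` then `4 (2c-1) (c²-c+1)² (c-2)(c+1) = 0` (eliminate `a`: `c (c-1) R_a'(c) - 2 (2c-1) R_a(c) = 4 (c²-c+1)² (2c-1) (c-2) (c+1)`), which gives
`R_a(c) = - 27 a c² (c-1)² ≠ 0` or `R_1(c) = 0`, `R_a(c) = 27 (1 - a) c² (c-1)² ≠ 0`. So `R_a(x) = (x - c) R_a'(c) + (x - c)² (...)` has order `1` at `v` (or `R_a = (X - c) S`, `S(c) ≠ 0`).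
-/

open scoped Classical

namespace Pool.Agent.LibFP27

open Pool.Agent.LibBH2
open Pool.Agent.LibQC8 (IsFunctionField Div deg)

variable {k : Type} [Field k] [IsAlgClosed k] [CharZero k]
variable {K : Type} [Field K] [Algebra k K]

namespace N5b

open Polynomial

omit [IsAlgClosed k] [CharZero k] in
private theorem reg_aeval (v : Place k K) {x : K} (hx : v.Reg x) (P : k[X]) : v.Reg (aeval x P) := by
  induction P using Polynomial.induction_on' with
  | add p q hp hq => rw [map_add]; exact hp.add hq
  | monomial n a =>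
    rw [aeval_monomial]
    exact (v.reg_const a).mul (hx.pow n)

omit [IsAlgClosed k] [CharZero k] in
private theorem reg_of_val (v : Place k K) {x : K} {c : k} (h : 0 < v.ord (x - algebraMap k K c)) : v.Reg x := by
  have h1 := (Place.Zer.reg (v := v) (Or.inr h)).add (v.reg_const c)
  simpa using h1

omit [IsAlgClosed k] [CharZero k] in
private theorem zer_sub (v : Place k K) {x : K} {c : k} (h : 0 < v.ord (x - algebraMap k K c)) (P : k[X]) :
    v.Zer (aeval x P - algebraMap k K (P.eval c)) := by
  obtain ⟨S, hS⟩ : (X - C c) ∣ (P - C (P.eval c)) := by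
    rw [dvd_iff_isRoot]
    simp [IsRoot]
  have h1 : aeval x P - algebraMap k K (P.eval c) = (x - algebraMap k K c) * aeval x S := by
    have h2 := congrArg (aeval x) hS
    simpa using h2
  rw [h1]
  exact Place.Zer.mul_reg (Or.inr h) (reg_aeval v (reg_of_val v h) S)

omit [IsAlgClosed k] [CharZero k] in
private theorem ord_ne (v : Place k K) {x : K} {c : k} (h : 0 < v.ord (x - algebraMap k K c)) (P : k[X])
    (hP : P.eval c ≠ 0) : v.ord (aeval x P) = 0 ∧ aeval x P ≠ 0 :=
  ⟨Place.ord_eq_zero_of_val (zer_sub v h P) hP, Place.ne_zero_of_val (zer_sub v h P) hP⟩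

omit [IsAlgClosed k] [CharZero k] in
private theorem ord_eq (v : Place k K) {x : K} {c : k} (h : v.ord (x - algebraMap k K c) = 1) (P : k[X])
    (hP : P.eval c = 0) (hP' : P.derivative.eval c ≠ 0) : v.ord (aeval x P) = 1 := by
  obtain ⟨S, hS⟩ : (X - C c) ∣ P := by
    rw [dvd_iff_isRoot]
    exact hP
  have hSc : S.eval c ≠ 0 := by
    intro h0
    apply hP'
    rw [hS]
    simp [h0]
  have h1 : aeval x P = (x - algebraMap k K c) * aeval x S := by
    rw [hS]
    simp
  obtain ⟨h2, h3⟩ := ord_ne v (by omega : 0 < v.ord (x - algebraMap k K c)) S hSc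
  have h4 : x - algebraMap k K c ≠ 0 := by
    intro h0
    rw [h0, v.ord_zero] at h
    omega
  rw [h1, v.ord_mul _ _ h4 h3, h, h2, add_zero]

/-- the common part: at a place over the finite value `a` -/
private theorem common (hK : IsFunctionField k K) (x b : K) (hx : Transcendental k x)
    (hx1 : ∀ (v : Place k K) (c : k), c ≠ 0 → c ≠ 1 → v.ord (x - algebraMap k K c) ≤ 1)
    (hb : 27 * x ^ 2 * (x - 1) ^ 2 * b = 4 * (x ^ 2 - x + 1) ^ 3) (v : Place k K) (a : k)
    (hv : 0 < v.ord (b - algebraMap k K a)) :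
    ∃ c : k, c ≠ 0 ∧ c ≠ 1 ∧ v.ord (x - algebraMap k K c) = 1 ∧
      v.ord (b - algebraMap k K a) =
        v.ord (4 * (x ^ 2 - x + 1) ^ 3 - 27 * algebraMap k K a * (x ^ 2 * (x - 1) ^ 2)) := by
  have hbreg : v.Reg b := reg_of_val v hv
  have hb0 : 0 ≤ v.ord b := by
    rcases hbreg with h | h
    · rw [h, v.ord_zero]
    · exact h
  obtain ⟨p1, p2, p3, -⟩ := j_poles hK x b hx hb v
  have hxne : x ≠ 0 := by
    have := sub_ne x hx 0
    simpa using this
  have hx1ne : x - 1 ≠ 0 := by
    have := sub_ne x hx 1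
    simpa using this
  have hxge : 0 ≤ v.ord x := by
    by_contra h
    push Not at h
    have := p1 h
    omega
  have hx0 : v.ord x = 0 := by
    by_contra h
    have := p2 (by omega)
    omega
  have hx1reg : v.Reg (x - 1) := by
    have h1 : v.Reg (-1 : K) := by
      have := (v.reg_const (1 : k)).neg
      simpa using this
    have h2 : v.Reg x := Or.inr hxge
    have := h2.add h1
    rwa [← sub_eq_add_neg] at this
  have hx10 : v.ord (x - 1) = 0 := by
    have h1 := hx1reg.resolve_left hx1ne
    by_contra h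
    have := p3 (by omega)
    omega
  obtain ⟨c, hc⟩ := exists_val hK v hxge hx
  have hc0 : c ≠ 0 := by
    rintro rfl
    rw [map_zero, sub_zero] at hc
    omega
  have hc1 : c ≠ 1 := by
    rintro rfl
    rw [map_one] at hc
    omega
  refine ⟨c, hc0, hc1, le_antisymm (hx1 v c hc0 hc1) hc, ?_⟩
  have hba : b - algebraMap k K a ≠ 0 := by
    intro h0
    rw [h0, v.ord_zero] at hv
    omega
  have h27 : (27 : K) = algebraMap k K 27 := (map_ofNat (algebraMap k K) 27).symm
  have h270 : (27 : K) ≠ 0 := by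
    rw [h27]
    exact (_root_.map_ne_zero _).2 (by norm_num)
  have hq : (27 * x ^ 2 * (x - 1) ^ 2 : K) ≠ 0 :=
    mul_ne_zero (mul_ne_zero h270 (pow_ne_zero _ hxne)) (pow_ne_zero _ hx1ne)
  have hq0 : v.ord (27 * x ^ 2 * (x - 1) ^ 2) = 0 := by
    rw [v.ord_mul _ _ (mul_ne_zero h270 (pow_ne_zero _ hxne)) (pow_ne_zero _ hx1ne),
      v.ord_mul _ _ h270 (pow_ne_zero _ hxne), v.ord_pow, v.ord_pow, hx0, hx10, h27, ord_const']
    norm_num
  have h1 : (27 * x ^ 2 * (x - 1) ^ 2) * (b - algebraMap k K a) =
      4 * (x ^ 2 - x + 1) ^ 3 - 27 * algebraMap k K a * (x ^ 2 * (x - 1) ^ 2) := by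
    rw [mul_sub, hb]
    ring
  rw [← h1, v.ord_mul _ _ hq hba, hq0, zero_add]

end N5b

open N5b Polynomial in
/-- ramification of `J` over `0`, `1` and the other values -/
theorem j_ram (hK : IsFunctionField k K) (x b : K) (hx : Transcendental k x)
    (hx1 : ∀ (v : Place k K) (c : k), c ≠ 0 → c ≠ 1 → v.ord (x - algebraMap k K c) ≤ 1)
    (hb : 27 * x ^ 2 * (x - 1) ^ 2 * b = 4 * (x ^ 2 - x + 1) ^ 3) :
    (∀ v : Place k K, 0 < v.ord b → v.ord b = 3) ∧ (∀ v : Place k K, 0 < v.ord (b - 1) → v.ord (b - 1) = 2) ∧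
      ∀ (v : Place k K) (c : k), c ≠ 0 → c ≠ 1 → v.ord (b - algebraMap k K c) ≤ 1 := by
  refine ⟨?_, ?_, ?_⟩
  · intro v hv
    obtain ⟨c, hc0, hc1, hc, ho⟩ := common hK x b hx hx1 hb v 0 (by simpa using hv)
    simp only [map_zero, sub_zero, mul_zero, zero_mul] at ho
    set P : k[X] := X ^ 2 - X + 1 with hP
    have hPx : aeval x P = x ^ 2 - x + 1 := by
      simp only [hP, map_add, map_sub, map_pow, aeval_X, map_one]
    have h4 : (4 : K) = algebraMap k K 4 := (map_ofNat (algebraMap k K) 4).symm
    have h40 : (4 : K) ≠ 0 := by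
      rw [h4]
      exact (_root_.map_ne_zero _).2 (by norm_num)
    have hne : x ^ 2 - x + 1 ≠ 0 := by
      intro h0
      rw [h0] at ho
      rw [ho] at hv
      simp [v.ord_zero] at hv
    have hord : v.ord b = 3 * v.ord (x ^ 2 - x + 1) := by
      rw [ho, v.ord_mul _ _ h40 (pow_ne_zero _ hne), v.ord_pow, h4, ord_const']
      norm_num
    by_cases hPc : P.eval c = 0
    · have h1 := ord_eq v hc P hPc (by
        intro h0
        simp [hP] at h0 hPc
        have h3 : (3 : k) = 0 := by linear_combination 4 * hPc - (2 * c - 1) * h0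
        norm_num at h3)
      rw [hPx] at h1
      rw [hord, h1]
      norm_num
    · have h1 := (ord_ne v (by omega : 0 < v.ord (x - algebraMap k K c)) P hPc).1
      rw [hPx] at h1
      rw [hord, h1] at hv
      norm_num at hv
  · intro v hv
    obtain ⟨c, hc0, hc1, hc, ho⟩ := common hK x b hx hx1 hb v 1 (by simpa using hv)
    simp only [map_one, mul_one] at ho
    set P : k[X] := (X + 1) * (X - 2) * (2 * X - 1) with hP
    have hPx : aeval x P = (x + 1) * (x - 2) * (2 * x - 1) := by
      simp only [hP, map_mul, map_add, map_sub, aeval_X, map_one, map_ofNat]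
    have h2 : 4 * (x ^ 2 - x + 1) ^ 3 - 27 * (x ^ 2 * (x - 1) ^ 2) = ((x + 1) * (x - 2) * (2 * x - 1)) ^ 2 := by ring
    rw [h2, v.ord_pow, ← hPx] at ho
    by_cases hPc : P.eval c = 0
    · have h1 := ord_eq v hc P hPc (by
        intro h0
        simp only [hP, eval_mul, eval_add, eval_sub, eval_X, eval_one, eval_ofNat] at hPc
        have h3 : P.derivative.eval c = (c - 2) * (2 * c - 1) + (c + 1) * (2 * c - 1) + 2 * ((c + 1) * (c - 2)) := by
          simp only [hP, derivative_mul, derivative_add, derivative_sub, derivative_X, derivative_one,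
            derivative_ofNat, eval_mul, eval_add, eval_sub, eval_X, eval_one, eval_ofNat, eval_zero]
          ring
        rw [h3] at h0
        rcases mul_eq_zero.1 hPc with h4 | h4
        · rcases mul_eq_zero.1 h4 with h5 | h5
          · have h6 : c = -1 := by linear_combination h5
            rw [h6] at h0
            norm_num at h0
          · have h6 : c = 2 := by linear_combination h5
            rw [h6] at h0
            norm_num at h0
        · have h6 : c = 1 / 2 := by
            have : (2 : k) ≠ 0 := by norm_num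
            field_simp
            linear_combination h4
          rw [h6] at h0
          norm_num at h0)
      rw [ho, h1]
      norm_num
    · have h1 := (ord_ne v (by omega : 0 < v.ord (x - algebraMap k K c)) P hPc).1
      rw [ho, h1] at hv
      norm_num at hv
  · intro v a ha0 ha1
    by_contra hcon
    push Not at hcon
    obtain ⟨c, hc0, hc1, hc, ho⟩ := common hK x b hx hx1 hb v a (by omega)
    set P : k[X] := 4 * (X ^ 2 - X + 1) ^ 3 - 27 * C a * (X ^ 2 * (X - 1) ^ 2) with hP
    have hPx : aeval x P = 4 * (x ^ 2 - x + 1) ^ 3 - 27 * algebraMap k K a * (x ^ 2 * (x - 1) ^ 2) := by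
      simp only [hP, map_mul, map_add, map_sub, map_pow, aeval_X, aeval_C, map_one, map_ofNat]
    rw [← hPx] at ho
    by_cases hPc : P.eval c = 0
    · have h1 := ord_eq v hc P hPc (by
        intro h0
        have e0 : P.eval c = 4 * (c ^ 2 - c + 1) ^ 3 - 27 * a * (c ^ 2 * (c - 1) ^ 2) := by simp [hP]
        have e1 : P.derivative.eval c = 12 * (c ^ 2 - c + 1) ^ 2 * (2 * c - 1) - 54 * a * (c * (c - 1) * (2 * c - 1)) := by
          simp only [hP, derivative_mul, derivative_add, derivative_sub, derivative_X, derivative_one, derivative_C,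
            derivative_X_pow, derivative_pow, derivative_ofNat, eval_mul, eval_add, eval_sub, eval_X, eval_one,
            eval_ofNat, eval_zero, eval_pow, eval_C, eval_natCast]
          push_cast
          ring
        rw [e0] at hPc
        rw [e1] at h0
        have key : 4 * ((c ^ 2 - c + 1) ^ 2 * ((2 * c - 1) * ((c - 2) * (c + 1)))) = 0 := by
          linear_combination c * (c - 1) * h0 - 2 * (2 * c - 1) * hPc
        have hcc : (27 : k) * (c ^ 2 * (c - 1) ^ 2) ≠ 0 :=
          mul_ne_zero (by norm_num) (mul_ne_zero (pow_ne_zero _ hc0) (pow_ne_zero _ (sub_ne_zero.2 hc1)))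
        rcases mul_eq_zero.1 key with h | h
        · norm_num at h
        rcases mul_eq_zero.1 h with h | h
        · have h3 : c ^ 2 - c + 1 = 0 := pow_eq_zero_iff (two_ne_zero) |>.1 h
          rw [h3] at hPc
          have : a * (27 * (c ^ 2 * (c - 1) ^ 2)) = 0 := by linear_combination -hPc
          rcases mul_eq_zero.1 this with h4 | h4
          · exact ha0 h4
          · exact hcc h4
        · have h3 : 4 * (c ^ 2 - c + 1) ^ 3 - 27 * (c ^ 2 * (c - 1) ^ 2) = 0 := by
            have : 4 * (c ^ 2 - c + 1) ^ 3 - 27 * (c ^ 2 * (c - 1) ^ 2) =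
              ((2 * c - 1) * ((c - 2) * (c + 1))) ^ 2 := by ring
            rw [this, h]
            ring
          have : (1 - a) * (27 * (c ^ 2 * (c - 1) ^ 2)) = 0 := by linear_combination hPc - h3
          rcases mul_eq_zero.1 this with h4 | h4
          · exact ha1 (by linear_combination -h4)
          · exact hcc h4)
      omega
    · have h1 := (ord_ne v (by omega : 0 < v.ord (x - algebraMap k K c)) P hPc).1
      omega

end Pool.Agent.LibFP27
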