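import Pool.Agent.LibFP27.DefM
import Pool.Agent.LibFP27.G2
import Pool.Agent.LibFP27.G3
import Pool.Agent.LibFP27.G9
import Pool.Agent.LibFP27.C3
import Pool.Agent.LibFP27.N4
import Pool.Agent.LibFP27.N5b

/-!
[FP27 N7] Normal modular curves over a curve with two marked points.
`exists_mod`: `β` from `exists_belyi`; `J = 4 (β² - β + 1)³ / (27 β² (β - 1)²) ∈ M` (`β, β - 1 ≠ 0`: `sub_ne`), transcendental (`j_trans`), its orders: `j_ram`. `exists_closure` for `J`: `L`, `ι`, `j a`, `b = j a J`. `Modular`: `ram_gen` with `d = 3` for `J`, with `d = 2` for `J - 1` (`IntermediateField.adjoin k {b - 1} = IntermediateField.adjoin k {b}`),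
`unram_gen` for `J - c`, `c ≠ 0, 1` (its hypothesis `v.ord (J - c) ≤ 1` for all `v`: `j_ram`). `j := j a₀`, `x := j β`. The poles of `x`: `w.ord x = e * v.ord β` with `v` below `w` (`over_exists`, `over_unique`), so exactly the places over `w₁` or `w₂`; there are such (`above_exists`). Poles of `b` have order `≤ -7`: `galois_trans`/`unif` for `b⁻¹` in `C3`
(`unif hL b⁻¹ ..`, `adjoin k {b⁻¹} = adjoin k {b}`) says that all poles of `b` have the same order, and at a place over `w₁`: `w.ord b = 2 w.ord x = 2 e v.ord β ≤ -14` (`j_poles`).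
-/

open scoped Classical

namespace Pool.Agent.LibFP27

open Pool.Agent.LibBH2
open Pool.Agent.LibQC8 (IsFunctionField Div deg)

variable {k : Type} [Field k] [IsAlgClosed k] [CharZero k] [Algebra.IsAlgebraic ℚ k]
variable {M : Type} [Field M] [Algebra k M]

theorem exists_mod (hM : IsFunctionField k M) (w₁ w₂ : Place k M) (h : w₁ ≠ w₂) :
    ∃ (L : Type) (_ : Field L) (_ : Algebra k L) (j : M →ₐ[k] L) (b x : L),
      IsFunctionField k L ∧ Modular k b ∧ Transcendental k x ∧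
      27 * x ^ 2 * (x - 1) ^ 2 * b = 4 * (x ^ 2 - x + 1) ^ 3 ∧
      (∃ p : ℤ, 7 ≤ p ∧ ∀ w : Place k L, w.ord b < 0 → w.ord b = -p) ∧
      (∀ w : Place k L, w.ord x < 0 ↔ Over j w w₁ ∨ Over j w w₂) ∧
      (∃ w, Over j w w₁) ∧ (∃ w, Over j w w₂) := by
  obtain ⟨β, hβ, hpole, h7, hc⟩ := exists_belyi hM w₁ w₂ h
  have hβ0 : β ≠ 0 := by
    have := sub_ne β hβ 0
    rwa [map_zero, sub_zero] at this
  have hβ1 : β - 1 ≠ 0 := by
    have := sub_ne β hβ 1
    rwa [map_one] at this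
  have : CharZero M := charZero_of_injective_algebraMap (algebraMap k M).injective
  obtain ⟨J, hJ⟩ : ∃ J : M, 27 * β ^ 2 * (β - 1) ^ 2 * J = 4 * (β ^ 2 - β + 1) ^ 3 := by
    refine ⟨4 * (β ^ 2 - β + 1) ^ 3 / (27 * β ^ 2 * (β - 1) ^ 2), ?_⟩
    have h27 : (27 : M) ≠ 0 := by norm_num
    exact mul_div_cancel₀ _ (mul_ne_zero (mul_ne_zero h27 (pow_ne_zero _ hβ0)) (pow_ne_zero _ hβ1))
  have hJt : Transcendental k J := j_trans hM β J hβ hJ
  obtain ⟨r0, r1, rc⟩ := j_ram hM β J hβ hc hJ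
  obtain ⟨L, iL, aL, ι, hι, j, b, hL, hj, hb, hgal, hgen⟩ := exists_closure hM J hJt
  obtain ⟨a₀⟩ := hι
  have hxt : Transcendental k (j a₀ β) := fun h0 =>
    hβ ((isAlgebraic_algHom_iff (j a₀) (j a₀).injective).1 h0)
  have hxb : 27 * (j a₀ β) ^ 2 * (j a₀ β - 1) ^ 2 * b = 4 * ((j a₀ β) ^ 2 - j a₀ β + 1) ^ 3 := by
    have h1 := congrArg (j a₀) hJ
    simp only [map_mul, map_pow, map_sub, map_add, map_one, map_ofNat, hj] at h1
    exact h1
  have hlow : ∀ w : Place k L, ∃ (v : Place k M) (e : ℤ), Over (j a₀) w v ∧ 0 < e ∧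
      w.ord (j a₀ β) = e * v.ord β := by
    intro w
    obtain ⟨v, hv⟩ := over_exists hM hL (j a₀) w
    obtain ⟨e, he, hf⟩ := id hv
    exact ⟨v, e, hv, he, hf β⟩
  have hover : ∀ (w : Place k L) (v : Place k M), Over (j a₀) w v → v.ord β < 0 → w.ord (j a₀ β) ≤ -7 := by
    rintro w v ⟨e, he, hf⟩ hv
    have h1 := h7 v hv
    rw [hf]
    nlinarith
  have hadj : ∀ c : k, IntermediateField.adjoin k {b - algebraMap k L c} = IntermediateField.adjoin k {b} :=
    fun c => C3aux.adjoin_sub b c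
  obtain ⟨w₀, hw₀⟩ := above_exists hM hL (j a₀) w₁
  have hw₀x : w₀.ord (j a₀ β) ≤ -7 := hover w₀ w₁ hw₀ ((hpole w₁).2 (Or.inl rfl))
  have hw₀b : w₀.ord b = 2 * w₀.ord (j a₀ β) := (j_poles hL (j a₀ β) b hxt hxb w₀).1 (by omega)
  have hti : Transcendental k b⁻¹ := Pool.Agent.LibEnd77.Val8.transcendental_inv hb
  have hGi : IsGalois (IntermediateField.adjoin k {b⁻¹}) L := by
    rw [Pool.Agent.LibEnd77.Val8.adjoin_inv]; exact hgal
  refine ⟨L, iL, aL, j a₀, b, j a₀ β, hL, ⟨hb, hgal, ?_, ?_, ?_⟩, hxt, hxb, ⟨- w₀.ord b, by omega, ?_⟩, ?_,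
    above_exists hM hL (j a₀) w₁, above_exists hM hL (j a₀) w₂⟩
  · intro w hw
    exact ram_gen hM hL j J b hb hgal hj hgen 3 (by norm_num) (fun v hv => by exact_mod_cast r0 v hv) w hw
  · intro w hw
    have e1 : b - algebraMap k L 1 = b - 1 := by rw [map_one]
    have hG1 : IsGalois (IntermediateField.adjoin k {b - 1}) L := by
      rw [← e1, hadj]; exact hgal
    have ht1 : Transcendental k (b - 1) := e1 ▸ trans_sub hb 1
    exact ram_gen hM hL j (J - 1) (b - 1) ht1 hG1 (fun a => by rw [map_sub, hj, map_one]) hgen 2 (by norm_num)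
      (fun v hv => by exact_mod_cast r1 v hv) w hw
  · intro w c hc0 hc1
    exact unram_gen hM hL j (J - algebraMap k M c) (b - algebraMap k L c) (trans_sub hb c)
      (fun a => by rw [map_sub, hj, AlgHom.commutes]) hgen (fun v => rc v c hc0 hc1) w
  · intro w hw
    have h1 : w.ord b⁻¹ = w₀.ord b⁻¹ := unif hL _ hti hGi w₀ w (by rw [w₀.ord_inv]; omega)
      (by rw [w.ord_inv]; omega)
    rw [w.ord_inv, w₀.ord_inv] at h1
    omega
  · intro w
    constructor
    · intro hw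
      obtain ⟨v, e, hv, he, hwv⟩ := hlow w
      rw [hwv] at hw
      have h1 : v.ord β < 0 := by
        by_contra hcon
        have := mul_nonneg he.le (not_lt.1 hcon)
        omega
      rcases (hpole v).1 h1 with rfl | rfl
      · exact Or.inl hv
      · exact Or.inr hv
    · rintro (hw | hw)
      · have := hover w w₁ hw ((hpole w₁).2 (Or.inl rfl))
        omega
      · have := hover w w₂ hw ((hpole w₂).2 (Or.inr rfl))
        omega

end Pool.Agent.LibFP27
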