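import Pool.Agent.LibFP27.C2
import Pool.Agent.LibFP27.C3
import Pool.Agent.LibFP27.G8
import Pool.Agent.LibFP27.N6
import Pool.Agent.LibFP27.N7
import Pool.Agent.LibFP27.FamM

/-!
[FP27 MainM] Assembly.
-/

open scoped Classical

namespace Pool.Agent.LibFP27

open Pool.Agent.LibBH2
open Pool.Agent.LibQC8 (IsFunctionField Div deg)

section

variable {k : Type} [Field k] [IsAlgClosed k] [CharZero k]
variable {K M L : Type} [Field K] [Algebra k K] [Field M] [Algebra k M] [Field L] [Algebra k L]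

theorem over_comp_iff (hM : IsFunctionField k M) (hK : IsFunctionField k K) {j : K →ₐ[k] M} {i : M →ₐ[k] L}
    {w : Place k L} {v : Place k M} (h : Over i w v) (u : Place k K) : Over (i.comp j) w u ↔ Over j v u := by
  constructor
  · intro h1
    obtain ⟨u', hu'⟩ := over_exists hK hM j v
    rw [over_unique h1 (over_comp h hu')]
    exact hu'
  · exact fun h' => over_comp h h'

/-- the orders of an element of a subfield -/
theorem over_neg {i : M →ₐ[k] L} {w : Place k L} {v : Place k M} (h : Over i w v) (x : M) :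
    w.ord (i x) < 0 ↔ v.ord x < 0 := by
  obtain ⟨e, he, hv⟩ := h
  rw [hv]
  constructor
  · intro h1
    by_contra hcon
    have : 0 ≤ e * v.ord x := mul_nonneg he.le (not_lt.1 hcon)
    omega
  · intro h1
    nlinarith

/-- the modular curves over a curve with two marked points -/
theorem exists_domM [Algebra.IsAlgebraic ℚ k] (hM : IsFunctionField k M) (w₁ w₂ : Place k M) (h : w₁ ≠ w₂) :
    ∃ Y : ModCurve k, ∀ X : ModCurve k, X.Dominates Y → ∃ (j : M →ₐ[k] X.K) (x : X.K), Transcendental k x ∧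
      27 * x ^ 2 * (x - 1) ^ 2 * X.J = 4 * (x ^ 2 - x + 1) ^ 3 ∧
      (∃ p : ℤ, 7 ≤ p ∧ ∀ w : Place k X.K, w.ord X.J < 0 → w.ord X.J = -p) ∧
      (∀ w : Place k X.K, w.ord x < 0 ↔ Over j w w₁ ∨ Over j w w₂) ∧
      (∃ w, Over j w w₁) ∧ (∃ w, Over j w w₂) := by
  obtain ⟨L, fL, aL, j, b, x, hL, hb, hx, hrel, ⟨p, hp7, hp⟩, hpole, -, -⟩ := exists_mod hM w₁ w₂ h
  refine ⟨⟨L, hL, b, hb⟩, ?_⟩
  rintro X ⟨i, hi⟩
  change L →ₐ[k] X.K at i
  change i b = X.J at hi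
  have hXF := X.isFunctionField
  refine ⟨i.comp j, i x, ?_, ?_, ?_, ?_, above_exists hM hXF _ _, above_exists hM hXF _ _⟩
  · exact fun hcon => hx ((isAlgebraic_algHom_iff i i.injective).1 hcon)
  · rw [← hi]
    have h1 := congrArg i hrel
    simpa only [map_mul, map_pow, map_sub, map_add, map_one, map_ofNat] using h1
  · -- all poles of `X.J` have the same order
    have htr : Transcendental k X.J := X.modular.1
    obtain ⟨w₀, hw₀⟩ := exists_pole hXF htr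
    refine ⟨-w₀.ord X.J, ?_, ?_⟩
    · obtain ⟨v, hov⟩ := over_exists hL hXF i w₀
      rw [← hi] at hw₀ ⊢
      have h1 := (over_neg hov b).1 hw₀
      obtain ⟨e, he, hv⟩ := hov
      rw [hv, hp v h1]
      nlinarith
    · intro w hw
      have hadj : IntermediateField.adjoin k {X.J⁻¹} = IntermediateField.adjoin k {X.J} :=
        Pool.Agent.LibEnd77.Val8.adjoin_inv X.J
      have h1 := unif hXF X.J⁻¹ (Pool.Agent.LibEnd77.Val8.transcendental_inv htr) (by rw [hadj]; exact X.modular.2.1)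
        w w₀ (by rw [w.ord_inv]; omega) (by rw [w₀.ord_inv]; omega)
      rw [w.ord_inv, w₀.ord_inv] at h1
      omega
  · intro w
    obtain ⟨v, hov⟩ := over_exists hL hXF i w
    rw [over_comp_iff hL hM hov, over_comp_iff hL hM hov, ← hpole, over_neg hov]

end

/-- the first theorem -/
theorem generatorsM (k : Type) [Field k] [IsAlgClosed k] [CharZero k] [Algebra.IsAlgebraic ℚ k]
    (K₁ K₂ : Type) [Field K₁] [Algebra k K₁] [Field K₂] [Algebra k K₂] (h₁ : IsFunctionField k K₁)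
    (h₂ : IsFunctionField k K₂) (p q : Place k K₁) (r s : Place k K₂) (hpq : p ≠ q) (hrs : r ≠ s) :
    ∃ Y : ModCurve k, ∀ X : ModCurve k, X.Dominates Y → ∀ D : Div k X.K, IsCanon X.J D →
      ∃ (P : Place k X.K → Place k K₁) (Q : Place k X.K → Place k K₂) (m n : ℕ),
      IsFin P ∧ IsFin Q ∧ 0 < m ∧ 0 < n ∧
      m • cls k K₁ K₂ (box p q r s) + n • cls k K₁ K₂ ((fp D).mapDomain (Prod.map P Q)) = 0 := by
  obtain ⟨N, fN, aN, i₁, i₂, w₁, w₂, hN, h1p, h1q, h2r, h2s⟩ := exists_curve h₁ h₂ p q r s hpq hrs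
  have hw : w₁ ≠ w₂ := by
    rintro rfl
    exact hpq (over_unique h1p h1q)
  obtain ⟨Y, hY⟩ := exists_domM hN w₁ w₂ hw
  refine ⟨Y, fun X hX D hD => ?_⟩
  obtain ⟨j, x, hx, hrel, ⟨a₀, ha₀, hord⟩, hpole, ⟨x₁, hx₁⟩, x₂, hx₂⟩ := hY X hX
  have hXF := X.isFunctionField
  have h7 : ∀ w : Place k X.K, w.ord X.J < 0 → w.ord X.J ≤ -7 := by
    intro w hw'
    rw [hord w hw']
    omega
  obtain ⟨a, F, n, lam, ha, hF, hn, hlam, heq⟩ := canon_fp hXF X.J X.modular.galBelyi h7 D hD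
  obtain ⟨a', F', ha', hF', heq'⟩ := fp_six hXF x X.J hx hrel a₀ hord a F hF
  choose P hP using fun w => over_exists h₁ hXF (j.comp i₁) w
  choose Q hQ using fun w => over_exists h₂ hXF (j.comp i₂) w
  have hfin : {w : Place k X.K | w.ord x ≠ 0}.Finite := finite_supp hXF x
  let S₁ : Finset (Place k X.K) := hfin.toFinset.filter fun w => Over j w w₁
  let S₂ : Finset (Place k X.K) := hfin.toFinset.filter fun w => Over j w w₂
  have hm₁ : ∀ w, w ∈ S₁ ↔ Over j w w₁ := by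
    intro w
    rw [Finset.mem_filter, Set.Finite.mem_toFinset]
    exact ⟨fun h => h.2, fun h => ⟨((hpole w).2 (Or.inl h)).ne, h⟩⟩
  have hm₂ : ∀ w, w ∈ S₂ ↔ Over j w w₂ := by
    intro w
    rw [Finset.mem_filter, Set.Finite.mem_toFinset]
    exact ⟨fun h => h.2, fun h => ⟨((hpole w).2 (Or.inr h)).ne, h⟩⟩
  have hd : Disjoint S₁ S₂ := by
    rw [Finset.disjoint_left]
    intro w hw1 hw2
    exact hw (over_unique ((hm₁ w).1 hw1) ((hm₂ w).1 hw2))
  have hF'' : ∀ w, F' w = if w ∈ S₁ ∪ S₂ then a' else 0 := by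
    intro w
    rw [hF']
    have : w.ord x < 0 ↔ w ∈ S₁ ∪ S₂ := by
      rw [Finset.mem_union, hm₁, hm₂, hpole]
    by_cases h : w.ord x < 0
    · rw [if_pos h, if_pos (this.1 h)]
    · rw [if_neg h, if_neg fun h' => h (this.2 h')]
  have hpush := fp_push P Q S₁ S₂ hd a' F' hF'' p q r s
    (fun w hw => ⟨over_unique (hP w) (over_comp ((hm₁ w).1 hw) h1p), over_unique (hQ w) (over_comp ((hm₁ w).1 hw) h2r)⟩)
    (fun w hw => ⟨over_unique (hP w) (over_comp ((hm₂ w).1 hw) h1q), over_unique (hQ w) (over_comp ((hm₂ w).1 hw) h2s)⟩)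
  have hc₁ : 0 < S₁.card := Finset.card_pos.2 ⟨x₁, (hm₁ x₁).2 hx₁⟩
  have hc₂ : 0 < S₂.card := Finset.card_pos.2 ⟨x₂, (hm₂ x₂).2 hx₂⟩
  have hfP : IsFin P := ⟨_, hP⟩
  have hfQ : IsFin Q := ⟨_, hQ⟩
  -- `(a₀ n)² fp D = (6 a lam)² fp F'`
  have h3 : cls k X.K X.K ((a₀ * n) ^ 2 • fp D - (6 * a * lam) ^ 2 • fp F') = 0 := by
    have e1 : (a₀ * n) ^ 2 • cls k X.K X.K (fp D) = (6 * a * lam) ^ 2 • cls k X.K X.K (fp F') := by
      have e2 : (6 * a * lam) ^ 2 = lam ^ 2 * (36 * a ^ 2) := by ring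
      rw [mul_pow, mul_smul, heq, smul_comm, heq', smul_smul, e2]
    rw [map_sub, map_zsmul, map_zsmul, e1, sub_self]
  have h4 := cls_map P Q hfP hfQ _ h3
  have h5 : ((a₀ * n) ^ 2 • fp D - (6 * a * lam) ^ 2 • fp F').mapDomain (Prod.map P Q) =
      (a₀ * n) ^ 2 • (fp D).mapDomain (Prod.map P Q) - (6 * a * lam) ^ 2 • (fp F').mapDomain (Prod.map P Q) := by
    change Finsupp.mapDomain.addMonoidHom (Prod.map P Q) _ =
      (a₀ * n) ^ 2 • Finsupp.mapDomain.addMonoidHom (Prod.map P Q) _ -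
        (6 * a * lam) ^ 2 • Finsupp.mapDomain.addMonoidHom (Prod.map P Q) _
    rw [map_sub, map_zsmul, map_zsmul]
  rw [h5, hpush, map_sub, map_zsmul, map_zsmul, map_neg, map_zsmul] at h4
  have ha₀' : 0 < a₀ := by omega
  refine ⟨P, Q, ((6 * a * lam) ^ 2 * (a' ^ 2 * S₁.card * S₂.card)).toNat, ((a₀ * n) ^ 2).toNat, hfP, hfQ, ?_, ?_, ?_⟩
  · have h6 : 0 < (6 * a * lam) ^ 2 * (a' ^ 2 * (S₁.card : ℤ) * S₂.card) := by positivity
    omega
  · have h6 : 0 < (a₀ * n) ^ 2 := by positivity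
    omega
  · have e1 : ((((6 * a * lam) ^ 2 * (a' ^ 2 * (S₁.card : ℤ) * S₂.card)).toNat : ℕ) : ℤ) =
        (6 * a * lam) ^ 2 * (a' ^ 2 * S₁.card * S₂.card) := Int.toNat_of_nonneg (by positivity)
    have e2 : ((((a₀ * n) ^ 2).toNat : ℕ) : ℤ) = (a₀ * n) ^ 2 := Int.toNat_of_nonneg (by positivity)
    rw [← natCast_zsmul, ← natCast_zsmul, e1, e2, mul_smul]
    rw [smul_neg, sub_neg_eq_add] at h4
    rw [add_comm]
    exact h4

end Pool.Agent.LibFP27
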