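import Pool.Agent.LibFP27.MainM

/-!
[FP27 MainM2] The equivalences.
-/

open scoped Classical

namespace Pool.Agent.LibFP27

open Pool.Agent.LibBH2
open Pool.Agent.LibQC8 (IsFunctionField Div deg)

section

variable {k : Type} [Field k]
variable {K₁ K₂ K L : Type} [Field K₁] [Field K₂] [Field K] [Field L] [Algebra k K₁] [Algebra k K₂] [Algebra k K]
  [Algebra k L]

/-- the differential of a non-constant function has exactly one divisor -/
theorem canon_unique [IsAlgClosed k] [CharZero k] (hK : IsFunctionField k K) (β : K) (hβ : Transcendental k β) :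
    ∃! D : Div k K, IsCanon β D := by
  obtain ⟨D, hD⟩ := canon_exists hK β hβ
  refine ⟨D, hD, fun D' hD' => ?_⟩
  ext v
  rcases hD v with ⟨h1, h2⟩ | ⟨c, h1, h2⟩ <;> rcases hD' v with ⟨h3, h4⟩ | ⟨c', h3, h4⟩
  · rw [h2, h4]
  · exfalso
    have h5 : v.Reg (β - algebraMap k K c') := Or.inr h3.le
    have h6 := h5.add (v.reg_const c')
    rw [sub_add_cancel] at h6
    rcases h6 with h6 | h6
    · rw [h6, v.ord_zero] at h1
      exact lt_irrefl _ h1
    · omega
  · exfalso
    have h5 : v.Reg (β - algebraMap k K c) := Or.inr h1.le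
    have h6 := h5.add (v.reg_const c)
    rw [sub_add_cancel] at h6
    rcases h6 with h6 | h6
    · rw [h6, v.ord_zero] at h3
      exact lt_irrefl _ h3
    · omega
  · rw [h2, h4, val_unique v h1 h3]

theorem push_tors (P : Place k L → Place k K₁) (Q : Place k L → Place k K₂) (hP : IsFin P) (hQ : IsFin Q)
    (z : Cyc k L L) (hz : IsOfFinAddOrder (cls k L L z)) :
    IsOfFinAddOrder (cls k K₁ K₂ (z.mapDomain (Prod.map P Q))) := by
  rw [isOfFinAddOrder_iff_nsmul_eq_zero] at hz ⊢
  obtain ⟨n, hn, h⟩ := hz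
  refine ⟨n, hn, ?_⟩
  rw [← map_nsmul] at h ⊢
  have h1 := cls_map P Q hP hQ _ h
  have h2 : (n • z).mapDomain (Prod.map P Q) = n • z.mapDomain (Prod.map P Q) :=
    map_nsmul (Finsupp.mapDomain.addMonoidHom (Prod.map P Q)) n z
  rw [← h2]
  exact h1

theorem fp_tors (D : Div k K) (h : ∀ v v' : Place k K, IsOfFinAddOrder (cls k K K (box v v' v v'))) :
    IsOfFinAddOrder (cls k K K (fp D)) := by
  have h1 : IsOfFinAddOrder (cls k K K ((2 : ℤ) • fp D)) := by
    rw [two_fp, map_neg, isOfFinAddOrder_neg_iff, map_sum]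
    change _ ∈ AddCommGroup.torsion (CH0 k K K)
    refine sum_mem fun v _ => ?_
    rw [map_sum]
    refine sum_mem fun v' _ => ?_
    rw [map_zsmul]
    exact zsmul_mem (show _ ∈ AddCommGroup.torsion (CH0 k K K) from h v v') _
  rw [map_zsmul, ofNat_zsmul, isOfFinAddOrder_iff_nsmul_eq_zero] at h1
  obtain ⟨n, hn, h⟩ := h1
  rw [isOfFinAddOrder_iff_nsmul_eq_zero]
  refine ⟨n * 2, by omega, ?_⟩
  rw [mul_smul]
  exact h

end

/-- the equivalences -/
theorem tfae (k : Type) [Field k] [IsAlgClosed k] [CharZero k] [Algebra.IsAlgebraic ℚ k] (S : Set (ModCurve k))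
    (hS : CofinalM S) :
    [∀ (K₁ K₂ : Type) [Field K₁] [Algebra k K₁] [Field K₂] [Algebra k K₂], IsFunctionField k K₁ →
        IsFunctionField k K₂ → ∀ (p q : Place k K₁) (r s : Place k K₂), IsOfFinAddOrder (cls k K₁ K₂ (box p q r s)),
      ∀ (K : Type) [Field K] [Algebra k K], IsFunctionField k K → ∀ (β : K) (D : Div k K), Transcendental k β →
        IsCanon β D → IsOfFinAddOrder (cls k K K (fp D)),
      ∀ X ∈ S, ∀ D : Div k X.K, IsCanon X.J D → IsOfFinAddOrder (cls k X.K X.K (fp D))].TFAE := by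
  tfae_have 1 → 2 := by
    intro h K _ _ hK β D _ _
    exact fp_tors D fun v v' => h K K hK hK v v' v v'
  tfae_have 2 → 3 := by
    intro h X _ D hD
    exact h X.K X.isFunctionField X.J D X.modular.1 hD
  tfae_have 3 → 1 := by
    intro h K₁ K₂ _ _ _ _ h₁ h₂ p q r s
    by_cases hpq : p = q
    · have h0 : box p q r s = 0 := by
        rw [box_eq, hpq]
        abel
      rw [h0, map_zero]
      exact IsOfFinAddOrder.zero
    by_cases hrs : r = s
    · have h0 : box p q r s = 0 := by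
        rw [box_eq, hrs]
        abel
      rw [h0, map_zero]
      exact IsOfFinAddOrder.zero
    obtain ⟨Y, hY⟩ := generatorsM k K₁ K₂ h₁ h₂ p q r s hpq hrs
    obtain ⟨X, hX, hXY⟩ := hS Y
    obtain ⟨D, hD⟩ := canon_exists X.isFunctionField X.J X.modular.1
    obtain ⟨P, Q, m, n, hP, hQ, hm, hn, heq⟩ := hY X hXY D hD
    have h1 := push_tors P Q hP hQ _ (h X hX D hD)
    have h2 : IsOfFinAddOrder (m • cls k K₁ K₂ (box p q r s)) := by
      rw [eq_neg_of_add_eq_zero_left heq, isOfFinAddOrder_neg_iff]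
      exact h1.nsmul
    rw [isOfFinAddOrder_iff_nsmul_eq_zero] at h2 ⊢
    obtain ⟨a, ha, h3⟩ := h2
    refine ⟨a * m, Nat.mul_pos ha hm, ?_⟩
    rw [mul_smul]
    exact h3
  tfae_finish

end Pool.Agent.LibFP27
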