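import Pool.Agent.LibFP27.G1

/-!
[FP27 N1] The order of the inertia group is the ramification index.
Proof. Let `G = Gal(N/k(t))`, finite of order `[N : k(t)]` (`IsGalois.card_aut_eq_finrank`, `finite_adj`). `G` acts on the finite set `Z` of the places `w'` with `0 < w'.ord t` (`σ t = t`): `w' ∘ σ` is a place (build the `Place`;
`σ` fixes `k`). By `galois_trans` the map `G → Z`, `σ ↦ w ∘ σ` is onto, and each fibre has `|I|` elements (`w ∘ σ = w ∘ τ` iff `σ τ⁻¹ ∈ I`; a bijection of the fibre over `w ∘ τ` with `I`: `σ ↦ σ τ⁻¹` in the right order). So `|G| = |Z| |I|`. All `w'.ord t` are equal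
to `e = w.ord t` (`w'.ord t = w.ord (σ t) = w.ord t`), and `∑_(w' ∈ Z) w'.ord t = [N : k(t)]` (`sum_zeros`): `|Z| e = |G| = |Z| |I|`, `|Z| > 0`, so `|I| = e`.
-/

open scoped Classical

namespace Pool.Agent.LibFP27

open Pool.Agent.LibBH2
open Pool.Agent.LibQC8 (IsFunctionField Div deg)

variable {k : Type} [Field k] [IsAlgClosed k] [CharZero k]
variable {N : Type} [Field N] [Algebra k N]

/-- the place `w ∘ σ` -/
private def N1_comp (w : Place k N) (t : N)
    (σ : N ≃ₐ[IntermediateField.adjoin k {t}] N) : Place k N where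
  ord z := w.ord (σ z)
  ord_zero := by rw [map_zero, w.ord_zero]
  ord_mul f g hf hg := by
    rw [map_mul, w.ord_mul]
    · simpa using hf
    · simpa using hg
  ord_add f g hf hg hfg := by
    rw [map_add]
    apply w.ord_add
    · simpa using hf
    · simpa using hg
    · rw [← map_add]
      exact fun h => hfg ((EmbeddingLike.map_eq_zero_iff (f := σ)).1 h)
  ord_const c hc := by
    have h1 : σ (algebraMap k N c) = algebraMap k N c := by
      rw [IsScalarTower.algebraMap_apply k (IntermediateField.adjoin k {t}) N, σ.commutes]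
    rw [h1, w.ord_const c hc]
  exists_uniformizer := by
    obtain ⟨x, hx⟩ := w.exists_uniformizer
    exact ⟨σ.symm x, by rw [σ.apply_symm_apply, hx]⟩

theorem inertia_card (hN : IsFunctionField k N) (t : N) (ht : Transcendental k t)
    (hG : IsGalois (IntermediateField.adjoin k {t}) N) (w : Place k N) (hw : 0 < w.ord t) :
    Finite {σ : N ≃ₐ[IntermediateField.adjoin k {t}] N // ∀ z, w.ord (σ z) = w.ord z} ∧
      (Nat.card {σ : N ≃ₐ[IntermediateField.adjoin k {t}] N // ∀ z, w.ord (σ z) = w.ord z} : ℤ) = w.ord t := by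
  have := hG
  have hfd : FiniteDimensional (IntermediateField.adjoin k {t}) N := finite_adj hN ht
  obtain ⟨S, hS, hsum⟩ := Pool.Agent.LibEnd77.Val8.sum_zeros (k := k) (H := N) ht
  have hst : ∀ σ : N ≃ₐ[IntermediateField.adjoin k {t}] N, σ t = t := fun σ =>
    σ.commutes ⟨t, IntermediateField.mem_adjoin_simple_self k t⟩
  have hmem : ∀ σ : N ≃ₐ[IntermediateField.adjoin k {t}] N, N1_comp w t σ ∈ S := by
    intro σ
    rw [hS]
    change 0 < w.ord (σ t)
    rw [hst σ]
    exact hw
  let f : (N ≃ₐ[IntermediateField.adjoin k {t}] N) → S := fun σ => ⟨N1_comp w t σ, hmem σ⟩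
  have hsurj : ∀ s : S, ∃ σ, f σ = s := by
    rintro ⟨w', hw'⟩
    obtain ⟨σ, hσ⟩ := galois_trans hN t ht hG w w' hw ((hS w').1 hw')
    refine ⟨σ, Subtype.ext (Place.ext' fun z => ?_)⟩
    exact (hσ z).symm
  choose g hg using hsurj
  have hfeq : ∀ σ τ : N ≃ₐ[IntermediateField.adjoin k {t}] N,
      (∀ z, w.ord (σ z) = w.ord (τ z)) → f σ = f τ := by
    intro σ τ h
    exact Subtype.ext (Place.ext' h)
  have hfeq' : ∀ σ τ : N ≃ₐ[IntermediateField.adjoin k {t}] N,
      f σ = f τ → ∀ z, w.ord (σ z) = w.ord (τ z) := by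
    intro σ τ h z
    have h1 : N1_comp w t σ = N1_comp w t τ := congrArg Subtype.val h
    have h2 := congrArg (fun v : Place k N => v.ord z) h1
    exact h2
  let e : (N ≃ₐ[IntermediateField.adjoin k {t}] N) ≃
      S × {σ : N ≃ₐ[IntermediateField.adjoin k {t}] N // ∀ z, w.ord (σ z) = w.ord z} :=
    { toFun := fun σ => (f σ, ⟨σ * (g (f σ))⁻¹, fun z => by
        have h1 := hfeq' σ (g (f σ)) (hg (f σ)).symm ((g (f σ))⁻¹ z)
        have h2 : g (f σ) ((g (f σ))⁻¹ z) = z := AlgEquiv.apply_symm_apply _ z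
        rw [h2] at h1
        exact h1⟩)
      invFun := fun x => x.2.1 * g x.1
      left_inv := fun σ => by simp
      right_inv := fun x => by
        obtain ⟨s, ρ, hρ⟩ := x
        have h1 : f (ρ * g s) = s := by
          rw [← hg s]
          apply hfeq
          intro z
          rw [hg s]
          exact hρ _
        refine Prod.ext h1 (Subtype.ext ?_)
        change ρ * g s * (g (f (ρ * g s)))⁻¹ = ρ
        rw [h1]
        simp }
  have hfin : Finite (N ≃ₐ[IntermediateField.adjoin k {t}] N) := inferInstance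
  have hSne : Nonempty S := ⟨f 1⟩
  have hfin2 : Finite (S × {σ : N ≃ₐ[IntermediateField.adjoin k {t}] N // ∀ z, w.ord (σ z) = w.ord z}) :=
    Finite.of_equiv _ e
  have hfinI : Finite {σ : N ≃ₐ[IntermediateField.adjoin k {t}] N // ∀ z, w.ord (σ z) = w.ord z} :=
    inferInstance
  refine ⟨hfinI, ?_⟩
  have hc1 : Nat.card (N ≃ₐ[IntermediateField.adjoin k {t}] N) =
      Module.finrank (IntermediateField.adjoin k {t}) N := IsGalois.card_aut_eq_finrank _ _
  have hc2 := Nat.card_congr e
  rw [Nat.card_prod, hc1] at hc2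
  have hcS : Nat.card S = S.card := by
    simp
  rw [hcS] at hc2
  have hall : ∀ v ∈ S, v.ord t = w.ord t := by
    intro v hv
    obtain ⟨σ, hσ⟩ := galois_trans hN t ht hG w v hw ((hS v).1 hv)
    rw [hσ t, hst σ]
  rw [Finset.sum_congr rfl hall, Finset.sum_const, nsmul_eq_mul, hc2] at hsum
  push_cast at hsum
  have hpos : (S.card : ℤ) ≠ 0 := by
    obtain ⟨s⟩ := hSne
    have := Finset.card_pos.2 ⟨s.1, s.2⟩
    omega
  exact (mul_left_cancel₀ hpos hsum).symm

end Pool.Agent.LibFP27
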