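import Pool.Agent.LibFP27.Api

/-!
[FP27 N2] The inertia group acts faithfully on the uniformiser (characteristic `0`), and the value of `σ z / z`.
`quot_val`: `w.ord (σ z / z) = 0`, so `σ z / z` has a value `c` (`exists_val`; if `σ z / z` is constant, it is `algebraMap c` and the second alternative holds); `c ≠ 0` by `ord = 0`. Write `σ z = c z + y` with `y = 0 ∨ w.ord z < w.ord y`.
`approx`: for `x` with `w.ord x = 1` and every `z` with `0 ≤ w.ord z` and every `n` there is a polynomial `P` with `z = P(x)` or `n ≤ w.ord (z - P(x))`: induction, `z = c + x z'` with `c` the value of `z` (`exists_val`; if `z` is constant trivial), `z' = (z - c)/x`.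
`char_inj`: `σ` of finite order `m` with `σ x = x + y`, `y = 0 ∨ 1 < w.ord y`, `w.ord x = 1`. Put `s = ∑_(i < m) σ^i x`: each `σ^i x - x` is `0` or of order `> 1`, so `s = m x + (order > 1)` has order `1` (`(m : N) ≠ 0`) and `σ s = s`. For `0 ≤ w.ord z`: `approx` with `s`: `σ z - z = σ (z - P(s)) - (z - P(s))` is
`0` or of order `≥ n`, for all `n`, so `σ z = z`; every element of `N` is a quotient of such elements (`z` or `z⁻¹` has order `≥ 0`). So `σ = 1`.
-/

open scoped Classical
open Polynomial

namespace Pool.Agent.LibFP27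

open Pool.Agent.LibBH2
open Pool.Agent.LibQC8 (IsFunctionField Div deg)

variable {k : Type} [Field k] [IsAlgClosed k] [CharZero k]
variable {N : Type} [Field N] [Algebra k N]

private def N2_Ge (w : Place k N) (n : ℤ) (z : N) : Prop := z = 0 ∨ n ≤ w.ord z

omit [IsAlgClosed k] [CharZero k] in
private theorem N2_ge_add {w : Place k N} {n : ℤ} {a b : N} (ha : N2_Ge w n a) (hb : N2_Ge w n b) :
    N2_Ge w n (a + b) := by
  rcases ha with rfl | ha
  · rwa [zero_add]
  rcases hb with rfl | hb
  · rw [add_zero]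
    exact Or.inr ha
  by_cases ha0 : a = 0
  · rw [ha0, zero_add]
    exact Or.inr hb
  by_cases hb0 : b = 0
  · rw [hb0, add_zero]
    exact Or.inr ha
  by_cases h0 : a + b = 0
  · exact Or.inl h0
  · exact Or.inr ((le_min ha hb).trans (w.ord_add a b ha0 hb0 h0))

omit [IsAlgClosed k] [CharZero k] in
private theorem N2_ge_neg {w : Place k N} {n : ℤ} {a : N} (ha : N2_Ge w n a) : N2_Ge w n (-a) := by
  rcases ha with rfl | ha
  · exact Or.inl neg_zero
  · right
    rwa [w.ord_neg]

omit [IsAlgClosed k] [CharZero k] in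
private theorem N2_ge_map {w : Place k N} {σ : N ≃ₐ[k] N} (hσ : ∀ z, w.ord (σ z) = w.ord z) {n : ℤ} {a : N}
    (ha : N2_Ge w n a) : N2_Ge w n (σ a) := by
  rcases ha with rfl | ha
  · exact Or.inl (map_zero σ)
  · right
    rwa [hσ]

theorem quot_val (hN : IsFunctionField k N) (w : Place k N) (σ : N ≃ₐ[k] N) (hσ : ∀ z, w.ord (σ z) = w.ord z)
    (z : N) (hz : z ≠ 0) :
    ∃ c : k, c ≠ 0 ∧ (σ z = algebraMap k N c * z ∨ w.ord z < w.ord (σ z - algebraMap k N c * z)) := by
  have hσz : σ z ≠ 0 := (map_ne_zero_iff σ σ.injective).2 hz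
  have hq : w.ord (σ z / z) = 0 := by
    rw [w.ord_div _ _ hσz hz, hσ, sub_self]
  obtain ⟨c, hc⟩ := Pool.Agent.LibEnd77.Val8.exists_val hN w (f := σ z / z) (Or.inr hq.ge)
  have hc0 : c ≠ 0 := by
    rintro rfl
    rw [map_zero, sub_zero] at hc
    rcases hc with h | h
    · exact div_ne_zero hσz hz h
    · omega
  have e : σ z - algebraMap k N c * z = (σ z / z - algebraMap k N c) * z := by
    field_simp
  refine ⟨c, hc0, ?_⟩
  rcases hc with h | h
  · left
    rw [h, zero_mul] at e
    exact sub_eq_zero.1 e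
  · right
    have h0 : σ z / z - algebraMap k N c ≠ 0 := by
      intro h0
      rw [h0, w.ord_zero] at h
      omega
    rw [e, w.ord_mul _ _ h0 hz]
    omega

theorem approx (hN : IsFunctionField k N) (w : Place k N) (x : N) (hx : w.ord x = 1) (z : N) (hz : 0 ≤ w.ord z)
    (n : ℕ) : ∃ P : k[X], z = aeval x P ∨ (n : ℤ) ≤ w.ord (z - aeval x P) := by
  have hx0 : x ≠ 0 := by
    rintro rfl
    rw [w.ord_zero] at hx
    omega
  induction n generalizing z with
  | zero =>
    refine ⟨0, Or.inr ?_⟩
    rw [map_zero, sub_zero]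
    exact_mod_cast hz
  | succ n ih =>
    obtain ⟨c, hc⟩ := Pool.Agent.LibEnd77.Val8.exists_val hN w (f := z) (Or.inr hz)
    rcases hc with hc | hc
    · refine ⟨C c, Or.inl ?_⟩
      rw [aeval_C]
      exact sub_eq_zero.1 hc
    · have hc0 : z - algebraMap k N c ≠ 0 := by
        intro h0
        rw [h0, w.ord_zero] at hc
        omega
      have hz' : 0 ≤ w.ord ((z - algebraMap k N c) / x) := by
        rw [w.ord_div _ _ hc0 hx0, hx]
        omega
      obtain ⟨P, hP⟩ := ih ((z - algebraMap k N c) / x) hz'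
      have e : z - aeval x (C c + X * P) = x * ((z - algebraMap k N c) / x - aeval x P) := by
        rw [map_add, map_mul, aeval_C, aeval_X]
        field_simp
        ring
      refine ⟨C c + X * P, ?_⟩
      by_cases h0 : (z - algebraMap k N c) / x - aeval x P = 0
      · left
        rw [h0, mul_zero] at e
        exact sub_eq_zero.1 e
      · right
        have h1 := hP.resolve_left fun h => h0 (sub_eq_zero.2 h)
        rw [e, w.ord_mul _ _ hx0 h0, hx]
        push_cast
        omega

theorem char_inj (hN : IsFunctionField k N) (w : Place k N) (σ : N ≃ₐ[k] N) (hσ : ∀ z, w.ord (σ z) = w.ord z)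
    (m : ℕ) (hm : 0 < m) (hσm : σ ^ m = 1) (x : N) (hx : w.ord x = 1)
    (h : σ x = x ∨ 1 < w.ord (σ x - x)) : σ = 1 := by
  have hx0 : x ≠ 0 := by
    rintro rfl
    rw [w.ord_zero] at hx
    omega
  have h1 : N2_Ge w 2 (σ x - x) := by
    rcases h with h | h
    · exact Or.inl (sub_eq_zero.2 h)
    · exact Or.inr (by omega)
  have h2 : ∀ i : ℕ, N2_Ge w 2 ((σ ^ i) x - x) := by
    intro i
    induction i with
    | zero =>
      left
      rw [pow_zero, AlgEquiv.one_apply, sub_self]
    | succ i ih =>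
      have e : (σ ^ (i + 1)) x - x = σ ((σ ^ i) x - x) + (σ x - x) := by
        rw [pow_succ', AlgEquiv.mul_apply, map_sub]
        ring
      rw [e]
      exact N2_ge_add (N2_ge_map hσ ih) h1
  have h3 : ∀ r : ℕ, N2_Ge w 2 (∑ i ∈ Finset.range r, (σ ^ i) x - r * x) := by
    intro r
    induction r with
    | zero =>
      left
      simp
    | succ r ih =>
      have e : ∑ i ∈ Finset.range (r + 1), (σ ^ i) x - ((r + 1 : ℕ) : N) * x =
          (∑ i ∈ Finset.range r, (σ ^ i) x - r * x) + ((σ ^ r) x - x) := by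
        rw [Finset.sum_range_succ]
        push_cast
        ring
      rw [e]
      exact N2_ge_add ih (h2 r)
  set s : N := ∑ i ∈ Finset.range m, (σ ^ i) x with hs
  have hmk : (m : k) ≠ 0 := Nat.cast_ne_zero.2 hm.ne'
  have hmN : (m : N) = algebraMap k N (m : k) := (map_natCast _ _).symm
  have hmN0 : (m : N) ≠ 0 := by
    rw [hmN]
    exact (_root_.map_ne_zero _).2 hmk
  have hmx : w.ord ((m : N) * x) = 1 := by
    rw [w.ord_mul _ _ hmN0 hx0, hmN, w.ord_const _ hmk, hx]
    rfl
  have hs1 : w.ord s = 1 := by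
    rcases h3 m with h4 | h4
    · rw [← hs, sub_eq_zero] at h4
      rw [h4, hmx]
    · rw [← hs] at h4
      have h5 : s - m * x ≠ 0 := by
        intro h5
        rw [h5, w.ord_zero] at h4
        omega
      have h6 := (Place.ord_add_of_lt (v := w) (mul_ne_zero hmN0 hx0) h5 (by omega)).2
      rw [add_sub_cancel] at h6
      rw [h6, hmx]
  have hσs : σ s = s := by
    rw [hs, map_sum]
    have e : ∀ i ∈ Finset.range m, σ ((σ ^ i) x) = (σ ^ (i + 1)) x := by
      intro i _
      rw [pow_succ', AlgEquiv.mul_apply]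
    rw [Finset.sum_congr rfl e]
    have h4 := Finset.sum_range_succ (fun i => (σ ^ i) x) m
    rw [Finset.sum_range_succ' (fun i => (σ ^ i) x) m, hσm, pow_zero] at h4
    exact add_right_cancel h4
  have hreg : ∀ z : N, 0 ≤ w.ord z → σ z = z := by
    intro z hz
    by_contra hne
    have hne' : σ z - z ≠ 0 := sub_ne_zero.2 hne
    obtain ⟨P, hP⟩ := approx hN w s hs1 z hz ((w.ord (σ z - z)).toNat + 1)
    have hσP : σ (aeval s P) = aeval s P := by
      have := Polynomial.aeval_algHom_apply (σ : N →ₐ[k] N) s P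
      change aeval (σ s) P = σ (aeval s P) at this
      rw [hσs] at this
      exact this.symm
    have h4 : N2_Ge w (((w.ord (σ z - z)).toNat + 1 : ℕ) : ℤ) (z - aeval s P) := by
      rcases hP with h5 | h5
      · exact Or.inl (sub_eq_zero.2 h5)
      · exact Or.inr h5
    have e : σ z - z = σ (z - aeval s P) + -(z - aeval s P) := by
      rw [map_sub, hσP]
      ring
    have h5 := N2_ge_add (N2_ge_map hσ h4) (N2_ge_neg h4)
    rw [← e] at h5
    have h6 := h5.resolve_left hne'
    push_cast at h6
    omega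
  ext z
  rw [AlgEquiv.one_apply]
  by_cases hz : 0 ≤ w.ord z
  · exact hreg z hz
  · have h4 := hreg z⁻¹ (by rw [w.ord_inv]; omega)
    rw [map_inv₀] at h4
    exact inv_injective h4

end Pool.Agent.LibFP27
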