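import Pool.Agent.LibFP27.N2

/-!
[FP27 N3] Two embeddings with the same place and the same uniformiser to first order are equal.
`emb_eq`: `i₁, i₂ : M → L`, `Over i₁ w v`, `Over i₂ w v` with the SAME factor `e` (hypotheses `h₁`, `h₂`), `i₁ β = i₂ β`, `0 < v.ord β =: d`, `v.ord x = 1`, and `i₁ x - i₂ x` is `0` or of order `> e`. Put `x₁ = i₁ x`, `x₂ = i₂ x`.
(1) `x₁ = x₂`. If not let `δ = w.ord (x₁ - x₂) > e`. Take `n` with `e n > δ + (d - 1) e` and a polynomial `P` with `β = P(x)` or `n ≤ v.ord (β - P(x))` (`approx`), `n > d`: `P = X^d Q` with `Q(0) ≠ 0` (`v.ord (P(x)) = d`; `P(x) = x^m Q(x)` with `Q(0) ≠ 0` has order `m`, so `m = d`). Then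
`P(x₁) - P(x₂)` is `0` or of order `≥ e n`. But `P(x₁) - P(x₂) = (x₁ - x₂) H(x₁, x₂)`, `H = ∑_(j ≥ d) p_j ∑_(i < j) x₁^i x₂^(j-1-i)`; modulo order `> (d-1) e`, `H ≡ p_d ∑_(i<d) x₁^i x₂^(d-1-i) ≡ p_d d x₂^(d-1)` (since `x₁ = x₂ + (order > e)`), of order exactly `(d - 1) e` as `d p_d ≠ 0` in `k`.
So the order of `P(x₁) - P(x₂)` is `δ + (d-1) e < e n`: contradiction.
(2) For `0 ≤ v.ord z` and all `n`: `approx` gives `P` with `z = P(x)` or `n ≤ v.ord (z - P(x))`, so `i₁ z - i₂ z` is `0` or of order `≥ e n`; so `i₁ z = i₂ z`. Every element of `M` is such a `z` or the inverse of one.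
-/

open scoped Classical
open Polynomial

namespace Pool.Agent.LibFP27

open Pool.Agent.LibBH2
open Pool.Agent.LibQC8 (IsFunctionField Div deg)

variable {k : Type} [Field k] [IsAlgClosed k] [CharZero k]
variable {M L : Type} [Field M] [Algebra k M] [Field L] [Algebra k L]

/-- zero or of order at least `n` -/
private def Ge (w : Place k L) (n : ℤ) (f : L) : Prop := f = 0 ∨ n ≤ w.ord f

private theorem Ge.add {w : Place k L} {n : ℤ} {f g : L} (hf : Ge w n f) (hg : Ge w n g) :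
    Ge w n (f + g) := by
  by_cases h0 : f + g = 0
  · exact Or.inl h0
  rcases hf with rfl | hf
  · rw [zero_add]; exact hg
  rcases hg with rfl | hg
  · rw [add_zero]; exact Or.inr hf
  by_cases hf0 : f = 0
  · subst hf0; rw [zero_add]; exact Or.inr hg
  by_cases hg0 : g = 0
  · subst hg0; rw [add_zero]; exact Or.inr hf
  exact Or.inr ((le_min hf hg).trans (w.ord_add f g hf0 hg0 h0))

private theorem Ge.neg {w : Place k L} {n : ℤ} {f : L} (hf : Ge w n f) : Ge w n (-f) := by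
  rcases hf with rfl | hf
  · exact Or.inl neg_zero
  · exact Or.inr (by rwa [Place.ord_neg])

private theorem Ge.sub {w : Place k L} {n : ℤ} {f g : L} (hf : Ge w n f) (hg : Ge w n g) :
    Ge w n (f - g) := by
  rw [sub_eq_add_neg]; exact hf.add hg.neg

/-- the image of an approximation -/
private theorem Ge_map {w : Place k L} {v : Place k M} {i : M →ₐ[k] L} {e : ℤ} (he : 0 < e)
    (h : ∀ f, w.ord (i f) = e * v.ord f) {z y : M} {n : ℤ} (hz : z = y ∨ n ≤ v.ord (z - y)) :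
    Ge w (e * n) (i z - i y) := by
  rcases hz with rfl | hz
  · exact Or.inl (sub_self _)
  · right
    rw [← map_sub, h]
    exact mul_le_mul_of_nonneg_left hz he.le

/-- difference quotients of polynomials are regular -/
private theorem diffq {w : Place k L} {a b : L} (ha : w.Reg a) (hb : w.Reg b) (Q : k[X]) :
    ∃ H, w.Reg H ∧ aeval a Q - aeval b Q = H * (a - b) := by
  induction Q using Polynomial.induction_on with
  | C c => exact ⟨0, Or.inl rfl, by simp⟩
  | add p q hp hq =>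
    obtain ⟨H1, h1, h1'⟩ := hp
    obtain ⟨H2, h2, h2'⟩ := hq
    refine ⟨H1 + H2, h1.add h2, ?_⟩
    rw [map_add, map_add, add_mul, ← h1', ← h2']
    ring
  | monomial n c ih =>
    obtain ⟨H, h1, h1'⟩ := ih
    simp only [map_mul, aeval_C, map_pow, aeval_X] at h1' ⊢
    refine ⟨a * H + algebraMap k L c * b ^ n, (ha.mul h1).add ((w.reg_const c).mul (hb.pow n)), ?_⟩
    have h3 : algebraMap k L c * a ^ (n + 1) - algebraMap k L c * b ^ (n + 1) =
        a * (algebraMap k L c * a ^ n - algebraMap k L c * b ^ n) +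
          algebraMap k L c * b ^ n * (a - b) := by ring
    rw [h3, h1']
    ring

/-- the value of a polynomial at a zero -/
private theorem val_zer {w : Place k L} {a : L} (ha : w.Zer a) (Q : k[X]) :
    w.Zer (aeval a Q - algebraMap k L (Q.eval 0)) :=
  Place.val_aeval (c := 0) (by simpa using ha) Q

/-- the value of `∑ u ^ i` for `u` of value one -/
private theorem val_geom {w : Place k L} {u : L} (hu : w.Zer (u - algebraMap k L 1)) (d : ℕ) :
    w.Zer (∑ i ∈ Finset.range d, u ^ i - algebraMap k L (d : k)) := by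
  induction d with
  | zero => simp [Place.zer_zero]
  | succ d ih =>
    rw [Finset.sum_range_succ]
    have h1 := Place.val_pow hu d
    rw [one_pow] at h1
    have := Place.val_add ih h1
    simpa using this

omit [IsAlgClosed k] in
private theorem pow_sub_eq {x₁ x₂ : L} (hx2 : x₂ ≠ 0) (d : ℕ) :
    x₁ ^ (d + 1) - x₂ ^ (d + 1) =
      (x₁ - x₂) * (x₂ ^ d * ∑ i ∈ Finset.range (d + 1), (x₁ / x₂) ^ i) := by
  have h1 : (∑ i ∈ Finset.range (d + 1), (x₁ / x₂) ^ i) * (x₁ / x₂ - 1) = (x₁ / x₂) ^ (d + 1) - 1 :=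
    geom_sum_mul _ _
  have h2 : (x₁ - x₂) * (x₂ ^ d * ∑ i ∈ Finset.range (d + 1), (x₁ / x₂) ^ i) =
      x₂ ^ (d + 1) * ((∑ i ∈ Finset.range (d + 1), (x₁ / x₂) ^ i) * (x₁ / x₂ - 1)) := by
    have h3 : x₁ - x₂ = x₂ * (x₁ / x₂ - 1) := by field_simp
    rw [h3, pow_succ]
    ring
  rw [h2, h1, div_pow]
  field_simp

/-- a polynomial approximating a function of order `d` at a zero of order one has order `d` -/
private theorem poly_form {v : Place k M} {x : M} (hx : v.ord x = 1) {P : k[X]} {d : ℕ}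
    (hP : v.ord (aeval x P) = d) (h0 : aeval x P ≠ 0) :
    ∃ Q : k[X], P = X ^ d * Q ∧ Q.eval 0 ≠ 0 := by
  have hx0 : x ≠ 0 := by rintro rfl; rw [v.ord_zero] at hx; omega
  have hP0 : P ≠ 0 := by rintro rfl; simp at h0
  obtain ⟨Q, hQ1, hQ2⟩ := Polynomial.exists_eq_pow_rootMultiplicity_mul_and_not_dvd P hP0 0
  set m := P.rootMultiplicity 0 with hm
  rw [map_zero, sub_zero] at hQ1 hQ2
  have hQ0 : Q.eval 0 ≠ 0 := by
    intro h
    apply hQ2
    rw [Polynomial.X_dvd_iff]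
    rwa [← Polynomial.coeff_zero_eq_eval_zero] at h
  have hz : v.Zer x := Or.inr (by omega)
  have h1 := val_zer hz Q
  have h2 := Place.ord_eq_zero_of_val h1 hQ0
  have h3 := Place.ne_zero_of_val h1 hQ0
  have h4 : v.ord (aeval x P) = m := by
    rw [hQ1, map_mul, map_pow, aeval_X, v.ord_mul _ _ (pow_ne_zero _ hx0) h3, v.ord_pow, h2, hx]
    ring
  have h5 : m = d := by
    rw [hP] at h4
    exact_mod_cast h4.symm
  exact ⟨Q, h5 ▸ hQ1, hQ0⟩

private theorem step_one (hM : IsFunctionField k M) (w : Place k L) (v : Place k M) (i₁ i₂ : M →ₐ[k] L)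
    (e : ℤ) (he : 0 < e) (h₁ : ∀ f, w.ord (i₁ f) = e * v.ord f) (h₂ : ∀ f, w.ord (i₂ f) = e * v.ord f)
    (β : M) (hβ : 0 < v.ord β) (hi : i₁ β = i₂ β) (x : M) (hx : v.ord x = 1)
    (hxx : i₁ x = i₂ x ∨ e < w.ord (i₁ x - i₂ x)) : i₁ x = i₂ x := by
  by_contra hne
  have hδ : e < w.ord (i₁ x - i₂ x) := hxx.resolve_left hne
  obtain ⟨d, hd⟩ : ∃ d : ℕ, v.ord β = (d : ℤ) + 1 := ⟨(v.ord β - 1).toNat, by omega⟩
  have hx10 : i₁ x ≠ 0 := by
    intro h
    have := h₁ x
    rw [h, w.ord_zero, hx] at this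
    omega
  have hx20 : i₂ x ≠ 0 := by
    intro h
    have := h₂ x
    rw [h, w.ord_zero, hx] at this
    omega
  have ho1 : w.ord (i₁ x) = e := by rw [h₁, hx, mul_one]
  have ho2 : w.ord (i₂ x) = e := by rw [h₂, hx, mul_one]
  -- a good approximation
  obtain ⟨n, hn⟩ : ∃ n : ℕ, n = (w.ord (i₁ x - i₂ x) + d * e).toNat + d + 2 := ⟨_, rfl⟩
  obtain ⟨P, hP⟩ := approx hM v x hx β hβ.le n
  have hβ0 : β ≠ 0 := by rintro rfl; rw [v.ord_zero] at hβ; omega
  have hPx : aeval x P ≠ 0 ∧ v.ord (aeval x P) = ((d + 1 : ℕ) : ℤ) := by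
    by_cases hb : β = aeval x P
    · rw [← hb]
      exact ⟨hβ0, by rw [hd]; push_cast; rfl⟩
    · have h1 : (n : ℤ) ≤ v.ord (β - aeval x P) := hP.resolve_left hb
      have h2 := Place.ord_add_of_lt (v := v) (f := β) (g := -(β - aeval x P)) hβ0
        (neg_ne_zero.2 (sub_ne_zero.2 hb)) (by rw [Place.ord_neg]; omega)
      rw [show β + -(β - aeval x P) = aeval x P by ring] at h2
      exact ⟨h2.1, by rw [h2.2, hd]; push_cast; rfl⟩
  obtain ⟨Q, hQ, hQ0⟩ := poly_form hx hPx.2 hPx.1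
  -- the difference of the values of `P` is small
  have hsmall : Ge w (e * n) (aeval (i₁ x) P - aeval (i₂ x) P) := by
    have g1 := Ge_map he h₁ hP
    have g2 := Ge_map he h₂ hP
    have g3 := g2.sub g1
    rw [hi] at g3
    have e1 : i₁ (aeval x P) = aeval (i₁ x) P := (Polynomial.aeval_algHom_apply i₁ x P).symm
    have e2 : i₂ (aeval x P) = aeval (i₂ x) P := (Polynomial.aeval_algHom_apply i₂ x P).symm
    rw [e1, e2] at g3
    rwa [show i₂ β - aeval (i₂ x) P - (i₂ β - aeval (i₁ x) P) =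
      aeval (i₁ x) P - aeval (i₂ x) P by ring] at g3
  -- but its order is known
  have hz1 : w.Zer (i₁ x) := Or.inr (by omega)
  have hz2 : w.Zer (i₂ x) := Or.inr (by omega)
  obtain ⟨H, hH, hH'⟩ := diffq hz1.reg hz2.reg Q
  have hδ0 : i₁ x - i₂ x ≠ 0 := sub_ne_zero.2 hne
  have hu : w.Zer (i₁ x / i₂ x - algebraMap k L 1) := by
    right
    rw [map_one, show i₁ x / i₂ x - 1 = (i₁ x - i₂ x) / i₂ x by field_simp,
      w.ord_div _ _ hδ0 hx20, ho2]
    omega
  have hg := val_geom hu (d + 1)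
  have hq := val_zer hz1 Q
  have hA : w.Zer ((∑ i ∈ Finset.range (d + 1), (i₁ x / i₂ x) ^ i) * aeval (i₁ x) Q + i₂ x * H -
      algebraMap k L (((d + 1 : ℕ) : k) * Q.eval 0 + 0)) := by
    refine Place.val_add (Place.val_mul hg hq) ?_
    rw [map_zero, sub_zero]
    exact hz2.mul_reg hH
  have hc : (((d + 1 : ℕ) : k) * Q.eval 0 + 0) ≠ 0 := by
    rw [add_zero]
    exact mul_ne_zero (Nat.cast_ne_zero.2 (Nat.succ_ne_zero d)) hQ0
  have hA0 := Place.ord_eq_zero_of_val hA hc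
  have hA1 := Place.ne_zero_of_val hA hc
  set A := (∑ i ∈ Finset.range (d + 1), (i₁ x / i₂ x) ^ i) * aeval (i₁ x) Q + i₂ x * H with hAdef
  have hfac : aeval (i₁ x) P - aeval (i₂ x) P = (i₁ x - i₂ x) * ((i₂ x) ^ d * A) := by
    have e3 := pow_sub_eq (x₁ := i₁ x) hx20 d
    have e4 : aeval (i₁ x) P - aeval (i₂ x) P = ((i₁ x) ^ (d + 1) - (i₂ x) ^ (d + 1)) * aeval (i₁ x) Q +
        (i₂ x) ^ (d + 1) * (aeval (i₁ x) Q - aeval (i₂ x) Q) := by
      rw [hQ]
      simp only [map_mul, map_pow, aeval_X]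
      ring
    rw [e4, e3, hH', hAdef]
    ring
  have hord : w.ord (aeval (i₁ x) P - aeval (i₂ x) P) = w.ord (i₁ x - i₂ x) + d * e := by
    rw [hfac, w.ord_mul _ _ hδ0 (mul_ne_zero (pow_ne_zero _ hx20) hA1),
      w.ord_mul _ _ (pow_ne_zero _ hx20) hA1, w.ord_pow, hA0, ho2]
    ring
  have hne0 : aeval (i₁ x) P - aeval (i₂ x) P ≠ 0 := by
    rw [hfac]
    exact mul_ne_zero hδ0 (mul_ne_zero (pow_ne_zero _ hx20) hA1)
  have hge := hsmall.resolve_left hne0
  rw [hord] at hge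
  have hn1 : w.ord (i₁ x - i₂ x) + d * e < n := by
    rw [hn]
    push_cast
    have := Int.self_le_toNat (w.ord (i₁ x - i₂ x) + d * e)
    omega
  have hn2 : (n : ℤ) ≤ e * n := by
    have : (0 : ℤ) ≤ n := Int.natCast_nonneg n
    nlinarith
  omega

theorem emb_eq (hM : IsFunctionField k M) (w : Place k L) (v : Place k M) (i₁ i₂ : M →ₐ[k] L) (e : ℤ)
    (he : 0 < e) (h₁ : ∀ f, w.ord (i₁ f) = e * v.ord f) (h₂ : ∀ f, w.ord (i₂ f) = e * v.ord f) (β : M)
    (hβ : 0 < v.ord β) (hi : i₁ β = i₂ β) (x : M) (hx : v.ord x = 1)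
    (hxx : i₁ x = i₂ x ∨ e < w.ord (i₁ x - i₂ x)) : i₁ = i₂ := by
  have hx12 := step_one hM w v i₁ i₂ e he h₁ h₂ β hβ hi x hx hxx
  have key : ∀ z : M, 0 ≤ v.ord z → i₁ z = i₂ z := by
    intro z hz
    by_contra hne
    obtain ⟨n, hn⟩ : ∃ n : ℕ, n = (w.ord (i₁ z - i₂ z)).toNat + 1 := ⟨_, rfl⟩
    obtain ⟨P, hP⟩ := approx hM v x hx z hz n
    have g3 := (Ge_map he h₁ hP).sub (Ge_map he h₂ hP)
    have e1 : i₁ (aeval x P) = aeval (i₁ x) P := (Polynomial.aeval_algHom_apply i₁ x P).symm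
    have e2 : i₂ (aeval x P) = aeval (i₂ x) P := (Polynomial.aeval_algHom_apply i₂ x P).symm
    rw [e1, e2, hx12, show i₁ z - aeval (i₂ x) P - (i₂ z - aeval (i₂ x) P) = i₁ z - i₂ z by ring] at g3
    have hge := g3.resolve_left (sub_ne_zero.2 hne)
    have hn1 : w.ord (i₁ z - i₂ z) < n := by
      rw [hn]
      push_cast
      have := Int.self_le_toNat (w.ord (i₁ z - i₂ z))
      omega
    have hn2 : (n : ℤ) ≤ e * n := by
      have : (0 : ℤ) ≤ n := Int.natCast_nonneg n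
      nlinarith
    omega
  apply AlgHom.ext
  intro z
  rcases le_or_gt 0 (v.ord z) with hz | hz
  · exact key z hz
  · have h1 := key z⁻¹ (by rw [v.ord_inv]; omega)
    rw [map_inv₀, map_inv₀] at h1
    exact inv_injective h1

end Pool.Agent.LibFP27
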