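import Pool.Agent.LibFP27.DefM

/-!
Zero-cycles on products of finitely many curves.
-/

open scoped Classical

namespace Pool.Agent.LibFP27

open Pool.Agent.LibBH2
open Pool.Agent.LibQC8 (IsFunctionField Div deg IsPrincipal)

section

variable (k : Type) [Field k] {ι : Type} [Fintype ι] (K : ι → Type) [∀ i, Field (K i)] [∀ i, Algebra k (K i)]

/-- zero-cycles on the product of the curves of the function fields `K i` -/
abbrev CycN : Type := (∀ i, Place k (K i)) →₀ ℤ

/-- the push-forward of the divisor of the function `g` on the curve of `M` under a map to the product of the curves -/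
def IsPrinN (z : CycN k K) : Prop :=
  ∃ (M : Type) (_ : Field M) (_ : Algebra k M) (g : M) (S : Finset (Place k M))
    (P : ∀ i, Place k M → Place k (K i)),
    IsFunctionField k M ∧ g ≠ 0 ∧ (∀ w, w ∉ S → w.ord g = 0) ∧ (∀ i, IsMap (P i)) ∧
      z = ∑ w ∈ S, Finsupp.single (fun i => P i w) (w.ord g)

/-- rational equivalence of zero-cycles on the product of the curves of the `K i` -/
noncomputable def RatEqN : AddSubgroup (CycN k K) := AddSubgroup.closure {z | IsPrinN k K z}

/-- `z` has degree zero and its image in the Jacobian of every factor is torsion, i.e. the Albanese map is torsion on `z` -/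
def AlbZero (z : CycN k K) : Prop :=
  (z.sum fun _ a => a) = 0 ∧ ∀ i, ∃ m : ℕ, 0 < m ∧ IsPrincipal k (K i) (m • z.mapDomain fun p => p i)

end

/-- every zero-cycle on a product of finitely many curves over `k`, of degree zero and with torsion Albanese image, is torsion
in the Chow group -/
def StA (k : Type) [Field k] : Prop :=
  ∀ (n : ℕ) (K : Fin n → Type) [∀ i, Field (K i)] [∀ i, Algebra k (K i)], (∀ i, IsFunctionField k (K i)) →
    ∀ z : CycN k K, AlbZero k K z → ∃ m : ℕ, 0 < m ∧ m • z ∈ RatEqN k K

end Pool.Agent.LibFP27
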