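import Pool.Agent.LibFP27.P0

/-!
[FP27 P1] Push-forward of rational equivalences to a product of `n` curves. `AddSubgroup.closure_induction` (the map on cycles is additive: `Finsupp.mapDomain.addMonoidHom`), so it is enough to treat an `IsPrin` cycle `∑_(w ∈ S) single (P w, Q w) (w.ord g)`: its image is `∑_(w ∈ S) single (update (update o i (P w)) j (Q w)) (w.ord g)`,
an `IsPrinN` cycle with the maps `P` in the coordinate `i`, `Q` in the coordinate `j` (`i ≠ j`), constant `o l` in the other coordinates (`IsMap` : `Or.inr`); mind the dependent types: define the maps by `Function.update` too, `fun l w => Function.update (Function.update o i (P w)) j (Q w) l`, and show `IsMap` by cases `l = j`, `l = i`, else (`subst`).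
`curve_up`: `D = div g`: take `M = K i`, the identity (`IsFin`: `AlgHom.id`, `e = 1`) in the coordinate `i`. `S = D.support`.
`to_pair`: the same in the other direction for `n = 2`: the image of an `IsPrinN` cycle under `p ↦ (p 0, p 1)` is `IsPrin`.
-/

open scoped Classical

namespace Pool.Agent.LibFP27

open Pool.Agent.LibBH2
open Pool.Agent.LibQC8 (IsFunctionField Div deg IsPrincipal)

variable {k : Type} [Field k] {n : ℕ} {K : Fin n → Type} [∀ i, Field (K i)] [∀ i, Algebra k (K i)]

private theorem closure_map {α β : Type} (f : α → β) (A : Set (α →₀ ℤ)) (B : AddSubgroup (β →₀ ℤ))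
    (h : ∀ z ∈ A, z.mapDomain f ∈ B) (z : α →₀ ℤ) (hz : z ∈ AddSubgroup.closure A) : z.mapDomain f ∈ B := by
  have h1 : AddSubgroup.closure A ≤ B.comap (Finsupp.mapDomain.addMonoidHom f) := by
    rw [AddSubgroup.closure_le]
    intro z hz
    exact h z hz
  exact h1 hz

private theorem isMap_update {M : Type} [Field M] [Algebra k M] (o : ∀ i, Place k (K i)) (i j : Fin n)
    (P : Place k M → Place k (K i)) (Q : Place k M → Place k (K j)) (hP : IsMap P) (hQ : IsMap Q) (l : Fin n) :
    IsMap fun w : Place k M => Function.update (Function.update o i (P w)) j (Q w) l := by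
  by_cases hj : l = j
  · subst hj
    simpa only [Function.update_self] using hQ
  · simp only [Function.update_of_ne hj]
    by_cases hi : l = i
    · subst hi
      simpa only [Function.update_self] using hP
    · simp only [Function.update_of_ne hi]
      exact Or.inr ⟨o l, fun _ => rfl⟩

theorem pair_up (o : ∀ i, Place k (K i)) (i j : Fin n) (hij : i ≠ j) (z : Cyc k (K i) (K j))
    (hz : z ∈ RatEq k (K i) (K j)) :
    (z.mapDomain fun a => Function.update (Function.update o i a.1) j a.2) ∈ RatEqN k K := by
  refine closure_map _ _ _ ?_ z hz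
  rintro z ⟨M, hM1, hM2, g, S, P, Q, hM, hg, hS, hP, hQ, rfl⟩
  refine AddSubgroup.subset_closure ⟨M, hM1, hM2, g, S,
    fun l w => Function.update (Function.update o i (P w)) j (Q w) l, hM, hg, hS, ?_, ?_⟩
  · intro l
    exact isMap_update o i j P Q hP hQ l
  · rw [Finsupp.mapDomain_finsetSum]
    refine Finset.sum_congr rfl fun w _ => ?_
    rw [Finsupp.mapDomain_single]

theorem curve_up (o : ∀ i, Place k (K i)) (i : Fin n) (hi : IsFunctionField k (K i)) (D : Div k (K i))
    (hD : IsPrincipal k (K i) D) : (D.mapDomain fun a => Function.update o i a) ∈ RatEqN k K := by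
  obtain ⟨g, hg, h⟩ := hD
  refine AddSubgroup.subset_closure ⟨K i, inferInstance, inferInstance, g, D.support,
    fun l w => Function.update o i w l, hi, hg, ?_, ?_, ?_⟩
  · intro w hw
    rw [← h w]
    exact Finsupp.notMem_support_iff.1 hw
  · intro l
    by_cases hl : l = i
    · subst hl
      simp only [Function.update_self]
      exact Or.inl ⟨AlgHom.id k _, fun w => ⟨1, one_pos, fun f => by rw [one_mul]; rfl⟩⟩
    · simp only [Function.update_of_ne hl]
      exact Or.inr ⟨o l, fun _ => rfl⟩
  · rw [Finsupp.mapDomain, Finsupp.sum]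
    refine Finset.sum_congr rfl fun w _ => ?_
    rw [h w]

theorem to_pair {L : Type} [Field L] [Algebra k L] (z : CycN k (fun _ : Fin 2 => L))
    (hz : z ∈ RatEqN k (fun _ : Fin 2 => L)) :
    (z.mapDomain fun p => (p 0, p 1)) ∈ RatEq k L L := by
  refine closure_map _ _ _ ?_ z hz
  rintro z ⟨M, hM1, hM2, g, S, P, hM, hg, hS, hP, rfl⟩
  refine AddSubgroup.subset_closure ⟨M, hM1, hM2, g, S, P 0, P 1, hM, hg, hS, hP 0, hP 1, ?_⟩
  rw [Finsupp.mapDomain_finsetSum]
  refine Finset.sum_congr rfl fun w _ => ?_
  rw [Finsupp.mapDomain_single]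

end Pool.Agent.LibFP27
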