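import Pool.Agent.LibFP27.P1
import Pool.Agent.LibFP27.C1

/-!
[FP27 P2] The Albanese kernel of a product of curves is generated by boxes in two coordinates: the points.
`T` is a subgroup of cycles containing the images of all boxes in two coordinates.
(1) Expand the box (`prodc` of `single`s; C1 has `box_eq`, which may be imported): for `i ≠ j`, `single (update (update x i a) j c) 1 - single (update (update x i a) j d) 1 - single (update (update x i b) j c) 1 + single (update (update x i b) j d) 1 ∈ T`.
(2) For a finset `S` and `j ∉ S` let `p_S = fun i => if i ∈ S then p i else o i` (`S.piecewise p o`). `single p_(S ∪ j) - single p_S - (single (update o j (p j)) - single o) ∈ T`, by induction on `S` (insert `i`: the difference is a box (1) with `x = p_S`, `a = p i`, `b = o i`, `c = p j`, `d = o j`). (3) By induction on `S`: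
`single p_S - single o - ∑_(i ∈ S) (single (update o i (p i)) - single o) ∈ T`; `S = univ`.
-/

open scoped Classical

namespace Pool.Agent.LibFP27

open Pool.Agent.LibBH2
open Pool.Agent.LibQC8 (IsFunctionField Div deg IsPrincipal)

variable {k : Type} [Field k] {n : ℕ} {K : Fin n → Type} [∀ i, Field (K i)] [∀ i, Algebra k (K i)]

private theorem p2_box {K₁ K₂ : Type} [Field K₁] [Field K₂] [Algebra k K₁] [Algebra k K₂] {α : Type}
    (F : Place k K₁ × Place k K₂ → α) (a b : Place k K₁) (c d : Place k K₂) :
    (box a b c d).mapDomain F = Finsupp.single (F (a, c)) (1 : ℤ) - Finsupp.single (F (a, d)) 1 -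
      Finsupp.single (F (b, c)) 1 + Finsupp.single (F (b, d)) 1 := by
  rw [box_eq]
  have hs : ∀ x y : Cyc k K₁ K₂, Finsupp.mapDomain F (x - y) =
      Finsupp.mapDomain F x - Finsupp.mapDomain F y := fun x y =>
    map_sub (Finsupp.mapDomain.addMonoidHom F) x y
  have ha : ∀ x y : Cyc k K₁ K₂, Finsupp.mapDomain F (x + y) =
      Finsupp.mapDomain F x + Finsupp.mapDomain F y := fun x y => Finsupp.mapDomain_add
  simp only [hs, ha, Finsupp.mapDomain_single]

/-- the two coordinates `i ≠ j` -/
private theorem p2_two (T : AddSubgroup (CycN k K))
    (hT : ∀ i j : Fin n, i ≠ j → ∀ (a b : Place k (K i)) (c d : Place k (K j)) (o : ∀ i, Place k (K i)),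
      ((box a b c d).mapDomain fun x => Function.update (Function.update o i x.1) j x.2) ∈ T)
    (o p : ∀ i, Place k (K i)) (S : Finset (Fin n)) :
    ∀ j, j ∉ S → (Finsupp.single (Function.update (S.piecewise p o) j (p j)) (1 : ℤ) -
      Finsupp.single (S.piecewise p o) 1 -
      (Finsupp.single (Function.update o j (p j)) 1 - Finsupp.single o 1)) ∈ T := by
  induction S using Finset.induction_on with
  | empty =>
    intro j _
    rw [Finset.piecewise_empty, sub_self]
    exact T.zero_mem
  | insert i S hi ih =>
    intro j hj
    rw [Finset.mem_insert, not_or] at hj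
    have h1 := ih j hj.2
    have h2 := hT i j (Ne.symm hj.1) (p i) (o i) (p j) (o j) (S.piecewise p o)
    rw [p2_box] at h2
    dsimp only at h2
    have e1 : Function.update (S.piecewise p o) i (o i) = S.piecewise p o := by
      have : o i = S.piecewise p o i := (Finset.piecewise_eq_of_notMem _ _ _ hi).symm
      rw [this]
      exact Function.update_eq_self _ _
    have e2 : Function.update (S.piecewise p o) j (o j) = S.piecewise p o := by
      have : o j = S.piecewise p o j := (Finset.piecewise_eq_of_notMem _ _ _ hj.2).symm
      rw [this]
      exact Function.update_eq_self _ _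
    have e3 : Function.update (Function.update (S.piecewise p o) i (p i)) j (o j) =
        Function.update (S.piecewise p o) i (p i) := by
      have : o j = Function.update (S.piecewise p o) i (p i) j := by
        rw [Function.update_of_ne hj.1]
        exact (Finset.piecewise_eq_of_notMem _ _ _ hj.2).symm
      rw [this]
      exact Function.update_eq_self _ _
    rw [e1, e2, e3] at h2
    rw [Finset.piecewise_insert]
    have h3 := T.add_mem h1 h2
    convert h3 using 1
    abel

/-- the sum over a set of coordinates -/
private theorem p2_sum (T : AddSubgroup (CycN k K))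
    (hT : ∀ i j : Fin n, i ≠ j → ∀ (a b : Place k (K i)) (c d : Place k (K j)) (o : ∀ i, Place k (K i)),
      ((box a b c d).mapDomain fun x => Function.update (Function.update o i x.1) j x.2) ∈ T)
    (o p : ∀ i, Place k (K i)) (S : Finset (Fin n)) :
    (Finsupp.single (S.piecewise p o) (1 : ℤ) - Finsupp.single o 1 -
      ∑ i ∈ S, (Finsupp.single (Function.update o i (p i)) 1 - Finsupp.single o 1)) ∈ T := by
  induction S using Finset.induction_on with
  | empty =>
    rw [Finset.piecewise_empty, sub_self, Finset.sum_empty, sub_zero]
    exact T.zero_mem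
  | insert j S hj ih =>
    have h1 := p2_two T hT o p S j hj
    rw [Finset.piecewise_insert, Finset.sum_insert hj]
    have h3 := T.add_mem h1 ih
    convert h3 using 1
    abel

theorem expand (T : AddSubgroup (CycN k K))
    (hT : ∀ i j : Fin n, i ≠ j → ∀ (a b : Place k (K i)) (c d : Place k (K j)) (o : ∀ i, Place k (K i)),
      ((box a b c d).mapDomain fun x => Function.update (Function.update o i x.1) j x.2) ∈ T)
    (o p : ∀ i, Place k (K i)) :
    (Finsupp.single p (1 : ℤ) - Finsupp.single o 1 -
      ∑ i, (Finsupp.single (Function.update o i (p i)) 1 - Finsupp.single o 1)) ∈ T := by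
  have h := p2_sum T hT o p Finset.univ
  rwa [Finset.piecewise_univ] at h

end Pool.Agent.LibFP27
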