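import Pool.Agent.LibFP27.P2

/-!
[FP27 P3] The Albanese kernel of a product of curves is contained in every saturated subgroup containing `RatEqN` and the boxes.
If `z = 0` trivial; otherwise let `o` be a point in the support of `z`. `z = ∑_p z p • single p 1` (`Finsupp.sum_single`); by `expand`, `z - ((deg z) • single o 1 + ∑_i (∑_p z p • (single (update o i (p i)) 1 - single o 1))) ∈ T`;
`∑_p z p • single (update o i (p i)) 1 = (z.mapDomain (fun p => p i)).mapDomain (update o i)` (`Finsupp.mapDomain_comp`), `deg z = z.sum (fun _ a => a) = 0`, and `m • z.mapDomain (fun p => p i)` is principal: `curve_up` gives `m • (...) ∈ RatEqN ≤ T`, so by saturation `(...) ∈ T`.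
-/

open scoped Classical

namespace Pool.Agent.LibFP27

open Pool.Agent.LibBH2
open Pool.Agent.LibQC8 (IsFunctionField Div deg IsPrincipal)

variable {k : Type} [Field k] {n : ℕ} {K : Fin n → Type} [∀ i, Field (K i)] [∀ i, Algebra k (K i)]

private theorem P3_key (T : AddSubgroup (CycN k K)) (o : ∀ i, Place k (K i))
    (hE : ∀ p : ∀ i, Place k (K i), (Finsupp.single p (1 : ℤ) - Finsupp.single o 1 -
      ∑ i, (Finsupp.single (Function.update o i (p i)) 1 - Finsupp.single o 1)) ∈ T)
    (z : CycN k K) :
    (z - (z.sum fun _ a => a) • Finsupp.single o (1 : ℤ) -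
      ∑ i, (z.mapDomain (fun p => Function.update o i (p i)) -
        (z.sum fun _ a => a) • Finsupp.single o (1 : ℤ))) ∈ T := by
  induction z using Finsupp.induction_linear with
  | zero => simp
  | add f g hf hg =>
    have e1 : ((f + g).sum fun _ a => a) = (f.sum fun _ a => a) + (g.sum fun _ a => a) :=
      Finsupp.sum_add_index' (fun _ => rfl) (fun _ _ _ => rfl)
    have e2 : ∀ i, (f + g).mapDomain (fun p => Function.update o i (p i)) =
        f.mapDomain (fun p => Function.update o i (p i)) +
          g.mapDomain (fun p => Function.update o i (p i)) := fun i => Finsupp.mapDomain_add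
    have h := T.add_mem hf hg
    have e3 : (f + g - ((f + g).sum fun _ a => a) • Finsupp.single o (1 : ℤ) -
        ∑ i, ((f + g).mapDomain (fun p => Function.update o i (p i)) -
          ((f + g).sum fun _ a => a) • Finsupp.single o (1 : ℤ))) =
        (f - (f.sum fun _ a => a) • Finsupp.single o (1 : ℤ) -
          ∑ i, (f.mapDomain (fun p => Function.update o i (p i)) -
            (f.sum fun _ a => a) • Finsupp.single o (1 : ℤ))) +
        (g - (g.sum fun _ a => a) • Finsupp.single o (1 : ℤ) -
          ∑ i, (g.mapDomain (fun p => Function.update o i (p i)) -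
            (g.sum fun _ a => a) • Finsupp.single o (1 : ℤ))) := by
      rw [e1, Finset.sum_congr rfl (fun i _ => by rw [e2 i])]
      rw [add_smul]
      rw [Finset.sum_congr rfl (fun i _ => add_sub_add_comm
        (f.mapDomain (fun p => Function.update o i (p i)))
        (g.mapDomain (fun p => Function.update o i (p i)))
        ((f.sum fun _ a => a) • Finsupp.single o (1 : ℤ))
        ((g.sum fun _ a => a) • Finsupp.single o (1 : ℤ)))]
      rw [Finset.sum_add_distrib]
      abel
    rw [e3]
    exact h
  | single p a =>
    have h := T.zsmul_mem (hE p) a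
    have e1 : ((Finsupp.single p a : CycN k K).sum fun _ a => a) = a :=
      Finsupp.sum_single_index rfl
    have e2 : ∀ i, (Finsupp.single p a : CycN k K).mapDomain (fun p => Function.update o i (p i)) =
        a • Finsupp.single (Function.update o i (p i)) (1 : ℤ) := by
      intro i
      rw [Finsupp.mapDomain_single, Finsupp.smul_single, smul_eq_mul, mul_one]
    have e4 : (Finsupp.single p a : CycN k K) = a • Finsupp.single p (1 : ℤ) := by
      rw [Finsupp.smul_single, smul_eq_mul, mul_one]
    have e3 : ((Finsupp.single p a : CycN k K) -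
        ((Finsupp.single p a : CycN k K).sum fun _ a => a) • Finsupp.single o (1 : ℤ) -
        ∑ i, ((Finsupp.single p a : CycN k K).mapDomain (fun p => Function.update o i (p i)) -
          ((Finsupp.single p a : CycN k K).sum fun _ a => a) • Finsupp.single o (1 : ℤ))) =
        a • (Finsupp.single p (1 : ℤ) - Finsupp.single o 1 -
          ∑ i, (Finsupp.single (Function.update o i (p i)) 1 - Finsupp.single o 1)) := by
      rw [e1, Finset.sum_congr rfl (fun i _ => by rw [e2 i, ← smul_sub])]
      rw [← Finset.smul_sum, e4, ← smul_sub, ← smul_sub]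
    rw [e3]
    exact h

theorem alb_mem (hK : ∀ i, IsFunctionField k (K i)) (T : AddSubgroup (CycN k K)) (hR : RatEqN k K ≤ T)
    (hs : ∀ (z : CycN k K) (m : ℕ), 0 < m → m • z ∈ T → z ∈ T)
    (hT : ∀ i j : Fin n, i ≠ j → ∀ (a b : Place k (K i)) (c d : Place k (K j)) (o : ∀ i, Place k (K i)),
      ((box a b c d).mapDomain fun x => Function.update (Function.update o i x.1) j x.2) ∈ T)
    (z : CycN k K) (hz : AlbZero k K z) : z ∈ T := by
  by_cases h0 : z = 0
  · rw [h0]; exact T.zero_mem
  obtain ⟨o, -⟩ := Finsupp.support_nonempty_iff.2 h0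
  have key := P3_key T o (fun p => expand T hT o p) z
  rw [hz.1] at key
  have hmem : ∀ i, z.mapDomain (fun p => Function.update o i (p i)) ∈ T := by
    intro i
    obtain ⟨m, hm, hp⟩ := hz.2 i
    have h1 := hR (curve_up (K := K) o i (hK i) _ hp)
    refine hs _ m hm ?_
    have e : (Finsupp.mapDomain (fun a => Function.update o i a)
        (m • Finsupp.mapDomain (fun p : ∀ i, Place k (K i) => p i) z)) =
        m • z.mapDomain (fun p => Function.update o i (p i)) := by
      have e1 := map_nsmul (Finsupp.mapDomain.addMonoidHom (M := ℤ)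
        (fun a : Place k (K i) => Function.update o i a)) m
        (Finsupp.mapDomain (fun p : ∀ i, Place k (K i) => p i) z)
      refine e1.trans ?_
      have e2 := (Finsupp.mapDomain_comp (f := fun p : ∀ i, Place k (K i) => p i)
        (g := fun a : Place k (K i) => Function.update o i a) (v := z)).symm
      exact congrArg (fun y => m • y) e2
    rw [← e]
    exact h1
  have hsum : (∑ i, (z.mapDomain (fun p => Function.update o i (p i)) -
      (0 : ℤ) • Finsupp.single o (1 : ℤ))) ∈ T := by
    refine T.sum_mem fun i _ => ?_
    rw [zero_smul, sub_zero]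
    exact hmem i
  have h2 := T.add_mem key hsum
  rw [sub_add_cancel, zero_smul, sub_zero] at h2
  exact h2

end Pool.Agent.LibFP27
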