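import Pool.Agent.LibFP27.C1
import Pool.Agent.LibFP27.P1

/-!
[FP27 P4] If the zero-cycles of degree zero with torsion Albanese image on products of curves are torsion, then so is `fp D`.
-/

open scoped Classical

namespace Pool.Agent.LibFP27

open Pool.Agent.LibBH2
open Pool.Agent.LibQC8 (IsFunctionField Div deg IsPrincipal)

namespace P4aux

section

variable {k : Type} [Field k] {L : Type} [Field L] [Algebra k L]

theorem prodc_zero_left (E : Div k L) : prodc (0 : Div k L) E = 0 := by
  unfold prodc
  exact Finsupp.sum_zero_index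

theorem prodc_zero_right (D : Div k L) : prodc D (0 : Div k L) = 0 := by
  unfold prodc
  simp

theorem prodc_fst (D E : Div k L) : (prodc D E).mapDomain Prod.fst = deg k L E • D := by
  induction D using Finsupp.induction_linear with
  | zero => rw [prodc_zero_left, Finsupp.mapDomain_zero, smul_zero]
  | add D D' h h' => rw [prodc_add_left, Finsupp.mapDomain_add, h, h', smul_add]
  | single v a =>
    induction E using Finsupp.induction_linear with
    | zero => rw [prodc_zero_right, Finsupp.mapDomain_zero, map_zero, zero_smul]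
    | add E E' h h' => rw [prodc_add_right, Finsupp.mapDomain_add, h, h', map_add, add_smul]
    | single w b =>
      rw [prodc_single, Finsupp.mapDomain_single, Pool.Agent.LibQC8.deg_single, Finsupp.smul_single,
        smul_eq_mul, mul_comm]

theorem prodc_snd (D E : Div k L) : (prodc D E).mapDomain Prod.snd = deg k L D • E := by
  induction D using Finsupp.induction_linear with
  | zero => rw [prodc_zero_left, Finsupp.mapDomain_zero, map_zero, zero_smul]
  | add D D' h h' => rw [prodc_add_left, Finsupp.mapDomain_add, h, h', map_add, add_smul]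
  | single v a =>
    induction E using Finsupp.induction_linear with
    | zero => rw [prodc_zero_right, Finsupp.mapDomain_zero, smul_zero]
    | add E E' h h' => rw [prodc_add_right, Finsupp.mapDomain_add, h, h', smul_add]
    | single w b =>
      rw [prodc_single, Finsupp.mapDomain_single, Pool.Agent.LibQC8.deg_single, Finsupp.smul_single,
        smul_eq_mul]

theorem fp_map {X : Type} (f : Place k L × Place k L → X) (D : Div k L) :
    (fp D).mapDomain f = (prodc D D).mapDomain f - deg k L D • (diag D).mapDomain f := by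
  have h := map_sub (Finsupp.mapDomain.addMonoidHom f : Cyc k L L →+ (X →₀ ℤ))
    (prodc D D) (deg k L D • diag D)
  rw [map_zsmul] at h
  exact h

theorem fp_fst (D : Div k L) : (fp D).mapDomain Prod.fst = 0 := by
  have h : (diag D).mapDomain Prod.fst = D := by
    rw [diag, ← Finsupp.mapDomain_comp]
    exact Finsupp.mapDomain_id
  rw [fp_map, prodc_fst, h, sub_self]

theorem fp_snd (D : Div k L) : (fp D).mapDomain Prod.snd = 0 := by
  have h : (diag D).mapDomain Prod.snd = D := by
    rw [diag, ← Finsupp.mapDomain_comp]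
    exact Finsupp.mapDomain_id
  rw [fp_map, prodc_snd, h, sub_self]

theorem fp_sum (D : Div k L) : ((fp D).sum fun _ a => a) = 0 := by
  have h : ((fp D).mapDomain Prod.fst).sum (fun _ a => a) = (fp D).sum fun _ a => a :=
    Finsupp.sum_mapDomain_index (fun _ => rfl) (fun _ _ _ => rfl)
  rw [← h, fp_fst, Finsupp.sum_zero_index]

end

section

variable {k : Type} [Field k] {n : ℕ} {K : Fin n → Type} [∀ i, Field (K i)] [∀ i, Algebra k (K i)]

theorem map_comp {L : Type} [Field L] [Algebra k L] (i j : Fin n) (P : Place k L → Place k (K i))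
    (Q : Place k L → Place k (K j)) (o : ∀ i, Place k (K i)) (y : Cyc k L L) :
    (y.mapDomain (Prod.map P Q)).mapDomain
      (fun a => Function.update (Function.update o i a.1) j a.2) =
    y.mapDomain fun x => Function.update (Function.update o i (P x.1)) j (Q x.2) := by
  rw [← Finsupp.mapDomain_comp]
  rfl

theorem map_nsmul' {X Y : Type} (f : X → Y) (m : ℕ) (z : X →₀ ℤ) :
    (m • z).mapDomain f = m • z.mapDomain f :=
  map_nsmul (Finsupp.mapDomain.addMonoidHom f : (X →₀ ℤ) →+ (Y →₀ ℤ)) m z

end

end P4aux

variable (k : Type) [Field k]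

theorem fp_of_products (h : StA k) {L : Type} [Field L] [Algebra k L] (hL : IsFunctionField k L)
    (D : Div k L) : ∃ m : ℕ, 0 < m ∧ m • fp D ∈ RatEq k L L := by
  obtain ⟨f, hf⟩ : ∃ f : Place k L × Place k L → (∀ _ : Fin 2, Place k L), f = fun x => ![x.1, x.2] :=
    ⟨_, rfl⟩
  obtain ⟨z, hz⟩ : ∃ z : CycN k (fun _ : Fin 2 => L), z = (fp D).mapDomain f := ⟨_, rfl⟩
  have hA : AlbZero k (fun _ : Fin 2 => L) z := by
    refine ⟨?_, fun i => ⟨1, one_pos, ?_⟩⟩
    · rw [hz]
      have h1 : ((fp D).mapDomain f).sum (fun _ a => a) = (fp D).sum fun _ a => a :=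
        Finsupp.sum_mapDomain_index (fun _ => rfl) (fun _ _ _ => rfl)
      rw [h1, P4aux.fp_sum]
    · have h2 : z.mapDomain (fun p => p i) = 0 := by
        rw [hz, ← Finsupp.mapDomain_comp, hf]
        fin_cases i
        · exact P4aux.fp_fst D
        · exact P4aux.fp_snd D
      rw [h2, one_smul]
      exact ⟨1, one_ne_zero, fun v => by simp⟩
  obtain ⟨m, hm, h3⟩ := h 2 (fun _ : Fin 2 => L) (fun _ => hL) z hA
  refine ⟨m, hm, ?_⟩
  have h4 := to_pair _ h3
  rw [P4aux.map_nsmul', hz, ← Finsupp.mapDomain_comp] at h4
  have h5 : (fun p : (∀ _ : Fin 2, Place k L) => (p 0, p 1)) ∘ f = id := by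
    rw [hf]
    rfl
  rw [h5, Finsupp.mapDomain_id] at h4
  exact h4

end Pool.Agent.LibFP27
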