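import Pool.Agent.LibFP27.C3
import Pool.Agent.LibFP27.DefM

/-!
[FP27 P5] The cycle of Faber and Pandharipande of a normal modular curve is a multiple of the cycle `∑ (v - v') × (v - v')` of the cusps.
(a) `b` has a pole `w₀` (`exists_pole`); `p := - w₀.ord b > 0` (as a natural number); all poles have order `-p` (`unif` of C3 for `b⁻¹`, `adjoin k {b⁻¹} = adjoin k {b}`: `Pool.Agent.LibEnd77.Val8.adjoin_inv`, `transcendental_inv`).
(b) `S` = the finset of the poles (`finite_supp`), `F w = p` on `S`, `F = p • C`, `C w = 1` on `S`. `IsCanon b D`: `D w = - p - 1` at a pole; otherwise `b` has a value `c`, `D w = w.ord (b - c) - 1`, which is `2` for `c = 0`, `1` for `c = 1`, `0` for `c ≠ 0, 1` (`Modular`; `w.ord (b - c) ≥ 1`).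
(c) `6 p D = (p - 6) F + div (b^(4p) (b-1)^(3p))`, checked at every place: zero of `b`: `12 p = 4 p * 3`; zero of `b - 1`: `6 p = 3 p * 2`; pole: `-6p(p+1) = (p - 6) p - 7 p * p`; elsewhere `0`. So (`fp_smul`, `cls_fp_add`) `36 p² cls (fp D) = (p-6)² cls (fp F) = (p-6)² p² cls (fp C)`.
(d) `two_fp`: `2 fp C = - ∑_(v, v' ∈ S) box v v' v v'`.
-/

open scoped Classical

namespace Pool.Agent.LibFP27

open Pool.Agent.LibBH2
open Pool.Agent.LibQC8 (IsFunctionField Div deg IsPrincipal)

variable {k : Type} [Field k] [IsAlgClosed k] [CharZero k]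
variable {L : Type} [Field L] [Algebra k L]

theorem fp_cusps (hL : IsFunctionField k L) (b : L) (hb : Modular k b) (D : Div k L) (hD : IsCanon b D)
    (S : Finset (Place k L)) (hS : ∀ v, v ∈ S ↔ v.ord b < 0) :
    ∃ p : ℕ, 0 < p ∧ (∀ v ∈ S, v.ord b = -p) ∧
      (72 * p ^ 2 : ℤ) • cls k L L (fp D) + ((p : ℤ) ^ 2 * (p - 6) ^ 2) • ∑ v ∈ S, ∑ v' ∈ S, cls k L L (box v v' v v') = 0 := by
  obtain ⟨hbt, hG, hb3, hb2, hbr⟩ := hb
  have hti : Transcendental k b⁻¹ := Pool.Agent.LibEnd77.Val8.transcendental_inv hbt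
  have hGi : IsGalois (IntermediateField.adjoin k {b⁻¹}) L := by
    rw [Pool.Agent.LibEnd77.Val8.adjoin_inv]; exact hG
  obtain ⟨w2, hw2⟩ := exists_pole hL hbt
  have hw2' : 0 < w2.ord b⁻¹ := by rw [w2.ord_inv]; omega
  obtain ⟨p, hp⟩ : ∃ p : ℕ, w2.ord b = -p := ⟨(-w2.ord b).toNat, by omega⟩
  have hp0 : 0 < p := by omega
  have hu2 : ∀ w : Place k L, w.ord b < 0 → w.ord b = -p := fun w hw => by
    have h1 : w.ord b⁻¹ = w2.ord b⁻¹ := unif hL _ hti hGi w2 w hw2' (by rw [w.ord_inv]; omega)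
    rw [w.ord_inv, w2.ord_inv] at h1
    omega
  have e1 : b - 1 = b - algebraMap k L 1 := by rw [map_one]
  rw [e1] at hb2
  have hb0 : b ≠ 0 := by
    rintro rfl
    rw [w2.ord_zero] at hw2
    omega
  obtain ⟨C, hC⟩ := C3aux.exists_div (fun w : Place k L => w.ord b < 0)
    ((finite_supp hL b).subset fun w (hw : w.ord b < 0) => show w.ord b ≠ 0 by omega) 1
  have hCp : ∀ w : Place k L, w.ord b < 0 → C w = 1 := fun w h => by rw [hC, if_pos h]
  have hCn : ∀ w : Place k L, ¬ w.ord b < 0 → C w = 0 := fun w h => by rw [hC, if_neg h]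
  let E0 : Div k L := Finsupp.ofSupportFinite (fun w => w.ord b) (finite_supp hL b)
  let E1 : Div k L := Finsupp.ofSupportFinite (fun w => w.ord (b - algebraMap k L 1))
    (finite_supp hL (b - algebraMap k L 1))
  have hE0 : E0 ∈ Pool.Agent.LibQC8.PrinDiv k L := ⟨b, hb0, fun w => rfl⟩
  have hE1 : E1 ∈ Pool.Agent.LibQC8.PrinDiv k L :=
    ⟨b - algebraMap k L 1, sub_ne b hbt 1, fun w => rfl⟩
  obtain ⟨E, hEd⟩ : ∃ E, E = (4 * p : ℤ) • E0 + (3 * p : ℤ) • E1 := ⟨_, rfl⟩
  have hE : IsPrincipal k L E := by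
    have : E ∈ Pool.Agent.LibQC8.PrinDiv k L := by
      rw [hEd]
      exact add_mem (AddSubgroup.zsmul_mem _ hE0 _) (AddSubgroup.zsmul_mem _ hE1 _)
    exact this
  have key : (6 * p : ℤ) • D = ((p - 6) * p : ℤ) • C + E := by
    ext w
    rw [hEd, Finsupp.add_apply, Finsupp.add_apply, Finsupp.smul_apply, Finsupp.smul_apply,
      Finsupp.smul_apply, Finsupp.smul_apply, smul_eq_mul, smul_eq_mul, smul_eq_mul,
      smul_eq_mul]
    show (6 * p : ℤ) * D w = (p - 6) * p * C w +
      (4 * p * w.ord b + 3 * p * w.ord (b - algebraMap k L 1))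
    rcases hD w with ⟨h1, h2⟩ | ⟨c, h1, h2⟩
    · rw [h2, C3aux.ord_sub_of_neg w h1 1, hCp w h1, hu2 w h1]
      ring
    · have h3 : ¬ w.ord b < 0 := fun h3 => by
        rw [C3aux.ord_sub_of_neg w h3] at h1
        omega
      have h3' : ¬ w.ord (b - algebraMap k L 1) < 0 := fun h4 => h3 (C3aux.neg_of_ord_sub w h4)
      rw [hCn w h3, h2]
      by_cases hc0 : c = 0
      · subst hc0
        rw [map_zero, sub_zero] at h1 ⊢
        have h4 : w.ord (b - algebraMap k L 1) = 0 := by
          by_contra h5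
          have h6 := val_unique w (x := b) (c := 0) (c' := 1) (by rwa [map_zero, sub_zero]) (by omega)
          exact zero_ne_one h6
        rw [h4, hb3 w h1]
        ring
      · have h5 : w.ord b = 0 := by
          by_contra h5
          have h6 := val_unique w (x := b) (c := 0) (c' := c) (by rw [map_zero, sub_zero]; omega) h1
          exact hc0 h6.symm
        by_cases hc1 : c = 1
        · subst hc1
          rw [h5, hb2 w h1]
          ring
        · have h7 : w.ord (b - algebraMap k L 1) = 0 := by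
            by_contra h5
            have h6 := val_unique w (x := b) (c := 1) (c' := c) (by omega) h1
            exact hc1 h6.symm
          have h8 : w.ord (b - algebraMap k L c) = 1 := by
            have := hbr w c hc0 hc1
            omega
          rw [h5, h7, h8]
          ring
  have hCS : C.support = S := by
    ext v
    rw [Finsupp.mem_support_iff, hS]
    by_cases h : v.ord b < 0
    · rw [hCp v h]
      exact iff_of_true one_ne_zero h
    · rw [hCn v h]
      exact iff_of_false (fun h' => h' rfl) h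
  have hCv : ∀ v ∈ S, C v = 1 := fun v hv => hCp v ((hS v).1 hv)
  refine ⟨p, hp0, fun v hv => hu2 v ((hS v).1 hv), ?_⟩
  have h1 : cls k L L (fp ((6 * p : ℤ) • D)) = cls k L L (fp (((p - 6) * p : ℤ) • C)) := by
    rw [key, cls_fp_add hL _ _ hE]
  rw [fp_smul, fp_smul, map_zsmul, map_zsmul] at h1
  have h2 : (2 : ℤ) • cls k L L (fp C) = - ∑ v ∈ S, ∑ v' ∈ S, cls k L L (box v v' v v') := by
    rw [← map_zsmul, two_fp, hCS, map_neg, map_sum]
    congr 1
    refine Finset.sum_congr rfl fun v hv => ?_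
    rw [map_sum]
    refine Finset.sum_congr rfl fun v' hv' => ?_
    rw [hCv v hv, hCv v' hv', one_mul, one_smul]
  have h3 : (72 * p ^ 2 : ℤ) • cls k L L (fp D) = ((p : ℤ) ^ 2 * (p - 6) ^ 2) • ((2 : ℤ) • cls k L L (fp C)) := by
    have e2 : (72 * p ^ 2 : ℤ) = 2 * (6 * p) ^ 2 := by ring
    rw [e2, mul_smul, h1, smul_smul, smul_smul]
    congr 1
    ring
  rw [h3, h2, smul_neg, neg_add_cancel]

end Pool.Agent.LibFP27
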