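import Pool.Agent.LibFP27.FamM
import Pool.Agent.LibFP27.G2
import Pool.Agent.LibFP27.G4
import Pool.Agent.LibFP27.N4

/-!
[FP27 T1] Two Galois Belyi curves are dominated by one.
Embed `Y₁.K` in an algebraic closure `Ω` of it, `t` = image of `Y₁.J`, and `Y₂.K` in `Ω` by `Y₂.J ↦ t` (private theorem `G4aux.lift` in G4.lean: copy it), `F = k(t) ⊂ Ω`, `N` = the compositum of the two images over `F`
(`IntermediateField F Ω`): finite, Galois over `F` (both images are Galois, so normal over `F`: `IntermediateField.normal_sup` or the like; characteristic `0`), generated by the two images. `N` is not ramified outside `0, 1, ∞`: `unram_fam` in G2.lean (new version, in the tar), for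
`ι = Bool`, applied to `β - c` (`c ≠ 0, 1`; `trans_sub`). Everything else as in G4.lean (`exists_common`: function field, transfer of `IsGalois` from `F` to `IntermediateField.adjoin k {b}`).
-/

open scoped Classical

namespace Pool.Agent.LibFP27

open Pool.Agent.LibBH2
open Pool.Agent.LibQC8 (IsFunctionField Div deg)

variable {k : Type} [Field k] [IsAlgClosed k] [CharZero k]

namespace T1aux

private theorem lift {k : Type} [Field k] {K₂ Ω : Type} [Field K₂] [Algebra k K₂] [Field Ω] [Algebra k Ω]
    [IsAlgClosed Ω] (t₂ : K₂) (t : Ω) (ht₂ : Transcendental k t₂) (ht : Transcendental k t)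
    (halg : Algebra.IsAlgebraic (IntermediateField.adjoin k {t₂}) K₂) : ∃ i : K₂ →ₐ[k] Ω, i t₂ = t := by
  have hr : Set.range (fun _ : Unit => t₂) = {t₂} := by simp
  rw [← hr] at halg
  have h2 : AlgebraicIndependent k (fun _ : Unit => t₂) := algebraicIndependent_unique_type_iff.2 ht₂
  have h1 : AlgebraicIndependent k (fun _ : Unit => t) := algebraicIndependent_unique_type_iff.2 ht
  let φ : IntermediateField.adjoin k (Set.range (fun _ : Unit => t₂)) →ₐ[k] Ω :=
    (IntermediateField.val _).comp (h2.aevalEquivField.symm.trans h1.aevalEquivField).toAlgHom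
  have hmem : t₂ ∈ IntermediateField.adjoin k (Set.range (fun _ : Unit => t₂)) :=
    IntermediateField.subset_adjoin k _ ⟨(), rfl⟩
  have hφ : φ ⟨t₂, hmem⟩ = t := by
    have e1 : h2.aevalEquivField (algebraMap (MvPolynomial Unit k) (FractionRing (MvPolynomial Unit k))
        (MvPolynomial.X ())) = ⟨t₂, hmem⟩ := by
      apply Subtype.ext
      rw [h2.aevalEquivField_algebraMap_apply_coe, MvPolynomial.aeval_X]
    have e2 : h2.aevalEquivField.symm ⟨t₂, hmem⟩ =
        algebraMap (MvPolynomial Unit k) (FractionRing (MvPolynomial Unit k)) (MvPolynomial.X ()) := by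
      rw [← e1, AlgEquiv.symm_apply_apply]
    show ((h1.aevalEquivField (h2.aevalEquivField.symm ⟨t₂, hmem⟩) : IntermediateField.adjoin k _) : Ω) = t
    rw [e2, h1.aevalEquivField_algebraMap_apply_coe, MvPolynomial.aeval_X]
  let _ : Algebra (IntermediateField.adjoin k (Set.range (fun _ : Unit => t₂))) Ω := φ.toRingHom.toAlgebra
  have : IsScalarTower k (IntermediateField.adjoin k (Set.range (fun _ : Unit => t₂))) Ω :=
    IsScalarTower.of_algebraMap_eq fun a => (φ.commutes a).symm
  let i : K₂ →ₐ[IntermediateField.adjoin k (Set.range (fun _ : Unit => t₂))] Ω := IsAlgClosed.lift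
  exact ⟨i.restrictScalars k, (i.commutes ⟨t₂, hmem⟩).trans hφ⟩

/-- the base change of a Galois extension `K / k(b)` along an embedding of `K` -/
private theorem ext_gal {k : Type} [Field k] {K Ω : Type} [Field K] [Algebra k K] [Field Ω] [Algebra k Ω]
    (j : K →ₐ[k] Ω) (b : K) (F : IntermediateField k Ω) (hF : F = (IntermediateField.adjoin k {b}).map j)
    (hle : F ≤ j.fieldRange) (hg : IsGalois (IntermediateField.adjoin k {b}) K)
    (hfin : FiniteDimensional (IntermediateField.adjoin k {b}) K) :
    IsGalois F (IntermediateField.extendScalars hle) ∧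
      FiniteDimensional F (IntermediateField.extendScalars hle) := by
  let e : (IntermediateField.adjoin k {b} : IntermediateField k K) ≃ₐ[k] F :=
    (IntermediateField.equivMap (IntermediateField.adjoin k {b}) j).trans (IntermediateField.equivOfEq hF.symm)
  let g : K ≃+* IntermediateField.extendScalars hle :=
    RingEquiv.ofBijective
      (RingHom.codRestrict (j : K →+* Ω) (IntermediateField.extendScalars hle) fun x => ⟨x, rfl⟩)
      ⟨RingHom.injective _, by
        rintro ⟨y, x, hx⟩
        exact ⟨x, Subtype.ext hx⟩⟩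
  have hcomp : (algebraMap F (IntermediateField.extendScalars hle)).comp
        ((e : (IntermediateField.adjoin k {b} : IntermediateField k K) ≃+* F) :
          (IntermediateField.adjoin k {b} : IntermediateField k K) →+* F) =
      (g : K →+* IntermediateField.extendScalars hle).comp
        (algebraMap (IntermediateField.adjoin k {b} : IntermediateField k K) K) := by
    ext x
    rfl
  exact ⟨IsGalois.of_equiv_equiv (f := (e : (IntermediateField.adjoin k {b} : IntermediateField k K) ≃+* F))
    (g := g) hcomp, Module.Finite.of_equiv_equiv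
      (e : (IntermediateField.adjoin k {b} : IntermediateField k K) ≃+* F) g hcomp⟩

end T1aux

open T1aux in
theorem directedM (Y₁ Y₂ : ModCurve k) : ∃ X : ModCurve k, X.Dominates Y₁ ∧ X.Dominates Y₂ := by
  obtain ⟨ht₁, hg₁, h31, h21, hr₁⟩ := Y₁.modular
  obtain ⟨ht₂, hg₂, h32, h22, hr₂⟩ := Y₂.modular
  have hf1 : FiniteDimensional (IntermediateField.adjoin k {Y₁.J}) Y₁.K :=
    Pool.Agent.LibEnd77.Val8.finite_adjoin Y₁.isFunctionField ht₁
  have hf2 : FiniteDimensional (IntermediateField.adjoin k {Y₂.J}) Y₂.K :=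
    Pool.Agent.LibEnd77.Val8.finite_adjoin Y₂.isFunctionField ht₂
  let j₁ : Y₁.K →ₐ[k] AlgebraicClosure Y₁.K := IsScalarTower.toAlgHom k Y₁.K (AlgebraicClosure Y₁.K)
  obtain ⟨t, htdef⟩ : ∃ t : AlgebraicClosure Y₁.K, t = j₁ Y₁.J := ⟨_, rfl⟩
  have ht : Transcendental k t := by
    intro hcon
    rw [htdef, isAlgebraic_algHom_iff j₁ j₁.injective] at hcon
    exact ht₁ hcon
  obtain ⟨j₂, hj₂⟩ := lift Y₂.J t ht₂ ht inferInstance
  let F : IntermediateField k (AlgebraicClosure Y₁.K) := IntermediateField.adjoin k {t}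
  have hF1 : F = (IntermediateField.adjoin k {Y₁.J}).map j₁ := by
    rw [IntermediateField.adjoin_map, Set.image_singleton, ← htdef]
  have hF2 : F = (IntermediateField.adjoin k {Y₂.J}).map j₂ := by
    rw [IntermediateField.adjoin_map, Set.image_singleton, hj₂]
  have hle1 : F ≤ j₁.fieldRange := by
    rw [hF1]
    rintro _ ⟨x, _, rfl⟩
    exact ⟨x, rfl⟩
  have hle2 : F ≤ j₂.fieldRange := by
    rw [hF2]
    rintro _ ⟨x, _, rfl⟩
    exact ⟨x, rfl⟩
  obtain ⟨hG1, hD1⟩ := ext_gal j₁ Y₁.J F hF1 hle1 hg₁ hf1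
  obtain ⟨hG2, hD2⟩ := ext_gal j₂ Y₂.J F hF2 hle2 hg₂ hf2
  have hle : F ≤ j₁.fieldRange ⊔ j₂.fieldRange := le_sup_of_le_left hle1
  let N : IntermediateField F (AlgebraicClosure Y₁.K) :=
    IntermediateField.extendScalars hle1 ⊔ IntermediateField.extendScalars hle2
  have hNe : N = IntermediateField.extendScalars hle := IntermediateField.extendScalars_sup hle1 hle2
  have hNfin : FiniteDimensional F N := inferInstance
  have hgal : IsGalois F N := inferInstance
  have hm1 : ∀ x : Y₁.K, j₁ x ∈ N := fun x =>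
    (le_sup_left : IntermediateField.extendScalars hle1 ≤ N) ⟨x, rfl⟩
  have hm2 : ∀ x : Y₂.K, j₂ x ∈ N := fun x =>
    (le_sup_right : IntermediateField.extendScalars hle2 ≤ N) ⟨x, rfl⟩
  let i₁ : Y₁.K →ₐ[k] N :=
    { RingHom.codRestrict (j₁ : Y₁.K →+* AlgebraicClosure Y₁.K) N hm1 with
      commutes' := fun a => Subtype.ext (j₁.commutes a) }
  let i₂ : Y₂.K →ₐ[k] N :=
    { RingHom.codRestrict (j₂ : Y₂.K →+* AlgebraicClosure Y₁.K) N hm2 with
      commutes' := fun a => Subtype.ext (j₂.commutes a) }
  have hit : ((i₁ Y₁.J : N) : AlgebraicClosure Y₁.K) = t := htdef.symm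
  have hi12 : i₂ Y₂.J = i₁ Y₁.J := Subtype.ext (hj₂.trans htdef)
  let vk : N →ₐ[k] AlgebraicClosure Y₁.K := { (N.val : N →+* AlgebraicClosure Y₁.K) with commutes' := fun a => rfl }
  let A' : IntermediateField k N := IntermediateField.adjoin k {i₁ Y₁.J}
  have hA : F = A'.map vk := by
    show IntermediateField.adjoin k {t} = (IntermediateField.adjoin k {i₁ Y₁.J}).map vk
    rw [IntermediateField.adjoin_map, Set.image_singleton]
    exact congrArg (fun z => IntermediateField.adjoin k {z}) hit.symm
  let e : F ≃ₐ[k] A' := (IntermediateField.equivOfEq hA).trans (IntermediateField.equivMap A' vk).symm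
  have hcomp : (algebraMap A' N).comp ((e : F ≃+* A') : F →+* A') =
      ((RingEquiv.refl N : N ≃+* N) : N →+* N).comp (algebraMap F N) := by
    ext x
    show vk ((e x : A') : N) = (x : AlgebraicClosure Y₁.K)
    have h1 : IntermediateField.equivMap A' vk (e x) = IntermediateField.equivOfEq hA x := by
      show IntermediateField.equivMap A' vk ((IntermediateField.equivMap A' vk).symm
        (IntermediateField.equivOfEq hA x)) = _
      rw [AlgEquiv.apply_symm_apply]
    have h2 := congrArg Subtype.val h1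
    exact h2
  have htN : Transcendental k (i₁ Y₁.J) := by
    intro hcon
    have h1 : IsAlgebraic k (vk (i₁ Y₁.J)) := (isAlgebraic_algHom_iff vk vk.injective).2 hcon
    rw [show vk (i₁ Y₁.J) = t from hit] at h1
    exact ht h1
  have hFF : IsFunctionField k N :=
    ⟨i₁ Y₁.J, htN, Module.Finite.of_equiv_equiv (e : F ≃+* A') (RingEquiv.refl N) hcomp⟩
  have hgalN : IsGalois (IntermediateField.adjoin k {i₁ Y₁.J}) N :=
    IsGalois.of_equiv_equiv (f := (e : F ≃+* A')) (g := RingEquiv.refl N) hcomp
  let Y : Bool → ModCurve k := fun a => cond a Y₁ Y₂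
  let j : ∀ a, (Y a).K →ₐ[k] N := fun a => match a with
    | true => i₁
    | false => i₂
  have hgen : IntermediateField.adjoin k (⋃ a, Set.range (j a)) = ⊤ := by
    have h1 : j₁.fieldRange ⊔ j₂.fieldRange ≤ (IntermediateField.adjoin k (⋃ a, Set.range (j a))).map vk := by
      refine sup_le ?_ ?_
      · rintro _ ⟨x, rfl⟩
        exact ⟨i₁ x, IntermediateField.subset_adjoin k _ (Set.mem_iUnion.2 ⟨true, x, rfl⟩), rfl⟩
      · rintro _ ⟨x, rfl⟩
        exact ⟨i₂ x, IntermediateField.subset_adjoin k _ (Set.mem_iUnion.2 ⟨false, x, rfl⟩), rfl⟩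
    rw [eq_top_iff]
    intro x _
    have hx : (x : AlgebraicClosure Y₁.K) ∈ j₁.fieldRange ⊔ j₂.fieldRange := by
      have h2 : (x : AlgebraicClosure Y₁.K) ∈ IntermediateField.extendScalars hle := by
        rw [← hNe]
        exact x.2
      exact h2
    obtain ⟨y, hy, hyx⟩ := h1 hx
    have hyx' : y = x := Subtype.ext hyx
    rw [← hyx']
    exact hy
  have hram : ∀ (v : Place k N) (c : k), c ≠ 0 → c ≠ 1 → v.ord (i₁ Y₁.J - algebraMap k N c) ≤ 1 := by
    intro v c h0 h1
    refine unram_fam (fun a => (Y a).K) (fun a => (Y a).isFunctionField) hFF j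
      (fun a => (Y a).J - algebraMap k (Y a).K c) (i₁ Y₁.J - algebraMap k N c) ?_ hgen ?_ v
    · rintro (_ | _)
      · show i₂ (Y₂.J - algebraMap k Y₂.K c) = _
        rw [map_sub, hi12, AlgHom.commutes]
      · show i₁ (Y₁.J - algebraMap k Y₁.K c) = _
        rw [map_sub, AlgHom.commutes]
    · rintro (_ | _) v
      · exact hr₂ v c h0 h1
      · exact hr₁ v c h0 h1
  have hram0 : ∀ v : Place k N, 0 < v.ord (i₁ Y₁.J) → v.ord (i₁ Y₁.J) = 3 := by
    intro v hv
    refine ram_fam (fun a => (Y a).K) (fun a => (Y a).isFunctionField) hFF j (fun a => (Y a).J) (i₁ Y₁.J) htN hgalN ?_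
      hgen 3 (by norm_num) ?_ v hv
    · rintro (_ | _)
      · exact hi12
      · rfl
    · rintro (_ | _) v
      · exact h32 v
      · exact h31 v
  have hadj : ∀ x : N, IntermediateField.adjoin k {x - 1} = IntermediateField.adjoin k {x} := by
    intro x
    apply le_antisymm
    · rw [IntermediateField.adjoin_simple_le_iff]
      exact sub_mem (IntermediateField.mem_adjoin_simple_self k x) (one_mem _)
    · rw [IntermediateField.adjoin_simple_le_iff]
      have h1 := add_mem (IntermediateField.mem_adjoin_simple_self k (x - 1)) (one_mem (IntermediateField.adjoin k {x - 1}))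
      rwa [sub_add_cancel] at h1
  have hram1 : ∀ v : Place k N, 0 < v.ord (i₁ Y₁.J - 1) → v.ord (i₁ Y₁.J - 1) = 2 := by
    intro v hv
    have htN1 : Transcendental k (i₁ Y₁.J - 1) := by
      have h1 := trans_sub htN 1
      rwa [map_one] at h1
    refine ram_fam (fun a => (Y a).K) (fun a => (Y a).isFunctionField) hFF j (fun a => (Y a).J - 1) (i₁ Y₁.J - 1) htN1
      (by rw [hadj]; exact hgalN) ?_ hgen 2 (by norm_num) ?_ v hv
    · rintro (_ | _)
      · show i₂ (Y₂.J - 1) = _
        rw [map_sub, hi12, map_one]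
      · show i₁ (Y₁.J - 1) = _
        rw [map_sub, map_one]
    · rintro (_ | _) v
      · exact h22 v
      · exact h21 v
  exact ⟨⟨N, hFF, i₁ Y₁.J, htN, hgalN, hram0, hram1, hram⟩, ⟨i₁, rfl⟩, ⟨i₂, hi12⟩⟩

end Pool.Agent.LibFP27
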