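import Pool.Agent.LibFP27.FamM
import Pool.Agent.LibFP27.Api

/-!
[FP27 T2] Modular curves over the algebraic numbers are countable up to isomorphism.
Let `Ω` be an algebraic closure of `RatFunc k`, `t ∈ Ω` the image of `RatFunc.X`. `Ω` is countable (`Algebra.IsAlgebraic.cardinalMk_le_max` twice; `k` is algebraic over `ℚ`; `RatFunc k` is a field of fractions of `k[X]`). Every `Y : ModCurve k` embeds in `Ω` by `i : Y.K →ₐ[k] Ω` with `i Y.J = t`
(private theorem `G4aux.lift` in G4.lean: copy it; `finite_adj`), and `i.fieldRange = IntermediateField.adjoin k {t, y}` for some `y` (primitive element of `Y.K` over `IntermediateField.adjoin k {Y.J}`, characteristic `0`). If `Y` and `Z` have the same `y` then they have the same image in `Ω`, so `Z.K ≃ₐ[k] Y.K` with `Z.J ↦ Y.J`,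
so `Y.Dominates Z`. So the code `Y ↦ y ∈ Ω` has countable range; `Y n` = a curve with the `n`-th code (`ModCurve k` is nonempty: the statement may be proved by cases on `Nonempty (ModCurve k)` after all: if it is empty then there is nothing to enumerate and no `Y`; so prove first that
`ModCurve k` is nonempty: `K = RatFunc k`, `β = RatFunc.X`; or take any other: `hne` is given as a hypothesis).
-/

open scoped Classical

namespace Pool.Agent.LibFP27

open Pool.Agent.LibBH2
open Pool.Agent.LibQC8 (IsFunctionField Div deg)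

variable {k : Type} [Field k] [IsAlgClosed k] [CharZero k]

namespace T2aux

private theorem lift {k : Type} [Field k] {K₂ Ω : Type} [Field K₂] [Algebra k K₂] [Field Ω] [Algebra k Ω]
    [IsAlgClosed Ω] (t₂ : K₂) (t : Ω) (ht₂ : Transcendental k t₂) (ht : Transcendental k t)
    (halg : Algebra.IsAlgebraic (IntermediateField.adjoin k {t₂}) K₂) : ∃ i : K₂ →ₐ[k] Ω, i t₂ = t := by
  have hr : Set.range (fun _ : Unit => t₂) = {t₂} := by simp
  rw [← hr] at halg
  have h2 : AlgebraicIndependent k (fun _ : Unit => t₂) := algebraicIndependent_unique_type_iff.2 ht₂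
  have h1 : AlgebraicIndependent k (fun _ : Unit => t) := algebraicIndependent_unique_type_iff.2 ht
  let φ : IntermediateField.adjoin k (Set.range (fun _ : Unit => t₂)) →ₐ[k] Ω :=
    (IntermediateField.val _).comp (h2.aevalEquivField.symm.trans h1.aevalEquivField).toAlgHom
  have hmem : t₂ ∈ IntermediateField.adjoin k (Set.range (fun _ : Unit => t₂)) :=
    IntermediateField.subset_adjoin k _ ⟨(), rfl⟩
  have hφ : φ ⟨t₂, hmem⟩ = t := by
    have e1 : h2.aevalEquivField (algebraMap (MvPolynomial Unit k) (FractionRing (MvPolynomial Unit k))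
        (MvPolynomial.X ())) = ⟨t₂, hmem⟩ := by
      apply Subtype.ext
      rw [h2.aevalEquivField_algebraMap_apply_coe, MvPolynomial.aeval_X]
    have e2 : h2.aevalEquivField.symm ⟨t₂, hmem⟩ =
        algebraMap (MvPolynomial Unit k) (FractionRing (MvPolynomial Unit k)) (MvPolynomial.X ()) := by
      rw [← e1, AlgEquiv.symm_apply_apply]
    show ((h1.aevalEquivField (h2.aevalEquivField.symm ⟨t₂, hmem⟩) : IntermediateField.adjoin k _) : Ω) = t
    rw [e2, h1.aevalEquivField_algebraMap_apply_coe, MvPolynomial.aeval_X]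
  let _ : Algebra (IntermediateField.adjoin k (Set.range (fun _ : Unit => t₂))) Ω := φ.toRingHom.toAlgebra
  have : IsScalarTower k (IntermediateField.adjoin k (Set.range (fun _ : Unit => t₂))) Ω :=
    IsScalarTower.of_algebraMap_eq fun a => (φ.commutes a).symm
  let i : K₂ →ₐ[IntermediateField.adjoin k (Set.range (fun _ : Unit => t₂))] Ω := IsAlgClosed.lift
  exact ⟨i.restrictScalars k, (i.commutes ⟨t₂, hmem⟩).trans hφ⟩

private theorem ctb_alg (R A : Type) [Field R] [Field A] [Algebra R A] [Algebra.IsAlgebraic R A]
    [Countable R] : Countable A := by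
  have h := Algebra.IsAlgebraic.cardinalMk_le_max R A
  rw [← Cardinal.mk_le_aleph0_iff]
  exact h.trans (max_le (Cardinal.mk_le_aleph0_iff.2 inferInstance) le_rfl)

private theorem ctb_ratFunc (R : Type) [Field R] [Countable R] : Countable (RatFunc R) := by
  have h1 : Countable (Polynomial R) := by
    rw [← Cardinal.mk_le_aleph0_iff]
    exact Polynomial.cardinalMk_le_max.trans
      (max_le (Cardinal.mk_le_aleph0_iff.2 inferInstance) le_rfl)
  have h2 : Function.Injective fun r : RatFunc R => (r.num, r.denom) := by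
    intro r s h
    have h3 : r.num = s.num := congrArg Prod.fst h
    have h4 : r.denom = s.denom := congrArg Prod.snd h
    rw [← RatFunc.num_div_denom r, ← RatFunc.num_div_denom s, h3, h4]
  exact h2.countable

/-- the field in which all curves are embedded -/
private abbrev Om (k : Type) [Field k] : Type := AlgebraicClosure (RatFunc k)

private noncomputable def tt (k : Type) [Field k] : Om k := algebraMap (RatFunc k) (Om k) RatFunc.X

private theorem ctb_om (k : Type) [Field k] [CharZero k] [Algebra.IsAlgebraic ℚ k] : Countable (Om k) := by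
  have h1 : Countable k := ctb_alg ℚ k
  have h2 : Countable (RatFunc k) := ctb_ratFunc k
  exact ctb_alg (RatFunc k) (Om k)

private theorem trans_tt (k : Type) [Field k] : Transcendental k (tt k) := by
  unfold tt
  rw [transcendental_algebraMap_iff (algebraMap (RatFunc k) (Om k)).injective]
  exact RatFunc.transcendental_X

/-- the code of a curve -/
private theorem code {k : Type} [Field k] [IsAlgClosed k] [CharZero k] (Y : ModCurve k) :
    ∃ (y : Om k) (i : Y.K →ₐ[k] Om k), i Y.J = tt k ∧
      i.fieldRange = IntermediateField.adjoin k {tt k, y} := by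
  have hfd : FiniteDimensional (IntermediateField.adjoin k {Y.J}) Y.K :=
    finite_adj Y.isFunctionField Y.modular.1
  obtain ⟨i, hi⟩ := lift (Ω := Om k) Y.J (tt k) Y.modular.1 (trans_tt k) inferInstance
  have hc : CharZero Y.K := charZero_of_injective_algebraMap (algebraMap k Y.K).injective
  have hc2 : CharZero (IntermediateField.adjoin k {Y.J}) :=
    charZero_of_injective_algebraMap (algebraMap k (IntermediateField.adjoin k {Y.J})).injective
  obtain ⟨a, ha⟩ := Field.exists_primitive_element (IntermediateField.adjoin k {Y.J}) Y.K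
  have h1 : IntermediateField.adjoin k {Y.J, a} = ⊤ := by
    have h2 := IntermediateField.adjoin_adjoin_left k {Y.J} {a}
    rw [ha] at h2
    have h3 : ({Y.J} ∪ {a} : Set Y.K) = {Y.J, a} := by
      ext x
      simp [or_comm]
    rw [h3] at h2
    rw [← h2]
    exact IntermediateField.restrictScalars_top
  refine ⟨i a, i, hi, ?_⟩
  have h2 : i.fieldRange = (⊤ : IntermediateField k Y.K).map i := by
    rw [AlgHom.fieldRange_eq_map]
  rw [h2, ← h1, IntermediateField.adjoin_map, Set.image_pair, hi]

private theorem dom {k : Type} [Field k] {Y Z : ModCurve k} (i : Y.K →ₐ[k] Om k) (i' : Z.K →ₐ[k] Om k)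
    (hi : i Y.J = tt k) (hi' : i' Z.J = tt k) (h : i.fieldRange = i'.fieldRange) : Y.Dominates Z := by
  have h1 : ∀ z, i' z ∈ i.range := by
    intro z
    have h2 : i' z ∈ i'.fieldRange := ⟨z, rfl⟩
    rw [← h] at h2
    obtain ⟨y, hy⟩ := h2
    exact ⟨y, hy⟩
  refine ⟨((AlgEquiv.ofInjective i i.injective).symm : i.range →ₐ[k] Y.K).comp
    (i'.codRestrict i.range h1), ?_⟩
  show (AlgEquiv.ofInjective i i.injective).symm (i'.codRestrict i.range h1 Z.J) = Y.J
  rw [AlgEquiv.symm_apply_eq]
  apply Subtype.ext
  show i' Z.J = i Y.J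
  rw [hi, hi']

end T2aux

theorem countableM [Algebra.IsAlgebraic ℚ k] (hne : Nonempty (ModCurve k)) :
    ∃ Y : ℕ → ModCurve k, ∀ Z : ModCurve k, ∃ n, (Y n).Dominates Z := by
  have hΩ : Countable (T2aux.Om k) := T2aux.ctb_om k
  choose c i hi hr using fun Y : ModCurve k => T2aux.code Y
  obtain ⟨e, he⟩ := exists_surjective_nat (T2aux.Om k)
  refine ⟨fun n => if h : ∃ W : ModCurve k, c W = e n then h.choose else hne.some, fun Z => ?_⟩
  obtain ⟨n, hn⟩ := he (c Z)
  refine ⟨n, ?_⟩
  have h : ∃ W : ModCurve k, c W = e n := ⟨Z, hn.symm⟩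
  show (if h : ∃ W : ModCurve k, c W = e n then h.choose else hne.some).Dominates Z
  rw [dif_pos h]
  have h2 : c h.choose = c Z := h.choose_spec.trans hn
  exact T2aux.dom (i _) (i Z) (hi _) (hi Z) (by rw [hr, hr, h2])

end Pool.Agent.LibFP27
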