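import Pool.Agent.LibFP27.MainM
import Pool.Agent.LibFP27.T1M
import Pool.Agent.LibFP27.T2M

/-!
[FP27 T3M] A tower of modular curves which dominates all of them.
-/

open scoped Classical

namespace Pool.Agent.LibFP27

open Pool.Agent.LibBH2
open Pool.Agent.LibQC8 (IsFunctionField Div deg)

section

variable {k : Type} [Field k]

theorem ModCurve.Dominates.refl (X : ModCurve k) : X.Dominates X := ⟨AlgHom.id k X.K, rfl⟩

theorem ModCurve.Dominates.trans {X Y Z : ModCurve k} (h : X.Dominates Y) (h' : Y.Dominates Z) : X.Dominates Z := by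
  obtain ⟨i, hi⟩ := h
  obtain ⟨j, hj⟩ := h'
  exact ⟨i.comp j, by rw [AlgHom.comp_apply, hj, hi]⟩

private theorem ratFunc_ff : IsFunctionField k (RatFunc k) ∧ Transcendental k (RatFunc.X : RatFunc k) := by
  refine ⟨⟨RatFunc.X, RatFunc.transcendental_X, ?_⟩, RatFunc.transcendental_X⟩
  rw [RatFunc.adjoin_X]
  apply Module.finite_of_finrank_pos
  rw [IntermediateField.finrank_top]
  exact one_pos

end

variable {k : Type} [Field k] [IsAlgClosed k] [CharZero k] [Algebra.IsAlgebraic ℚ k]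

theorem modCurve_nonempty : Nonempty (ModCurve k) := by
  obtain ⟨hF, hX⟩ := ratFunc_ff (k := k)
  obtain ⟨v, hv⟩ := exists_zero hF hX
  obtain ⟨w, hw⟩ := exists_pole hF hX
  have h : v ≠ w := by
    rintro rfl
    omega
  obtain ⟨Y, -⟩ := exists_domM hF v w h
  exact ⟨Y⟩

theorem towerM : ∃ X : ℕ → ModCurve k, (∀ n, (X (n + 1)).Dominates (X n)) ∧ ∀ Y : ModCurve k, ∃ n, (X n).Dominates Y := by
  obtain ⟨Y, hY⟩ := countableM (modCurve_nonempty (k := k))
  choose f hf1 hf2 using directedM (k := k)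
  let X : ℕ → ModCurve k := fun n => Nat.rec (Y 0) (fun n Z => f Z (Y (n + 1))) n
  refine ⟨X, fun n => hf1 (X n) (Y (n + 1)), fun Z => ?_⟩
  obtain ⟨n, hn⟩ := hY Z
  refine ⟨n, ModCurve.Dominates.trans ?_ hn⟩
  cases n with
  | zero => exact ModCurve.Dominates.refl _
  | succ n => exact hf2 (X n) (Y (n + 1))

end Pool.Agent.LibFP27
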