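import Pool.Agent.LibFP27.P3
import Pool.Agent.LibFP27.T3M
import Pool.Agent.LibFP27.MainM2

/-!
[FP27 P6] The Albanese kernel of a product of `n` curves is generated modulo torsion by the images of the cycle of Faber and
Pandharipande of one modular curve.
-/

open scoped Classical

namespace Pool.Agent.LibFP27

open Pool.Agent.LibBH2
open Pool.Agent.LibQC8 (IsFunctionField Div deg IsPrincipal)

section

variable {k : Type} [Field k] {n : ℕ} (K : Fin n → Type) [∀ i, Field (K i)] [∀ i, Algebra k (K i)]
variable {L : Type} [Field L] [Algebra k L]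

/-- the images in the product of the curves of the `K i` of the cycle `z` on the square of the curve of `L`: under a map
to the product of two factors, finite over both, the other coordinates being constant -/
def Images (z : Cyc k L L) : Set (CycN k K) :=
  {y | ∃ (i j : Fin n) (P : Place k L → Place k (K i)) (Q : Place k L → Place k (K j)) (o : ∀ i, Place k (K i)),
    i ≠ j ∧ IsFin P ∧ IsFin Q ∧
      y = z.mapDomain fun x => Function.update (Function.update o i (P x.1)) j (Q x.2)}

/-- rational equivalence and the images of `z` -/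
noncomputable def GG (z : Cyc k L L) : AddSubgroup (CycN k K) := RatEqN k K ⊔ AddSubgroup.closure (Images K z)

variable {K}

theorem images_tors (z : Cyc k L L) (r : ℕ) (hz : r • z ∈ RatEq k L L) (y : CycN k K) (hy : y ∈ Images K z) :
    r • y ∈ RatEqN k K := by
  obtain ⟨i, j, P, Q, o, hij, hP, hQ, rfl⟩ := hy
  have h0 : cls k L L (r • z) = 0 := (QuotientAddGroup.eq_zero_iff _).2 hz
  have h1 := cls_map P Q hP hQ _ h0
  have h2 : (r • z).mapDomain (Prod.map P Q) ∈ RatEq k (K i) (K j) := (QuotientAddGroup.eq_zero_iff _).1 h1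
  have h3 := pair_up o i j hij _ h2
  rw [← Finsupp.mapDomain_comp] at h3
  have h4 : (r • z).mapDomain ((fun a : Place k (K i) × Place k (K j) =>
      Function.update (Function.update o i a.1) j a.2) ∘ Prod.map P Q) =
      r • z.mapDomain fun x => Function.update (Function.update o i (P x.1)) j (Q x.2) :=
    map_nsmul (Finsupp.mapDomain.addMonoidHom ((fun a : Place k (K i) × Place k (K j) =>
      Function.update (Function.update o i a.1) j a.2) ∘ Prod.map P Q)) r z
  rw [h4] at h3
  exact h3

theorem gg_tors (z : Cyc k L L) (r : ℕ) (hz : r • z ∈ RatEq k L L) (y : CycN k K) (hy : y ∈ GG K z) :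
    r • y ∈ RatEqN k K := by
  have h1 : GG K z ≤ (RatEqN k K).comap (nsmulAddMonoidHom r : CycN k K →+ CycN k K) := by
    refine sup_le ?_ ?_
    · intro y hy
      exact nsmul_mem hy r
    · rw [AddSubgroup.closure_le]
      intro y hy
      exact images_tors z r hz y hy
  exact h1 hy

end

variable {k : Type} [Field k] [IsAlgClosed k] [CharZero k] [Algebra.IsAlgebraic ℚ k]
variable {n : ℕ} {K : Fin n → Type} [∀ i, Field (K i)] [∀ i, Algebra k (K i)]

/-- the cycles which are generated modulo torsion by the images of the cycles `fp D` of the modular curves over one of them -/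
noncomputable def TT (k : Type) [Field k] [IsAlgClosed k] [CharZero k] [Algebra.IsAlgebraic ℚ k] {n : ℕ} (K : Fin n → Type)
    [∀ i, Field (K i)] [∀ i, Algebra k (K i)] : AddSubgroup (CycN k K) where
  carrier := {z | ∃ Y : ModCurve k, ∀ X : ModCurve k, X.Dominates Y → ∀ D : Div k X.K, IsCanon X.J D →
    ∃ m : ℕ, 0 < m ∧ m • z ∈ GG K (fp D)}
  zero_mem' := by
    obtain ⟨Y⟩ := modCurve_nonempty (k := k)
    exact ⟨Y, fun X _ D _ => ⟨1, one_pos, by rw [smul_zero]; exact zero_mem _⟩⟩
  add_mem' := by
    rintro z z' ⟨Y, hY⟩ ⟨Y', hY'⟩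
    obtain ⟨W, hW, hW'⟩ := directedM Y Y'
    refine ⟨W, fun X hX D hD => ?_⟩
    obtain ⟨m, hm, h⟩ := hY X (hX.trans hW) D hD
    obtain ⟨m', hm', h'⟩ := hY' X (hX.trans hW') D hD
    refine ⟨m * m', Nat.mul_pos hm hm', ?_⟩
    have e : (m * m') • (z + z') = m' • (m • z) + m • (m' • z') := by
      rw [smul_add, mul_comm m m', mul_smul, smul_smul m m' z', mul_comm m m']
    rw [e]
    exact add_mem (nsmul_mem h _) (nsmul_mem h' _)
  neg_mem' := by
    rintro z ⟨Y, hY⟩
    refine ⟨Y, fun X hX D hD => ?_⟩
    obtain ⟨m, hm, h⟩ := hY X hX D hD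
    refine ⟨m, hm, ?_⟩
    rw [smul_neg]
    exact neg_mem h

/-- every zero-cycle with torsion Albanese image is generated modulo torsion by the images of one cycle -/
theorem alb_dom (hK : ∀ i, IsFunctionField k (K i)) (z : CycN k K) (hz : AlbZero k K z) :
    ∃ Y : ModCurve k, ∀ X : ModCurve k, X.Dominates Y → ∀ D : Div k X.K, IsCanon X.J D →
      ∃ m : ℕ, 0 < m ∧ m • z ∈ GG K (fp D) := by
  refine alb_mem hK (TT k K) ?_ ?_ ?_ z hz
  · intro y hy
    obtain ⟨Y⟩ := modCurve_nonempty (k := k)
    exact ⟨Y, fun X _ D _ => ⟨1, one_pos, by rw [one_smul]; exact (le_sup_left : RatEqN k K ≤ GG K (fp D)) hy⟩⟩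
  · rintro y m hm ⟨Y, hY⟩
    refine ⟨Y, fun X hX D hD => ?_⟩
    obtain ⟨m', hm', h⟩ := hY X hX D hD
    refine ⟨m' * m, Nat.mul_pos hm' hm, ?_⟩
    rw [mul_smul]
    exact h
  · intro i j hij a b c d o
    by_cases hab : a = b
    · have h0 : box a b c d = 0 := by
        rw [box_eq, hab]
        abel
      rw [h0, Finsupp.mapDomain_zero]
      exact zero_mem _
    by_cases hcd : c = d
    · have h0 : box a b c d = 0 := by
        rw [box_eq, hcd]
        abel
      rw [h0, Finsupp.mapDomain_zero]
      exact zero_mem _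
    obtain ⟨Y, hY⟩ := generatorsM k (K i) (K j) (hK i) (hK j) a b c d hab hcd
    refine ⟨Y, fun X hX D hD => ?_⟩
    obtain ⟨P, Q, m, r, hP, hQ, hm, hr, heq⟩ := hY X hX D hD
    refine ⟨m, hm, ?_⟩
    rw [← map_nsmul, ← map_nsmul, ← map_add] at heq
    have h1 : m • box a b c d + r • (fp D).mapDomain (Prod.map P Q) ∈ RatEq k (K i) (K j) :=
      (QuotientAddGroup.eq_zero_iff _).1 heq
    have h2 := pair_up o i j hij _ h1
    let f : Place k (K i) × Place k (K j) → ∀ i, Place k (K i) := fun x =>
      Function.update (Function.update o i x.1) j x.2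
    have h3 : (m • box a b c d + r • (fp D).mapDomain (Prod.map P Q)).mapDomain f =
        m • (box a b c d).mapDomain f + r • ((fp D).mapDomain (Prod.map P Q)).mapDomain f := by
      change Finsupp.mapDomain.addMonoidHom f _ = m • Finsupp.mapDomain.addMonoidHom f _ +
        r • Finsupp.mapDomain.addMonoidHom f _
      rw [map_add, map_nsmul, map_nsmul]
    have h4 : ((fp D).mapDomain (Prod.map P Q)).mapDomain f ∈ Images K (fp D) := by
      refine ⟨i, j, P, Q, o, hij, hP, hQ, ?_⟩
      rw [← Finsupp.mapDomain_comp]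
      rfl
    have h5 : m • (box a b c d).mapDomain f =
        (m • box a b c d + r • (fp D).mapDomain (Prod.map P Q)).mapDomain f -
          r • ((fp D).mapDomain (Prod.map P Q)).mapDomain f := by
      rw [h3, add_sub_cancel_right]
    change m • (box a b c d).mapDomain f ∈ GG K (fp D)
    rw [h5]
    refine sub_mem ((le_sup_left : RatEqN k K ≤ GG K (fp D)) h2) (nsmul_mem ?_ r)
    exact (le_sup_right : AddSubgroup.closure (Images K (fp D)) ≤ GG K (fp D)) (AddSubgroup.subset_closure h4)

end Pool.Agent.LibFP27
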