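import Pool.Agent.LibFP27.P4M
import Pool.Agent.LibFP27.P5
import Pool.Agent.LibFP27.P6

/-!
[FP27 P7] The equivalences.
-/

open scoped Classical

namespace Pool.Agent.LibFP27

open Pool.Agent.LibBH2
open Pool.Agent.LibQC8 (IsFunctionField Div deg IsPrincipal)

/-- the cycle `∑ (v - v') × (v - v')` of the cusps of a modular curve, `S` the set of the cusps -/
noncomputable def cuspCyc {k K : Type} [Field k] [Field K] [Algebra k K] (S : Finset (Place k K)) : Cyc k K K :=
  ∑ v ∈ S, ∑ v' ∈ S, box v v' v v'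

section

variable {k : Type} [Field k]

theorem tors_iff {A : Type} [AddCommGroup A] (x : A) : IsOfFinAddOrder x ↔ ∃ m : ℕ, 0 < m ∧ m • x = 0 :=
  isOfFinAddOrder_iff_nsmul_eq_zero

theorem cls_tors {K₁ K₂ : Type} [Field K₁] [Field K₂] [Algebra k K₁] [Algebra k K₂] (z : Cyc k K₁ K₂) :
    IsOfFinAddOrder (cls k K₁ K₂ z) ↔ ∃ m : ℕ, 0 < m ∧ m • z ∈ RatEq k K₁ K₂ := by
  rw [tors_iff]
  refine exists_congr fun m => and_congr_right fun _ => ?_
  rw [← map_nsmul]
  exact QuotientAddGroup.eq_zero_iff _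

theorem cls_cuspCyc {K : Type} [Field K] [Algebra k K] (S : Finset (Place k K)) :
    cls k K K (cuspCyc S) = ∑ v ∈ S, ∑ v' ∈ S, cls k K K (box v v' v v') := by
  unfold cuspCyc
  rw [map_sum]
  exact Finset.sum_congr rfl fun v _ => map_sum _ _ _

end

/-- the equivalences -/
theorem tfae_all (k : Type) [Field k] [IsAlgClosed k] [CharZero k] [Algebra.IsAlgebraic ℚ k] (S : Set (ModCurve k))
    (hS : CofinalM S) :
    [StA k,
      ∀ (K₁ K₂ : Type) [Field K₁] [Algebra k K₁] [Field K₂] [Algebra k K₂], IsFunctionField k K₁ →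
        IsFunctionField k K₂ → ∀ (p q : Place k K₁) (r s : Place k K₂), IsOfFinAddOrder (cls k K₁ K₂ (box p q r s)),
      ∀ (K : Type) [Field K] [Algebra k K], IsFunctionField k K → ∀ (β : K) (D : Div k K), Transcendental k β →
        IsCanon β D → IsOfFinAddOrder (cls k K K (fp D)),
      ∀ X ∈ S, ∀ D : Div k X.K, IsCanon X.J D → IsOfFinAddOrder (cls k X.K X.K (fp D)),
      ∀ X ∈ S, ∀ C : Finset (Place k X.K), (∀ v, v ∈ C ↔ v.ord X.J < 0) →
        IsOfFinAddOrder (cls k X.K X.K (cuspCyc C))].TFAE := by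
  have h0 := tfae k S hS
  tfae_have 2 → 3 := (h0.out 0 1).1
  tfae_have 3 → 4 := (h0.out 1 2).1
  tfae_have 4 → 2 := (h0.out 2 0).1
  tfae_have 1 → 3 := by
    intro h K _ _ hK β D _ _
    rw [cls_tors]
    exact fp_of_products k h hK D
  tfae_have 2 → 5 := by
    intro h X _ C _
    rw [cls_cuspCyc]
    change _ ∈ AddCommGroup.torsion (CH0 k X.K X.K)
    refine sum_mem fun v _ => sum_mem fun v' _ => ?_
    exact h X.K X.K X.isFunctionField X.isFunctionField v v' v v'
  tfae_have 5 → 4 := by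
    intro h X hX D hD
    have hfin : {v : Place k X.K | v.ord X.J ≠ 0}.Finite := finite_supp X.isFunctionField X.J
    let C : Finset (Place k X.K) := hfin.toFinset.filter fun v => v.ord X.J < 0
    have hC : ∀ v, v ∈ C ↔ v.ord X.J < 0 := by
      intro v
      rw [Finset.mem_filter, Set.Finite.mem_toFinset]
      exact ⟨fun h => h.2, fun h => ⟨h.ne, h⟩⟩
    obtain ⟨p, hp, -, heq⟩ := fp_cusps X.isFunctionField X.J X.modular D hD C hC
    have h1 := h X hX C hC
    rw [cls_cuspCyc] at h1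
    have h2 : IsOfFinAddOrder ((72 * (p : ℤ) ^ 2) • cls k X.K X.K (fp D)) := by
      rw [eq_neg_of_add_eq_zero_left heq, isOfFinAddOrder_neg_iff]
      change _ ∈ AddCommGroup.torsion (CH0 k X.K X.K)
      exact zsmul_mem (show _ ∈ AddCommGroup.torsion (CH0 k X.K X.K) from h1) _
    have e : (72 * (p : ℤ) ^ 2) = ((72 * p ^ 2 : ℕ) : ℤ) := by push_cast; ring
    rw [e, natCast_zsmul, tors_iff] at h2
    obtain ⟨m, hm, h3⟩ := h2
    rw [tors_iff]
    refine ⟨m * (72 * p ^ 2), by positivity, ?_⟩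
    rw [mul_smul]
    exact h3
  tfae_have 4 → 1 := by
    intro h n K _ _ hK z hz
    obtain ⟨Y, hY⟩ := alb_dom hK z hz
    obtain ⟨X, hX, hXY⟩ := hS Y
    obtain ⟨D, hD⟩ := canon_exists X.isFunctionField X.J X.modular.1
    obtain ⟨m, hm, h1⟩ := hY X hXY D hD
    obtain ⟨r, hr, h2⟩ := (cls_tors _).1 (h X hX D hD)
    refine ⟨r * m, Nat.mul_pos hr hm, ?_⟩
    rw [mul_smul]
    exact gg_tors (fp D) r h2 _ h1
  tfae_finish

end Pool.Agent.LibFP27
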