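import Pool.Agent.LibFP27.P7

/-!
The statements of the theorem.
-/

open scoped Classical

namespace Pool.Agent.LibFP27

open Pool.Agent.LibBH2
open Pool.Agent.LibQC8 (IsFunctionField Div deg)

/-- the differential of a non-constant function has exactly one divisor -/
def St0 (k : Type) [Field k] : Prop :=
  ∀ (K : Type) [Field K] [Algebra k K] (β : K), IsFunctionField k K → Transcendental k β → ∃! D : Div k K, IsCanon β D

/-- (1) -/
def St1 (k : Type) [Field k] : Prop :=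
  ∀ (K₁ K₂ : Type) [Field K₁] [Algebra k K₁] [Field K₂] [Algebra k K₂], IsFunctionField k K₁ →
    IsFunctionField k K₂ → ∀ (p q : Place k K₁) (r s : Place k K₂), p ≠ q → r ≠ s →
    ∃ Y : ModCurve k, ∀ X : ModCurve k, X.Dominates Y → ∀ D : Div k X.K, IsCanon X.J D →
      ∃ (P : Place k X.K → Place k K₁) (Q : Place k X.K → Place k K₂) (m n : ℕ), IsFin P ∧ IsFin Q ∧ 0 < m ∧ 0 < n ∧
        m • cls k K₁ K₂ (box p q r s) + n • cls k K₁ K₂ ((fp D).mapDomain (Prod.map P Q)) = 0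

/-- (2) -/
def St2 (k : Type) [Field k] : Prop :=
  ∀ (n : ℕ) (K : Fin n → Type) [∀ i, Field (K i)] [∀ i, Algebra k (K i)], (∀ i, IsFunctionField k (K i)) →
    ∀ z : CycN k K, AlbZero k K z →
    ∃ Y : ModCurve k, ∀ X : ModCurve k, X.Dominates Y → ∀ D : Div k X.K, IsCanon X.J D →
      ∃ m : ℕ, 0 < m ∧ m • z ∈ RatEqN k K ⊔ AddSubgroup.closure (Images K (fp D))

/-- (3) -/
def St3 (k : Type) [Field k] : Prop :=
  ∀ (X : ModCurve k) (D : Div k X.K) (C : Finset (Place k X.K)), IsCanon X.J D → (∀ v, v ∈ C ↔ v.ord X.J < 0) →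
    ∃ p : ℕ, 0 < p ∧ (∀ v ∈ C, v.ord X.J = -p) ∧
      p ^ 2 • (72 • cls k X.K X.K (fp D) + ((p : ℤ) - 6) ^ 2 • cls k X.K X.K (cuspCyc C)) = 0

/-- (4) -/
def St4 (k : Type) [Field k] : Prop :=
  ∃ X : ℕ → ModCurve k, (∀ n, (X (n + 1)).Dominates (X n)) ∧ ∀ Y : ModCurve k, ∃ n, (X n).Dominates Y

/-- (B) -/
def StB (k : Type) [Field k] : Prop :=
  ∀ (K₁ K₂ : Type) [Field K₁] [Algebra k K₁] [Field K₂] [Algebra k K₂], IsFunctionField k K₁ →
    IsFunctionField k K₂ → ∀ (p q : Place k K₁) (r s : Place k K₂), IsOfFinAddOrder (cls k K₁ K₂ (box p q r s))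

/-- (C) -/
def StC (k : Type) [Field k] : Prop :=
  ∀ (K : Type) [Field K] [Algebra k K], IsFunctionField k K → ∀ (β : K) (D : Div k K), Transcendental k β →
    IsCanon β D → IsOfFinAddOrder (cls k K K (fp D))

/-- (D) -/
def StD {k : Type} [Field k] (S : Set (ModCurve k)) : Prop :=
  ∀ X ∈ S, ∀ D : Div k X.K, IsCanon X.J D → IsOfFinAddOrder (cls k X.K X.K (fp D))

/-- (E) -/
def StE {k : Type} [Field k] (S : Set (ModCurve k)) : Prop :=
  ∀ X ∈ S, ∀ C : Finset (Place k X.K), (∀ v, v ∈ C ↔ v.ord X.J < 0) → IsOfFinAddOrder (cls k X.K X.K (cuspCyc C))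

end Pool.Agent.LibFP27
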